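import Pool.Agent.H39.Rot

open MeasureTheory ProbabilityTheory Polynomial Set Filter Topology
open scoped Nat NNReal ENNReal

namespace Pool.Agent.H39

lemma phi2_eq {ρ : ℝ} (h : |ρ| < 1) (x y : ℝ) :
    phi2 ρ x y = (2 * Real.pi)⁻¹ * (√(1 - ρ ^ 2))⁻¹ *
      Real.exp (-(x ^ 2 - 2 * ρ * x * y + y ^ 2) / (2 * (1 - ρ ^ 2))) := by
  have h1 := abs_lt.1 h
  have h2 : 0 < 1 - ρ ^ 2 := by nlinarith
  have h3 : (√(2 * Real.pi))⁻¹ * (√(2 * Real.pi))⁻¹ = (2 * Real.pi)⁻¹ := by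
    rw [← mul_inv, Real.mul_self_sqrt (by positivity)]
  have h4 : Real.exp (-(x ^ 2 - 2 * ρ * x * y + y ^ 2) / (2 * (1 - ρ ^ 2)))
      = Real.exp (-x ^ 2 / 2) * Real.exp (-y ^ 2 / 2) *
        Real.exp (-(ρ ^ 2 * (x ^ 2 + y ^ 2) - 2 * ρ * x * y) / (2 * (1 - ρ ^ 2))) := by
    rw [← Real.exp_add, ← Real.exp_add]
    congr 1
    field_simp
    ring
  rw [phi2, gpdf_eq, gpdf_eq, mehlerK, h4, ← h3]
  ring

lemma phi2_nonneg (ρ x y : ℝ) : 0 ≤ phi2 ρ x y :=
  mul_nonneg (mul_nonneg (gaussianPDFReal_nonneg _ _ _) (gaussianPDFReal_nonneg _ _ _))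
    (mehlerK_nonneg ρ x y)

lemma phi2_lower {t L : ℝ} (ht : t ∈ Ioc 0 (Real.pi / 2)) {x y : ℝ} (hx : |x| ≤ L)
    (hy : |y| ≤ L) (hxy : |x - y| ≤ Real.sin t) :
    (2 * Real.pi)⁻¹ * (Real.sin t)⁻¹ * Real.exp (-(1 / 2 + L ^ 2)) ≤ phi2 (Real.cos t) x y := by
  have hpi := Real.pi_pos
  have hcos : 0 ≤ Real.cos t := Real.cos_nonneg_of_mem_Icc ⟨by linarith [ht.1], ht.2⟩
  have hsin : 0 < Real.sin t := Real.sin_pos_of_pos_of_lt_pi ht.1 (by linarith [ht.2])
  have hsc := Real.sin_sq_add_cos_sq t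
  have habs : |Real.cos t| < 1 := by
    rw [abs_of_nonneg hcos]
    nlinarith
  rw [phi2_eq habs]
  have h3 : √(1 - Real.cos t ^ 2) = Real.sin t := by
    rw [show 1 - Real.cos t ^ 2 = Real.sin t ^ 2 by linarith]
    exact Real.sqrt_sq hsin.le
  rw [h3, show 1 - Real.cos t ^ 2 = Real.sin t ^ 2 by linarith]
  gcongr
  rw [neg_div, neg_le_neg_iff, div_le_iff₀ (by positivity)]
  have h4 : (x - y) ^ 2 ≤ Real.sin t ^ 2 := by
    rw [← sq_abs (x - y)]
    gcongr
  have h5 : x * y ≤ L ^ 2 := by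
    have := abs_le.1 hx
    have := abs_le.1 hy
    nlinarith [sq_nonneg (x - y), sq_nonneg (x + y)]
  have h6 : 0 ≤ 1 - Real.cos t := by linarith [Real.cos_le_one t]
  have h7 : x * y * (1 - Real.cos t) ≤ L ^ 2 * (1 - Real.cos t) := by gcongr
  have h8 : L ^ 2 * (1 - Real.cos t) ≤ L ^ 2 * Real.sin t ^ 2 := by
    apply mul_le_mul_of_nonneg_left _ (sq_nonneg L)
    have : Real.sin t ^ 2 = (1 - Real.cos t) * (1 + Real.cos t) := by nlinarith
    rw [this]
    nlinarith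
  nlinarith

lemma two_Dp_eq {χ : ℝ → ℝ} (h : PM χ) {t : ℝ} (ht : t ∈ Ioc 0 (Real.pi / 2)) :
    2 * Dp χ t = ∫ p : ℝ × ℝ, phi2 (Real.cos t) p.1 p.2 * (1 - χ p.1 * χ p.2) := by
  have hpi := Real.pi_pos
  have hm := h.meas
  have hcos : 0 ≤ Real.cos t := Real.cos_nonneg_of_mem_Icc ⟨by linarith [ht.1], ht.2⟩
  have hsin : 0 < Real.sin t := Real.sin_pos_of_pos_of_lt_pi ht.1 (by linarith [ht.2])
  have hsc := Real.sin_sq_add_cos_sq t
  have habs : |Real.cos t| < 1 := by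
    rw [abs_of_nonneg hcos]
    nlinarith
  rw [Dp_eq h ⟨ht.1.le, by linarith [ht.2]⟩, h2_eq_kernel h habs]
  have h1 : (1:ℝ) = ∫ p : ℝ × ℝ, mehlerK (Real.cos t) p.1 p.2 ∂(gam.prod gam) := by
    rw [integral_prod _ (integrable_mehlerK_prod habs)]
    simp [integral_mehlerK_right habs]
  have hi2 : Integrable (fun p : ℝ × ℝ => mehlerK (Real.cos t) p.1 p.2 * (χ p.1 * χ p.2))
      (gam.prod gam) := by
    have := measurable_mehlerK (Real.cos t)
    refine (integrable_mehlerK_prod habs).mono' (by fun_prop) ?_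
    filter_upwards with p
    rw [norm_mul, norm_mul, h.norm, h.norm, mul_one, mul_one,
      Real.norm_of_nonneg (mehlerK_nonneg _ _ _)]
  rw [mul_div_cancel₀ _ (two_ne_zero)]
  nth_rw 1 [h1]
  rw [← integral_sub (integrable_mehlerK_prod habs) hi2, integral_prod_gam]
  congr 1
  ext p
  rw [phi2]
  ring

lemma integrable_phi2 {χ : ℝ → ℝ} (h : PM χ) {ρ : ℝ} (habs : |ρ| < 1) :
    Integrable (fun p : ℝ × ℝ => phi2 ρ p.1 p.2 * (1 - χ p.1 * χ p.2)) := by
  have hm := h.meas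
  have h0 := (integrable_prod_gam_iff _).1 (integrable_mehlerK_prod habs)
  have hmm := measurable_mehlerK ρ
  have hgm := measurable_gaussianPDFReal 0 1
  refine (h0.const_mul 2).mono' ?_ ?_
  · unfold phi2
    exact (by fun_prop : Measurable (fun p : ℝ × ℝ => gaussianPDFReal 0 1 p.1 *
      gaussianPDFReal 0 1 p.2 * mehlerK ρ p.1 p.2 * (1 - χ p.1 * χ p.2))).aestronglyMeasurable
  · filter_upwards with p
    have h1 := dd_nonneg h p.1 p.2
    have h2 := dd_le_one h p.1 p.2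
    unfold dd at h1 h2
    have h3 := phi2_nonneg ρ p.1 p.2
    rw [Real.norm_of_nonneg (mul_nonneg h3 (by linarith))]
    have h4 : gaussianPDFReal 0 1 p.1 * gaussianPDFReal 0 1 p.2 * mehlerK ρ p.1 p.2
      = phi2 ρ p.1 p.2 := rfl
    rw [h4]
    nlinarith

/-- Essential boundary of `χ`. -/
def Jset (χ : ℝ → ℝ) : Set ℝ :=
  {x | ∀ ε > 0, volume ({y | χ y = 1} ∩ Ioo (x - ε) (x + ε)) ≠ 0 ∧
    volume ({y | χ y = -1} ∩ Ioo (x - ε) (x + ε)) ≠ 0}

lemma PM.locallyIntegrable {χ : ℝ → ℝ} (h : PM χ) : LocallyIntegrable χ volume := by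
  refine (locallyIntegrable_const (1:ℝ)).mono h.meas.aestronglyMeasurable ?_
  filter_upwards with x
  rw [h.norm]
  simp

lemma PM.intervalIntegrable {χ : ℝ → ℝ} (h : PM χ) (a b : ℝ) :
    IntervalIntegrable χ volume a b := by
  rw [intervalIntegrable_iff]
  exact (h.locallyIntegrable.integrableOn_isCompact isCompact_uIcc).mono_set uIoc_subset_uIcc

lemma exists_zero_mean {χ : ℝ → ℝ} (h : PM χ) {x r : ℝ} (hx : x ∈ Jset χ) (hr : 0 < r) :
    ∀ᶠ δ in 𝓝[>] (0:ℝ), ∃ u, x - r < u ∧ u + δ < x + r ∧ ∫ y in u..(u + δ), χ y = 0 := by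
  set F : ℝ → ℝ := fun z => ∫ y in (0:ℝ)..z, χ y with hF
  have hae := _root_.LocallyIntegrable.ae_hasDerivAt_integral h.locallyIntegrable
  have hFadd : ∀ u v : ℝ, ∫ y in u..v, χ y = F v - F u := by
    intro u v
    rw [hF]
    simp only
    rw [intervalIntegral.integral_interval_sub_left (h.intervalIntegrable _ _)
      (h.intervalIntegrable _ _)]
  have hFc : Continuous F :=
    intervalIntegral.continuous_primitive (fun a b => h.intervalIntegrable a b) 0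
  obtain ⟨h1, h2⟩ := hx r hr
  have get : ∀ {s : Set ℝ}, volume (s ∩ Ioo (x - r) (x + r)) ≠ 0 →
      ∃ z ∈ s ∩ Ioo (x - r) (x + r), HasDerivAt F (χ z) z := by
    intro s hs
    by_contra hcon
    push Not at hcon
    apply hs
    refine measure_mono_null (t := {z | ¬ ∀ c, HasDerivAt (fun x => ∫ (t : ℝ) in c..x, χ t) (χ z) z})
      ?_ hae
    intro z hz hz2
    exact hcon z hz (hz2 0)
  obtain ⟨z1, ⟨hz1a, hz1b⟩, hz1d⟩ := get h1
  obtain ⟨z2, ⟨hz2a, hz2b⟩, hz2d⟩ := get h2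
  simp only [mem_ofPred_eq] at hz1a hz2a
  rw [hz1a] at hz1d
  rw [hz2a] at hz2d
  have e1 := hz1d.tendsto_slope_zero_right
  have e2 := hz2d.tendsto_slope_zero_right
  have ev1 : ∀ᶠ δ in 𝓝[>] (0:ℝ), 0 < δ⁻¹ • (F (z1 + δ) - F z1) :=
    e1.eventually (lt_mem_nhds one_pos)
  have ev2 : ∀ᶠ δ in 𝓝[>] (0:ℝ), δ⁻¹ • (F (z2 + δ) - F z2) < 0 :=
    e2.eventually (gt_mem_nhds (by norm_num))
  have ev3 : ∀ᶠ δ in 𝓝[>] (0:ℝ), δ < x + r - max z1 z2 := by
    have : 0 < x + r - max z1 z2 := by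
      have := max_lt hz1b.2 hz2b.2
      linarith
    exact Filter.Eventually.filter_mono nhdsWithin_le_nhds (gt_mem_nhds this)
  filter_upwards [ev1, ev2, ev3, self_mem_nhdsWithin] with δ g1 g2 g3 g4
  have g4' : 0 < δ := g4
  have g1' : 0 < F (z1 + δ) - F z1 := by
    rw [smul_eq_mul] at g1
    exact (pos_iff_pos_of_mul_pos g1).1 (inv_pos.2 g4')
  have g2' : F (z2 + δ) - F z2 < 0 := by
    rw [smul_eq_mul] at g2
    by_contra hcon
    push Not at hcon
    have := mul_nonneg (inv_pos.2 g4').le hcon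
    linarith
  have hGc : Continuous (fun u => F (u + δ) - F u) := by fun_prop
  have hivt : (0:ℝ) ∈ (fun u => F (u + δ) - F u) '' uIcc z2 z1 := by
    apply intermediate_value_uIcc hGc.continuousOn
    rw [uIcc_of_le (by linarith)]
    exact ⟨g2'.le, g1'.le⟩
  obtain ⟨u, hu, hu0⟩ := hivt
  refine ⟨u, ?_, ?_, ?_⟩
  · have := hu.1
    have h5 : x - r < min z2 z1 := lt_min hz2b.1 hz1b.1
    exact lt_of_lt_of_le h5 this
  · have := hu.2
    have h5 : max z2 z1 = max z1 z2 := max_comm _ _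
    have h6 : u ≤ max z1 z2 := by rw [← h5]; exact this
    linarith
  · rw [hFadd]
    exact hu0

lemma square_lower {χ : ℝ → ℝ} (h : PM χ) {t L u : ℝ} (ht : t ∈ Ioc 0 (Real.pi / 2))
    (h1 : -L < u) (h2 : u + Real.sin t < L) (h0 : ∫ y in u..(u + Real.sin t), χ y = 0) :
    (2 * Real.pi)⁻¹ * Real.exp (-(1 / 2 + L ^ 2)) * Real.sin t ≤
      ∫ p in (Ioc u (u + Real.sin t)) ×ˢ (Ioc u (u + Real.sin t)),
        phi2 (Real.cos t) p.1 p.2 * (1 - χ p.1 * χ p.2) := by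
  have hpi := Real.pi_pos
  have hm := h.meas
  have hcos : 0 ≤ Real.cos t := Real.cos_nonneg_of_mem_Icc ⟨by linarith [ht.1], ht.2⟩
  have hsin : 0 < Real.sin t := Real.sin_pos_of_pos_of_lt_pi ht.1 (by linarith [ht.2])
  have hsc := Real.sin_sq_add_cos_sq t
  have habs : |Real.cos t| < 1 := by
    rw [abs_of_nonneg hcos]
    nlinarith
  set I := Ioc u (u + Real.sin t) with hI
  set m := (2 * Real.pi)⁻¹ * (Real.sin t)⁻¹ * Real.exp (-(1 / 2 + L ^ 2)) with hmdef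
  have hvI : volume I = ENNReal.ofReal (Real.sin t) := by
    rw [hI, Real.volume_Ioc]
    congr 1
    ring
  have hfin : volume (I ×ˢ I) ≠ ⊤ := by
    rw [Measure.volume_eq_prod, Measure.prod_prod, hvI]
    exact ENNReal.mul_ne_top ENNReal.ofReal_ne_top ENNReal.ofReal_ne_top
  have hchi : ∫ y in I, χ y = 0 := by
    rw [hI, ← intervalIntegral.integral_of_le (by linarith)]
    exact h0
  have hprod : ∫ p in I ×ˢ I, χ p.1 * χ p.2 = 0 := by
    rw [Measure.volume_eq_prod, setIntegral_prod_mul, hchi, zero_mul]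
  have hone : ∫ p in I ×ˢ I, (1:ℝ) = Real.sin t ^ 2 := by
    rw [setIntegral_const, Measure.volume_eq_prod, measureReal_def, Measure.prod_prod, hvI,
      ENNReal.toReal_mul, ENNReal.toReal_ofReal hsin.le]
    simp
    ring
  have hint1 : IntegrableOn (fun _ : ℝ × ℝ => (1:ℝ)) (I ×ˢ I) := by
    exact integrableOn_const hfin
  have hint2 : IntegrableOn (fun p : ℝ × ℝ => χ p.1 * χ p.2) (I ×ˢ I) := by
    refine Integrable.mono' hint1 (by fun_prop) ?_
    filter_upwards with p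
    rw [norm_mul, h.norm, h.norm, mul_one]
  have hval : ∫ p in I ×ˢ I, m * (1 - χ p.1 * χ p.2) = m * Real.sin t ^ 2 := by
    rw [integral_const_mul, integral_sub hint1 hint2, hprod, hone, sub_zero]
  have hle : ∫ p in I ×ˢ I, m * (1 - χ p.1 * χ p.2) ≤
      ∫ p in I ×ˢ I, phi2 (Real.cos t) p.1 p.2 * (1 - χ p.1 * χ p.2) := by
    apply setIntegral_mono_on
    · exact (hint1.sub hint2).const_mul m
    · exact (integrable_phi2 h habs).integrableOn
    · exact measurableSet_Ioc.prod measurableSet_Ioc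
    · rintro ⟨x, y⟩ ⟨hx, hy⟩
      simp only [hI, mem_Ioc] at hx hy
      simp only
      have h3 := dd_nonneg h x y
      unfold dd at h3
      apply mul_le_mul_of_nonneg_right _ (by linarith)
      apply phi2_lower ht
      · rw [abs_le]; constructor <;> linarith
      · rw [abs_le]; constructor <;> linarith
      · rw [abs_le]; constructor <;> linarith
  rw [hval] at hle
  refine le_trans (le_of_eq ?_) hle
  rw [hmdef]
  field_simp

/-- Cardinality bound for finite subsets of the essential boundary. -/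
theorem card_le_of_subset {χ : ℝ → ℝ} (h : PM χ) {κ L : ℝ} (hκ : 0 ≤ κ)
    (hD : ∀ t ∈ Ioc 0 (Real.pi / 2), Dp χ t ≤ κ * t) (F : Finset ℝ)
    (hF : ∀ x ∈ F, x ∈ Jset χ ∧ x ∈ Ioo (-L) L) :
    (F.card : ℝ) ≤ 2 * Real.pi ^ 2 * κ * Real.exp (1 / 2 + L ^ 2) := by
  have hpi := Real.pi_pos
  -- separation radius
  have hsep : ∀ᶠ r in 𝓝[>] (0:ℝ), (∀ x ∈ F, ∀ y ∈ F, x ≠ y → 2 * r ≤ |x - y|) ∧
      (∀ x ∈ F, -L < x - r ∧ x + r < L) := by
    refine Filter.Eventually.and ?_ ?_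
    · rw [eventually_all_finset]
      intro x _
      rw [eventually_all_finset]
      intro y _
      by_cases hxy : x = y
      · exact Eventually.of_forall fun r hne => absurd hxy hne
      · have hpos : 0 < |x - y| / 2 := by
          have := abs_pos.2 (sub_ne_zero.2 hxy)
          linarith
        have : ∀ᶠ r in 𝓝[>] (0:ℝ), r < |x - y| / 2 :=
          Filter.Eventually.filter_mono nhdsWithin_le_nhds (gt_mem_nhds hpos)
        filter_upwards [this] with r hr _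
        linarith
    · rw [eventually_all_finset]
      intro x hx
      obtain ⟨h1, h2⟩ := (hF x hx).2
      have e1 : ∀ᶠ r in 𝓝[>] (0:ℝ), r < x + L :=
        Filter.Eventually.filter_mono nhdsWithin_le_nhds (gt_mem_nhds (by linarith))
      have e2 : ∀ᶠ r in 𝓝[>] (0:ℝ), r < L - x :=
        Filter.Eventually.filter_mono nhdsWithin_le_nhds (gt_mem_nhds (by linarith))
      filter_upwards [e1, e2] with r h3 h4
      constructor <;> linarith
  obtain ⟨r, ⟨hr1, hr2⟩, hr0⟩ := (hsep.and self_mem_nhdsWithin).exists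
  have hr0' : 0 < r := hr0
  have hex : ∀ᶠ δ in 𝓝[>] (0:ℝ), (∀ x ∈ F, ∃ u, x - r < u ∧ u + δ < x + r ∧
      ∫ y in u..(u + δ), χ y = 0) ∧ δ < 1 := by
    refine Filter.Eventually.and ?_ ?_
    · rw [eventually_all_finset]
      intro x hx
      exact exists_zero_mean h (hF x hx).1 hr0'
    · exact Filter.Eventually.filter_mono nhdsWithin_le_nhds (gt_mem_nhds one_pos)
  obtain ⟨δ, ⟨hδ1, hδ2⟩, hδ0⟩ := (hex.and self_mem_nhdsWithin).exists
  have hδ0' : 0 < δ := hδ0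
  set t := Real.arcsin δ with htdef
  have hst : Real.sin t = δ := Real.sin_arcsin (by linarith) hδ2.le
  have ht : t ∈ Ioc 0 (Real.pi / 2) :=
    ⟨Real.arcsin_pos.2 hδ0', Real.arcsin_le_pi_div_two δ⟩
  choose! u hu using hδ1
  set Q : ℝ → Set (ℝ × ℝ) := fun x => (Ioc (u x) (u x + δ)) ×ˢ (Ioc (u x) (u x + δ)) with hQ
  have hcos : 0 ≤ Real.cos t := Real.cos_nonneg_of_mem_Icc ⟨by linarith [ht.1], ht.2⟩
  have hsc := Real.sin_sq_add_cos_sq t
  have habs : |Real.cos t| < 1 := by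
    rw [abs_of_nonneg hcos]
    rw [hst] at hsc
    nlinarith
  have hlow : ∀ x ∈ F, (2 * Real.pi)⁻¹ * Real.exp (-(1 / 2 + L ^ 2)) * δ ≤
      ∫ p in Q x, phi2 (Real.cos t) p.1 p.2 * (1 - χ p.1 * χ p.2) := by
    intro x hx
    have h1 := hu x hx
    have h2 := hr2 x hx
    have := square_lower h (L := L) (u := u x) ht (by linarith) (by rw [hst]; linarith)
      (by rw [hst]; exact h1.2.2)
    rw [hst] at this
    exact this
  have hdisj : (F : Set ℝ).PairwiseDisjoint Q := by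
    intro x hx y hy hxy
    rw [Function.onFun, Set.disjoint_left]
    rintro ⟨p, q⟩ ⟨hp1, _⟩ ⟨hp2, _⟩
    simp only [mem_Ioc] at hp1 hp2
    have h1 := hu x hx
    have h2 := hu y hy
    have h3 := hr1 x hx y hy hxy
    have h4 : |x - y| < 2 * r := by
      rw [abs_lt]; constructor <;> linarith
    linarith
  have hsum : ∑ x ∈ F, ∫ p in Q x, phi2 (Real.cos t) p.1 p.2 * (1 - χ p.1 * χ p.2)
      = ∫ p in ⋃ x ∈ F, Q x, phi2 (Real.cos t) p.1 p.2 * (1 - χ p.1 * χ p.2) := by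
    rw [integral_biUnion_finset F (fun x _ => measurableSet_Ioc.prod measurableSet_Ioc) hdisj]
    intro x _
    exact (integrable_phi2 h habs).integrableOn
  have htot : ∫ p in ⋃ x ∈ F, Q x, phi2 (Real.cos t) p.1 p.2 * (1 - χ p.1 * χ p.2)
      ≤ 2 * Dp χ t := by
    rw [two_Dp_eq h ht]
    apply setIntegral_le_integral (integrable_phi2 h habs)
    filter_upwards with p
    have h3 := dd_nonneg h p.1 p.2
    unfold dd at h3
    exact mul_nonneg (phi2_nonneg _ _ _) (by linarith)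
  have hmain : (F.card : ℝ) * ((2 * Real.pi)⁻¹ * Real.exp (-(1 / 2 + L ^ 2)) * δ)
      ≤ 2 * (κ * t) := by
    calc (F.card : ℝ) * ((2 * Real.pi)⁻¹ * Real.exp (-(1 / 2 + L ^ 2)) * δ)
        = ∑ x ∈ F, (2 * Real.pi)⁻¹ * Real.exp (-(1 / 2 + L ^ 2)) * δ := by
          rw [Finset.sum_const, nsmul_eq_mul]
      _ ≤ _ := Finset.sum_le_sum hlow
      _ ≤ _ := hsum.le
      _ ≤ _ := htot
      _ ≤ _ := by
        have := hD t ht
        linarith
  have hjordan : 2 / Real.pi * t ≤ δ := by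
    rw [← hst]
    exact Real.mul_le_sin ht.1.le ht.2
  have ht2 : t ≤ Real.pi / 2 * δ := by
    rw [div_mul_eq_mul_div, div_le_iff₀ hpi] at hjordan
    linarith
  have hexp : Real.exp (-(1 / 2 + L ^ 2)) * Real.exp (1 / 2 + L ^ 2) = 1 := by
    rw [← Real.exp_add]; simp
  have h9 : (F.card : ℝ) * ((2 * Real.pi)⁻¹ * Real.exp (-(1 / 2 + L ^ 2)) * δ)
      ≤ κ * Real.pi * δ := by
    have : κ * t ≤ κ * (Real.pi / 2 * δ) := by gcongr
    linarith
  have h10 : (F.card : ℝ) * ((2 * Real.pi)⁻¹ * Real.exp (-(1 / 2 + L ^ 2)))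
      ≤ κ * Real.pi := by
    have : (F.card : ℝ) * ((2 * Real.pi)⁻¹ * Real.exp (-(1 / 2 + L ^ 2))) * δ
      ≤ κ * Real.pi * δ := by linarith
    exact le_of_mul_le_mul_right this hδ0'
  have h11 : (F.card : ℝ) = (F.card : ℝ) * ((2 * Real.pi)⁻¹ * Real.exp (-(1 / 2 + L ^ 2))) *
      (2 * Real.pi * Real.exp (1 / 2 + L ^ 2)) := by
    have : (2 * Real.pi)⁻¹ * (2 * Real.pi) = 1 := inv_mul_cancel₀ (by positivity)
    calc (F.card : ℝ) = (F.card : ℝ) * ((2 * Real.pi)⁻¹ * (2 * Real.pi)) *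
          (Real.exp (-(1 / 2 + L ^ 2)) * Real.exp (1 / 2 + L ^ 2)) := by rw [this, hexp]; ring
      _ = _ := by ring
  rw [h11]
  calc _ ≤ κ * Real.pi * (2 * Real.pi * Real.exp (1 / 2 + L ^ 2)) := by gcongr
    _ = _ := by ring

end Pool.Agent.H39
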