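import Pool.Agent.H39.Kern

open MeasureTheory ProbabilityTheory Set Filter Topology Complex Matrix WithLp
open scoped RealInnerProductSpace

namespace Pool.Agent.H39

lemma posSemidef_two {ρ : ℝ} (h : |ρ| ≤ 1) :
    (!![1, ρ; ρ, 1] : Matrix (Fin 2) (Fin 2) ℝ).PosSemidef := by
  have h1 := abs_le.1 h
  refine Matrix.PosSemidef.of_dotProduct_mulVec_nonneg ?_ ?_
  · ext i j
    fin_cases i <;> fin_cases j <;> simp
  · intro x
    simp only [Matrix.mulVec, dotProduct, Fin.sum_univ_two, Matrix.of_apply, Matrix.cons_val_zero,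
      Matrix.cons_val_one, star_trivial, Pi.star_apply]
    nlinarith [sq_nonneg (x 0 + x 1), sq_nonneg (x 0 - x 1), sq_nonneg (x 0), sq_nonneg (x 1)]

/-- the linear map producing a correlated pair from an independent pair -/
noncomputable def pairMap (ρ : ℝ) (p : ℝ × ℝ) : EuclideanSpace ℝ (Fin 2) :=
  toLp 2 ![p.1, ρ * p.1 + √(1 - ρ ^ 2) * p.2]

lemma measurable_pairMap (ρ : ℝ) : Measurable (pairMap ρ) := by
  unfold pairMap
  have h1 : Measurable (fun p : ℝ × ℝ => (![p.1, ρ * p.1 + √(1 - ρ ^ 2) * p.2] : Fin 2 → ℝ)) := by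
    rw [measurable_pi_iff]
    intro i
    fin_cases i
    · simp only [Fin.zero_eta, Matrix.cons_val_zero]
      fun_prop
    · simp only [Fin.mk_one, Matrix.cons_val_one]
      fun_prop
  fun_prop

lemma multivariateGaussian_eq_map {ρ : ℝ} (h : |ρ| ≤ 1) :
    multivariateGaussian (0 : EuclideanSpace ℝ (Fin 2)) !![1, ρ; ρ, 1]
      = (gam.prod gam).map (pairMap ρ) := by
  have h1 := abs_le.1 h
  have hnn : 0 ≤ 1 - ρ ^ 2 := by nlinarith
  have : IsProbabilityMeasure ((gam.prod gam).map (pairMap ρ)) :=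
    Measure.isProbabilityMeasure_map (measurable_pairMap ρ).aemeasurable
  apply Measure.ext_of_charFun
  ext t
  rw [charFun_multivariateGaussian (posSemidef_two h), charFun_apply,
    integral_map (measurable_pairMap ρ).aemeasurable (by fun_prop)]
  have e1 : ∀ p : ℝ × ℝ, cexp ((⟪pairMap ρ p, t⟫ : ℝ) * I)
      = cexp (((t 0 + ρ * t 1 : ℝ) : ℂ) * p.1 * I) * cexp (((√(1 - ρ ^ 2) * t 1 : ℝ) : ℂ) * p.2 * I) := by
    intro p
    rw [← Complex.exp_add]
    congr 1
    have e2 : (⟪pairMap ρ p, t⟫ : ℝ) = t 0 * p.1 + t 1 * (ρ * p.1 + √(1 - ρ ^ 2) * p.2) := by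
      simp [pairMap, PiLp.inner_apply, Fin.sum_univ_two]
    rw [e2]
    push_cast
    ring
  simp_rw [e1]
  rw [integral_prod_mul (fun x : ℝ => cexp (((t 0 + ρ * t 1 : ℝ) : ℂ) * x * I))
    (fun y : ℝ => cexp (((√(1 - ρ ^ 2) * t 1 : ℝ) : ℂ) * y * I)), ← charFun_apply_real,
    ← charFun_apply_real, charFun_gaussianReal, charFun_gaussianReal, ← Complex.exp_add]
  congr 1
  have hsq : (((√(1 - ρ ^ 2) : ℝ) : ℂ)) ^ 2 = 1 - (ρ:ℂ) ^ 2 := by
    rw [← Complex.ofReal_pow, Real.sq_sqrt hnn]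
    push_cast
    ring
  simp only [inner_zero_right, Matrix.mulVec, dotProduct, Fin.sum_univ_two, Matrix.of_apply,
    Matrix.cons_val_zero, Matrix.cons_val_one]
  push_cast
  linear_combination ((t 1 : ℂ) ^ 2 / 2) * hsq

lemma integral_biv {ρ : ℝ} (h : |ρ| ≤ 1) {χ : ℝ → ℝ} (hχ : Measurable χ) :
    ∫ z, χ (z 0) * χ (z 1) ∂(multivariateGaussian (0 : EuclideanSpace ℝ (Fin 2)) !![1, ρ; ρ, 1])
      = h2 χ ρ := by
  rw [multivariateGaussian_eq_map h, integral_map (measurable_pairMap ρ).aemeasurable]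
  · rfl
  · have h0 : Measurable (fun z : EuclideanSpace ℝ (Fin 2) => z 0) := by fun_prop
    have h1 : Measurable (fun z : EuclideanSpace ℝ (Fin 2) => z 1) := by fun_prop
    exact ((hχ.comp h0).mul (hχ.comp h1)).aestronglyMeasurable

end Pool.Agent.H39
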