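import Mathlib

open Set Filter Topology Complex

namespace Pool.Agent.H39

lemma mean_geom_tendsto_zero {z : ℂ} (hz : ‖z‖ = 1) (hz1 : z ≠ 1) :
    Tendsto (fun n : ℕ => (n : ℂ)⁻¹ * ∑ j ∈ Finset.range n, z ^ j) atTop (𝓝 0) := by
  have h1 : ∀ n : ℕ, ‖(n : ℂ)⁻¹ * ∑ j ∈ Finset.range n, z ^ j‖ ≤ (n : ℝ)⁻¹ * (2 / ‖z - 1‖) := by
    intro n
    rw [norm_mul, norm_inv, Complex.norm_natCast, geom_sum_eq hz1, norm_div]
    gcongr
    calc ‖z ^ n - 1‖ ≤ ‖z ^ n‖ + ‖(1:ℂ)‖ := norm_sub_le _ _
      _ = 2 := by rw [norm_pow, hz]; norm_num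
  have h2 : Tendsto (fun n : ℕ => (n : ℝ)⁻¹ * (2 / ‖z - 1‖)) atTop (𝓝 0) := by
    simpa using (tendsto_inv_atTop_nhds_zero_nat (𝕜 := ℝ)).mul_const (2 / ‖z - 1‖)
  exact squeeze_zero_norm h1 h2

lemma mean_geom_one : Tendsto (fun n : ℕ => (n : ℂ)⁻¹ * ∑ j ∈ Finset.range n, (1:ℂ) ^ j) atTop
    (𝓝 1) := by
  have : (fun n : ℕ => (n : ℂ)⁻¹ * ∑ j ∈ Finset.range n, (1:ℂ) ^ j) =ᶠ[atTop] fun _ => (1:ℂ) := by
    filter_upwards [eventually_gt_atTop 0] with n hn
    have : (n:ℂ) ≠ 0 := by exact_mod_cast hn.ne'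
    simp
    field_simp
  exact (tendsto_congr' this).2 tendsto_const_nhds

lemma mean_geom_norm_le {z : ℂ} (hz : ‖z‖ = 1) (n : ℕ) :
    ‖(n : ℂ)⁻¹ * ∑ j ∈ Finset.range n, z ^ j‖ ≤ 1 := by
  rw [norm_mul, norm_inv, Complex.norm_natCast]
  have h1 : ‖∑ j ∈ Finset.range n, z ^ j‖ ≤ n := by
    calc ‖∑ j ∈ Finset.range n, z ^ j‖ ≤ ∑ j ∈ Finset.range n, ‖z ^ j‖ := norm_sum_le _ _
      _ = n := by simp [norm_pow, hz]
  rcases Nat.eq_zero_or_pos n with h0 | h0
  · rw [h0]; simp
  · have : (0:ℝ) < n := by exact_mod_cast h0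
    calc (n:ℝ)⁻¹ * ‖∑ j ∈ Finset.range n, z ^ j‖ ≤ (n:ℝ)⁻¹ * n := by gcongr
      _ = 1 := inv_mul_cancel₀ this.ne'

/-- Fourier-Bohr coefficients of an absolutely convergent exponential sum which converges
at infinity. -/
theorem bohr_coeff {ι : Type*} [Countable ι] {c : ι → ℂ} {d : ι → ℝ} {w : ℂ}
    (hc : Summable (fun k => ‖c k‖))
    (hlim : Tendsto (fun S : ℝ => ∑' k, c k * cexp (I * (d k * S))) atTop (𝓝 w)) (lam : ℝ) :
    (∑' k, if d k = lam then c k else 0) = if lam = 0 then w else 0 := by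
  classical
  -- choose a step without aliasing
  obtain ⟨h, hh0, hh⟩ : ∃ h : ℝ, 0 < h ∧ (∀ k, cexp (I * ((d k - lam) * h)) = 1 → d k = lam) ∧
      (cexp (I * (-lam * h)) = 1 → lam = 0) := by
    set bad : Set ℝ := (⋃ k : ι, ⋃ n : ℤ, {h : ℝ | d k ≠ lam ∧ (d k - lam) * h = n * (2 * Real.pi)})
      ∪ (⋃ n : ℤ, {h : ℝ | lam ≠ 0 ∧ -lam * h = n * (2 * Real.pi)}) with hbad
    have hsub : ∀ (m : ℝ) (n : ℤ), {h : ℝ | m ≠ 0 ∧ m * h = n * (2 * Real.pi)}.Countable := by
      intro m n
      apply Set.Subsingleton.countable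
      rintro x ⟨hm, hx⟩ y ⟨_, hy⟩
      exact mul_left_cancel₀ hm (hx.trans hy.symm)
    have hcount : bad.Countable := by
      apply Set.Countable.union
      · refine countable_iUnion fun k => countable_iUnion fun n => ?_
        refine (hsub (d k - lam) n).mono ?_
        rintro x ⟨h1, h2⟩
        exact ⟨sub_ne_zero.2 h1, h2⟩
      · refine countable_iUnion fun n => ?_
        refine (hsub (-lam) n).mono ?_
        rintro x ⟨h1, h2⟩
        exact ⟨neg_ne_zero.2 h1, h2⟩
    have hne : (Ioi (0:ℝ) \ bad).Nonempty := by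
      by_contra hcon
      rw [Set.not_nonempty_iff_eq_empty, Set.sdiff_eq_empty] at hcon
      have h1 := hcount.mono hcon
      have h2 : ¬ (Ioi (0:ℝ)).Countable := by
        intro h3
        have h4 := h3.measure_zero MeasureTheory.volume
        rw [Real.volume_Ioi] at h4
        exact absurd h4 (by simp)
      exact h2 h1
    obtain ⟨h, hpos, hnb⟩ := hne
    refine ⟨h, hpos, ?_, ?_⟩
    · intro k hk
      by_contra hne2
      apply hnb
      left
      rw [mem_iUnion]
      refine ⟨k, ?_⟩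
      rw [mem_iUnion]
      rw [Complex.exp_eq_one_iff] at hk
      obtain ⟨n, hn⟩ := hk
      refine ⟨n, hne2, ?_⟩
      have h2 : ((d k - lam) * h : ℂ) = n * (2 * Real.pi) := by
        have : I * ((d k - lam) * h : ℂ) = I * (n * (2 * Real.pi)) := by rw [hn]; ring
        exact mul_left_cancel₀ I_ne_zero this
      exact_mod_cast h2
    · intro hk
      by_contra hne2
      apply hnb
      right
      rw [mem_iUnion]
      rw [Complex.exp_eq_one_iff] at hk
      obtain ⟨n, hn⟩ := hk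
      refine ⟨n, hne2, ?_⟩
      have h2 : (-lam * h : ℂ) = n * (2 * Real.pi) := by
        have : I * (-lam * h : ℂ) = I * (n * (2 * Real.pi)) := by rw [hn]; ring
        exact mul_left_cancel₀ I_ne_zero this
      exact_mod_cast h2
  obtain ⟨hh1, hh2⟩ := hh
  set zk : ι → ℂ := fun k => cexp (I * ((d k - lam) * h)) with hzk
  set z0 : ℂ := cexp (I * (-lam * h)) with hz0
  have hzk1 : ∀ k, ‖zk k‖ = 1 := by
    intro k
    have : I * ((d k - lam) * h : ℂ) = (((d k - lam) * h : ℝ) : ℂ) * I := by push_cast; ring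
    rw [hzk]
    simp only
    rw [this, Complex.norm_exp_ofReal_mul_I]
  have hz01 : ‖z0‖ = 1 := by
    have : I * (-lam * h : ℂ) = ((-lam * h : ℝ) : ℂ) * I := by push_cast; ring
    rw [hz0, this, Complex.norm_exp_ofReal_mul_I]
  set A : ℝ → ℂ := fun S => ∑' k, c k * cexp (I * (d k * S)) with hA
  have hsumm : ∀ j : ℕ, Summable (fun k => c k * zk k ^ j) := by
    intro j
    apply Summable.of_norm
    refine hc.congr fun k => ?_
    rw [norm_mul, norm_pow, hzk1, one_pow, mul_one]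
  have hAj : ∀ j : ℕ, A (j * h) * z0 ^ j = ∑' k, c k * zk k ^ j := by
    intro j
    rw [hA]
    simp only
    rw [← tsum_mul_right]
    congr 1
    ext k
    rw [mul_assoc, hz0, hzk]
    simp only
    rw [← Complex.exp_nat_mul, ← Complex.exp_nat_mul, ← Complex.exp_add]
    congr 2
    push_cast
    ring
  -- means of the left hand side
  have hjh : Tendsto (fun j : ℕ => (j:ℝ) * h) atTop atTop :=
    tendsto_natCast_atTop_atTop.atTop_mul_const hh0
  have hA0 : Tendsto (fun j : ℕ => A (j * h) * z0 ^ j - w * z0 ^ j) atTop (𝓝 0) := by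
    have h1 : Tendsto (fun j : ℕ => A (j * h) - w) atTop (𝓝 0) := by
      have := (hlim.comp hjh).sub_const w
      simpa using this
    rw [tendsto_zero_iff_norm_tendsto_zero] at h1 ⊢
    refine h1.congr fun j => ?_
    rw [← sub_mul, norm_mul, norm_pow, hz01, one_pow, mul_one]
  have hces := hA0.cesaro_smul
  have hmeanz0 : Tendsto (fun n : ℕ => (n : ℂ)⁻¹ * ∑ j ∈ Finset.range n, z0 ^ j) atTop
      (𝓝 (if lam = 0 then 1 else 0)) := by
    by_cases hl : lam = 0
    · have : z0 = 1 := by rw [hz0, hl]; simp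
      rw [if_pos hl, this]
      exact mean_geom_one
    · rw [if_neg hl]
      exact mean_geom_tendsto_zero hz01 fun h1 => hl (hh2 h1)
  have hL : Tendsto (fun n : ℕ => (n : ℂ)⁻¹ * ∑ j ∈ Finset.range n, ∑' k, c k * zk k ^ j) atTop
      (𝓝 (if lam = 0 then w else 0)) := by
    have h2 := hces.add (hmeanz0.const_mul w)
    have h3 : (0:ℂ) + w * (if lam = 0 then 1 else 0) = if lam = 0 then w else 0 := by
      split_ifs <;> simp
    rw [h3] at h2
    refine h2.congr fun n => ?_
    rw [Complex.real_smul]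
    simp_rw [← hAj]
    rw [Finset.sum_sub_distrib, ← Finset.mul_sum]
    push_cast
    ring
  -- means of the right hand side
  have hRr : Tendsto (fun n : ℕ => ∑' k, c k * ((n : ℂ)⁻¹ * ∑ j ∈ Finset.range n, zk k ^ j)) atTop
      (𝓝 (∑' k, if d k = lam then c k else 0)) := by
    apply tendsto_tsum_of_dominated_convergence hc
    · intro k
      by_cases hk : d k = lam
      · have : zk k = 1 := by rw [hzk]; simp [hk]
        rw [if_pos hk, this]
        simpa using mean_geom_one.const_mul (c k)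
      · rw [if_neg hk]
        simpa using (mean_geom_tendsto_zero (hzk1 k) fun h1 => hk (hh1 k h1)).const_mul (c k)
    · filter_upwards with n k
      rw [norm_mul]
      calc ‖c k‖ * _ ≤ ‖c k‖ * 1 := by
            gcongr
            exact mean_geom_norm_le (hzk1 k) n
        _ = _ := mul_one _
  have heq : ∀ n : ℕ, (n : ℂ)⁻¹ * ∑ j ∈ Finset.range n, ∑' k, c k * zk k ^ j
      = ∑' k, c k * ((n : ℂ)⁻¹ * ∑ j ∈ Finset.range n, zk k ^ j) := by
    intro n
    rw [← Summable.tsum_finsetSum (fun j _ => hsumm j), ← tsum_mul_left]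
    congr 1
    ext k
    rw [← Finset.mul_sum]
    ring
  simp_rw [heq] at hL
  exact tendsto_nhds_unique hRr hL

/-- An absolutely convergent exponential sum with a limit at infinity is constant. -/
theorem bohr_const {ι : Type*} [Countable ι] {c : ι → ℂ} {d : ι → ℝ} {w : ℂ}
    (hc : Summable (fun k => ‖c k‖))
    (hlim : Tendsto (fun S : ℝ => ∑' k, c k * cexp (I * (d k * S))) atTop (𝓝 w)) (S : ℝ) :
    ∑' k, c k * cexp (I * (d k * S)) = w := by
  classical
  have hco := bohr_coeff hc hlim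
  have hs : Summable (fun k => c k * cexp (I * (d k * S))) := by
    apply Summable.of_norm
    refine hc.congr fun k => ?_
    have : I * (d k * S : ℂ) = ((d k * S : ℝ) : ℂ) * I := by push_cast; ring
    rw [norm_mul, this, Complex.norm_exp_ofReal_mul_I, mul_one]
  have h1 := hs.hasSum.tsum_fiberwise d
  have h2 : (fun lam : ℝ => ∑' b : d ⁻¹' {lam}, c b * cexp (I * (d b * S)))
      = fun lam => if lam = 0 then w else 0 := by
    ext lam
    have h3 : ∑' b : d ⁻¹' {lam}, c b * cexp (I * (d b * S))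
        = (∑' b : d ⁻¹' {lam}, c b) * cexp (I * (lam * S)) := by
      rw [← tsum_mul_right]
      congr 1
      ext b
      have : d b = lam := b.2
      rw [this]
    have h4 : ∑' b : d ⁻¹' {lam}, c b = ∑' k, if d k = lam then c k else 0 := by
      rw [tsum_subtype (d ⁻¹' {lam}) c]
      congr 1
    rw [h3, h4, hco]
    by_cases hl : lam = 0
    · rw [if_pos hl, hl]
      simp
    · rw [if_neg hl, zero_mul]
  rw [h2] at h1
  have h5 : HasSum (fun lam : ℝ => if lam = 0 then w else 0) w := hasSum_ite_eq 0 w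
  exact h1.unique h5

end Pool.Agent.H39
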