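import Pool.Agent.H39.Kern

open MeasureTheory ProbabilityTheory Polynomial Set Filter Topology
open scoped Nat NNReal

namespace Pool.Agent.H39

/-- Two real power series agreeing near `0` have the same coefficients. -/
lemma coeff_eq_of_hasSum {A B : ℕ → ℝ} {f : ℝ → ℝ}
    (hA : ∀ x : ℝ, |x| < 1 → HasSum (fun n => x ^ n * A n) (f x))
    (hB : ∀ x : ℝ, |x| < 1 → HasSum (fun n => x ^ n * B n) (f x)) : A = B := by
  have hev : ∀ᶠ z : ℝ in 𝓝 0, |z| < 1 := by
    have : Metric.ball (0:ℝ) 1 ∈ 𝓝 (0:ℝ) := Metric.ball_mem_nhds 0 one_pos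
    filter_upwards [this] with z hz
    rwa [mem_ball_zero_iff, Real.norm_eq_abs] at hz
  have h1 : HasFPowerSeriesAt f (FormalMultilinearSeries.ofScalars ℝ A) 0 := by
    rw [hasFPowerSeriesAt_iff]
    filter_upwards [hev] with z hz
    simpa [FormalMultilinearSeries.coeff_ofScalars] using hA z hz
  have h2 : HasFPowerSeriesAt f (FormalMultilinearSeries.ofScalars ℝ B) 0 := by
    rw [hasFPowerSeriesAt_iff]
    filter_upwards [hev] with z hz
    simpa [FormalMultilinearSeries.coeff_ofScalars] using hB z hz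
  have h3 := h1.eq_formalMultilinearSeries h2
  ext n
  have h4 := congrArg (fun p => FormalMultilinearSeries.coeff p n) h3
  simpa [FormalMultilinearSeries.coeff_ofScalars] using h4

theorem hc_sq_eq {χ : ℝ → ℝ} (hχ : PM χ) {a c : ℝ} 
    (h : ∀ ρ : ℝ, |ρ| < 1 → h2 χ ρ = psiS a c ρ) (n : ℕ) :
    (hc χ (n + 1)) ^ 2 = (He n a) ^ 2 / c := by
  set B : ℕ → ℝ := fun n => Nat.casesOn n 0 (fun m => (1 / c) * ((He m a) ^ 2 / ((m ! : ℝ) * (m + 1))))
    with hB
  have h1 : (fun n : ℕ => (hc χ n) ^ 2 / (n ! : ℝ)) = B := by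
    apply coeff_eq_of_hasSum (f := h2 χ)
    · intro x hx
      have := h2_hasSum hχ hx
      convert this using 2 with n
      ring
    · intro x hx
      rw [h x hx]
      have hs := (summable_psiS_term (a := a) hx).hasSum.mul_left (1 / c)
      have hB0 : B 0 = 0 := rfl
      have hB1 : ∀ m, B (m + 1) = (1 / c) * ((He m a) ^ 2 / ((m ! : ℝ) * (m + 1))) := fun m => rfl
      have hk : HasSum (fun n => x ^ (n + 1) * B (n + 1)) (psiS a c x) := by
        rw [psiS]
        have he : (fun n => x ^ (n + 1) * B (n + 1))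
            = fun n : ℕ => 1 / c * (He n a ^ 2 / ((n ! : ℝ) * (n + 1)) * x ^ (n + 1)) := by
          ext n
          rw [hB1]
          ring
        rw [he]
        exact hs
      have hk2 := (hasSum_nat_add_iff (f := fun n => x ^ n * B n) 1).1 hk
      simpa [hB0] using hk2
  have h3 := congrFun h1 (n + 1)
  simp only [hB] at h3
  rw [Nat.factorial_succ] at h3
  push_cast at h3
  have h4 : (n ! : ℝ) ≠ 0 := by positivity
  have h5 : (n + 1 : ℝ) ≠ 0 := by positivity
  have h6 : (hc χ (n + 1)) ^ 2 = ((n + 1 : ℝ) * (n ! : ℝ)) *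
      ((hc χ (n + 1)) ^ 2 / ((n + 1 : ℝ) * (n ! : ℝ))) := by
    field_simp
  rw [h6, h3]
  field_simp

end Pool.Agent.H39
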