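import Pool.Agent.H39.Step

open MeasureTheory ProbabilityTheory Polynomial Set Filter Topology
open scoped Nat NNReal ENNReal

namespace Pool.Agent.H39

/-- deterministic crossing bound -/
lemma cross_bound {χ : ℝ → ℝ} {J : Set ℝ} (h : PM χ) (hs : IsStep χ J) (Y : ℕ → ℝ) (m : ℕ)
    {g : ℝ} (hY : ∀ l < m, |Y (l + 1) - Y l| < g) (S : Finset ℝ)
    (hS : ∀ y ∈ S, Y 0 < y ∧ y ≤ Y m ∧ J ∩ Ioo (y - g) (y + g) = {y}) :
    (S.card : ℝ) ≤ ∑ l ∈ Finset.range m, dd χ (Y l) (Y (l + 1)) := by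
  have hex : ∀ y ∈ S, ∃ l < m, Y l < y ∧ y ≤ Y (l + 1) := by
    intro y hy
    obtain ⟨h1, h2, _⟩ := hS y hy
    by_contra hcon
    push Not at hcon
    have : ∀ l ≤ m, Y l < y := by
      intro l
      induction l with
      | zero => intro _; exact h1
      | succ l ih =>
        intro hl
        exact hcon l hl (ih (by omega))
    exact absurd h2 (not_le.2 (this m le_rfl))
  choose! f hf using hex
  have huniq : ∀ y ∈ S, J ∩ Ioc (Y (f y)) (Y (f y + 1)) = {y} := by
    intro y hy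
    obtain ⟨_, _, h3⟩ := hS y hy
    obtain ⟨h4, h5, h6⟩ := hf y hy
    have h7 := abs_lt.1 (hY _ h4)
    have hyJ : y ∈ J := by
      have : y ∈ J ∩ Ioo (y - g) (y + g) := by rw [h3]; rfl
      exact this.1
    ext z
    constructor
    · rintro ⟨hz1, hz2⟩
      have : z ∈ J ∩ Ioo (y - g) (y + g) := ⟨hz1, by linarith [hz2.1], by linarith [hz2.2]⟩
      rw [h3] at this
      exact this
    · intro hz
      have hz' : z = y := hz
      rw [hz']
      exact ⟨hyJ, h5, h6⟩
  have hinj : Set.InjOn f S := by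
    intro y hy z hz hyz
    have h1 := huniq y hy
    have h2 := huniq z hz
    rw [hyz, h2] at h1
    exact (Set.singleton_eq_singleton_iff.1 h1).symm
  have hone : ∀ y ∈ S, dd χ (Y (f y)) (Y (f y + 1)) = 1 := by
    intro y hy
    obtain ⟨h4, h5, h6⟩ := hf y hy
    have h1 := hs.flip _ _ y h5 h6 (huniq y hy)
    rcases dd_eq_or h (Y (f y)) (Y (f y + 1)) with h2 | h2
    · exfalso
      rw [h2.1] at h1
      rcases h.val (Y (f y + 1)) with h3 | h3 <;> rw [h3] at h1 <;> norm_num at h1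
    · exact h2.2
  calc (S.card : ℝ) = ∑ y ∈ S, dd χ (Y (f y)) (Y (f y + 1)) := by
        rw [Finset.sum_congr rfl hone]
        simp
    _ = ∑ l ∈ S.image f, dd χ (Y l) (Y (l + 1)) := by
        rw [Finset.sum_image hinj]
    _ ≤ ∑ l ∈ Finset.range m, dd χ (Y l) (Y (l + 1)) := by
        apply Finset.sum_le_sum_of_subset_of_nonneg
        · intro l hl
          rw [Finset.mem_image] at hl
          obtain ⟨y, hy, rfl⟩ := hl
          exact Finset.mem_range.2 (hf y hy).1
        · intro l _ _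
          exact dd_nonneg h _ _

lemma dd_chain {χ : ℝ → ℝ} (h : PM χ) (Y : ℕ → ℝ) (m : ℕ) :
    dd χ (Y 0) (Y m) ≤ ∑ l ∈ Finset.range m, dd χ (Y l) (Y (l + 1)) := by
  induction m with
  | zero =>
    have := h.mul_self (Y 0)
    simp [dd, this]
  | succ m ih =>
    rw [Finset.sum_range_succ]
    exact (dd_triangle h (Y 0) (Y m) (Y (m + 1))).trans (by linarith)

/-- discretised path -/
noncomputable def Yp (θ : ℝ) (m : ℕ) (p : ℝ × ℝ) (l : ℕ) : ℝ := Xr (l * (θ / m)) p

lemma Yp_zero (θ : ℝ) (m : ℕ) (p : ℝ × ℝ) : Yp θ m p 0 = p.1 := by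
  simp [Yp, Xr]

lemma Yp_last (θ : ℝ) {m : ℕ} (hm : 0 < m) (p : ℝ × ℝ) : Yp θ m p m = Xr θ p := by
  have : (m:ℝ) ≠ 0 := by positivity
  unfold Yp
  rw [mul_div_cancel₀ θ this]

lemma Yp_step (θ : ℝ) (hθ : 0 ≤ θ) (m : ℕ) (p : ℝ × ℝ) (l : ℕ) :
    |Yp θ m p (l + 1) - Yp θ m p l| ≤ (θ / m) * (|p.1| + |p.2|) := by
  have hc := Real.lipschitzWith_cos.dist_le_mul (((l + 1 : ℕ) : ℝ) * (θ / m)) ((l : ℝ) * (θ / m))
  have hs := Real.lipschitzWith_sin.dist_le_mul (((l + 1 : ℕ) : ℝ) * (θ / m)) ((l : ℝ) * (θ / m))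
  rw [Real.dist_eq, Real.dist_eq] at hc hs
  have he : |((l + 1 : ℕ) : ℝ) * (θ / m) - (l : ℝ) * (θ / m)| = θ / m := by
    rw [← sub_mul]
    push_cast
    rw [add_sub_cancel_left, one_mul, abs_of_nonneg (by positivity)]
  rw [he] at hc hs
  simp only [NNReal.coe_one, one_mul] at hc hs
  have e2 : Yp θ m p (l + 1) - Yp θ m p l
      = (Real.cos (((l + 1 : ℕ) : ℝ) * (θ / m)) - Real.cos ((l : ℝ) * (θ / m))) * p.1
        + (Real.sin (((l + 1 : ℕ) : ℝ) * (θ / m)) - Real.sin ((l : ℝ) * (θ / m))) * p.2 := by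
    unfold Yp Xr
    ring
  rw [e2]
  calc _ ≤ |(Real.cos (((l + 1 : ℕ) : ℝ) * (θ / m)) - Real.cos ((l : ℝ) * (θ / m))) * p.1|
        + |(Real.sin (((l + 1 : ℕ) : ℝ) * (θ / m)) - Real.sin ((l : ℝ) * (θ / m))) * p.2| :=
        abs_add_le _ _
    _ ≤ (θ / m) * |p.1| + (θ / m) * |p.2| := by
        rw [abs_mul, abs_mul]
        gcongr
    _ = _ := by ring

/-- excess number of sign changes -/
noncomputable def Tp (χ : ℝ → ℝ) (θ : ℝ) (m : ℕ) (p : ℝ × ℝ) : ℝ :=
  ∑ l ∈ Finset.range m, dd χ (Yp θ m p l) (Yp θ m p (l + 1)) - dd χ (Yp θ m p 0) (Yp θ m p m)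

lemma Tp_nonneg {χ : ℝ → ℝ} (h : PM χ) (θ : ℝ) (m : ℕ) (p : ℝ × ℝ) : 0 ≤ Tp χ θ m p := by
  unfold Tp
  linarith [dd_chain h (Yp θ m p) m]

lemma measurable_Yp (θ : ℝ) (m l : ℕ) : Measurable (fun p => Yp θ m p l) := by
  unfold Yp
  fun_prop

lemma integrable_Tp {χ : ℝ → ℝ} (h : PM χ) (θ : ℝ) (m : ℕ) :
    Integrable (Tp χ θ m) (gam.prod gam) := by
  unfold Tp
  apply Integrable.sub
  · apply integrable_finsetSum
    intro l _
    exact integrable_dd h (measurable_Yp _ _ _) (measurable_Yp _ _ _)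
  · exact integrable_dd h (measurable_Yp _ _ _) (measurable_Yp _ _ _)

lemma integral_Tp {χ : ℝ → ℝ} (h : PM χ) (θ : ℝ) {m : ℕ} (hm : 0 < m) :
    ∫ p, Tp χ θ m p ∂(gam.prod gam) = m * Dp χ (θ / m) - Dp χ θ := by
  unfold Tp
  rw [integral_sub, integral_finsetSum]
  · congr 1
    · rw [Finset.sum_congr rfl (g := fun _ => Dp χ (θ / m))]
      · simp
      · intro l _
        have := integral_dd_rot h (l * (θ / m)) (θ / m)
        rw [← this]
        congr 1
        ext p
        unfold Yp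
        congr 2
        push_cast
        ring
    · rw [Dp]
      congr 1
      ext p
      rw [Yp_zero, Yp_last θ hm]
  · intro l _
    exact integrable_dd h (measurable_Yp _ _ _) (measurable_Yp _ _ _)
  · apply integrable_finsetSum
    intro l _
    exact integrable_dd h (measurable_Yp _ _ _) (measurable_Yp _ _ _)
  · exact integrable_dd h (measurable_Yp _ _ _) (measurable_Yp _ _ _)

lemma gam_Ioc_lower {a b R : ℝ} (hab : a ≤ b) (ha : -R ≤ a) (hb : b ≤ R) :
    gaussianPDFReal 0 1 R * (b - a) ≤ gam.real (Ioc a b) := by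
  have h1 : gam.real (Ioc a b) = ∫ x in Ioc a b, gaussianPDFReal 0 1 x := by
    rw [measureReal_def, gam, gaussianReal_apply_eq_integral 0 one_ne_zero]
    exact ENNReal.toReal_ofReal (setIntegral_nonneg measurableSet_Ioc
      fun x _ => gaussianPDFReal_nonneg _ _ _)
  have h2 : gaussianPDFReal 0 1 R * (b - a) = ∫ x in Ioc a b, gaussianPDFReal 0 1 R := by
    rw [setIntegral_const, measureReal_def, Real.volume_Ioc, ENNReal.toReal_ofReal (by linarith),
      smul_eq_mul, mul_comm]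
  rw [h1, h2]
  apply setIntegral_mono_on
  · exact integrableOn_const (by simp)
  · exact (integrable_gaussianPDFReal 0 1).integrableOn
  · exact measurableSet_Ioc
  · intro x hx
    rw [gpdf_eq, gpdf_eq]
    have : x ^ 2 ≤ R ^ 2 := by
      apply sq_le_sq'
      · linarith [hx.1]
      · linarith [hx.2]
    apply mul_le_mul_of_nonneg_left _ (by positivity)
    apply Real.exp_le_exp.2
    linarith

lemma exists_isolation {J : Set ℝ} (hfin : ∀ a b, (J ∩ Icc a b).Finite) (a b : ℝ) :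
    ∃ g > 0, ∀ y ∈ J ∩ Icc a b, J ∩ Ioo (y - g) (y + g) = {y} := by
  have hev : ∀ᶠ g in 𝓝[>] (0:ℝ), ∀ y ∈ J ∩ Icc a b, J ∩ Ioo (y - g) (y + g) = {y} := by
    rw [(hfin a b).eventually_all]
    rintro y ⟨hyJ, _⟩
    obtain ⟨ε1, hε1, h1⟩ := exists_right_gap hfin y
    obtain ⟨ε2, hε2, h2⟩ := exists_left_gap hfin y
    have h3 : ∀ᶠ g in 𝓝[>] (0:ℝ), g < min ε1 ε2 :=
      Filter.Eventually.filter_mono nhdsWithin_le_nhds (gt_mem_nhds (lt_min hε1 hε2))
    filter_upwards [h3, self_mem_nhdsWithin] with g h4 h5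
    have h5' : 0 < g := h5
    have h6 := h4.trans_le (min_le_left _ _)
    have h7 := h4.trans_le (min_le_right _ _)
    rw [Set.eq_empty_iff_forall_notMem] at h1 h2
    ext z
    constructor
    · rintro ⟨hz1, hz2⟩
      rcases lt_trichotomy z y with h8 | h8 | h8
      · exact absurd ⟨hz1, by linarith [hz2.1], h8⟩ (h2 z)
      · exact h8
      · exact absurd ⟨hz1, h8, by linarith [hz2.2]⟩ (h1 z)
    · intro hz
      have hz' : z = y := hz
      rw [hz']
      exact ⟨hyJ, by linarith, by linarith⟩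
  obtain ⟨g, hg1, hg2⟩ := (hev.and self_mem_nhdsWithin).exists
  exact ⟨g, hg2, hg1⟩

lemma path_end {R u v : ℝ} {M : ℕ} (hR : 1 ≤ R) (hM : 15 * R ≤ M)
    (hu : |u| ≤ R) (hv : 1 ≤ v) :
    u + 2 / M ≤ Xr (4 / M) (u, v) := by
  have hMpos : (0:ℝ) < M := by linarith
  set θ : ℝ := 4 / M with hθ
  have hθ0 : 0 < θ := by positivity
  have hθ1 : θ ≤ 1 := by
    rw [hθ, div_le_one hMpos]
    linarith
  have hpi := Real.pi_gt_three
  have hpi2 := Real.pi_lt_d2
  have h1 : 2 / Real.pi * θ ≤ Real.sin θ := Real.mul_le_sin hθ0.le (by linarith)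
  have h2 : 1 - θ ^ 2 / 2 ≤ Real.cos θ := Real.one_sub_sq_div_two_le_cos
  have h3 := Real.cos_le_one θ
  have h4 : u - R * (θ ^ 2 / 2) ≤ Real.cos θ * u := by
    have h5 : |(1 - Real.cos θ) * u| ≤ (θ ^ 2 / 2) * R := by
      rw [abs_mul, abs_of_nonneg (by linarith)]
      gcongr
      linarith
    have := (abs_le.1 h5).2
    linarith
  have h6 : Real.sin θ ≤ Real.sin θ * v := by
    have : 0 ≤ Real.sin θ := le_trans (by positivity) h1
    nlinarith
  have h7 : 2 / M + R * (θ ^ 2 / 2) ≤ 2 / Real.pi * θ := by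
    have h8 : R * (θ ^ 2 / 2) ≤ (8 / 15) / M := by
      have : R ≤ (M:ℝ) / 15 := by linarith
      calc R * (θ ^ 2 / 2) ≤ ((M:ℝ) / 15) * (θ ^ 2 / 2) := by gcongr
        _ = (8 / 15) / (M:ℝ) := by rw [hθ]; field_simp; norm_num
    have h9 : (2 + 8 / 15) / M ≤ 2 / Real.pi * θ := by
      rw [hθ, ← mul_div_assoc]
      gcongr
      rw [div_mul_eq_mul_div, le_div_iff₀ (by positivity)]
      nlinarith
    have h10 : (2 + 8 / 15) / (M:ℝ) = 2 / M + (8 / 15) / M := by ring
    linarith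
  simp only [Xr]
  linarith

/-- Counting bound in a unit window. -/
theorem window_count {χ : ℝ → ℝ} {J : Set ℝ} (h : PM χ) (hs : IsStep χ J) {κ a : ℝ}
    (hD1 : ∀ t ∈ Icc 0 (Real.pi / 2), κ * (t - a ^ 2 * t ^ 3 / 12) ≤ Dp χ t)
    (hD2 : ∀ t ∈ Icc 0 (Real.pi / 2), Dp χ t ≤ κ * t)
    {α R : ℝ} (hR : R = |α| + 1) {M : ℕ} (hM : 15 * R ≤ M) (F : Finset ℝ)
    (hF : ∀ x ∈ F, x ∈ J ∧ x ∈ Ioc α (α + 1)) :
    (F.card : ℝ) * (gaussianPDFReal 0 1 R * gaussianPDFReal 0 1 2 / M) ≤
      gaussianPDFReal 0 1 R * gaussianPDFReal 0 1 2 + κ * a ^ 2 * (4 / M) ^ 3 / 12 := by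
  have hpi := Real.pi_gt_three
  have hR1 : 1 ≤ R := by rw [hR]; linarith [abs_nonneg α]
  have hMpos : (0:ℝ) < M := by linarith
  have hMge : (15:ℝ) ≤ M := by linarith
  set θ : ℝ := 4 / M with hθ
  have hθ0 : 0 < θ := by positivity
  have hθ1 : θ ≤ 1 := by
    rw [hθ, div_le_one hMpos]
    linarith
  obtain ⟨g, hg, hiso⟩ := exists_isolation hs.fin α (α + 1)
  obtain ⟨m, hm⟩ := exists_nat_gt (θ * (R + 2) / g)
  have hm0 : 0 < m := by
    have : (0:ℝ) < m := lt_of_le_of_lt (by positivity) hm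
    exact_mod_cast this
  have hm0' : (0:ℝ) < m := by exact_mod_cast hm0
  have hstep : θ / m * (R + 2) < g := by
    rw [div_lt_iff₀ hg] at hm
    rw [div_mul_eq_mul_div, div_lt_iff₀ hm0']
    linarith
  -- total excess
  have htot : ∫ p, Tp χ θ m p ∂(gam.prod gam) ≤ κ * a ^ 2 * θ ^ 3 / 12 := by
    rw [integral_Tp h θ hm0]
    have h1 := hD1 θ ⟨hθ0.le, by linarith⟩
    have h2 := hD2 (θ / m) ⟨by positivity, by
      have : θ / m ≤ θ := div_le_self hθ0.le (by exact_mod_cast hm0)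
      linarith⟩
    have h3 : (m:ℝ) * Dp χ (θ / m) ≤ κ * θ := by
      calc (m:ℝ) * Dp χ (θ / m) ≤ m * (κ * (θ / m)) := by gcongr
        _ = κ * θ := by field_simp
    linarith
  -- cells
  set cell : ℕ → Set ℝ := fun i => Ioc (α + (i - 1) / M) (α + i / M) with hcell
  set E : ℕ → Set (ℝ × ℝ) := fun i => cell i ×ˢ Ioc (1:ℝ) 2 with hE
  set Fi : ℕ → Finset ℝ := fun i => F.filter (fun y => y ∈ cell (i + 1)) with hFi
  have hcard : F.card ≤ ∑ i ∈ Finset.range M, (Fi i).card := by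
    have hsub : F ⊆ (Finset.range M).biUnion Fi := by
      intro y hy
      obtain ⟨_, hy2⟩ := hF y hy
      rw [Finset.mem_biUnion]
      have hpos : 0 < (y - α) * M := mul_pos (by linarith [hy2.1]) hMpos
      have hc1 : 1 ≤ ⌈(y - α) * M⌉₊ := Nat.one_le_ceil_iff.2 hpos
      refine ⟨⌈(y - α) * M⌉₊ - 1, ?_, ?_⟩
      · rw [Finset.mem_range]
        have : ⌈(y - α) * M⌉₊ ≤ M := by
          apply Nat.ceil_le.2
          nlinarith [hy2.2]
        omega
      · rw [hFi, Finset.mem_filter]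
        refine ⟨hy, ?_⟩
        rw [hcell]
        simp only
        rw [Nat.sub_add_cancel hc1]
        have h1 := Nat.le_ceil ((y - α) * M)
        have h2 := Nat.ceil_lt_add_one hpos.le
        constructor
        · have : ((⌈(y - α) * M⌉₊ : ℝ) - 1) / M < y - α := by
            rw [div_lt_iff₀ hMpos]; linarith
          linarith
        · have : y - α ≤ (⌈(y - α) * M⌉₊ : ℝ) / M := by
            rw [le_div_iff₀ hMpos]; exact h1
          linarith
    exact (Finset.card_le_card hsub).trans Finset.card_biUnion_le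
  have hcellR : ∀ i < M, ∀ u ∈ cell i, |u| ≤ R := by
    intro i hi u hu
    have hi' : (i:ℝ) ≤ M := by exact_mod_cast hi.le
    have h1 : (i:ℝ) / M ≤ 1 := by rw [div_le_one hMpos]; exact hi'
    have h2 : (-1:ℝ) ≤ ((i:ℝ) - 1) / M := by
      rw [le_div_iff₀ hMpos]
      have : (0:ℝ) ≤ i := Nat.cast_nonneg i
      linarith
    rw [hR, abs_le]
    constructor
    · linarith [hu.1, neg_abs_le α]
    · linarith [hu.2, le_abs_self α]
  have hTlow : ∀ i < M, ∀ p ∈ E i, ((Fi i).card : ℝ) - 1 ≤ Tp χ θ m p := by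
    rintro i hi ⟨u, v⟩ ⟨hu, hv⟩
    simp only at hu hv
    have huR := hcellR i hi u hu
    have hend := path_end (v := v) hR1 hM huR hv.1.le
    have h1 : ((Fi i).card : ℝ) ≤ ∑ l ∈ Finset.range m, dd χ (Yp θ m (u, v) l)
        (Yp θ m (u, v) (l + 1)) := by
      apply cross_bound h hs (Yp θ m (u, v)) m (g := g)
      · intro l _
        refine lt_of_le_of_lt (Yp_step θ hθ0.le m (u, v) l) (lt_of_le_of_lt ?_ hstep)
        simp only
        have : |v| ≤ 2 := by rw [abs_le]; constructor <;> linarith [hv.1, hv.2]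
        gcongr
      · intro y hy
        rw [hFi, Finset.mem_filter] at hy
        obtain ⟨hy1, hy2⟩ := hy
        obtain ⟨hy3, hy4⟩ := hF y hy1
        have e1 : α + (((i + 1 : ℕ) : ℝ) - 1) / M = α + i / M := by push_cast; ring
        have e2 : α + ((i + 1 : ℕ) : ℝ) / M = α + (i - 1) / M + 2 / M := by push_cast; ring
        rw [hcell] at hy2 hu
        simp only [mem_Ioc] at hy2 hu
        rw [e1, e2] at hy2
        refine ⟨?_, ?_, hiso y ⟨hy3, hy4.1.le, hy4.2⟩⟩
        · rw [Yp_zero]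
          simp only
          linarith [hu.2, hy2.1]
        · rw [Yp_last θ hm0]
          linarith [hu.1, hy2.2]
    unfold Tp
    linarith [dd_le_one h (Yp θ m (u, v) 0) (Yp θ m (u, v) m)]
  have hEmeas : ∀ i, MeasurableSet (E i) := fun i => measurableSet_Ioc.prod measurableSet_Ioc
  have hdisj : ((Finset.range M : Finset ℕ) : Set ℕ).PairwiseDisjoint E := by
    intro i _ j _ hij
    rw [Function.onFun, Set.disjoint_left]
    rintro ⟨u, v⟩ ⟨hu1, _⟩ ⟨hu2, _⟩
    simp only [hcell, mem_Ioc] at hu1 hu2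
    rcases lt_or_gt_of_ne hij with hlt | hlt
    · have : (i:ℝ) ≤ j - 1 := by
        have : i + 1 ≤ j := hlt
        have : ((i + 1 : ℕ):ℝ) ≤ j := by exact_mod_cast this
        push_cast at this
        linarith
      have : (i:ℝ) / M ≤ (j - 1) / M := by gcongr
      linarith
    · have : (j:ℝ) ≤ i - 1 := by
        have : j + 1 ≤ i := hlt
        have : ((j + 1 : ℕ):ℝ) ≤ i := by exact_mod_cast this
        push_cast at this
        linarith
      have : (j:ℝ) / M ≤ (i - 1) / M := by gcongr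
      linarith
  have hPE : ∀ i < M, gaussianPDFReal 0 1 R * gaussianPDFReal 0 1 2 / M
      ≤ (gam.prod gam).real (E i) := by
    intro i hi
    have hi' : (i:ℝ) ≤ M := by exact_mod_cast hi.le
    have h1 : (i:ℝ) / M ≤ 1 := by rw [div_le_one hMpos]; exact hi'
    have h2 : (-1:ℝ) ≤ ((i:ℝ) - 1) / M := by
      rw [le_div_iff₀ hMpos]
      have : (0:ℝ) ≤ i := Nat.cast_nonneg i
      linarith
    have e1 : (gam.prod gam).real (E i) = gam.real (cell i) * gam.real (Ioc (1:ℝ) 2) := by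
      rw [hE]
      simp only [measureReal_def]
      rw [Measure.prod_prod, ENNReal.toReal_mul]
    have e2 : gaussianPDFReal 0 1 R * (1 / M) ≤ gam.real (cell i) := by
      have := gam_Ioc_lower (a := α + (i - 1) / M) (b := α + i / M) (R := R)
        (by gcongr; linarith) (by rw [hR]; linarith [neg_abs_le α])
        (by rw [hR]; linarith [le_abs_self α])
      refine le_trans (le_of_eq ?_) this
      congr 1
      ring
    have e3 : gaussianPDFReal 0 1 2 * 1 ≤ gam.real (Ioc (1:ℝ) 2) := by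
      have := gam_Ioc_lower (a := 1) (b := 2) (R := 2) (by norm_num) (by norm_num) (by norm_num)
      refine le_trans (le_of_eq ?_) this
      norm_num
    rw [e1]
    have p1 := gaussianPDFReal_nonneg 0 1 R
    have p2 := gaussianPDFReal_nonneg 0 1 2
    calc gaussianPDFReal 0 1 R * gaussianPDFReal 0 1 2 / M
        = (gaussianPDFReal 0 1 R * (1 / M)) * (gaussianPDFReal 0 1 2 * 1) := by ring
      _ ≤ _ := by gcongr
  set w : ℝ := gaussianPDFReal 0 1 R * gaussianPDFReal 0 1 2 / M with hw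
  have hw0 : 0 ≤ w := by
    have p1 := gaussianPDFReal_nonneg 0 1 R
    have p2 := gaussianPDFReal_nonneg 0 1 2
    positivity
  have hcellint : ∀ i ∈ Finset.range M, (((Fi i).card : ℝ) - 1) * w ≤
      ∫ p in E i, Tp χ θ m p ∂(gam.prod gam) := by
    intro i hi
    have hi' := Finset.mem_range.1 hi
    rcases le_or_gt (((Fi i).card : ℝ) - 1) 0 with hneg | hpos
    · calc (((Fi i).card : ℝ) - 1) * w ≤ 0 := mul_nonpos_of_nonpos_of_nonneg hneg hw0
        _ ≤ _ := setIntegral_nonneg (hEmeas i) fun p _ => Tp_nonneg h θ m p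
    · calc (((Fi i).card : ℝ) - 1) * w ≤ (((Fi i).card : ℝ) - 1) * (gam.prod gam).real (E i) := by
            have := hPE i hi'
            gcongr
        _ = ∫ p in E i, (((Fi i).card : ℝ) - 1) ∂(gam.prod gam) := by
            rw [setIntegral_const, smul_eq_mul, mul_comm]
        _ ≤ _ := by
            apply setIntegral_mono_on
            · exact integrableOn_const (measure_ne_top _ _)
            · exact (integrable_Tp h θ m).integrableOn
            · exact hEmeas i
            · exact hTlow i hi'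
  have hsum : ∑ i ∈ Finset.range M, ∫ p in E i, Tp χ θ m p ∂(gam.prod gam)
      ≤ ∫ p, Tp χ θ m p ∂(gam.prod gam) := by
    rw [← integral_biUnion_finset (Finset.range M) (fun i _ => hEmeas i) hdisj
      (fun i _ => (integrable_Tp h θ m).integrableOn)]
    apply setIntegral_le_integral (integrable_Tp h θ m)
    exact Eventually.of_forall fun p => Tp_nonneg h θ m p
  have hfinal : ((F.card : ℝ) - M) * w ≤ κ * a ^ 2 * θ ^ 3 / 12 := by
    calc ((F.card : ℝ) - M) * w ≤ (∑ i ∈ Finset.range M, (((Fi i).card : ℝ) - 1)) * w := by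
          apply mul_le_mul_of_nonneg_right _ hw0
          rw [Finset.sum_sub_distrib]
          simp only [Finset.sum_const, Finset.card_range, nsmul_eq_mul, mul_one]
          have : (F.card : ℝ) ≤ ∑ i ∈ Finset.range M, ((Fi i).card : ℝ) := by exact_mod_cast hcard
          linarith
      _ = ∑ i ∈ Finset.range M, (((Fi i).card : ℝ) - 1) * w := by rw [Finset.sum_mul]
      _ ≤ _ := Finset.sum_le_sum hcellint
      _ ≤ _ := hsum
      _ ≤ _ := htot
  have hMw : (M:ℝ) * w = gaussianPDFReal 0 1 R * gaussianPDFReal 0 1 2 := by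
    rw [hw]
    field_simp
  linarith

end Pool.Agent.H39
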