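import Pool.Agent.H39.Bohr

open Set Filter Topology Complex

namespace Pool.Agent.H39

lemma norm_exp_I_real (t : ℝ) : ‖cexp (I * t)‖ = 1 := by
  rw [mul_comm, Complex.norm_exp_ofReal_mul_I]

lemma norm_cexp_I_sub_one_le (t : ℝ) : ‖cexp (I * t) - 1‖ ≤ |t| := by
  have := Real.norm_exp_I_mul_ofReal_sub_one_le (x := t)
  simpa [Real.norm_eq_abs] using this

/-- second order bound -/
lemma norm_cexp_second (u : ℝ) : ‖cexp (-(I * u)) - 1 + I * u‖ ≤ u ^ 2 / 2 := by
  -- integrate the first order bound
  have hpos : ∀ v : ℝ, 0 ≤ v → ‖cexp (-(I * v)) - 1 + I * v‖ ≤ v ^ 2 / 2 := by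
    intro v hv
    have hder : ∀ x : ℝ, HasDerivAt (fun x : ℝ => cexp (-(I * x)) - 1 + I * x)
        (-I * cexp (-(I * x)) + I) x := by
      intro x
      have h3 : HasDerivAt (fun s : ℝ => (s : ℂ)) 1 x := Complex.ofRealCLM.hasDerivAt
      have h4 : HasDerivAt (fun s : ℝ => -(I * (s : ℂ))) (-I) x :=
        ((h3.const_mul I).neg).congr_deriv (by ring)
      have h5 := h4.cexp
      have h6 := (h5.sub_const 1).add (h3.const_mul I)
      refine h6.congr_deriv ?_
      ring
    have hB : ∀ x : ℝ, HasDerivAt (fun x : ℝ => x ^ 2 / 2) x x := by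
      intro x
      refine ((hasDerivAt_pow 2 x).div_const 2).congr_deriv ?_
      simp
    have := image_norm_le_of_norm_deriv_right_le_deriv_boundary (a := 0) (b := v)
      (f := fun x : ℝ => cexp (-(I * x)) - 1 + I * x) (f' := fun x : ℝ => -I * cexp (-(I * x)) + I)
      (B := fun x : ℝ => x ^ 2 / 2) (B' := fun x => x)
      (fun x _ => (hder x).continuousAt.continuousWithinAt)
      (fun x _ => (hder x).hasDerivWithinAt) (by simp) hB ?_
    · exact this ⟨hv, le_rfl⟩
    · intro x hx
      have e : -I * cexp (-(I * x)) + I = -I * (cexp (I * ((-x : ℝ) : ℂ)) - 1) := by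
        have : I * ((-x : ℝ) : ℂ) = -(I * x) := by push_cast; ring
        rw [this]
        ring
      rw [e, norm_mul, norm_neg, Complex.norm_I, one_mul]
      refine (norm_cexp_I_sub_one_le (-x)).trans ?_
      rw [abs_neg, abs_of_nonneg hx.1]
  rcases le_total 0 u with hu | hu
  · exact hpos u hu
  · have h1 := hpos (-u) (by linarith)
    have h2 : cexp (-(I * ((-u : ℝ) : ℂ))) - 1 + I * ((-u : ℝ) : ℂ)
        = (starRingEnd ℂ) (cexp (-(I * u)) - 1 + I * u) := by
      simp only [map_add, map_sub, map_one, map_mul, conj_I, conj_ofReal, ← Complex.exp_conj,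
        map_neg]
      push_cast
      congr 1
      · congr 2
        ring
      · ring
    rw [h2, RCLike.norm_conj] at h1
    simpa using h1

section Extraction

variable {ι : Type*} [Countable ι] {c : ι → ℝ} {b d : ι → ℝ} {W : ℝ}

lemma norm_term (c d S : ℝ) (z : ℂ) : ‖(c : ℂ) * z * cexp (I * (d * S))‖ = |c| * ‖z‖ := by
  have : I * (d * S : ℂ) = I * ((d * S : ℝ) : ℂ) := by push_cast; ring
  rw [norm_mul, norm_mul, this, norm_exp_I_real, mul_one, Complex.norm_real, Real.norm_eq_abs]

/-- Extraction of the moments from the boundary identity. -/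
theorem extract (hc0 : Summable (fun k => |c k|)) (hc1 : Summable (fun k => |c k| * |b k|))
    (hc2 : Summable (fun k => |c k| * b k ^ 2))
    (hid : ∀ S : ℝ, 0 < S →
      ∑' k, (c k : ℂ) * cexp (-(I * (b k / S : ℝ))) * cexp (I * (d k * S)) = W) :
    (∀ lam : ℝ, (∑' k, if d k = lam then c k else 0) = if lam = 0 then W else 0) ∧
      (∑' k, if d k = 0 then c k * b k ^ 2 else 0) = 0 := by
  classical
  have hnormexp : ∀ u : ℝ, ‖cexp (-(I * (u : ℂ)))‖ = 1 := by
    intro u
    have : -(I * (u : ℂ)) = I * ((-u : ℝ) : ℂ) := by push_cast; ring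
    rw [this, norm_exp_I_real]
  have hsum0 : ∀ S : ℝ, Summable (fun k => (c k : ℂ) * cexp (I * (d k * S))) := by
    intro S
    apply Summable.of_norm
    refine hc0.congr fun k => ?_
    have := norm_term (c k) (d k) S 1
    rw [mul_one, norm_one, mul_one] at this
    exact this.symm
  have hsumB : ∀ S : ℝ, Summable (fun k => (c k : ℂ) * cexp (-(I * (b k / S : ℝ))) *
      cexp (I * (d k * S))) := by
    intro S
    apply Summable.of_norm
    refine hc0.congr fun k => ?_
    rw [norm_term, hnormexp, mul_one]
  have hsum1 : ∀ S : ℝ, Summable (fun k => ((c k * b k : ℝ) : ℂ) * cexp (I * (d k * S))) := by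
    intro S
    apply Summable.of_norm
    refine hc1.congr fun k => ?_
    have := norm_term (c k * b k) (d k) S 1
    rw [mul_one, norm_one, mul_one, abs_mul] at this
    exact this.symm
  have hsum2 : ∀ S : ℝ, Summable (fun k => ((c k * b k ^ 2 : ℝ) : ℂ) * cexp (I * (d k * S))) := by
    intro S
    apply Summable.of_norm
    refine hc2.congr fun k => ?_
    have := norm_term (c k * b k ^ 2) (d k) S 1
    rw [mul_one, norm_one, mul_one, abs_mul, abs_of_nonneg (sq_nonneg (b k))] at this
    exact this.symm
  have hdiv : ∀ u : ℝ, Tendsto (fun S : ℝ => u / S) atTop (𝓝 0) := fun u =>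
    tendsto_const_nhds.div_atTop tendsto_id
  -- order zero
  have hlim0 : Tendsto (fun S : ℝ => ∑' k, (c k : ℂ) * cexp (I * (d k * S))) atTop (𝓝 (W : ℂ)) := by
    have h1 : Tendsto (fun S : ℝ => ∑' k, (c k : ℂ) * (1 - cexp (-(I * (b k / S : ℝ)))) *
        cexp (I * (d k * S))) atTop (𝓝 (∑' _ : ι, (0:ℂ))) := by
      apply tendsto_tsum_of_dominated_convergence (hc0.mul_right 2)
      · intro k
        have h2 : Tendsto (fun S : ℝ => |c k| * |b k / S|) atTop (𝓝 0) := by
          have := ((hdiv (b k)).abs).const_mul |c k|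
          simpa using this
        apply squeeze_zero_norm _ h2
        intro S
        rw [norm_term]
        gcongr
        have h3 := norm_cexp_I_sub_one_le (-(b k / S))
        have h4 : I * ((-(b k / S) : ℝ) : ℂ) = -(I * ((b k / S : ℝ) : ℂ)) := by push_cast; ring
        rw [h4, abs_neg] at h3
        rw [norm_sub_rev]
        exact h3
      · filter_upwards with S k
        rw [norm_term]
        gcongr
        calc ‖1 - cexp (-(I * (b k / S : ℝ)))‖ ≤ ‖(1:ℂ)‖ + ‖cexp (-(I * (b k / S : ℝ)))‖ :=
              norm_sub_le _ _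
          _ = 2 := by rw [hnormexp]; norm_num
    rw [tsum_zero] at h1
    have h2 := h1.const_add (W : ℂ)
    rw [add_zero] at h2
    apply h2.congr'
    filter_upwards [eventually_gt_atTop 0] with S hS
    rw [← hid S hS, ← Summable.tsum_add (hsumB S)]
    · congr 1
      ext k
      ring
    · have := (hsum0 S).sub (hsumB S)
      refine this.congr fun k => ?_
      ring
  have hco0 := bohr_coeff (c := fun k => (c k : ℂ)) (d := d) (w := (W:ℂ))
    (by simpa using hc0) hlim0
  have hA0 := bohr_const (c := fun k => (c k : ℂ)) (d := d) (w := (W:ℂ))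
    (by simpa using hc0) hlim0
  -- order one
  have hzero1 : ∀ S : ℝ, 0 < S → ∑' k, (c k : ℂ) * (cexp (-(I * (b k / S : ℝ))) - 1) *
      cexp (I * (d k * S)) = 0 := by
    intro S hS
    have h1 : ∀ k, (c k : ℂ) * (cexp (-(I * (b k / S : ℝ))) - 1) * cexp (I * (d k * S))
        = (c k : ℂ) * cexp (-(I * (b k / S : ℝ))) * cexp (I * (d k * S))
          - (c k : ℂ) * cexp (I * (d k * S)) := by
      intro k; ring
    simp_rw [h1]
    rw [(hsumB S).tsum_sub (hsum0 S), hid S hS, hA0 S, sub_self]
  have hlim1 : Tendsto (fun S : ℝ => ∑' k, ((c k * b k : ℝ) : ℂ) * cexp (I * (d k * S))) atTop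
      (𝓝 0) := by
    have h1 : Tendsto (fun S : ℝ => ∑' k, (c k : ℂ) *
        (b k - I * S * (cexp (-(I * (b k / S : ℝ))) - 1)) * cexp (I * (d k * S))) atTop
        (𝓝 (∑' _ : ι, (0:ℂ))) := by
      apply tendsto_tsum_of_dominated_convergence (hc1.mul_left 2)
      · intro k
        have h2 : Tendsto (fun S : ℝ => |c k| * (b k ^ 2 / 2 / S)) atTop (𝓝 0) := by
          simpa using (hdiv (b k ^ 2 / 2)).const_mul |c k|
        have h2' : ∀ᶠ S : ℝ in atTop, ‖(c k : ℂ) * (b k - I * S *
            (cexp (-(I * (b k / S : ℝ))) - 1)) * cexp (I * (d k * S))‖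
            ≤ |c k| * (b k ^ 2 / 2 / S) := by
          filter_upwards [eventually_gt_atTop 0] with S hS
          rw [norm_term]
          gcongr
          have hS' : (S:ℂ) ≠ 0 := by exact_mod_cast hS.ne'
          have h3 : (b k : ℂ) - I * S * (cexp (-(I * (b k / S : ℝ))) - 1)
              = -(I * S) * (cexp (-(I * (b k / S : ℝ))) - 1 + I * (b k / S : ℝ)) := by
            push_cast
            field_simp
            linear_combination (b k : ℂ) * Complex.I_sq
          rw [h3, norm_mul, norm_neg, norm_mul, Complex.norm_I, one_mul, Complex.norm_real,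
            Real.norm_of_nonneg hS.le]
          calc S * _ ≤ S * ((b k / S) ^ 2 / 2) := by
                gcongr
                exact norm_cexp_second _
            _ = b k ^ 2 / 2 / S := by field_simp
        exact squeeze_zero_norm' h2' h2
      · filter_upwards [eventually_gt_atTop 0] with S hS k
        rw [norm_term]
        have h4 : ‖(b k : ℂ) - I * S * (cexp (-(I * (b k / S : ℝ))) - 1)‖ ≤ 2 * |b k| := by
          calc _ ≤ ‖(b k : ℂ)‖ + ‖I * S * (cexp (-(I * (b k / S : ℝ))) - 1)‖ := norm_sub_le _ _
            _ ≤ |b k| + S * |b k / S| := by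
              rw [norm_mul, norm_mul, Complex.norm_I, one_mul, Complex.norm_real,
                Complex.norm_real, Real.norm_of_nonneg hS.le, Real.norm_eq_abs]
              gcongr
              have h3 := norm_cexp_I_sub_one_le (-(b k / S))
              have h4 : I * ((-(b k / S) : ℝ) : ℂ) = -(I * ((b k / S : ℝ) : ℂ)) := by
                push_cast; ring
              rw [h4, abs_neg] at h3
              exact h3
            _ = 2 * |b k| := by
              rw [abs_div, abs_of_pos hS]
              field_simp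
              ring
        calc |c k| * _ ≤ |c k| * (2 * |b k|) := by gcongr
          _ = 2 * (|c k| * |b k|) := by ring
    rw [tsum_zero] at h1
    apply h1.congr'
    filter_upwards [eventually_gt_atTop 0] with S hS
    have h5 : ∀ k, (c k : ℂ) * (b k - I * S * (cexp (-(I * (b k / S : ℝ))) - 1)) *
        cexp (I * (d k * S)) = ((c k * b k : ℝ) : ℂ) * cexp (I * (d k * S))
        - I * S * ((c k : ℂ) * (cexp (-(I * (b k / S : ℝ))) - 1) * cexp (I * (d k * S))) := by
      intro k
      push_cast
      ring
    simp_rw [h5]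
    have hs3 : Summable (fun k => (c k : ℂ) * (cexp (-(I * (b k / S : ℝ))) - 1) *
        cexp (I * (d k * S))) := by
      refine ((hsumB S).sub (hsum0 S)).congr fun k => ?_
      ring
    rw [(hsum1 S).tsum_sub (hs3.mul_left _), tsum_mul_left, hzero1 S hS, mul_zero, sub_zero]
  have hA1 := bohr_const (c := fun k => ((c k * b k : ℝ) : ℂ)) (d := d) (w := (0:ℂ))
    (by
      refine hc1.congr fun k => ?_
      rw [Complex.norm_real, Real.norm_eq_abs, abs_mul]) hlim1
  -- order two
  have hzero2 : ∀ S : ℝ, 0 < S → ∑' k, (c k : ℂ) * (cexp (-(I * (b k / S : ℝ))) - 1 +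
      I * (b k / S : ℝ)) * cexp (I * (d k * S)) = 0 := by
    intro S hS
    have h1 : ∀ k, (c k : ℂ) * (cexp (-(I * (b k / S : ℝ))) - 1 + I * (b k / S : ℝ)) *
        cexp (I * (d k * S))
        = (c k : ℂ) * (cexp (-(I * (b k / S : ℝ))) - 1) * cexp (I * (d k * S))
          + (I / S) * (((c k * b k : ℝ) : ℂ) * cexp (I * (d k * S))) := by
      intro k
      push_cast
      ring
    simp_rw [h1]
    have hs3 : Summable (fun k => (c k : ℂ) * (cexp (-(I * (b k / S : ℝ))) - 1) *
        cexp (I * (d k * S))) := by
      refine ((hsumB S).sub (hsum0 S)).congr fun k => ?_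
      ring
    rw [hs3.tsum_add ((hsum1 S).mul_left _), tsum_mul_left, hzero1 S hS, hA1 S, mul_zero, add_zero]
  have hlim2 : Tendsto (fun S : ℝ => ∑' k, ((c k * b k ^ 2 : ℝ) : ℂ) * cexp (I * (d k * S))) atTop
      (𝓝 0) := by
    have h1 : Tendsto (fun S : ℝ => ∑' k, (c k : ℂ) *
        ((b k : ℂ) ^ 2 + 2 * S ^ 2 * (cexp (-(I * (b k / S : ℝ))) - 1 + I * (b k / S : ℝ))) *
        cexp (I * (d k * S))) atTop (𝓝 (∑' _ : ι, (0:ℂ))) := by
      apply tendsto_tsum_of_dominated_convergence (hc2.mul_left 2)
      · intro k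
        -- pointwise second order expansion
        have h2 : Tendsto (fun S : ℝ => |c k| * (|b k| ^ 3 / 3 / S)) atTop (𝓝 0) := by
          simpa using (hdiv (|b k| ^ 3 / 3)).const_mul |c k|
        have h2' : ∀ᶠ S : ℝ in atTop, ‖(c k : ℂ) * ((b k : ℂ) ^ 2 + 2 * S ^ 2 *
            (cexp (-(I * (b k / S : ℝ))) - 1 + I * (b k / S : ℝ))) * cexp (I * (d k * S))‖
            ≤ |c k| * (|b k| ^ 3 / 3 / S) := by
          filter_upwards [eventually_gt_atTop 0] with S hS
          rw [norm_term]
          gcongr
          have hS' : (S:ℂ) ≠ 0 := by exact_mod_cast hS.ne'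
          have h3 : (b k : ℂ) ^ 2 + 2 * S ^ 2 * (cexp (-(I * (b k / S : ℝ))) - 1 + I * (b k / S : ℝ))
              = 2 * S ^ 2 * (cexp (-(I * (b k / S : ℝ))) - 1 + I * (b k / S : ℝ)
                + ((b k / S : ℝ) : ℂ) ^ 2 / 2) := by
            push_cast
            field_simp
            ring
          have h6 : ∀ v : ℝ, 0 ≤ v → ‖cexp (-(I * v)) - 1 + I * v + (v:ℂ) ^ 2 / 2‖ ≤ v ^ 3 / 6 := by
            intro v hv
            have hder : ∀ x : ℝ, HasDerivAt
                (fun x : ℝ => cexp (-(I * x)) - 1 + I * x + (x:ℂ) ^ 2 / 2)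
                (-I * cexp (-(I * x)) + I + x) x := by
              intro x
              have h3 : HasDerivAt (fun s : ℝ => (s : ℂ)) 1 x := Complex.ofRealCLM.hasDerivAt
              have h4 : HasDerivAt (fun s : ℝ => -(I * (s : ℂ))) (-I) x :=
                ((h3.const_mul I).neg).congr_deriv (by ring)
              have h5 := h4.cexp
              have h7 := ((h5.sub_const 1).add (h3.const_mul I)).add ((h3.pow 2).div_const 2)
              refine h7.congr_deriv ?_
              push_cast
              ring
            have hB : ∀ x : ℝ, HasDerivAt (fun x : ℝ => x ^ 3 / 6) (x ^ 2 / 2) x := by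
              intro x
              refine ((hasDerivAt_pow 3 x).div_const 6).congr_deriv ?_
              push_cast
              ring
            have := image_norm_le_of_norm_deriv_right_le_deriv_boundary (a := 0) (b := v)
              (f := fun x : ℝ => cexp (-(I * x)) - 1 + I * x + (x:ℂ) ^ 2 / 2)
              (f' := fun x : ℝ => -I * cexp (-(I * x)) + I + x)
              (B := fun x : ℝ => x ^ 3 / 6) (B' := fun x => x ^ 2 / 2)
              (fun x _ => (hder x).continuousAt.continuousWithinAt)
              (fun x _ => (hder x).hasDerivWithinAt) (by simp) hB ?_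
            · exact this ⟨hv, le_rfl⟩
            · intro x _
              have e : -I * cexp (-(I * x)) + I + x
                  = -I * (cexp (-(I * x)) - 1 + I * x) := by
                linear_combination (x:ℂ) * Complex.I_sq
              rw [e, norm_mul, norm_neg, Complex.norm_I, one_mul]
              exact norm_cexp_second x
          have h7 : ∀ v : ℝ, ‖cexp (-(I * v)) - 1 + I * v + (v:ℂ) ^ 2 / 2‖ ≤ |v| ^ 3 / 6 := by
            intro v
            rcases le_total 0 v with hv | hv
            · rw [abs_of_nonneg hv]; exact h6 v hv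
            · have h8 := h6 (-v) (by linarith)
              have h9 : cexp (-(I * ((-v : ℝ) : ℂ))) - 1 + I * ((-v : ℝ) : ℂ)
                  + ((-v : ℝ) : ℂ) ^ 2 / 2
                  = (starRingEnd ℂ) (cexp (-(I * v)) - 1 + I * v + (v:ℂ) ^ 2 / 2) := by
                simp only [map_add, map_sub, map_one, map_mul, conj_I, conj_ofReal,
                  ← Complex.exp_conj, map_neg, map_div₀, map_pow, map_ofNat]
                push_cast
                congr 1
                · congr 1
                  · congr 2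
                    ring
                  · ring
                · ring
              rw [h9, RCLike.norm_conj] at h8
              rw [abs_of_nonpos hv]
              exact h8
          rw [h3, norm_mul]
          have h10 : ‖(2 * S ^ 2 : ℂ)‖ = 2 * S ^ 2 := by
            rw [norm_mul, norm_pow, Complex.norm_real, Real.norm_of_nonneg hS.le]
            norm_num
          rw [h10]
          calc 2 * S ^ 2 * _ ≤ 2 * S ^ 2 * (|b k / S| ^ 3 / 6) := by
                gcongr
                exact h7 _
            _ = |b k| ^ 3 / 3 / S := by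
                rw [abs_div, abs_of_pos hS]
                field_simp
                ring
        exact squeeze_zero_norm' h2' h2
      · filter_upwards [eventually_gt_atTop 0] with S hS k
        rw [norm_term]
        have h10 : ‖(2 * S ^ 2 : ℂ)‖ = 2 * S ^ 2 := by
          rw [norm_mul, norm_pow, Complex.norm_real, Real.norm_of_nonneg hS.le]
          norm_num
        have h4 : ‖(b k : ℂ) ^ 2 + 2 * S ^ 2 * (cexp (-(I * (b k / S : ℝ))) - 1 +
            I * (b k / S : ℝ))‖ ≤ 2 * b k ^ 2 := by
          calc _ ≤ ‖(b k : ℂ) ^ 2‖ + ‖2 * S ^ 2 * (cexp (-(I * (b k / S : ℝ))) - 1 +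
              I * (b k / S : ℝ))‖ := norm_add_le _ _
            _ ≤ b k ^ 2 + 2 * S ^ 2 * ((b k / S) ^ 2 / 2) := by
              rw [norm_mul, h10, norm_pow, Complex.norm_real, Real.norm_eq_abs, sq_abs]
              gcongr
              exact norm_cexp_second _
            _ = 2 * b k ^ 2 := by
              field_simp
              ring
        calc |c k| * _ ≤ |c k| * (2 * b k ^ 2) := by gcongr
          _ = 2 * (|c k| * b k ^ 2) := by ring
    rw [tsum_zero] at h1
    apply h1.congr'
    filter_upwards [eventually_gt_atTop 0] with S hS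
    have h5 : ∀ k, (c k : ℂ) * ((b k : ℂ) ^ 2 + 2 * S ^ 2 * (cexp (-(I * (b k / S : ℝ))) - 1 +
        I * (b k / S : ℝ))) * cexp (I * (d k * S))
        = ((c k * b k ^ 2 : ℝ) : ℂ) * cexp (I * (d k * S))
        + 2 * S ^ 2 * ((c k : ℂ) * (cexp (-(I * (b k / S : ℝ))) - 1 + I * (b k / S : ℝ)) *
          cexp (I * (d k * S))) := by
      intro k
      push_cast
      ring
    simp_rw [h5]
    have hs3 : Summable (fun k => (c k : ℂ) * (cexp (-(I * (b k / S : ℝ))) - 1 +
        I * (b k / S : ℝ)) * cexp (I * (d k * S))) := by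
      refine (((hsumB S).sub (hsum0 S)).add ((hsum1 S).mul_left (I / S))).congr fun k => ?_
      push_cast
      ring
    rw [(hsum2 S).tsum_add (hs3.mul_left _), tsum_mul_left, hzero2 S hS, mul_zero, add_zero]
  have hco2 := bohr_coeff (c := fun k => ((c k * b k ^ 2 : ℝ) : ℂ)) (d := d) (w := (0:ℂ))
    (by
      refine hc2.congr fun k => ?_
      rw [Complex.norm_real, Real.norm_eq_abs, abs_mul, abs_of_nonneg (sq_nonneg (b k))]) hlim2
  constructor
  · intro lam
    have h1 := hco0 lam
    have h2 : (∑' k, if d k = lam then (c k : ℂ) else 0)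
        = ((∑' k, if d k = lam then c k else 0 : ℝ) : ℂ) := by
      rw [Complex.ofReal_tsum]
      congr 1
      ext k
      split_ifs <;> simp
    rw [h2] at h1
    have h3 : (if lam = 0 then (W:ℂ) else 0) = ((if lam = 0 then W else 0 : ℝ) : ℂ) := by
      split_ifs <;> simp
    rw [h3] at h1
    exact_mod_cast h1
  · have h1 := hco2 0
    have h2 : (∑' k, if d k = 0 then ((c k * b k ^ 2 : ℝ) : ℂ) else 0)
        = ((∑' k, if d k = 0 then c k * b k ^ 2 else 0 : ℝ) : ℂ) := by
      rw [Complex.ofReal_tsum]
      congr 1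
      ext k
      split_ifs <;> simp
    rw [h2] at h1
    simp only [if_true] at h1
    exact_mod_cast h1

end Extraction

end Pool.Agent.H39
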