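import Pool.Agent.H39.Ident
import Pool.Agent.H39.Extract

open MeasureTheory ProbabilityTheory Polynomial Set Filter Topology Complex
open scoped Nat NNReal ENNReal

namespace Pool.Agent.H39

/-- Analytic continuation of a real identity to the boundary of the half plane. -/
theorem boundary_identity {ι : Type*} {c : ι → ℝ} {b d : ι → ℝ} {W α : ℝ}
    (hb : ∀ k, 0 ≤ b k) (hd : ∀ k, 0 ≤ d k) (hc : Summable (fun k => |c k|))
    (hreal : ∀ z : ℝ, 0 < z →
      HasSum (fun k => c k * Real.exp (-(b k * z + d k / z))) (W * Real.exp (-α * z)))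
    {S : ℝ} (hS : 0 < S) :
    ∑' k, (c k : ℂ) * cexp (-(I * ((b k - α) / S : ℝ))) * cexp (I * (d k * S)) = W := by
  set U : Set ℂ := {z | 0 < z.re} with hU
  have hUo : IsOpen U := isOpen_lt continuous_const Complex.continuous_re
  have hUc : IsPreconnected U := by
    have : Convex ℝ U := convex_halfSpace_re_gt 0
    exact this.isPreconnected
  set F : ι → ℂ → ℂ := fun k z => (c k : ℂ) * cexp (-(b k * z + d k / z)) with hF
  have hne : ∀ z ∈ U, z ≠ 0 := by
    intro z hz h0
    rw [hU] at hz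
    simp only [mem_ofPred_eq] at hz
    rw [h0] at hz
    simp at hz
  have hbound : ∀ k, ∀ z : ℂ, 0 ≤ z.re → ‖F k z‖ ≤ |c k| := by
    intro k z hz
    rw [hF]
    simp only
    rw [norm_mul, Complex.norm_real, Real.norm_eq_abs, Complex.norm_exp]
    have h1 : 0 ≤ (b k * z + d k / z : ℂ).re := by
      rw [Complex.add_re, Complex.re_ofReal_mul]
      have h2 : ((d k : ℂ) / z).re = d k * (z⁻¹).re := by
        rw [div_eq_mul_inv, Complex.re_ofReal_mul]
      rw [h2, Complex.inv_re]
      have h3 : 0 ≤ z.re / Complex.normSq z := div_nonneg hz (Complex.normSq_nonneg z)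
      have := mul_nonneg (hb k) hz
      have := mul_nonneg (hd k) h3
      linarith
    have h2 : Real.exp (-(b k * z + d k / z : ℂ)).re ≤ 1 := by
      rw [Real.exp_le_one_iff, Complex.neg_re]
      linarith
    calc |c k| * _ ≤ |c k| * 1 := by gcongr
      _ = _ := mul_one _
  have hdiffF : ∀ k, DifferentiableOn ℂ (F k) U := by
    intro k z hz
    have := hne z hz
    apply DifferentiableAt.differentiableWithinAt
    rw [hF]
    fun_prop (disch := assumption)
  have hL : DifferentiableOn ℂ (fun z => ∑' k, F k z) U :=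
    differentiableOn_tsum_of_summable_norm hc hdiffF hUo
      (fun k z hz => hbound k z (le_of_lt hz))
  have hR : DifferentiableOn ℂ (fun z : ℂ => (W : ℂ) * cexp (-α * z)) U := by
    fun_prop
  have heq : EqOn (fun z => ∑' k, F k z) (fun z : ℂ => (W : ℂ) * cexp (-α * z)) U := by
    apply (hL.analyticOnNhd hUo).eqOn_of_preconnected_of_frequently_eq (hR.analyticOnNhd hUo) hUc
      (z₀ := 1) (by rw [hU]; simp)
    have hmap : Tendsto (fun t : ℝ => (t : ℂ)) (𝓝[≠] 1) (𝓝[≠] 1) := by
      apply tendsto_nhdsWithin_of_tendsto_nhds_of_eventually_within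
      · have : Tendsto (fun t : ℝ => (t : ℂ)) (𝓝 1) (𝓝 ((1:ℝ):ℂ)) :=
          Complex.continuous_ofReal.tendsto 1
        rw [Complex.ofReal_one] at this
        exact this.mono_left nhdsWithin_le_nhds
      · filter_upwards [self_mem_nhdsWithin] with t ht h1
        apply ht
        have h2 : (t : ℂ) = 1 := h1
        exact_mod_cast h2
    have hev : ∀ᶠ t : ℝ in 𝓝[≠] 1, (∑' k, F k (t:ℂ)) = (W : ℂ) * cexp (-α * (t:ℂ)) := by
      have hpos : ∀ᶠ t : ℝ in 𝓝[≠] 1, 0 < t :=
        Filter.Eventually.filter_mono nhdsWithin_le_nhds (lt_mem_nhds one_pos)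
      filter_upwards [hpos] with t ht
      have h1 := (Complex.hasSum_ofReal.2 (hreal t ht)).tsum_eq
      have h2 : ∀ k, F k (t:ℂ) = ((c k * Real.exp (-(b k * t + d k / t)) : ℝ) : ℂ) := by
        intro k
        rw [hF]
        push_cast
        rfl
      simp_rw [h2]
      rw [h1]
      push_cast
      rfl
    have hfr : ∃ᶠ t : ℝ in 𝓝[≠] 1, (∑' k, F k (t:ℂ)) = (W : ℂ) * cexp (-α * (t:ℂ)) :=
      hev.frequently
    exact hmap.frequently hfr
  -- approach the boundary point `I / S`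
  set w : ℂ := I / S with hw
  have hSc : (S:ℂ) ≠ 0 := by exact_mod_cast hS.ne'
  have hw0 : w ≠ 0 := div_ne_zero I_ne_zero hSc
  have hwre : w.re = 0 := by
    rw [hw, Complex.div_ofReal_re]
    simp
  have hpath : Tendsto (fun ε : ℝ => (ε : ℂ) + w) (𝓝[>] 0) (𝓝 w) := by
    have h1 : Tendsto (fun ε : ℝ => (ε : ℂ) + w) (𝓝 0) (𝓝 (((0:ℝ):ℂ) + w)) := by
      have : Continuous (fun ε : ℝ => (ε : ℂ) + w) := by fun_prop
      exact this.tendsto 0
    simp only [Complex.ofReal_zero, zero_add] at h1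
    exact h1.mono_left nhdsWithin_le_nhds
  have hLlim : Tendsto (fun ε : ℝ => ∑' k, F k ((ε : ℂ) + w)) (𝓝[>] 0) (𝓝 (∑' k, F k w)) := by
    apply tendsto_tsum_of_dominated_convergence hc
    · intro k
      have hcont : ContinuousAt (F k) w := by
        rw [hF]
        fun_prop (disch := assumption)
      exact hcont.tendsto.comp hpath
    · filter_upwards [self_mem_nhdsWithin] with ε hε k
      apply hbound
      have : (0:ℝ) < ε := hε
      simp [hwre]
      linarith
  have hRlim : Tendsto (fun ε : ℝ => (W : ℂ) * cexp (-α * ((ε : ℂ) + w))) (𝓝[>] 0)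
      (𝓝 ((W : ℂ) * cexp (-α * w))) := by
    have hcont : ContinuousAt (fun z : ℂ => (W : ℂ) * cexp (-α * z)) w := by fun_prop
    exact hcont.tendsto.comp hpath
  have hall : ∑' k, F k w = (W : ℂ) * cexp (-α * w) := by
    refine tendsto_nhds_unique hLlim (hRlim.congr' ?_)
    filter_upwards [self_mem_nhdsWithin] with ε hε
    have : (0:ℝ) < ε := hε
    symm
    apply heq
    rw [hU]
    simp [hwre, this]
  have hfin : ∀ k, (c k : ℂ) * cexp (-(I * ((b k - α) / S : ℝ))) * cexp (I * (d k * S))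
      = cexp (α * w) * F k w := by
    intro k
    have h1 : (d k : ℂ) / w = -(I * (d k * S)) := by
      rw [hw]
      field_simp
      rw [Complex.I_sq]
      ring
    have h2 : -(I * ((b k - α) / S : ℝ)) + I * (d k * S)
        = α * w + -(b k * w + d k / w) := by
      rw [h1, hw]
      push_cast
      field_simp
      ring
    calc (c k : ℂ) * cexp (-(I * ((b k - α) / S : ℝ))) * cexp (I * (d k * S))
        = (c k : ℂ) * (cexp (-(I * ((b k - α) / S : ℝ))) * cexp (I * (d k * S))) := by ring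
      _ = (c k : ℂ) * (cexp (α * w) * cexp (-(b k * w + d k / w))) := by
          rw [← Complex.exp_add, h2, Complex.exp_add]
      _ = cexp (α * w) * F k w := by
          rw [hF]
          ring
  simp_rw [hfin]
  rw [tsum_mul_left, hall, mul_left_comm, ← Complex.exp_add]
  have : (α : ℂ) * w + -α * w = 0 := by ring
  rw [this, Complex.exp_zero, mul_one]

lemma poly_bound (x : ℝ) : (1 + x ^ 2) ^ 2 * Real.exp (-x ^ 2 / 4)
    ≤ 1600 * Real.exp (-x ^ 2 / 5) := by
  have h1 : 1 + x ^ 2 ≤ 40 * Real.exp (x ^ 2 / 40) := by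
    have := Real.add_one_le_exp (x ^ 2 / 40)
    nlinarith [sq_nonneg x]
  have h2 : (1 + x ^ 2) ^ 2 ≤ (40 * Real.exp (x ^ 2 / 40)) ^ 2 := by gcongr
  calc (1 + x ^ 2) ^ 2 * Real.exp (-x ^ 2 / 4)
      ≤ (40 * Real.exp (x ^ 2 / 40)) ^ 2 * Real.exp (-x ^ 2 / 4) := by gcongr
    _ = 1600 * (Real.exp (x ^ 2 / 40) * Real.exp (x ^ 2 / 40) * Real.exp (-x ^ 2 / 4)) := by ring
    _ = _ := by
      rw [← Real.exp_add, ← Real.exp_add]
      congr 2
      ring

/-- Conclusion: the jump set is a single point `x₀` with `x₀ ^ 2 = a ^ 2`. -/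
theorem conclusion {χ : ℝ → ℝ} {J : Set ℝ} (h : PM χ) (hs : IsStep χ J)
    (hJ : Summable (fun x : J => Real.exp (-(x:ℝ) ^ 2 / 5))) {a c : ℝ} (hcpos : 0 < c)
    (hco : ∀ m : ℕ, (hc χ (m + 1)) ^ 2 = (He m a) ^ 2 / c) :
    Real.pi / (2 * c) * Real.exp (a ^ 2 / 2) = Real.exp (-a ^ 2 / 2) := by
  classical
  have : Countable J := (countable_of_fin hs.fin).to_subtype
  have hpi := Real.pi_pos
  set W : ℝ := Real.pi / (2 * c) * Real.exp (a ^ 2 / 2) with hW
  have hWpos : 0 < W := by positivity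
  set cc : J × J → ℝ := fun p => (χ p.1 * Real.exp (-(p.1:ℝ) ^ 2 / 4)) *
        (χ p.2 * Real.exp (-(p.2:ℝ) ^ 2 / 4)) with hcc
  set bb : J × J → ℝ := fun p => ((p.1:ℝ) + p.2) ^ 2 / 8 with hbb
  set dd' : J × J → ℝ := fun p => ((p.1:ℝ) - p.2) ^ 2 / 8 with hdd
  set BB : J × J → ℝ := fun p => bb p - a ^ 2 / 2 with hBB
  have habs : ∀ p : J × J, |cc p| = Real.exp (-(p.1:ℝ) ^ 2 / 4) * Real.exp (-(p.2:ℝ) ^ 2 / 4) := by
    intro p
    rw [hcc]
    simp only
    rw [abs_mul, abs_mul, abs_mul, h.abs, h.abs, one_mul, one_mul, abs_of_pos (Real.exp_pos _),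
      abs_of_pos (Real.exp_pos _)]
  -- dominating family
  have hdom : Summable (fun p : J × J => (1 + a ^ 2) ^ 2 *
      ((1600 * Real.exp (-(p.1:ℝ) ^ 2 / 5)) * (1600 * Real.exp (-(p.2:ℝ) ^ 2 / 5)))) := by
    apply Summable.mul_left
    apply Summable.mul_of_nonneg (hJ.mul_left 1600) (hJ.mul_left 1600)
    · intro x; positivity
    · intro x; positivity
  have hG : ∀ p : J × J, |BB p| ≤ (1 + a ^ 2) * ((1 + (p.1:ℝ) ^ 2) * (1 + (p.2:ℝ) ^ 2)) := by
    intro p
    rw [hBB, hbb]
    simp only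
    rw [abs_le]
    have h1 : 0 ≤ a ^ 2 := sq_nonneg a
    have h2 : 0 ≤ (p.1:ℝ) ^ 2 := sq_nonneg _
    have h3 : 0 ≤ (p.2:ℝ) ^ 2 := sq_nonneg _
    have h4 : 0 ≤ ((p.1:ℝ) ^ 2) * ((p.2:ℝ) ^ 2) := by positivity
    have h5 : 0 ≤ a ^ 2 * ((p.1:ℝ) ^ 2) := by positivity
    have h6 : 0 ≤ a ^ 2 * ((p.2:ℝ) ^ 2) := by positivity
    have h7 : 0 ≤ a ^ 2 * (((p.1:ℝ) ^ 2) * ((p.2:ℝ) ^ 2)) := by positivity
    constructor
    · nlinarith [sq_nonneg ((p.1:ℝ) + p.2)]
    · nlinarith [sq_nonneg ((p.1:ℝ) - p.2)]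
  have hG1 : ∀ p : J × J, 1 ≤ (1 + a ^ 2) * ((1 + (p.1:ℝ) ^ 2) * (1 + (p.2:ℝ) ^ 2)) := by
    intro p
    have h1 : 1 ≤ 1 + a ^ 2 := by linarith [sq_nonneg a]
    have h2 : 1 ≤ 1 + (p.1:ℝ) ^ 2 := by linarith [sq_nonneg (p.1:ℝ)]
    have h3 : 1 ≤ 1 + (p.2:ℝ) ^ 2 := by linarith [sq_nonneg (p.2:ℝ)]
    calc (1:ℝ) = 1 * (1 * 1) := by norm_num
      _ ≤ _ := by gcongr
  have hGdom : ∀ p : J × J, |cc p| *
      ((1 + a ^ 2) * ((1 + (p.1:ℝ) ^ 2) * (1 + (p.2:ℝ) ^ 2))) ^ 2 ≤ (1 + a ^ 2) ^ 2 *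
      ((1600 * Real.exp (-(p.1:ℝ) ^ 2 / 5)) * (1600 * Real.exp (-(p.2:ℝ) ^ 2 / 5))) := by
    intro p
    rw [habs]
    have h1 := poly_bound (p.1:ℝ)
    have h2 := poly_bound (p.2:ℝ)
    calc _ = (1 + a ^ 2) ^ 2 * (((1 + (p.1:ℝ) ^ 2) ^ 2 * Real.exp (-(p.1:ℝ) ^ 2 / 4)) *
          ((1 + (p.2:ℝ) ^ 2) ^ 2 * Real.exp (-(p.2:ℝ) ^ 2 / 4))) := by ring
      _ ≤ _ := by gcongr
  have hc0 : Summable (fun k => |cc k|) := by
    refine Summable.of_nonneg_of_le (fun k => abs_nonneg _) (fun k => ?_) hdom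
    refine le_trans ?_ (hGdom k)
    have := one_le_pow₀ (hG1 k) (n := 2)
    nlinarith [abs_nonneg (cc k)]
  have hc1 : Summable (fun k => |cc k| * |BB k|) := by
    refine Summable.of_nonneg_of_le (fun k => by positivity) (fun k => ?_) hdom
    refine le_trans ?_ (hGdom k)
    have h1 := hG k
    have h2 := hG1 k
    gcongr
    nlinarith
  have hc2 : Summable (fun k => |cc k| * BB k ^ 2) := by
    refine Summable.of_nonneg_of_le (fun k => by positivity) (fun k => ?_) hdom
    refine le_trans ?_ (hGdom k)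
    have h1 := hG k
    rw [← sq_abs (BB k)]
    gcongr
  have hid : ∀ S : ℝ, 0 < S →
      ∑' k, (cc k : ℂ) * cexp (-(I * (BB k / S : ℝ))) * cexp (I * (dd' k * S)) = W := by
    intro S hS
    have := boundary_identity (c := cc) (b := bb) (d := dd') (W := W) (α := a ^ 2 / 2)
      (fun k => by rw [hbb]; positivity) (fun k => by rw [hdd]; positivity) hc0
      (fun z hz => zeta_identity h hs hJ hco hz) hS
    exact this
  obtain ⟨hfreq, hsec⟩ := extract (c := cc) (b := BB) (d := dd') (W := W) hc0 hc1 hc2 hid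
  -- diagonal values
  have hd0 : ∀ k : J × J, dd' k = 0 ↔ k.1 = k.2 := by
    intro k
    rw [hdd]
    simp only
    constructor
    · intro h0
      have h1 : ((k.1:ℝ) - k.2) ^ 2 = 0 := by linarith
      have h2 := pow_eq_zero_iff (two_ne_zero) |>.1 h1
      exact Subtype.ext (by linarith)
    · intro h0
      rw [h0]
      simp
  have hccdiag : ∀ x : J, cc (x, x) = Real.exp (-(x:ℝ) ^ 2 / 2) := by
    intro x
    rw [hcc]
    simp only
    have h1 := h.mul_self (x:ℝ)
    calc _ = (χ x * χ x) * (Real.exp (-(x:ℝ) ^ 2 / 4) * Real.exp (-(x:ℝ) ^ 2 / 4)) := by ring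
      _ = _ := by
        rw [h1, one_mul, ← Real.exp_add]
        congr 1
        ring
  -- every jump satisfies `x ^ 2 = a ^ 2`
  have hxa : ∀ x : J, (x:ℝ) ^ 2 = a ^ 2 := by
    have hsum2 : Summable (fun k : J × J => if dd' k = 0 then cc k * BB k ^ 2 else 0) := by
      refine Summable.of_norm_bounded hc2 fun k => ?_
      split_ifs
      · rw [norm_mul, Real.norm_eq_abs, Real.norm_eq_abs, abs_of_nonneg (sq_nonneg (BB k))]
      · rw [norm_zero]; positivity
    have hnn : ∀ k : J × J, 0 ≤ (if dd' k = 0 then cc k * BB k ^ 2 else 0) := by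
      rintro ⟨k1, k2⟩
      split_ifs with h0
      · have h1 := (hd0 _).1 h0
        simp only at h1
        rw [← h1, hccdiag]
        positivity
      · exact le_rfl
    have hz := (hasSum_zero_iff_of_nonneg hnn).1 (hsum2.hasSum_iff.2 hsec)
    intro x
    have h1 := congrFun hz (x, x)
    simp only [Pi.zero_apply] at h1
    rw [if_pos ((hd0 (x, x)).2 rfl), hccdiag] at h1
    have h2 : BB (x, x) ^ 2 = 0 := by
      rcases mul_eq_zero.1 h1 with h3 | h3
      · exact absurd h3 (Real.exp_pos _).ne'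
      · exact h3
    have h3 := pow_eq_zero_iff (two_ne_zero) |>.1 h2
    rw [hBB, hbb] at h3
    simp only at h3
    nlinarith
  -- uniqueness of the jump
  have huniq : ∀ x y : J, x = y := by
    intro x y
    by_contra hne
    have hlam : dd' (x, y) ≠ 0 := fun h0 => hne ((hd0 _).1 h0)
    have h1 := hfreq (dd' (x, y))
    rw [if_neg hlam] at h1
    have hxy : (y:ℝ) = -x := by
      have h2 : ((y:ℝ) - x) * (y + x) = 0 := by
        have := hxa x
        have := hxa y
        nlinarith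
      rcases mul_eq_zero.1 h2 with h3 | h3
      · exact absurd (Subtype.ext (by linarith)) hne
      · linarith
    set σ : ℝ := χ x * χ y with hσ
    have hval : ∀ k : J × J, dd' k = dd' (x, y) → σ * cc k = Real.exp (-a ^ 2 / 2) := by
      rintro ⟨k1, k2⟩ hk
      have e1 := hxa k1
      have e2 := hxa k2
      have e3 := hxa x
      have hk12 : k1 ≠ k2 := by
        intro h0
        rw [← hk] at hlam
        exact hlam ((hd0 _).2 h0)
      have hcase : ∀ k : J, k = x ∨ k = y := by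
        intro k
        have h2 : ((k:ℝ) - x) * (k + x) = 0 := by
          have := hxa k
          nlinarith
        rcases mul_eq_zero.1 h2 with h3 | h3
        · left; exact Subtype.ext (by linarith)
        · right; exact Subtype.ext (by linarith)
      have hex : Real.exp (-(k1:ℝ) ^ 2 / 4) * Real.exp (-(k2:ℝ) ^ 2 / 4) = Real.exp (-a ^ 2 / 2) := by
        rw [← Real.exp_add, e1, e2]
        congr 1
        ring
      have hprod : χ k1 * χ k2 = σ := by
        rcases hcase k1 with h3 | h3 <;> rcases hcase k2 with h4 | h4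
        · exact absurd (h3.trans h4.symm) hk12
        · rw [h3, h4]
        · rw [h3, h4, hσ]; ring
        · exact absurd (h3.trans h4.symm) hk12
      have hσσ : σ * σ = 1 := by
        rw [hσ]
        have := h.mul_self (x:ℝ)
        have := h.mul_self (y:ℝ)
        calc χ x * χ y * (χ x * χ y) = (χ x * χ x) * (χ y * χ y) := by ring
          _ = 1 := by rw [h.mul_self, h.mul_self, one_mul]
      rw [hcc]
      simp only
      calc σ * (χ k1 * Real.exp (-(k1:ℝ) ^ 2 / 4) * (χ k2 * Real.exp (-(k2:ℝ) ^ 2 / 4)))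
          = σ * (χ k1 * χ k2) * (Real.exp (-(k1:ℝ) ^ 2 / 4) * Real.exp (-(k2:ℝ) ^ 2 / 4)) := by ring
        _ = _ := by rw [hprod, hσσ, one_mul, hex]
    have hsumf : Summable (fun k : J × J => if dd' k = dd' (x, y) then cc k else 0) := by
      refine Summable.of_norm_bounded hc0 fun k => ?_
      split_ifs
      · exact le_rfl
      · rw [norm_zero]; positivity
    have h2 : HasSum (fun k : J × J => if dd' k = dd' (x, y) then σ * cc k else 0) 0 := by
      have h3 := hsumf.hasSum.mul_left σ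
      rw [h1, mul_zero] at h3
      refine hasSum_congr' h3 (fun k => ?_) rfl
      split_ifs <;> simp
    have hnn : ∀ k : J × J, 0 ≤ (if dd' k = dd' (x, y) then σ * cc k else 0) := by
      intro k
      split_ifs with h0
      · rw [hval k h0]; positivity
      · exact le_rfl
    have hz := congrFun ((hasSum_zero_iff_of_nonneg hnn).1 h2) (x, y)
    simp only [if_true, Pi.zero_apply] at hz
    rw [hval _ rfl] at hz
    exact absurd hz (Real.exp_pos _).ne'
  -- total mass
  have hmass := hfreq 0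
  rw [if_pos rfl] at hmass
  have hne : Nonempty J := by
    by_contra hcon
    rw [not_nonempty_iff] at hcon
    have : (∑' k : J × J, if dd' k = 0 then cc k else 0) = 0 := by
      rw [tsum_empty]
    rw [this] at hmass
    linarith
  obtain ⟨x⟩ := hne
  have hone : (∑' k : J × J, if dd' k = 0 then cc k else 0) = Real.exp (-a ^ 2 / 2) := by
    rw [tsum_eq_single (x, x)]
    · rw [if_pos ((hd0 (x, x)).2 rfl), hccdiag, hxa x]
    · rintro ⟨k1, k2⟩ hk
      exact absurd (Prod.ext (huniq k1 x) (huniq k2 x)) hk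
  rw [← hmass, hone]

end Pool.Agent.H39
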