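import Mathlib

open MeasureTheory ProbabilityTheory Polynomial Complex
open scoped Nat

namespace Pool.Agent.H39

/-- The value at a real point of the probabilists' Hermite polynomial. -/
noncomputable def He (n : ℕ) (x : ℝ) : ℝ := aeval x (hermite n)

lemma derivative_hermite (n : ℕ) :
    derivative (hermite (n + 1)) = ((n : ℤ[X]) + 1) * hermite n := by
  induction n with
  | zero => simp [hermite_zero]
  | succ n ih =>
    rw [hermite_succ (n + 1), derivative_sub, derivative_mul, derivative_X, ih]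
    have h2 : derivative (((n : ℤ[X]) + 1) * hermite n)
        = ((n : ℤ[X]) + 1) * derivative (hermite n) := by
      rw [derivative_mul]
      simp
    rw [h2]
    have h3 := hermite_succ n
    push_cast
    linear_combination (-((n : ℤ[X]) + 1)) * h3

lemma He_zero (x : ℝ) : He 0 x = 1 := by simp [He]

lemma He_one (x : ℝ) : He 1 x = x := by simp [He]

lemma He_succ_succ (n : ℕ) (x : ℝ) : He (n + 2) x = x * He (n + 1) x - (n + 1) * He n x := by
  have h := hermite_succ (n + 1)
  rw [derivative_hermite] at h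
  simp only [He]
  rw [h]
  simp

lemma He_succ (n : ℕ) (x : ℝ) : He (n + 1) x = x * He n x - aeval x (derivative (hermite n)) := by
  simp only [He]
  rw [hermite_succ n]
  simp

lemma hasDerivAt_He (n : ℕ) (x : ℝ) : HasDerivAt (He n) (aeval x (derivative (hermite n))) x := by
  unfold He
  exact (hermite n).hasDerivAt_aeval x

lemma continuous_He (n : ℕ) : Continuous (He n) := by
  unfold He
  exact (hermite n).continuous_aeval

lemma hasDerivAt_exp_sq (x : ℝ) :
    HasDerivAt (fun x : ℝ => Real.exp (-x ^ 2 / 2)) (-x * Real.exp (-x ^ 2 / 2)) x := by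
  have h1 : HasDerivAt (fun x : ℝ => -x ^ 2 / 2) (-x) x :=
    (((hasDerivAt_pow 2 x).neg).div_const 2).congr_deriv (by simp; ring)
  exact h1.exp.congr_deriv (by ring)

lemma hasDerivAt_He_mul_exp (n : ℕ) (x : ℝ) :
    HasDerivAt (fun x => He n x * Real.exp (-x ^ 2 / 2))
      (-(He (n + 1) x * Real.exp (-x ^ 2 / 2))) x := by
  have h := (hasDerivAt_He n x).mul (hasDerivAt_exp_sq x)
  refine h.congr_deriv ?_
  rw [He_succ]
  ring

/-! ### Integrability against the Gaussian measure -/

/-- standard Gaussian measure -/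
noncomputable abbrev gam : Measure ℝ := gaussianReal 0 1

lemma gpdf_eq (x : ℝ) : gaussianPDFReal 0 1 x = (√(2 * Real.pi))⁻¹ * Real.exp (-x ^ 2 / 2) := by
  simp [gaussianPDFReal]

lemma integral_gam {E : Type*} [NormedAddCommGroup E] [NormedSpace ℝ E] (f : ℝ → E) :
    ∫ x, f x ∂gam = ∫ x, gaussianPDFReal 0 1 x • f x :=
  integral_gaussianReal_eq_integral_smul one_ne_zero

lemma integrable_gam_iff {E : Type*} [NormedAddCommGroup E] [NormedSpace ℝ E] (f : ℝ → E) :
    Integrable f gam ↔ Integrable (fun x => gaussianPDFReal 0 1 x • f x) := by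
  unfold gam
  rw [gaussianReal_of_var_ne_zero 0 one_ne_zero]
  rw [integrable_withDensity_iff_integrable_smul' (measurable_gaussianPDF 0 1)]
  · simp only [toReal_gaussianPDF]
  · exact Filter.Eventually.of_forall fun x => gaussianPDF_lt_top

lemma integrable_pow_gam (c : ℝ) (m : ℕ) : Integrable (fun s : ℝ => (c + |s|) ^ m) gam := by
  have h1 : MemLp (fun s : ℝ => c + |s|) m gam := by
    have h2 : MemLp (fun s : ℝ => s) (m : ENNReal) gam :=
      memLp_id_gaussianReal' (m : ENNReal) (by simp)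
    exact (memLp_const c).add h2.abs
  have h3 := h1.integrable_norm_pow'
  refine h3.mono' ?_ ?_
  · exact (by fun_prop : Measurable (fun s : ℝ => (c + |s|) ^ m)).aestronglyMeasurable
  · filter_upwards with s
    simp [norm_pow]

lemma integrable_exp_sq_gam {b : ℝ} (hb : b < 1) :
    Integrable (fun s : ℝ => Real.exp (b * s ^ 2 / 2)) gam := by
  rw [integrable_gam_iff]
  have h := (integrable_exp_neg_mul_sq (b := (1 - b) / 2) (by linarith)).const_mul
    ((√(2 * Real.pi))⁻¹)
  convert h using 2 with s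
  rw [gpdf_eq, smul_eq_mul, mul_assoc, ← Real.exp_add]
  congr 2
  ring

lemma integrable_exp_abs_sq_gam {b : ℝ} (hb : b < 1) (c : ℝ) :
    Integrable (fun s : ℝ => Real.exp (c * |s| + b * s ^ 2 / 2)) gam := by
  set e := (1 - b) / 2 with he
  have hepos : 0 < e := by rw [he]; linarith
  have h := (integrable_exp_sq_gam (b := b + e) (by rw [he]; linarith)).const_mul
    (Real.exp (c ^ 2 / (2 * e)))
  refine h.mono' ?_ ?_
  · exact (by fun_prop :
      Measurable (fun s : ℝ => Real.exp (c * |s| + b * s ^ 2 / 2))).aestronglyMeasurable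
  · filter_upwards with s
    rw [Real.norm_eq_abs, abs_of_pos (Real.exp_pos _), ← Real.exp_add]
    apply Real.exp_le_exp.2
    have h1 : 0 ≤ (c / e - |s|) ^ 2 * e / 2 := by positivity
    have h2 : (c / e - |s|) ^ 2 * e / 2 = c ^ 2 / (2 * e) - c * |s| + e * s ^ 2 / 2 := by
      field_simp
      rw [sub_sq, mul_pow, sq_abs]
      ring
    nlinarith

lemma norm_add_I_le (x s : ℝ) : ‖(x : ℂ) + I * s‖ ≤ |x| + |s| := by
  calc ‖(x : ℂ) + I * s‖ ≤ ‖(x : ℂ)‖ + ‖I * (s : ℂ)‖ := norm_add_le _ _
    _ = |x| + |s| := by simp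

lemma integrable_cpow_gam (x : ℝ) (l k : ℕ) :
    Integrable (fun s : ℝ => (s : ℂ) ^ l * ((x : ℂ) + I * s) ^ k) gam := by
  refine (integrable_pow_gam |x| (l + k)).mono' ?_ ?_
  · exact (by fun_prop :
      Measurable (fun s : ℝ => (s : ℂ) ^ l * ((x : ℂ) + I * s) ^ k)).aestronglyMeasurable
  · filter_upwards with s
    rw [norm_mul, norm_pow, norm_pow, pow_add]
    have h1 : ‖(s : ℂ)‖ ≤ |x| + |s| := by
      rw [Complex.norm_real, Real.norm_eq_abs]
      linarith [abs_nonneg x]
    gcongr
    exact norm_add_I_le x s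

lemma integral_s_mul (x : ℝ) (n : ℕ) :
    ∫ s : ℝ, (s : ℂ) * ((x : ℂ) + I * s) ^ (n + 1) ∂gam
      = I * (n + 1) * ∫ s : ℝ, ((x : ℂ) + I * s) ^ n ∂gam := by
  have hφ : ∀ s : ℝ, HasDerivAt (fun s : ℝ => ((gaussianPDFReal 0 1 s : ℝ) : ℂ))
      (-(s : ℂ) * ((gaussianPDFReal 0 1 s : ℝ) : ℂ)) s := by
    intro s
    have h1 : HasDerivAt (fun s : ℝ => gaussianPDFReal 0 1 s)
        (-s * gaussianPDFReal 0 1 s) s := by
      have := (hasDerivAt_exp_sq s).const_mul ((√(2 * Real.pi))⁻¹)
      have h2 : (fun s : ℝ => gaussianPDFReal 0 1 s)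
          = fun s => (√(2 * Real.pi))⁻¹ * Real.exp (-s ^ 2 / 2) := by
        ext s; exact gpdf_eq s
      rw [h2]
      refine this.congr_deriv ?_
      rw [gpdf_eq]
      ring
    have h2 := h1.ofReal_comp
    refine h2.congr_deriv ?_
    push_cast
    ring
  have hu : ∀ s : ℝ, HasDerivAt (fun s : ℝ => ((x : ℂ) + I * s) ^ (n + 1))
      (((n : ℂ) + 1) * ((x : ℂ) + I * s) ^ n * I) s := by
    intro s
    have h1 : HasDerivAt (fun s : ℝ => (x : ℂ) + I * s) I s := by
      have h3 : HasDerivAt (fun s : ℝ => (s : ℂ)) 1 s := Complex.ofRealCLM.hasDerivAt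
      have := (h3.const_mul I).const_add (x : ℂ)
      simpa using this
    have h2 := h1.pow (n + 1)
    refine h2.congr_deriv ?_
    push_cast
    simp
  have hint : ∀ l k : ℕ, Integrable (fun s : ℝ =>
      ((gaussianPDFReal 0 1 s : ℝ) : ℂ) * ((s : ℂ) ^ l * ((x : ℂ) + I * s) ^ k)) := by
    intro l k
    have := (integrable_gam_iff _).1 (integrable_cpow_gam x l k)
    simpa [Complex.real_smul] using this
  have key := integral_mul_deriv_eq_deriv_mul_of_integrable
    (u := fun s : ℝ => ((x : ℂ) + I * s) ^ (n + 1))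
    (v := fun s : ℝ => ((gaussianPDFReal 0 1 s : ℝ) : ℂ))
    (u' := fun s : ℝ => ((n : ℂ) + 1) * ((x : ℂ) + I * s) ^ n * I)
    (v' := fun s : ℝ => -(s : ℂ) * ((gaussianPDFReal 0 1 s : ℝ) : ℂ))
    (fun s _ => hu s) (fun s _ => hφ s) ?_ ?_ ?_
  · rw [integral_gam, integral_gam]
    simp only [Complex.real_smul]
    have e1 : ∫ s : ℝ, ((gaussianPDFReal 0 1 s : ℝ) : ℂ) * ((s : ℂ) * ((x : ℂ) + I * s) ^ (n + 1))
        = - ∫ s : ℝ, ((x : ℂ) + I * s) ^ (n + 1) *
          (-(s : ℂ) * ((gaussianPDFReal 0 1 s : ℝ) : ℂ)) := by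
      rw [← integral_neg]
      congr 1
      ext s
      ring
    rw [e1, key, neg_neg, ← integral_const_mul]
    congr 1
    ext s
    ring
  · refine (hint 1 (n + 1)).neg.congr (Filter.Eventually.of_forall fun s => ?_)
    simp only [Pi.mul_apply, Pi.neg_apply]
    ring
  · refine ((hint 0 n).const_mul (((n : ℂ) + 1) * I)).congr
      (Filter.Eventually.of_forall fun s => ?_)
    simp only [Pi.mul_apply]
    ring
  · refine (hint 0 (n + 1)).congr (Filter.Eventually.of_forall fun s => ?_)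
    simp only [Pi.mul_apply]
    ring

/-- The Hermite polynomial as a Gaussian average of powers. -/
lemma He_eq_integral (n : ℕ) (x : ℝ) :
    ((He n x : ℝ) : ℂ) = ∫ s : ℝ, ((x : ℂ) + I * s) ^ n ∂gam := by
  induction n using Nat.twoStepInduction with
  | zero => simp [He_zero]
  | one =>
    have h := integral_id_gaussianReal (μ := 0) (v := 1)
    have hi : Integrable (fun s : ℝ => (s : ℂ)) gam := by
      simpa using integrable_cpow_gam x 1 0
    have h0 : ∫ s : ℝ, (s : ℂ) ∂gam = 0 := by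
      have h1 : ∫ s : ℝ, (s : ℂ) ∂gam = ((∫ s : ℝ, s ∂gam : ℝ) : ℂ) := integral_complex_ofReal
      rw [h1, h]
      simp
    simp only [pow_one, He_one]
    rw [integral_add (integrable_const _) (hi.const_mul I), integral_const_mul, h0]
    simp
  | more n ih0 ih1 =>
    rw [He_succ_succ]
    push_cast
    rw [ih0, ih1]
    have e : ∀ s : ℝ, ((x : ℂ) + I * s) ^ (n + 2)
        = x * ((x : ℂ) + I * s) ^ (n + 1) + I * ((s : ℂ) * ((x : ℂ) + I * s) ^ (n + 1)) := by
      intro s; ring
    have i1 : Integrable (fun s : ℝ => ((x : ℂ) + I * s) ^ (n + 1)) gam := by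
      simpa using integrable_cpow_gam x 0 (n + 1)
    have i2 : Integrable (fun s : ℝ => (s : ℂ) * ((x : ℂ) + I * s) ^ (n + 1)) gam := by
      simpa using integrable_cpow_gam x 1 (n + 1)
    simp_rw [e]
    rw [integral_add (i1.const_mul _) (i2.const_mul _), integral_const_mul, integral_const_mul,
      integral_s_mul]
    linear_combination (((n : ℂ) + 1) * ∫ s : ℝ, ((x : ℂ) + I * s) ^ n ∂gam) * (Complex.I_sq).symm

end Pool.Agent.H39
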