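import Pool.Agent.H39.Jump
import Pool.Agent.H39.Coef

open MeasureTheory ProbabilityTheory Polynomial Set Filter Topology
open scoped Nat NNReal ENNReal

namespace Pool.Agent.H39

lemma hasSum_congr' {ι : Type*} {f g : ι → ℝ} {a b : ℝ} (h : HasSum f a)
    (hfg : ∀ i, f i = g i) (hab : a = b) : HasSum g b := by
  have e : f = g := funext hfg
  subst e
  subst hab
  exact h

lemma abs_wH_le {r : ℝ} (h0 : 0 < r) (h1 : r < 1) (n : ℕ) (x : ℝ) :
    |wH n x| ≤ √((n ! : ℝ) / r ^ n) *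
      (((√(2 * Real.pi))⁻¹ * √((√(1 - r ^ 2))⁻¹)) * Real.exp (-x ^ 2 / 4)) := by
  have h2 := abs_He_le h0 h1 n x
  rw [wH, gpdf_eq, abs_mul, abs_of_nonneg (a := (√(2 * Real.pi))⁻¹ * Real.exp (-x ^ 2 / 2))
    (by positivity)]
  calc |He n x| * ((√(2 * Real.pi))⁻¹ * Real.exp (-x ^ 2 / 2))
      ≤ (√((n ! : ℝ) / r ^ n) * (√((√(1 - r ^ 2))⁻¹) * Real.exp (x ^ 2 / 4)))
        * ((√(2 * Real.pi))⁻¹ * Real.exp (-x ^ 2 / 2)) := by gcongr
    _ = √((n ! : ℝ) / r ^ n) * (((√(2 * Real.pi))⁻¹ * √((√(1 - r ^ 2))⁻¹))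
        * (Real.exp (x ^ 2 / 4) * Real.exp (-x ^ 2 / 2))) := by ring
    _ = _ := by
        rw [← Real.exp_add]
        congr 3
        ring

lemma summable_quarter {J : Set ℝ} (hJ : Summable (fun x : J => Real.exp (-(x:ℝ) ^ 2 / 5))) :
    Summable (fun x : J => Real.exp (-(x:ℝ) ^ 2 / 4)) := by
  refine Summable.of_nonneg_of_le (fun x => (Real.exp_pos _).le) (fun x => ?_) hJ
  apply Real.exp_le_exp.2
  nlinarith [sq_nonneg (x:ℝ)]

theorem phi2_identity {χ : ℝ → ℝ} {J : Set ℝ} (h : PM χ) (hs : IsStep χ J)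
    (hJ : Summable (fun x : J => Real.exp (-(x:ℝ) ^ 2 / 5))) {a c : ℝ}
    (hco : ∀ m : ℕ, (hc χ (m + 1)) ^ 2 = (He m a) ^ 2 / c) {ρ : ℝ} (hρ : |ρ| < 1) :
    HasSum (fun p : J × J => χ p.1 * χ p.2 * phi2 ρ p.1 p.2) (1 / (4 * c) * mehlerK ρ a a) := by
  obtain ⟨r, hr1, hr2⟩ := exists_between hρ
  have hr0 : 0 < r := lt_of_le_of_lt (abs_nonneg ρ) hr1
  set f : ℕ × (J × J) → ℝ := fun q =>
    ρ ^ q.1 / (q.1 ! : ℝ) * ((χ q.2.1 * wH q.1 q.2.1) * (χ q.2.2 * wH q.1 q.2.2)) with hf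
  set C1 : ℝ := (√(2 * Real.pi))⁻¹ * √((√(1 - r ^ 2))⁻¹) with hC1
  have hC10 : 0 ≤ C1 := by positivity
  have hq := summable_quarter hJ
  have hsf : Summable f := by
    have hg : Summable (fun m : ℕ => (|ρ| / r) ^ m) := by
      apply summable_geometric_of_lt_one (by positivity)
      rw [div_lt_one hr0]
      exact hr1
    have hq2 : Summable (fun p : J × J => (C1 * Real.exp (-(p.1:ℝ) ^ 2 / 4)) *
        (C1 * Real.exp (-(p.2:ℝ) ^ 2 / 4))) := by
      apply Summable.mul_of_nonneg (hq.mul_left C1) (hq.mul_left C1)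
      · intro x; positivity
      · intro x; positivity
    have hall := Summable.mul_of_nonneg hg hq2 (fun m => by positivity)
      (fun p => by positivity)
    refine Summable.of_norm_bounded hall ?_
    rintro ⟨m, x, y⟩
    rw [hf]
    simp only
    rw [norm_mul, norm_mul, norm_mul, norm_mul, h.norm, h.norm, one_mul, one_mul, norm_div,
      norm_pow]
    have e1 := abs_wH_le hr0 hr2 m x
    have e2 := abs_wH_le hr0 hr2 m y
    rw [← hC1] at e1 e2
    have e3 : ‖(m ! : ℝ)‖ = (m ! : ℝ) := by simp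
    rw [e3, Real.norm_eq_abs, Real.norm_eq_abs, Real.norm_eq_abs]
    have e4 : √((m ! : ℝ) / r ^ m) * √((m ! : ℝ) / r ^ m) = (m ! : ℝ) / r ^ m :=
      Real.mul_self_sqrt (by positivity)
    calc |ρ| ^ m / (m ! : ℝ) * (|wH m x| * |wH m y|)
        ≤ |ρ| ^ m / (m ! : ℝ) * ((√((m ! : ℝ) / r ^ m) * (C1 * Real.exp (-(x:ℝ) ^ 2 / 4))) *
          (√((m ! : ℝ) / r ^ m) * (C1 * Real.exp (-(y:ℝ) ^ 2 / 4)))) := by gcongr
      _ = |ρ| ^ m / (m ! : ℝ) * (√((m ! : ℝ) / r ^ m) * √((m ! : ℝ) / r ^ m)) *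
          ((C1 * Real.exp (-(x:ℝ) ^ 2 / 4)) * (C1 * Real.exp (-(y:ℝ) ^ 2 / 4))) := by ring
      _ = (|ρ| / r) ^ m * ((C1 * Real.exp (-(x:ℝ) ^ 2 / 4)) *
          (C1 * Real.exp (-(y:ℝ) ^ 2 / 4))) := by
          rw [e4, div_pow]
          field_simp
  -- inner sums over `m`
  have hm : ∀ p : J × J, HasSum (fun m => f (m, p)) (χ p.1 * χ p.2 * phi2 ρ p.1 p.2) := by
    intro p
    have h1 := (mehler hρ (p.1:ℝ) (p.2:ℝ)).mul_left
      (χ p.1 * χ p.2 * (gaussianPDFReal 0 1 p.1 * gaussianPDFReal 0 1 p.2))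
    refine hasSum_congr' h1 (fun m => ?_) ?_
    · rw [hf]
      simp only [wH]
      ring
    · rw [phi2]
      ring
  -- inner sums over pairs
  have hp : ∀ m : ℕ, HasSum (fun p => f (m, p)) (1 / (4 * c) * ((He m a) ^ 2 / (m ! : ℝ) * ρ ^ m)) := by
    intro m
    have h1 := (hc_hasSum h hs hJ m)
    have h2 : HasSum (fun x : J => χ x * wH m x) (hc χ (m + 1) / 2) := by
      exact hasSum_congr' (h1.mul_left (1 / 2)) (fun x => by ring) (by ring)
    have h3 : Summable (fun p : J × J => (χ p.1 * wH m p.1) * (χ p.2 * wH m p.2)) := by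
      have hb : Summable (fun x : J => ‖χ x * wH m x‖) := by
        refine Summable.of_nonneg_of_le (fun x => norm_nonneg _) (fun x => ?_)
          ((hq.mul_left C1).mul_left (√((m ! : ℝ) / r ^ m)))
        rw [norm_mul, h.norm, one_mul]
        exact abs_wH_le hr0 hr2 m x
      exact summable_mul_of_summable_norm hb hb
    have h4 := h2.mul h2 h3
    have h5 := h4.mul_left (ρ ^ m / (m ! : ℝ))
    refine hasSum_congr' h5 (fun p => rfl) ?_
    have h6 : hc χ (m + 1) / 2 * (hc χ (m + 1) / 2) = (He m a) ^ 2 / c / 4 := by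
      rw [← hco m]; ring
    rw [h6]
    ring
  have htot := hsf.hasSum
  have hA := htot.prod_fiberwise hp
  have hB : HasSum (fun p : J × J => χ p.1 * χ p.2 * phi2 ρ p.1 p.2) (∑' q, f q) := by
    have hswap : HasSum (fun q : (J × J) × ℕ => f (q.2, q.1)) (∑' q, f q) := by
      have := (Equiv.prodComm (J × J) ℕ).hasSum_iff (f := f) (a := ∑' q, f q)
      exact this.2 htot
    exact hswap.prod_fiberwise hm
  have hC := ((hasSum_mehler_diag hρ a).mul_left (1 / (4 * c)))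
  have := hA.unique hC
  rw [this] at hB
  exact hB

/-- The identity in the half plane parameter, real case. -/
theorem zeta_identity {χ : ℝ → ℝ} {J : Set ℝ} (h : PM χ) (hs : IsStep χ J)
    (hJ : Summable (fun x : J => Real.exp (-(x:ℝ) ^ 2 / 5))) {a c : ℝ}
    (hco : ∀ m : ℕ, (hc χ (m + 1)) ^ 2 = (He m a) ^ 2 / c) {z : ℝ} (hz : 0 < z) :
    HasSum (fun p : J × J => (χ p.1 * Real.exp (-(p.1:ℝ) ^ 2 / 4)) *
        (χ p.2 * Real.exp (-(p.2:ℝ) ^ 2 / 4)) *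
        Real.exp (-(((p.1:ℝ) + p.2) ^ 2 / 8 * z + ((p.1:ℝ) - p.2) ^ 2 / 8 / z)))
      ((Real.pi / (2 * c) * Real.exp (a ^ 2 / 2)) * Real.exp (-(a ^ 2 / 2) * z)) := by
  set ρ : ℝ := (1 - z) / (1 + z) with hρdef
  have hz1 : 0 < 1 + z := by linarith
  have hρ : |ρ| < 1 := by
    rw [abs_lt, hρdef]
    constructor
    · rw [lt_div_iff₀ hz1]; linarith
    · rw [div_lt_one hz1]; linarith
  have hρ1 := abs_lt.1 hρ
  have hpos : 0 < 1 - ρ ^ 2 := by nlinarith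
  have hsq : √(1 - ρ ^ 2) ≠ 0 := by positivity
  have h1 := (phi2_identity h hs hJ hco hρ).mul_left (2 * Real.pi * √(1 - ρ ^ 2))
  have hpi := Real.pi_pos
  refine hasSum_congr' h1 (fun p => ?_) ?_
  · rw [phi2_eq hρ]
    have e1 : Real.exp (-((p.1:ℝ) ^ 2 - 2 * ρ * p.1 * p.2 + (p.2:ℝ) ^ 2) / (2 * (1 - ρ ^ 2)))
        = Real.exp (-(p.1:ℝ) ^ 2 / 4) * Real.exp (-(p.2:ℝ) ^ 2 / 4) *
        Real.exp (-(((p.1:ℝ) + p.2) ^ 2 / 8 * z + ((p.1:ℝ) - p.2) ^ 2 / 8 / z)) := by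
      rw [← Real.exp_add, ← Real.exp_add]
      congr 1
      have e2 : 1 - ρ ^ 2 = 4 * z / (1 + z) ^ 2 := by
        rw [hρdef]; field_simp; ring
      rw [e2, hρdef]
      field_simp
      ring
    rw [e1]
    field_simp
  · rw [mehlerK_diag hρ]
    have e3 : Real.exp (a ^ 2 * ρ / (1 + ρ)) = Real.exp (a ^ 2 / 2) * Real.exp (-(a ^ 2 / 2) * z) := by
      rw [← Real.exp_add]
      congr 1
      have e4 : 1 + ρ = 2 / (1 + z) := by
        rw [hρdef]; field_simp; ring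
      rw [e4, hρdef]
      field_simp
      ring
    rw [e3]
    by_cases hc : c = 0
    · simp [hc]
    · field_simp
      ring

end Pool.Agent.H39
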