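import Pool.Agent.H39.Summ

open MeasureTheory ProbabilityTheory Polynomial Set Filter Topology
open scoped Nat NNReal ENNReal

namespace Pool.Agent.H39

lemma IsStep.finIoc {χ : ℝ → ℝ} {J : Set ℝ} (hs : IsStep χ J) (a b : ℝ) :
    (J ∩ Ioc a b).Finite :=
  (hs.fin a b).subset (inter_subset_inter_right _ Ioc_subset_Icc_self)

lemma step_diff {χ : ℝ → ℝ} {J : Set ℝ} (hs : IsStep χ J) {a b : ℝ} (hab : a ≤ b) :
    χ b - χ a = 2 * ∑ x ∈ (hs.finIoc a b).toFinset, χ x := by
  classical
  have key : ∀ n : ℕ, ∀ a b : ℝ, a ≤ b → (hs.finIoc a b).toFinset.card = n →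
      χ b - χ a = 2 * ∑ x ∈ (hs.finIoc a b).toFinset, χ x := by
    intro n
    induction n with
    | zero =>
      intro a b hab hcard
      have h1 : (hs.finIoc a b).toFinset = ∅ := Finset.card_eq_zero.1 hcard
      have h2 : J ∩ Ioc a b = ∅ := by
        rwa [Set.Finite.toFinset_eq_empty] at h1
      rw [h1, hs.const a b hab h2]
      simp
    | succ n ih =>
      intro a b hab hcard
      have hne : (hs.finIoc a b).toFinset.Nonempty := by
        rw [← Finset.card_pos]; omega
      set S := (hs.finIoc a b).toFinset with hS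
      set x := S.max' hne with hx
      have hxS : x ∈ S := Finset.max'_mem _ _
      have hxJ : x ∈ J ∩ Ioc a b := by
        rw [hS, Set.Finite.mem_toFinset] at hxS
        exact hxS
      have hmax : ∀ z ∈ J ∩ Ioc a b, z ≤ x := by
        intro z hz
        apply Finset.le_max'
        rw [hS, Set.Finite.mem_toFinset]
        exact hz
      have h1 : J ∩ Ioc x b = ∅ := by
        rw [Set.eq_empty_iff_forall_notMem]
        rintro z ⟨hz1, hz2⟩
        have := hmax z ⟨hz1, by linarith [hz2.1, hxJ.2.1], hz2.2⟩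
        linarith [hz2.1]
      have h2 : χ x = χ b := hs.const x b hxJ.2.2 h1
      obtain ⟨ε, hε, hgap⟩ := exists_left_gap hs.fin x
      rw [Set.eq_empty_iff_forall_notMem] at hgap
      set y := max a (x - ε / 2) with hy
      have hya : a ≤ y := le_max_left _ _
      have hye : x - ε / 2 ≤ y := le_max_right _ _
      have hyx : y < x := max_lt hxJ.2.1 (by linarith)
      have h3 : J ∩ Ioc y x = {x} := by
        ext z
        constructor
        · rintro ⟨hz1, hz2⟩
          by_contra hne2
          have h4 : z < x := lt_of_le_of_ne hz2.2 hne2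
          exact hgap z ⟨hz1, by linarith [hz2.1], h4⟩
        · intro hz
          have hz' : z = x := hz
          rw [hz']
          exact ⟨hxJ.1, hyx, le_rfl⟩
      have h4 : χ y = - χ x := hs.flip y x x hyx le_rfl h3
      have h5 : (hs.finIoc a y).toFinset = S.erase x := by
        ext z
        rw [Set.Finite.mem_toFinset, Finset.mem_erase, hS, Set.Finite.mem_toFinset]
        constructor
        · rintro ⟨hz1, hz2⟩
          refine ⟨ne_of_lt (by linarith [hz2.2]), hz1, hz2.1, ?_⟩
          linarith [hz2.2, hxJ.2.2]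
        · rintro ⟨hz1, hz2, hz3⟩
          refine ⟨hz2, hz3.1, ?_⟩
          have h6 : z < x := lt_of_le_of_ne (hmax z ⟨hz2, hz3⟩) hz1
          by_contra hcon
          push Not at hcon
          exact hgap z ⟨hz2, by linarith, h6⟩
      have h6 := ih a y hya (by rw [h5, Finset.card_erase_of_mem hxS, hcard]; rfl)
      rw [h5] at h6
      have h7 := Finset.add_sum_erase S χ hxS
      rw [← h7, ← h2]
      linarith
  exact key _ a b hab rfl

/-- step kernel -/
noncomputable def gk (x y : ℝ) : ℝ :=
  if 0 < x then (if x ≤ y then 1 else 0) else (if y < x then -1 else 0)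

lemma gk_abs_le_one (x y : ℝ) : |gk x y| ≤ 1 := by
  unfold gk
  split_ifs <;> simp

lemma gk_ne_zero {x y : ℝ} (h : gk x y ≠ 0) : x ^ 2 ≤ y ^ 2 := by
  unfold gk at h
  split_ifs at h with h1 h2 h3
  · nlinarith
  · exact absurd rfl h
  · nlinarith
  · exact absurd rfl h

lemma measurable_gk (x : ℝ) : Measurable (gk x) := by
  unfold gk
  split_ifs
  · exact Measurable.ite measurableSet_Ici measurable_const measurable_const
  · exact Measurable.ite measurableSet_Iio measurable_const measurable_const

lemma hasSum_gk {χ : ℝ → ℝ} {J : Set ℝ} (hs : IsStep χ J) (y : ℝ) :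
    HasSum (fun x : J => χ x * gk x y) ((χ y - χ 0) / 2) := by
  classical
  have h0 : HasSum (J.indicator (fun x : ℝ => χ x * gk x y)) ((χ y - χ 0) / 2) := by
    rcases le_total 0 y with hy | hy
    · have h1 := step_diff hs hy
      have h2 : (χ y - χ 0) / 2
          = ∑ x ∈ (hs.finIoc 0 y).toFinset, J.indicator (fun x : ℝ => χ x * gk x y) x := by
        rw [h1, mul_div_cancel_left₀ _ two_ne_zero]
        apply Finset.sum_congr rfl
        intro x hx
        rw [Set.Finite.mem_toFinset] at hx
        rw [indicator_of_mem hx.1, gk, if_pos hx.2.1, if_pos hx.2.2, mul_one]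
      rw [h2]
      apply hasSum_sum_of_ne_finset_zero
      intro x hx
      rw [Set.Finite.mem_toFinset] at hx
      by_cases hxJ : x ∈ J
      · rw [indicator_of_mem hxJ]
        have hg : gk x y = 0 := by
          unfold gk
          split_ifs with h3 h4 h5
          · exact absurd ⟨hxJ, h3, h4⟩ hx
          · rfl
          · linarith
          · rfl
        rw [hg, mul_zero]
      · rw [indicator_of_notMem hxJ]
    · have h1 := step_diff hs hy
      have h2 : (χ y - χ 0) / 2
          = ∑ x ∈ (hs.finIoc y 0).toFinset, J.indicator (fun x : ℝ => χ x * gk x y) x := by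
        have h3 : (χ y - χ 0) / 2 = - ∑ x ∈ (hs.finIoc y 0).toFinset, χ x := by linarith
        rw [h3, ← Finset.sum_neg_distrib]
        apply Finset.sum_congr rfl
        intro x hx
        rw [Set.Finite.mem_toFinset] at hx
        rw [indicator_of_mem hx.1, gk, if_neg (not_lt.2 hx.2.2), if_pos hx.2.1]
        ring
      rw [h2]
      apply hasSum_sum_of_ne_finset_zero
      intro x hx
      rw [Set.Finite.mem_toFinset] at hx
      by_cases hxJ : x ∈ J
      · rw [indicator_of_mem hxJ]
        have hg : gk x y = 0 := by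
          unfold gk
          split_ifs with h3 h4 h5
          · linarith
          · rfl
          · exact absurd ⟨hxJ, h5, not_lt.1 h3⟩ hx
          · rfl
        rw [hg, mul_zero]
      · rw [indicator_of_notMem hxJ]
  exact (hasSum_subtype_iff_indicator (f := fun x : ℝ => χ x * gk x y)).2 h0

/-- `He n` times the Gaussian density. -/
noncomputable def wH (n : ℕ) (y : ℝ) : ℝ := He n y * gaussianPDFReal 0 1 y

lemma hasDerivAt_wH (n : ℕ) (y : ℝ) : HasDerivAt (fun y => -wH n y) (wH (n + 1) y) y := by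
  have h1 := ((hasDerivAt_He_mul_exp n y).const_mul ((√(2 * Real.pi))⁻¹)).neg
  have h2 : (fun y => -wH n y)
      = fun y => -((√(2 * Real.pi))⁻¹ * (He n y * Real.exp (-y ^ 2 / 2))) := by
    ext z
    rw [wH, gpdf_eq]
    ring
  rw [h2]
  refine h1.congr_deriv ?_
  rw [wH, gpdf_eq]
  ring

lemma wH_bound (n : ℕ) : ∃ C : ℝ, 0 ≤ C ∧ ∀ y, |wH n y| ≤ C * Real.exp (-y ^ 2 / 4) := by
  refine ⟨(√(2 * Real.pi))⁻¹ * (√((n ! : ℝ) / (1 / 2) ^ n) * √((√(1 - (1 / 2 : ℝ) ^ 2))⁻¹)),
    by positivity, ?_⟩
  intro y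
  have h1 := abs_He_le (r := 1 / 2) (by norm_num) (by norm_num) n y
  rw [wH, gpdf_eq, abs_mul, abs_of_nonneg (a := (√(2 * Real.pi))⁻¹ * Real.exp (-y ^ 2 / 2))
    (by positivity)]
  calc |He n y| * ((√(2 * Real.pi))⁻¹ * Real.exp (-y ^ 2 / 2))
      ≤ (√((n ! : ℝ) / (1 / 2) ^ n) * (√((√(1 - (1 / 2 : ℝ) ^ 2))⁻¹) * Real.exp (y ^ 2 / 4)))
        * ((√(2 * Real.pi))⁻¹ * Real.exp (-y ^ 2 / 2)) := by gcongr
    _ = (√(2 * Real.pi))⁻¹ * (√((n ! : ℝ) / (1 / 2) ^ n) * √((√(1 - (1 / 2 : ℝ) ^ 2))⁻¹))
        * (Real.exp (y ^ 2 / 4) * Real.exp (-y ^ 2 / 2)) := by ring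
    _ = _ := by
        rw [← Real.exp_add]
        congr 2
        ring

lemma continuous_wH (n : ℕ) : Continuous (wH n) := by
  have h1 : wH n = fun y => He n y * ((√(2 * Real.pi))⁻¹ * Real.exp (-y ^ 2 / 2)) := by
    ext y
    rw [wH, gpdf_eq]
  rw [h1]
  have := continuous_He n
  fun_prop

lemma integrable_exp_neg_quarter : Integrable (fun y : ℝ => Real.exp (-y ^ 2 / 4)) := by
  have := integrable_exp_neg_mul_sq (b := 1 / 4) (by norm_num)
  refine this.congr (Eventually.of_forall fun y => ?_)
  simp only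
  congr 1
  ring

lemma integrable_exp_neg_twenty : Integrable (fun y : ℝ => Real.exp (-y ^ 2 / 20)) := by
  have := integrable_exp_neg_mul_sq (b := 1 / 20) (by norm_num)
  refine this.congr (Eventually.of_forall fun y => ?_)
  simp only
  congr 1
  ring

lemma integrable_wH (n : ℕ) : Integrable (wH n) := by
  obtain ⟨C, _, hC⟩ := wH_bound n
  refine (integrable_exp_neg_quarter.const_mul C).mono' (continuous_wH n).aestronglyMeasurable ?_
  exact Eventually.of_forall hC

lemma tendsto_exp_neg_sq_atTop : Tendsto (fun y : ℝ => Real.exp (-y ^ 2 / 4)) atTop (𝓝 0) := by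
  apply Real.tendsto_exp_atBot.comp
  have h1 : Tendsto (fun y : ℝ => y ^ 2) atTop atTop := tendsto_pow_atTop two_ne_zero
  have h2 := (h1.const_mul_atTop (by norm_num : (0:ℝ) < 1 / 4))
  have h3 := tendsto_neg_atTop_atBot.comp h2
  refine h3.congr fun y => ?_
  simp only [Function.comp]
  ring

lemma tendsto_wH_atTop (n : ℕ) : Tendsto (fun y => -wH n y) atTop (𝓝 0) := by
  obtain ⟨C, _, hC⟩ := wH_bound n
  have h1 : Tendsto (fun y : ℝ => C * Real.exp (-y ^ 2 / 4)) atTop (𝓝 0) := by
    simpa using tendsto_exp_neg_sq_atTop.const_mul C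
  apply squeeze_zero_norm _ h1
  intro y
  rw [norm_neg]
  exact hC y

lemma tendsto_wH_atBot (n : ℕ) : Tendsto (fun y => -wH n y) atBot (𝓝 0) := by
  obtain ⟨C, _, hC⟩ := wH_bound n
  have h0 : Tendsto (fun y : ℝ => Real.exp (-y ^ 2 / 4)) atBot (𝓝 0) := by
    have := tendsto_exp_neg_sq_atTop.comp tendsto_neg_atBot_atTop
    refine this.congr fun y => ?_
    simp only [Function.comp]
    congr 1
    ring
  have h1 : Tendsto (fun y : ℝ => C * Real.exp (-y ^ 2 / 4)) atBot (𝓝 0) := by
    simpa using h0.const_mul C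
  apply squeeze_zero_norm _ h1
  intro y
  rw [norm_neg]
  exact hC y

lemma integral_Ioi_wH (n : ℕ) (x : ℝ) : ∫ y in Ioi x, wH (n + 1) y = wH n x := by
  have := integral_Ioi_of_hasDerivAt_of_tendsto (a := x) (f := fun y => -wH n y)
    (f' := wH (n + 1)) (m := 0) ((continuous_wH n).neg.continuousWithinAt)
    (fun y _ => hasDerivAt_wH n y) (integrable_wH (n + 1)).integrableOn (tendsto_wH_atTop n)
  rw [this]
  ring

lemma integral_Iic_wH (n : ℕ) (x : ℝ) : ∫ y in Iic x, wH (n + 1) y = -wH n x := by
  have := integral_Iic_of_hasDerivAt_of_tendsto (a := x) (f := fun y => -wH n y)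
    (f' := wH (n + 1)) (m := 0) ((continuous_wH n).neg.continuousWithinAt)
    (fun y _ => hasDerivAt_wH n y) (integrable_wH (n + 1)).integrableOn (tendsto_wH_atBot n)
  rw [this]
  ring

lemma integral_wH (n : ℕ) : ∫ y, wH (n + 1) y = 0 := by
  have := integral_of_hasDerivAt_of_tendsto (f := fun y => -wH n y)
    (f' := wH (n + 1)) (fun y => hasDerivAt_wH n y) (integrable_wH (n + 1))
    (tendsto_wH_atBot n) (tendsto_wH_atTop n)
  rw [this]
  ring

lemma integral_gk_wH (n : ℕ) (x : ℝ) : ∫ y, gk x y * wH (n + 1) y = wH n x := by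
  rcases lt_or_ge 0 x with hx | hx
  · have h1 : (fun y => gk x y * wH (n + 1) y) = (Ici x).indicator (wH (n + 1)) := by
      ext y
      unfold gk
      rw [if_pos hx]
      by_cases hy : x ≤ y
      · rw [if_pos hy, indicator_of_mem (show y ∈ Ici x from hy), one_mul]
      · rw [if_neg hy, indicator_of_notMem (show y ∉ Ici x from hy), zero_mul]
    rw [h1, integral_indicator measurableSet_Ici, integral_Ici_eq_integral_Ioi, integral_Ioi_wH]
  · have h1 : (fun y => gk x y * wH (n + 1) y) = (Iio x).indicator (fun y => -wH (n + 1) y) := by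
      ext y
      unfold gk
      rw [if_neg (not_lt.2 hx)]
      by_cases hy : y < x
      · rw [if_pos hy, indicator_of_mem (show y ∈ Iio x from hy)]; ring
      · rw [if_neg hy, indicator_of_notMem (show y ∉ Iio x from hy), zero_mul]
    rw [h1, integral_indicator measurableSet_Iio, integral_neg, ← integral_Iic_eq_integral_Iio,
      integral_Iic_wH]
    ring

/-- Hermite coefficients of a step function as sums over its jumps. -/
theorem hc_hasSum {χ : ℝ → ℝ} {J : Set ℝ} (h : PM χ) (hs : IsStep χ J)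
    (hJ : Summable (fun x : J => Real.exp (-(x:ℝ) ^ 2 / 5))) (n : ℕ) :
    HasSum (fun x : J => 2 * (χ x * wH n x)) (hc χ (n + 1)) := by
  have hm := h.meas
  have : Countable J := (countable_of_fin hs.fin).to_subtype
  obtain ⟨C, hC0, hC⟩ := wH_bound (n + 1)
  have hwm := (continuous_wH (n + 1)).measurable
  have hF : ∀ x : J, Integrable (fun y => χ x * gk x y * wH (n + 1) y) := by
    intro x
    have hgm := measurable_gk (x:ℝ)
    refine (integrable_wH (n + 1)).norm.mono' (by fun_prop) ?_
    filter_upwards with y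
    rw [norm_mul, norm_mul, h.norm, one_mul]
    have := gk_abs_le_one x y
    calc ‖gk x y‖ * ‖wH (n + 1) y‖ ≤ 1 * ‖wH (n + 1) y‖ := by
          gcongr
          exact this
      _ = _ := one_mul _
  have hpt : ∀ x y : ℝ, |gk x y| * Real.exp (-y ^ 2 / 4)
      ≤ Real.exp (-x ^ 2 / 5) * Real.exp (-y ^ 2 / 20) := by
    intro x y
    by_cases hg : gk x y = 0
    · rw [hg]
      simp
      positivity
    · have h1 := gk_ne_zero hg
      calc |gk x y| * Real.exp (-y ^ 2 / 4) ≤ 1 * Real.exp (-y ^ 2 / 4) := by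
            gcongr
            exact gk_abs_le_one x y
        _ ≤ Real.exp (-x ^ 2 / 5) * Real.exp (-y ^ 2 / 20) := by
            rw [one_mul, ← Real.exp_add]
            apply Real.exp_le_exp.2
            linarith
  have hnorm : ∀ x : J, ∫ y, ‖χ x * gk x y * wH (n + 1) y‖
      ≤ Real.exp (-(x:ℝ) ^ 2 / 5) * (C * ∫ y : ℝ, Real.exp (-y ^ 2 / 20)) := by
    intro x
    rw [← integral_const_mul, ← integral_const_mul]
    apply integral_mono (hF x).norm
    · exact (integrable_exp_neg_twenty.const_mul C).const_mul _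
    · intro y
      simp only
      rw [norm_mul, norm_mul, h.norm, one_mul]
      calc ‖gk x y‖ * ‖wH (n + 1) y‖ ≤ |gk x y| * (C * Real.exp (-y ^ 2 / 4)) := by
            gcongr
            · exact le_rfl
            · exact hC y
        _ = C * (|gk x y| * Real.exp (-y ^ 2 / 4)) := by ring
        _ ≤ C * (Real.exp (-(x:ℝ) ^ 2 / 5) * Real.exp (-y ^ 2 / 20)) :=
            mul_le_mul_of_nonneg_left (hpt x y) hC0
        _ = _ := by ring
  have hsum : Summable (fun x : J => ∫ y, ‖χ x * gk x y * wH (n + 1) y‖) := by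
    refine Summable.of_nonneg_of_le (fun x => integral_nonneg fun y => norm_nonneg _) hnorm ?_
    exact hJ.mul_right _
  have main := hasSum_integral_of_summable_integral_norm hF hsum
  have e1 : ∀ x : J, ∫ y, χ x * gk x y * wH (n + 1) y = χ x * wH n x := by
    intro x
    simp_rw [mul_assoc]
    rw [integral_const_mul, integral_gk_wH]
  have e2 : ∀ y, ∑' x : J, χ x * gk x y * wH (n + 1) y
      = (χ y - χ 0) / 2 * wH (n + 1) y := by
    intro y
    rw [tsum_mul_right, (hasSum_gk hs y).tsum_eq]
  simp_rw [e1, e2] at main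
  have i1 : Integrable (fun y => χ y * wH (n + 1) y) := by
    refine (integrable_wH (n + 1)).norm.mono' (by fun_prop) ?_
    filter_upwards with y
    rw [norm_mul, h.norm, one_mul]
  have e3 : ∫ y, (χ y - χ 0) / 2 * wH (n + 1) y = hc χ (n + 1) / 2 := by
    have e4 : (fun y => (χ y - χ 0) / 2 * wH (n + 1) y)
        = fun y => (1 / 2) * (χ y * wH (n + 1) y) - (χ 0 / 2) * wH (n + 1) y := by
      ext y; ring
    rw [e4, integral_sub (i1.const_mul _) ((integrable_wH (n + 1)).const_mul _),
      integral_const_mul, integral_const_mul, integral_wH, hc, integral_gam]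
    simp only [smul_eq_mul, mul_zero, sub_zero]
    have e5 : ∫ y, χ y * wH (n + 1) y = ∫ y, gaussianPDFReal 0 1 y * (χ y * He (n + 1) y) := by
      apply integral_congr_ae
      filter_upwards with y
      rw [wH]
      ring
    rw [e5]
    ring
  rw [e3] at main
  have := main.mul_left 2
  rw [mul_div_cancel₀ _ (two_ne_zero)] at this
  exact this

end Pool.Agent.H39
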