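import Pool.Agent.H39.Psi

open MeasureTheory ProbabilityTheory Polynomial Set Filter Topology
open scoped Nat NNReal

namespace Pool.Agent.H39

/-- Correlation function of `χ` in product form. -/
noncomputable def h2 (χ : ℝ → ℝ) (ρ : ℝ) : ℝ :=
  ∫ p : ℝ × ℝ, χ p.1 * χ (ρ * p.1 + √(1 - ρ ^ 2) * p.2) ∂(gam.prod gam)

/-- `±1` valued measurable functions. -/
structure PM (χ : ℝ → ℝ) : Prop where
  meas : Measurable χ
  val : ∀ x, χ x = 1 ∨ χ x = -1

lemma PM.abs {χ : ℝ → ℝ} (h : PM χ) (x : ℝ) : |χ x| = 1 := by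
  rcases h.val x with h | h <;> simp [h]

lemma PM.norm {χ : ℝ → ℝ} (h : PM χ) (x : ℝ) : ‖χ x‖ = 1 := h.abs x

lemma PM.mul_self {χ : ℝ → ℝ} (h : PM χ) (x : ℝ) : χ x * χ x = 1 := by
  rcases h.val x with h | h <;> simp [h]

lemma mehlerK_pdf {ρ : ℝ} (h : |ρ| < 1) (x y : ℝ) :
    gaussianPDFReal (ρ * x) (Real.toNNReal (1 - ρ ^ 2)) y
      = mehlerK ρ x y * gaussianPDFReal 0 1 y := by
  have h1 := abs_lt.1 h
  have h2 : 0 < 1 - ρ ^ 2 := by nlinarith
  rw [gpdf_eq, gaussianPDFReal, mehlerK, Real.coe_toNNReal _ h2.le]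
  rw [show 2 * Real.pi * (1 - ρ ^ 2) = (2 * Real.pi) * (1 - ρ ^ 2) by ring,
    Real.sqrt_mul (by positivity)]
  have h3 : Real.exp (-(y - ρ * x) ^ 2 / (2 * (1 - ρ ^ 2)))
      = Real.exp (-(ρ ^ 2 * (x ^ 2 + y ^ 2) - 2 * ρ * x * y) / (2 * (1 - ρ ^ 2)))
        * Real.exp (-y ^ 2 / 2) := by
    rw [← Real.exp_add]
    congr 1
    field_simp
    ring
  rw [h3]
  have h4 : √(2 * Real.pi) ≠ 0 := by positivity
  have h5 : √(1 - ρ ^ 2) ≠ 0 := by positivity
  field_simp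

lemma map_affine_gam {ρ : ℝ} (h : |ρ| < 1) (x : ℝ) :
    gam.map (fun v => ρ * x + √(1 - ρ ^ 2) * v)
      = gaussianReal (ρ * x) (Real.toNNReal (1 - ρ ^ 2)) := by
  have h1 := abs_lt.1 h
  have h2 : 0 < 1 - ρ ^ 2 := by nlinarith
  have e : (fun v : ℝ => ρ * x + √(1 - ρ ^ 2) * v)
      = (fun v => ρ * x + v) ∘ (fun v => √(1 - ρ ^ 2) * v) := rfl
  rw [e, ← Measure.map_map (by fun_prop) (by fun_prop), gaussianReal_map_const_mul,
    gaussianReal_map_const_add]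
  congr 1
  · simp
  · ext
    simp [Real.sq_sqrt h2.le, h2.le]

lemma toNNReal_ne_zero' {ρ : ℝ} (h : |ρ| < 1) : Real.toNNReal (1 - ρ ^ 2) ≠ 0 := by
  have h1 := abs_lt.1 h
  have h2 : 0 < 1 - ρ ^ 2 := by nlinarith
  exact (Real.toNNReal_pos.2 h2).ne'

lemma inner_integral {ρ : ℝ} (h : |ρ| < 1) (x : ℝ) {g : ℝ → ℝ} (hg : Measurable g) :
    ∫ v, g (ρ * x + √(1 - ρ ^ 2) * v) ∂gam = ∫ y, mehlerK ρ x y * g y ∂gam := by
  have e1 : ∫ v, g (ρ * x + √(1 - ρ ^ 2) * v) ∂gam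
      = ∫ y, g y ∂(gam.map (fun v => ρ * x + √(1 - ρ ^ 2) * v)) := by
    rw [integral_map (by fun_prop) hg.aestronglyMeasurable]
  rw [e1, map_affine_gam h, integral_gaussianReal_eq_integral_smul (toNNReal_ne_zero' h),
    integral_gam]
  congr 1
  ext y
  rw [mehlerK_pdf h, smul_eq_mul, smul_eq_mul]
  ring

lemma measurable_mehlerK (ρ : ℝ) : Measurable (fun p : ℝ × ℝ => mehlerK ρ p.1 p.2) := by
  unfold mehlerK
  fun_prop

lemma mehlerK_nonneg (ρ x y : ℝ) : 0 ≤ mehlerK ρ x y := by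
  unfold mehlerK
  positivity

lemma integrable_mehlerK_right {ρ : ℝ} (h : |ρ| < 1) (x : ℝ) :
    Integrable (fun y => mehlerK ρ x y) gam := by
  rw [integrable_gam_iff]
  have := integrable_gaussianPDFReal (ρ * x) (Real.toNNReal (1 - ρ ^ 2))
  refine this.congr (Eventually.of_forall fun y => ?_)
  simp only [smul_eq_mul]
  rw [mehlerK_pdf h]
  ring

lemma integral_mehlerK_right {ρ : ℝ} (h : |ρ| < 1) (x : ℝ) :
    ∫ y, mehlerK ρ x y ∂gam = 1 := by
  have := inner_integral h x (g := fun _ => (1:ℝ)) measurable_const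
  simp only [mul_one] at this
  rw [← this]
  simp

lemma integrable_mehlerK_prod {ρ : ℝ} (h : |ρ| < 1) :
    Integrable (fun p : ℝ × ℝ => mehlerK ρ p.1 p.2) (gam.prod gam) := by
  rw [integrable_prod_iff (measurable_mehlerK ρ).aestronglyMeasurable]
  constructor
  · exact Eventually.of_forall fun x => integrable_mehlerK_right h x
  · have : (fun x => ∫ y, ‖mehlerK ρ x y‖ ∂gam) = fun _ => (1:ℝ) := by
      ext x
      simp_rw [Real.norm_of_nonneg (mehlerK_nonneg ρ x _)]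
      exact integral_mehlerK_right h x
    rw [this]
    exact integrable_const _

lemma h2_eq_kernel {χ : ℝ → ℝ} (hχ : PM χ) {ρ : ℝ} (h : |ρ| < 1) :
    h2 χ ρ = ∫ p : ℝ × ℝ, mehlerK ρ p.1 p.2 * (χ p.1 * χ p.2) ∂(gam.prod gam) := by
  have hm := hχ.meas
  have hi1 : Integrable (fun p : ℝ × ℝ => χ p.1 * χ (ρ * p.1 + √(1 - ρ ^ 2) * p.2))
      (gam.prod gam) := by
    refine (integrable_const (1:ℝ)).mono' (by fun_prop) ?_
    filter_upwards with p
    rw [norm_mul, hχ.norm, hχ.norm, mul_one]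
  have hi2 : Integrable (fun p : ℝ × ℝ => mehlerK ρ p.1 p.2 * (χ p.1 * χ p.2))
      (gam.prod gam) := by
    have := measurable_mehlerK ρ
    refine (integrable_mehlerK_prod h).mono' (by fun_prop) ?_
    filter_upwards with p
    rw [norm_mul, norm_mul, hχ.norm, hχ.norm, mul_one, mul_one,
      Real.norm_of_nonneg (mehlerK_nonneg ρ _ _)]
  rw [h2, integral_prod _ hi1, integral_prod _ hi2]
  congr 1
  ext x
  simp only
  rw [integral_const_mul, inner_integral h x hm, ← integral_const_mul]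
  congr 1
  ext y
  ring

/-- Hermite coefficient (un-normalised). -/
noncomputable def hc (χ : ℝ → ℝ) (n : ℕ) : ℝ := ∫ x, χ x * He n x ∂gam

/-- A bound for Hermite polynomials from Mehler's formula on the diagonal. -/
lemma He_sq_le {r : ℝ} (h0 : 0 < r) (h1 : r < 1) (n : ℕ) (x : ℝ) :
    (He n x) ^ 2 ≤ (n ! : ℝ) / r ^ n * ((√(1 - r ^ 2))⁻¹ * Real.exp (x ^ 2 / 2)) := by
  have habs : |r| < 1 := by rwa [abs_of_pos h0]
  have hs := hasSum_mehler_diag habs x
  have h2 : (He n x) ^ 2 / (n ! : ℝ) * r ^ n ≤ mehlerK r x x :=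
    le_hasSum hs n (fun j _ => by positivity)
  have h3 : mehlerK r x x ≤ (√(1 - r ^ 2))⁻¹ * Real.exp (x ^ 2 / 2) := by
    rw [mehlerK_diag habs]
    apply mul_le_mul_of_nonneg_left _ (by positivity)
    apply Real.exp_le_exp.2
    rw [div_le_div_iff₀ (by linarith) (by norm_num)]
    nlinarith [sq_nonneg x]
  have h4 : (He n x) ^ 2 = (n ! : ℝ) / r ^ n * ((He n x) ^ 2 / (n ! : ℝ) * r ^ n) := by
    field_simp
  rw [h4]
  exact mul_le_mul_of_nonneg_left (h2.trans h3) (by positivity)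

lemma abs_He_le {r : ℝ} (h0 : 0 < r) (h1 : r < 1) (n : ℕ) (x : ℝ) :
    |He n x| ≤ √((n ! : ℝ) / r ^ n) * (√((√(1 - r ^ 2))⁻¹) * Real.exp (x ^ 2 / 4)) := by
  have h := He_sq_le h0 h1 n x
  rw [← Real.sqrt_sq_eq_abs]
  refine (Real.sqrt_le_sqrt h).trans (le_of_eq ?_)
  rw [Real.sqrt_mul (by positivity), Real.sqrt_mul (by positivity)]
  congr 2
  rw [show x ^ 2 / 2 = x ^ 2 / 4 + x ^ 2 / 4 by ring, Real.exp_add]
  exact Real.sqrt_mul_self (Real.exp_pos _).le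

lemma integrable_exp_quarter : Integrable (fun x : ℝ => Real.exp (x ^ 2 / 4)) gam := by
  have := integrable_exp_sq_gam (b := 1 / 2) (by norm_num)
  refine this.congr (Eventually.of_forall fun x => ?_)
  simp only
  congr 1
  ring

lemma integrable_He (n : ℕ) : Integrable (He n) gam := by
  refine ((integrable_exp_quarter.const_mul (√((√(1 - (1/2 : ℝ) ^ 2))⁻¹))).const_mul
    (√((n ! : ℝ) / (1 / 2 : ℝ) ^ n))).mono' (continuous_He n).aestronglyMeasurable ?_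
  filter_upwards with x
  exact abs_He_le (by norm_num) (by norm_num) n x

/-- Expansion of the correlation function in powers of the correlation. -/
theorem h2_hasSum {χ : ℝ → ℝ} (hχ : PM χ) {ρ : ℝ} (h : |ρ| < 1) :
    HasSum (fun n : ℕ => ρ ^ n / (n ! : ℝ) * (hc χ n) ^ 2) (h2 χ ρ) := by
  have hm := hχ.meas
  obtain ⟨r, hr1, hr2⟩ := exists_between h
  have hr0 : 0 < r := lt_of_le_of_lt (abs_nonneg ρ) hr1
  have hHe : ∀ n, Integrable (fun x => χ x * He n x) gam := by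
    intro n
    refine (integrable_He n).mono (by have := (continuous_He n).measurable; fun_prop) ?_
    filter_upwards with x
    rw [norm_mul, hχ.norm, one_mul]
  have hF : ∀ n : ℕ, Integrable (fun p : ℝ × ℝ =>
      ρ ^ n / (n ! : ℝ) * ((χ p.1 * He n p.1) * (χ p.2 * He n p.2))) (gam.prod gam) := by
    intro n
    exact ((hHe n).mul_prod (hHe n)).const_mul _
  have hterm : ∀ n : ℕ, ∫ p : ℝ × ℝ, ρ ^ n / (n ! : ℝ) * ((χ p.1 * He n p.1) * (χ p.2 * He n p.2))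
      ∂(gam.prod gam) = ρ ^ n / (n ! : ℝ) * (hc χ n) ^ 2 := by
    intro n
    rw [integral_const_mul, integral_prod_mul (fun x => χ x * He n x) (fun x => χ x * He n x), hc,
      sq]
  set A : ℝ := √((√(1 - r ^ 2))⁻¹) * ∫ x, Real.exp (x ^ 2 / 4) ∂gam with hA
  have hA0 : 0 ≤ A := by
    rw [hA]
    exact mul_nonneg (Real.sqrt_nonneg _) (integral_nonneg fun x => (Real.exp_pos _).le)
  have hnorm : ∀ n : ℕ, ∫ p : ℝ × ℝ, ‖ρ ^ n / (n ! : ℝ) *
      ((χ p.1 * He n p.1) * (χ p.2 * He n p.2))‖ ∂(gam.prod gam) ≤ (|ρ| / r) ^ n * A ^ 2 := by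
    intro n
    have e1 : ∀ p : ℝ × ℝ, ‖ρ ^ n / (n ! : ℝ) * ((χ p.1 * He n p.1) * (χ p.2 * He n p.2))‖
        = |ρ| ^ n / (n ! : ℝ) * (‖χ p.1 * He n p.1‖ * ‖χ p.2 * He n p.2‖) := by
      intro p
      rw [norm_mul, norm_mul, norm_div, norm_pow]
      simp
    simp_rw [e1]
    rw [integral_const_mul, integral_prod_mul (fun x => ‖χ x * He n x‖) (fun x => ‖χ x * He n x‖)]
    have e2 : ∫ x, ‖χ x * He n x‖ ∂gam ≤ √((n ! : ℝ) / r ^ n) * A := by
      rw [hA, ← integral_const_mul, ← integral_const_mul]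
      apply integral_mono (hHe n).norm
      · exact (integrable_exp_quarter.const_mul _).const_mul _
      · intro x
        simp only
        rw [norm_mul, hχ.norm, one_mul]
        exact abs_He_le hr0 hr2 n x
    have e3 : 0 ≤ ∫ x, ‖χ x * He n x‖ ∂gam := integral_nonneg fun x => norm_nonneg _
    calc |ρ| ^ n / (n ! : ℝ) * ((∫ x, ‖χ x * He n x‖ ∂gam) * ∫ x, ‖χ x * He n x‖ ∂gam)
        ≤ |ρ| ^ n / (n ! : ℝ) * ((√((n ! : ℝ) / r ^ n) * A) * (√((n ! : ℝ) / r ^ n) * A)) := by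
          gcongr
      _ = |ρ| ^ n / (n ! : ℝ) * ((n ! : ℝ) / r ^ n * A ^ 2) := by
          have : √((n ! : ℝ) / r ^ n) * √((n ! : ℝ) / r ^ n) = (n ! : ℝ) / r ^ n :=
            Real.mul_self_sqrt (by positivity)
          rw [show (√((n ! : ℝ) / r ^ n) * A) * (√((n ! : ℝ) / r ^ n) * A)
            = (√((n ! : ℝ) / r ^ n) * √((n ! : ℝ) / r ^ n)) * A ^ 2 by ring, this]
      _ = (|ρ| / r) ^ n * A ^ 2 := by
          rw [div_pow]
          field_simp
  have hsum : Summable (fun n : ℕ => ∫ p : ℝ × ℝ, ‖ρ ^ n / (n ! : ℝ) *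
      ((χ p.1 * He n p.1) * (χ p.2 * He n p.2))‖ ∂(gam.prod gam)) := by
    refine Summable.of_nonneg_of_le (fun n => integral_nonneg fun p => norm_nonneg _) hnorm ?_
    apply Summable.mul_right
    apply summable_geometric_of_lt_one (by positivity)
    rw [div_lt_one hr0]
    exact hr1
  have main := hasSum_integral_of_summable_integral_norm hF hsum
  simp_rw [hterm] at main
  have hexp : ∀ p : ℝ × ℝ, ∑' n : ℕ, ρ ^ n / (n ! : ℝ) *
      ((χ p.1 * He n p.1) * (χ p.2 * He n p.2)) = mehlerK ρ p.1 p.2 * (χ p.1 * χ p.2) := by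
    intro p
    rw [← (mehler h p.1 p.2).tsum_eq, ← tsum_mul_right]
    congr 1
    ext n
    ring
  simp_rw [hexp] at main
  rw [h2_eq_kernel hχ h]
  exact main

end Pool.Agent.H39
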