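import Pool.Agent.H39.Hermite

open MeasureTheory ProbabilityTheory Polynomial Complex
open scoped Nat

namespace Pool.Agent.H39

/-- The Mehler kernel (density of the standard bivariate normal law with correlation `ρ`
with respect to the product Gaussian measure). -/
noncomputable def mehlerK (ρ x y : ℝ) : ℝ :=
  (√(1 - ρ ^ 2))⁻¹ * Real.exp (-(ρ ^ 2 * (x ^ 2 + y ^ 2) - 2 * ρ * x * y) / (2 * (1 - ρ ^ 2)))

lemma norm_mehler_term (ρ x y s t : ℝ) (n : ℕ) :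
    ‖((ρ : ℂ) ^ n / (n ! : ℂ)) * (((x : ℂ) + I * s) ^ n * ((y : ℂ) + I * t) ^ n)‖
      ≤ (|ρ| * ((|x| + |s|) * (|y| + |t|))) ^ n / (n ! : ℝ) := by
  rw [norm_mul, norm_div, norm_mul, norm_pow, norm_pow, norm_pow]
  have h1 : ‖(n ! : ℂ)‖ = (n ! : ℝ) := by simp
  rw [h1, Complex.norm_real, Real.norm_eq_abs, mul_pow, mul_pow, div_mul_eq_mul_div]
  gcongr
  · exact norm_add_I_le x s
  · exact norm_add_I_le y t

lemma integrable_mehler_bound {ρ : ℝ} (h : |ρ| < 1) (x y : ℝ) :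
    Integrable (fun p : ℝ × ℝ => Real.exp (|ρ| * ((|x| + |p.1|) * (|y| + |p.2|))))
      (gam.prod gam) := by
  have h1 := integrable_exp_abs_sq_gam h (|ρ| * |y|)
  have h2 := integrable_exp_abs_sq_gam h (|ρ| * |x|)
  have h3 := (h1.mul_prod h2).const_mul (Real.exp (|ρ| * (|x| * |y|)))
  refine h3.mono' ?_ ?_
  · exact (by fun_prop : Measurable
      (fun p : ℝ × ℝ => Real.exp (|ρ| * ((|x| + |p.1|) * (|y| + |p.2|))))).aestronglyMeasurable
  · filter_upwards with p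
    rw [Real.norm_eq_abs, abs_of_pos (Real.exp_pos _), ← Real.exp_add, ← Real.exp_add]
    apply Real.exp_le_exp.2
    have h4 : |ρ| * (|p.1| * |p.2|) ≤ |ρ| * ((p.1 ^ 2 + p.2 ^ 2) / 2) := by
      apply mul_le_mul_of_nonneg_left _ (abs_nonneg _)
      have := sq_nonneg (|p.1| - |p.2|)
      rw [sub_sq, sq_abs, sq_abs] at this
      linarith
    nlinarith

lemma mehler_integral {ρ : ℝ} (h : |ρ| < 1) (x y : ℝ) :
    ∫ p : ℝ × ℝ, cexp ((ρ : ℂ) * (((x : ℂ) + I * p.1) * ((y : ℂ) + I * p.2))) ∂(gam.prod gam)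
      = ((mehlerK ρ x y : ℝ) : ℂ) := by
  have hρ : ρ ^ 2 < 1 := by
    rw [← sq_abs]
    have := abs_nonneg ρ
    nlinarith
  have hint : Integrable (fun p : ℝ × ℝ =>
      cexp ((ρ : ℂ) * (((x : ℂ) + I * p.1) * ((y : ℂ) + I * p.2)))) (gam.prod gam) := by
    refine (integrable_mehler_bound h x y).mono' ?_ ?_
    · exact (by fun_prop : Measurable (fun p : ℝ × ℝ =>
        cexp ((ρ : ℂ) * (((x : ℂ) + I * p.1) * ((y : ℂ) + I * p.2))))).aestronglyMeasurable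
    · filter_upwards with p
      rw [Complex.norm_exp]
      apply Real.exp_le_exp.2
      refine (Complex.re_le_norm _).trans ?_
      rw [norm_mul, norm_mul, Complex.norm_real, Real.norm_eq_abs]
      gcongr
      · exact norm_add_I_le _ _
      · exact norm_add_I_le _ _
  rw [integral_prod_symm _ hint]
  have inner : ∀ t : ℝ, ∫ s : ℝ, cexp ((ρ : ℂ) * (((x : ℂ) + I * s) * ((y : ℂ) + I * t))) ∂gam
      = cexp ((ρ : ℂ) * x * ((y : ℂ) + I * t) - (ρ : ℂ) ^ 2 * ((y : ℂ) + I * t) ^ 2 / 2) := by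
    intro t
    have h1 := complexMGF_id_gaussianReal (μ := 0) (v := 1) (I * (ρ : ℂ) * ((y : ℂ) + I * t))
    simp only [complexMGF, id] at h1
    have h2 : ∀ s : ℝ, cexp ((ρ : ℂ) * (((x : ℂ) + I * s) * ((y : ℂ) + I * t)))
        = cexp ((ρ : ℂ) * x * ((y : ℂ) + I * t))
          * cexp (I * (ρ : ℂ) * ((y : ℂ) + I * t) * s) := by
      intro s
      rw [← Complex.exp_add]
      congr 1
      ring
    simp_rw [h2]
    rw [integral_const_mul, h1, ← Complex.exp_add]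
    congr 1
    push_cast
    linear_combination ((ρ : ℂ) ^ 2 * ((y : ℂ) + I * t) ^ 2 / 2) * Complex.I_sq
  simp_rw [inner]
  rw [integral_gam]
  have hb : ((((ρ ^ 2 - 1) / 2 : ℝ) : ℂ)).re < 0 := by
    rw [Complex.ofReal_re]; linarith
  have key := integral_cexp_quadratic hb (I * ((ρ * x - ρ ^ 2 * y : ℝ) : ℂ))
    ((ρ * x * y - ρ ^ 2 * y ^ 2 / 2 : ℝ) : ℂ)
  have h3 : ∀ t : ℝ, gaussianPDFReal 0 1 t •
      cexp ((ρ : ℂ) * x * ((y : ℂ) + I * t) - (ρ : ℂ) ^ 2 * ((y : ℂ) + I * t) ^ 2 / 2)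
      = (((√(2 * Real.pi))⁻¹ : ℝ) : ℂ) * cexp ((((ρ ^ 2 - 1) / 2 : ℝ) : ℂ) * t ^ 2
        + (I * ((ρ * x - ρ ^ 2 * y : ℝ) : ℂ)) * t + ((ρ * x * y - ρ ^ 2 * y ^ 2 / 2 : ℝ) : ℂ)) := by
    intro t
    rw [gpdf_eq, Complex.real_smul, Complex.ofReal_mul, Complex.ofReal_exp, mul_assoc,
      ← Complex.exp_add]
    congr 2
    push_cast
    have hI := Complex.I_sq
    ring_nf
    rw [hI]
    ring
  simp_rw [h3]
  rw [integral_const_mul, key]
  have h4 : ((Real.pi : ℂ) / -(((ρ ^ 2 - 1) / 2 : ℝ) : ℂ)) ^ (1 / 2 : ℂ)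
      = ((√(Real.pi / ((1 - ρ ^ 2) / 2)) : ℝ) : ℂ) := by
    have h5 : ((Real.pi : ℂ) / -(((ρ ^ 2 - 1) / 2 : ℝ) : ℂ))
        = ((Real.pi / ((1 - ρ ^ 2) / 2) : ℝ) : ℂ) := by
      push_cast
      congr 1
      ring
    rw [h5, Real.sqrt_eq_rpow, Complex.ofReal_cpow]
    · norm_num
    · apply div_nonneg Real.pi_pos.le
      linarith
  rw [h4, mehlerK]
  have h6 : (I * ((ρ * x - ρ ^ 2 * y : ℝ) : ℂ)) ^ 2 = ((-(ρ * x - ρ ^ 2 * y) ^ 2 : ℝ) : ℂ) := by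
    rw [mul_pow, Complex.I_sq]
    push_cast
    ring
  rw [h6]
  have h7 : ((ρ * x * y - ρ ^ 2 * y ^ 2 / 2 : ℝ) : ℂ)
      - ((-(ρ * x - ρ ^ 2 * y) ^ 2 : ℝ) : ℂ) / (4 * (((ρ ^ 2 - 1) / 2 : ℝ) : ℂ))
      = ((-(ρ ^ 2 * (x ^ 2 + y ^ 2) - 2 * ρ * x * y) / (2 * (1 - ρ ^ 2)) : ℝ) : ℂ) := by
    rw [← Complex.ofReal_ofNat, ← Complex.ofReal_mul, ← Complex.ofReal_div, ← Complex.ofReal_sub]
    congr 1
    have h8 : (1 - ρ ^ 2) ≠ 0 := by linarith
    have h9 : (ρ ^ 2 - 1) ≠ 0 := by linarith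
    field_simp
    ring
  rw [h7, ← Complex.ofReal_exp, ← mul_assoc, ← Complex.ofReal_mul, ← Complex.ofReal_mul]
  congr 2
  rw [← Real.sqrt_inv, ← Real.sqrt_inv, ← Real.sqrt_mul (by positivity)]
  congr 1
  have h8 : (1 - ρ ^ 2) ≠ 0 := by linarith
  have h10 := Real.pi_pos.ne'
  field_simp

/-- Mehler's formula. -/
theorem mehler {ρ : ℝ} (h : |ρ| < 1) (x y : ℝ) :
    HasSum (fun n : ℕ => ρ ^ n / (n ! : ℝ) * (He n x * He n y)) (mehlerK ρ x y) := by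
  have hF : ∀ n : ℕ, Integrable (fun p : ℝ × ℝ => ((ρ : ℂ) ^ n / (n ! : ℂ)) *
      (((x : ℂ) + I * p.1) ^ n * ((y : ℂ) + I * p.2) ^ n)) (gam.prod gam) := by
    intro n
    have i1 : Integrable (fun s : ℝ => ((x : ℂ) + I * s) ^ n) gam := by
      simpa using integrable_cpow_gam x 0 n
    have i2 : Integrable (fun s : ℝ => ((y : ℂ) + I * s) ^ n) gam := by
      simpa using integrable_cpow_gam y 0 n
    exact (i1.mul_prod i2).const_mul _
  have hterm : ∀ n : ℕ, ∫ p : ℝ × ℝ, ((ρ : ℂ) ^ n / (n ! : ℂ)) *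
      (((x : ℂ) + I * p.1) ^ n * ((y : ℂ) + I * p.2) ^ n) ∂(gam.prod gam)
      = ((ρ ^ n / (n ! : ℝ) * (He n x * He n y) : ℝ) : ℂ) := by
    intro n
    rw [integral_const_mul, integral_prod_mul (fun s : ℝ => ((x : ℂ) + I * s) ^ n)
      (fun s : ℝ => ((y : ℂ) + I * s) ^ n), ← He_eq_integral, ← He_eq_integral]
    push_cast
    ring
  have hsum : Summable (fun n : ℕ => ∫ p : ℝ × ℝ, ‖((ρ : ℂ) ^ n / (n ! : ℂ)) *
      (((x : ℂ) + I * p.1) ^ n * ((y : ℂ) + I * p.2) ^ n)‖ ∂(gam.prod gam)) := by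
    apply summable_of_sum_range_le (c := ∫ p : ℝ × ℝ,
      Real.exp (|ρ| * ((|x| + |p.1|) * (|y| + |p.2|))) ∂(gam.prod gam))
    · intro n
      exact integral_nonneg fun p => norm_nonneg _
    · intro N
      rw [← integral_finsetSum _ (fun i _ => (hF i).norm)]
      apply integral_mono
      · exact integrable_finsetSum _ (fun i _ => (hF i).norm)
      · exact integrable_mehler_bound h x y
      · intro p
        calc ∑ i ∈ Finset.range N, ‖((ρ : ℂ) ^ i / (i ! : ℂ)) *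
              (((x : ℂ) + I * p.1) ^ i * ((y : ℂ) + I * p.2) ^ i)‖
            ≤ ∑ i ∈ Finset.range N,
              (|ρ| * ((|x| + |p.1|) * (|y| + |p.2|))) ^ i / (i ! : ℝ) :=
              Finset.sum_le_sum fun i _ => norm_mehler_term ρ x y p.1 p.2 i
          _ ≤ Real.exp (|ρ| * ((|x| + |p.1|) * (|y| + |p.2|))) :=
              Real.sum_le_exp_of_nonneg (by positivity) N
  have main := hasSum_integral_of_summable_integral_norm hF hsum
  have hexp : ∀ p : ℝ × ℝ, ∑' n : ℕ, ((ρ : ℂ) ^ n / (n ! : ℂ)) *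
      (((x : ℂ) + I * p.1) ^ n * ((y : ℂ) + I * p.2) ^ n)
      = cexp ((ρ : ℂ) * (((x : ℂ) + I * p.1) * ((y : ℂ) + I * p.2))) := by
    intro p
    rw [Complex.exp_eq_exp_ℂ, NormedSpace.exp_eq_tsum_div]
    congr 1
    ext n
    rw [mul_pow, mul_pow]
    ring
  simp_rw [hterm, hexp] at main
  rw [mehler_integral h] at main
  exact_mod_cast main

end Pool.Agent.H39
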