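import Pool.Agent.H39.Mehler

open MeasureTheory ProbabilityTheory Polynomial Set Filter Topology
open scoped Nat

namespace Pool.Agent.H39

/-- power series `(1/c) ∑ H_n(a)^2 ρ^(n+1)/(n+1)` (un-normalised Hermite polynomials). -/
noncomputable def psiS (a c ρ : ℝ) : ℝ :=
  (1 / c) * ∑' n : ℕ, (He n a) ^ 2 / ((n ! : ℝ) * (n + 1)) * ρ ^ (n + 1)

lemma mehlerK_diag {ρ : ℝ} (h : |ρ| < 1) (a : ℝ) :
    mehlerK ρ a a = (√(1 - ρ ^ 2))⁻¹ * Real.exp (a ^ 2 * ρ / (1 + ρ)) := by
  have h1 := abs_lt.1 h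
  rw [mehlerK]
  congr 2
  have h2 : (1 - ρ ^ 2) ≠ 0 := by nlinarith
  have h3 : (1 + ρ) ≠ 0 := by linarith
  field_simp
  ring

lemma hasSum_mehler_diag {ρ : ℝ} (h : |ρ| < 1) (a : ℝ) :
    HasSum (fun n : ℕ => (He n a) ^ 2 / (n ! : ℝ) * ρ ^ n) (mehlerK ρ a a) := by
  have := mehler h a a
  convert this using 2 with n
  ring

lemma psiS_coeff_nonneg (a : ℝ) (n : ℕ) : 0 ≤ (He n a) ^ 2 / ((n ! : ℝ) * (n + 1)) := by
  positivity

lemma summable_psiS_term {a ρ : ℝ} (h : |ρ| < 1) :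
    Summable (fun n : ℕ => (He n a) ^ 2 / ((n ! : ℝ) * (n + 1)) * ρ ^ (n + 1)) := by
  have h1 := (hasSum_mehler_diag (ρ := |ρ|) (by rwa [abs_abs]) a).summable
  refine Summable.of_norm_bounded h1 ?_
  intro n
  rw [norm_mul, Real.norm_eq_abs, Real.norm_eq_abs, abs_of_nonneg (psiS_coeff_nonneg a n), abs_pow]
  have h2 : (He n a) ^ 2 / ((n ! : ℝ) * (n + 1)) ≤ (He n a) ^ 2 / (n ! : ℝ) := by
    apply div_le_div_of_nonneg_left (by positivity) (by positivity)
    have : (0:ℝ) ≤ (n ! : ℝ) * n := by positivity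
    nlinarith
  have h3 : |ρ| ^ (n + 1) ≤ |ρ| ^ n := pow_le_pow_of_le_one (abs_nonneg _) h.le (Nat.le_succ n)
  exact mul_le_mul h2 h3 (by positivity) (by positivity)

lemma hasDerivAt_psiS {a c ρ : ℝ} (h : |ρ| < 1) :
    HasDerivAt (psiS a c) ((1 / c) * mehlerK ρ a a) ρ := by
  obtain ⟨r, hr1, hr2⟩ := exists_between h
  have hr0 : 0 ≤ r := (abs_nonneg ρ).trans hr1.le
  have hs := (hasSum_mehler_diag (ρ := r) (by rwa [abs_of_nonneg hr0]) a).summable
  have hd : HasDerivAt
      (fun z => ∑' n : ℕ, (He n a) ^ 2 / ((n ! : ℝ) * (n + 1)) * z ^ (n + 1))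
      (∑' n : ℕ, (He n a) ^ 2 / (n ! : ℝ) * ρ ^ n) ρ := by
    refine hasDerivAt_tsum_of_isPreconnected (𝕜 := ℝ) (F := ℝ)
      (g := fun (n : ℕ) (z : ℝ) => (He n a) ^ 2 / ((n ! : ℝ) * (n + 1)) * z ^ (n + 1))
      (g' := fun (n : ℕ) (z : ℝ) => (He n a) ^ 2 / (n ! : ℝ) * z ^ n)
      (t := Metric.ball (0:ℝ) r) (y₀ := 0) hs
      Metric.isOpen_ball (convex_ball (0:ℝ) r : Convex ℝ (Metric.ball (0:ℝ) r)).isPreconnected
      ?_ ?_ ?_ ?_ ?_
    · intro n y _
      have h1 := (hasDerivAt_pow (n + 1) y).const_mul ((He n a) ^ 2 / ((n ! : ℝ) * (n + 1)))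
      refine h1.congr_deriv ?_
      have h3 : (n ! : ℝ) ≠ 0 := by positivity
      have h4 : (n + 1 : ℝ) ≠ 0 := by positivity
      rw [Nat.add_sub_cancel]
      push_cast
      field_simp
    · intro n y hy
      rw [mem_ball_zero_iff, Real.norm_eq_abs] at hy
      rw [norm_mul, Real.norm_eq_abs, Real.norm_eq_abs, abs_of_nonneg (by positivity), abs_pow]
      gcongr
    · rw [mem_ball_zero_iff, norm_zero]
      exact lt_of_le_of_lt (abs_nonneg ρ) hr1
    · simp
    · rwa [mem_ball_zero_iff, Real.norm_eq_abs]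
  rw [(hasSum_mehler_diag h a).tsum_eq] at hd
  exact hd.const_mul (1 / c)

lemma continuousOn_psiS {a c : ℝ} (h1 : psiS a c 1 ≠ 0) :
    ContinuousOn (psiS a c) (Icc 0 1) := by
  have hs : Summable (fun n : ℕ => (He n a) ^ 2 / ((n ! : ℝ) * (n + 1))) := by
    by_contra hns
    apply h1
    rw [psiS]
    have : (fun n : ℕ => (He n a) ^ 2 / ((n ! : ℝ) * (n + 1)) * (1:ℝ) ^ (n + 1))
        = fun n : ℕ => (He n a) ^ 2 / ((n ! : ℝ) * (n + 1)) := by
      ext n; simp
    rw [this, tsum_eq_zero_of_not_summable hns, mul_zero]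
  unfold psiS
  apply ContinuousOn.mul continuousOn_const
  refine continuousOn_tsum (fun n => by fun_prop) hs ?_
  intro n x hx
  rw [norm_mul, Real.norm_eq_abs, Real.norm_eq_abs, abs_of_nonneg (psiS_coeff_nonneg a n), abs_pow,
    abs_of_nonneg hx.1]
  exact mul_le_of_le_one_right (psiS_coeff_nonneg a n) (pow_le_one₀ hx.1 hx.2)

/-- Two sided bound for the disagreement probability near angle `0`. -/
theorem D_bounds {a c : ℝ} (hc : 0 < c) {D : ℝ → ℝ}
    (hD : ∀ θ ∈ Icc 0 (Real.pi / 2), D θ = (1 - psiS a c (Real.cos θ)) / 2)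
    (h1 : psiS a c 1 = 1) {θ : ℝ} (hθ : θ ∈ Icc 0 (Real.pi / 2)) :
    Real.exp (a ^ 2 / 2) / (2 * c) * (θ - a ^ 2 * θ ^ 3 / 12) ≤ D θ ∧
      D θ ≤ Real.exp (a ^ 2 / 2) / (2 * c) * θ := by
  set κ := Real.exp (a ^ 2 / 2) / (2 * c) with hκ
  have hpi := Real.pi_pos
  have hcont : ContinuousOn (fun t => psiS a c (Real.cos t)) (Icc 0 (Real.pi / 2)) := by
    refine (continuousOn_psiS (a := a) (c := c) (by rw [h1]; exact one_ne_zero)).comp
      Real.continuous_cos.continuousOn ?_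
    intro t ht
    exact ⟨Real.cos_nonneg_of_mem_Icc ⟨by linarith [ht.1], ht.2⟩, Real.cos_le_one t⟩
  have hder : ∀ t ∈ Ioo 0 (Real.pi / 2), HasDerivAt (fun t => psiS a c (Real.cos t))
      (-(1 / c * Real.exp (a ^ 2 * Real.cos t / (1 + Real.cos t)))) t := by
    intro t ht
    have hcos : 0 < Real.cos t := Real.cos_pos_of_mem_Ioo ⟨by linarith [ht.1], ht.2⟩
    have hsin : 0 < Real.sin t := Real.sin_pos_of_pos_of_lt_pi ht.1 (by linarith [ht.2])
    have hsc := Real.sin_sq_add_cos_sq t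
    have habs : |Real.cos t| < 1 := by
      rw [abs_of_pos hcos]
      nlinarith
    have h2 := (hasDerivAt_psiS (a := a) (c := c) habs).comp t (Real.hasDerivAt_cos t)
    refine h2.congr_deriv ?_
    rw [mehlerK_diag habs]
    have h3 : √(1 - Real.cos t ^ 2) = Real.sin t := by
      rw [show 1 - Real.cos t ^ 2 = Real.sin t ^ 2 by linarith]
      exact Real.sqrt_sq hsin.le
    rw [h3]
    field_simp
  have hexp_le : ∀ t ∈ Ioo 0 (Real.pi / 2),
      Real.exp (a ^ 2 * Real.cos t / (1 + Real.cos t)) ≤ Real.exp (a ^ 2 / 2) := by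
    intro t ht
    have hcos : 0 < Real.cos t := Real.cos_pos_of_mem_Ioo ⟨by linarith [ht.1], ht.2⟩
    apply Real.exp_le_exp.2
    rw [div_le_div_iff₀ (by linarith) (by norm_num)]
    have := Real.cos_le_one t
    nlinarith [sq_nonneg a]
  have hexp_ge : ∀ t ∈ Ioo 0 (Real.pi / 2),
      Real.exp (a ^ 2 / 2) * (1 - a ^ 2 * t ^ 2 / 4)
        ≤ Real.exp (a ^ 2 * Real.cos t / (1 + Real.cos t)) := by
    intro t ht
    have hcos : 0 < Real.cos t := Real.cos_pos_of_mem_Ioo ⟨by linarith [ht.1], ht.2⟩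
    have h2 : a ^ 2 / 2 - a ^ 2 * t ^ 2 / 4 ≤ a ^ 2 * Real.cos t / (1 + Real.cos t) := by
      rw [le_div_iff₀ (by linarith)]
      have h3 := Real.one_sub_sq_div_two_le_cos (x := t)
      have h4 := Real.cos_le_one t
      have h5 : 0 ≤ a ^ 2 := sq_nonneg a
      have h6 : 0 ≤ a ^ 2 * (t ^ 2 * Real.cos t) := by positivity
      nlinarith
    calc Real.exp (a ^ 2 / 2) * (1 - a ^ 2 * t ^ 2 / 4)
        ≤ Real.exp (a ^ 2 / 2) * Real.exp (-(a ^ 2 * t ^ 2 / 4)) := by
          gcongr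
          have := Real.add_one_le_exp (-(a ^ 2 * t ^ 2 / 4))
          linarith
      _ = Real.exp (a ^ 2 / 2 - a ^ 2 * t ^ 2 / 4) := by
          rw [← Real.exp_add]; congr 1
      _ ≤ _ := Real.exp_le_exp.2 h2
  have hDc : ContinuousOn D (Icc 0 (Real.pi / 2)) := by
    refine ContinuousOn.congr (f := fun t => (1 - psiS a c (Real.cos t)) / 2) ?_ hD
    exact (continuousOn_const.sub hcont).div_const 2
  have hDd : ∀ t ∈ Ioo 0 (Real.pi / 2), HasDerivAt D
      (1 / (2 * c) * Real.exp (a ^ 2 * Real.cos t / (1 + Real.cos t))) t := by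
    intro t ht
    have h2 := ((hder t ht).const_sub 1).div_const 2
    have h3 : D =ᶠ[𝓝 t] fun t => (1 - psiS a c (Real.cos t)) / 2 := by
      filter_upwards [Ioo_mem_nhds ht.1 ht.2] with s hs
      exact hD s ⟨hs.1.le, hs.2.le⟩
    refine (h2.congr_of_eventuallyEq h3).congr_deriv ?_
    field_simp
  have hint : interior (Icc 0 (Real.pi / 2)) = Ioo 0 (Real.pi / 2) := interior_Icc
  have hD0 : D 0 = 0 := by
    rw [hD 0 ⟨le_rfl, by positivity⟩, Real.cos_zero, h1]
    norm_num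
  have h0 : (0:ℝ) ∈ Icc 0 (Real.pi / 2) := ⟨le_rfl, by positivity⟩
  constructor
  · have hm : MonotoneOn (fun t => D t - κ * (t - a ^ 2 * t ^ 3 / 12)) (Icc 0 (Real.pi / 2)) := by
      apply monotoneOn_of_deriv_nonneg (convex_Icc _ _)
      · exact hDc.sub (by fun_prop)
      · rw [hint]
        intro t ht
        exact ((hDd t ht).differentiableAt.sub (by fun_prop)).differentiableWithinAt
      · rw [hint]
        intro t ht
        have h2 : HasDerivAt (fun t : ℝ => κ * (t - a ^ 2 * t ^ 3 / 12))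
            (κ * (1 - a ^ 2 * t ^ 2 / 4)) t := by
          have h3 := ((hasDerivAt_id t).sub (((hasDerivAt_pow 3 t).const_mul (a ^ 2)).div_const
            12)).const_mul κ
          refine h3.congr_deriv ?_
          change κ * (1 - a ^ 2 * (((3:ℕ):ℝ) * t ^ 2) / 12) = _
          push_cast
          ring
        have h3 := ((hDd t ht).sub h2).deriv
        rw [show (fun t => D t - κ * (t - a ^ 2 * t ^ 3 / 12))
          = D - (fun t : ℝ => κ * (t - a ^ 2 * t ^ 3 / 12)) from rfl, h3]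
        have h4 := hexp_ge t ht
        have h5 : κ * (1 - a ^ 2 * t ^ 2 / 4)
            = 1 / (2 * c) * (Real.exp (a ^ 2 / 2) * (1 - a ^ 2 * t ^ 2 / 4)) := by
          rw [hκ]; ring
        rw [h5, ← mul_sub]
        apply mul_nonneg (by positivity)
        linarith
    have := hm h0 hθ hθ.1
    simp only [hD0] at this
    norm_num at this
    linarith
  · have hm : MonotoneOn (fun t => κ * t - D t) (Icc 0 (Real.pi / 2)) := by
      apply monotoneOn_of_deriv_nonneg (convex_Icc _ _)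
      · exact ContinuousOn.sub (by fun_prop) hDc
      · rw [hint]
        intro t ht
        exact (DifferentiableAt.sub (by fun_prop)
          (hDd t ht).differentiableAt).differentiableWithinAt
      · rw [hint]
        intro t ht
        have h2 : HasDerivAt (fun t : ℝ => κ * t) κ t := by
          simpa using (hasDerivAt_id t).const_mul κ
        have h3 := (h2.sub (hDd t ht)).deriv
        rw [show (fun t => κ * t - D t) = (fun t : ℝ => κ * t) - D from rfl, h3]
        have h4 := hexp_le t ht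
        have h5 : κ = 1 / (2 * c) * Real.exp (a ^ 2 / 2) := by
          rw [hκ]; ring
        rw [h5, ← mul_sub]
        apply mul_nonneg (by positivity)
        linarith
    have := hm h0 hθ hθ.1
    simp only [hD0] at this
    norm_num at this
    linarith

end Pool.Agent.H39
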