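import Pool.Agent.H39.Kern

open MeasureTheory ProbabilityTheory Polynomial Set Filter Topology
open scoped Nat NNReal ENNReal

namespace Pool.Agent.H39

/-- the rotated coordinate -/
noncomputable def Xr (t : ℝ) (p : ℝ × ℝ) : ℝ := Real.cos t * p.1 + Real.sin t * p.2

@[fun_prop]
lemma measurable_Xr (t : ℝ) : Measurable (Xr t) := by
  unfold Xr
  fun_prop

lemma Xr_zero (p : ℝ × ℝ) : Xr 0 p = p.1 := by simp [Xr]

/-- disagreement indicator for `±1` valued functions -/
noncomputable def dd (χ : ℝ → ℝ) (x y : ℝ) : ℝ := (1 - χ x * χ y) / 2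

lemma dd_eq_or {χ : ℝ → ℝ} (h : PM χ) (x y : ℝ) :
    (χ x = χ y ∧ dd χ x y = 0) ∨ (χ x ≠ χ y ∧ dd χ x y = 1) := by
  rcases h.val x with hx | hx <;> rcases h.val y with hy | hy <;> simp [dd, hx, hy] <;> norm_num

lemma dd_nonneg {χ : ℝ → ℝ} (h : PM χ) (x y : ℝ) : 0 ≤ dd χ x y := by
  rcases dd_eq_or h x y with h | h <;> rw [h.2]
  norm_num

lemma dd_le_one {χ : ℝ → ℝ} (h : PM χ) (x y : ℝ) : dd χ x y ≤ 1 := by
  rcases dd_eq_or h x y with h | h <;> rw [h.2]
  norm_num

lemma dd_triangle {χ : ℝ → ℝ} (h : PM χ) (x y z : ℝ) : dd χ x z ≤ dd χ x y + dd χ y z := by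
  rcases h.val x with hx | hx <;> rcases h.val y with hy | hy <;> rcases h.val z with hz | hz <;>
    simp [dd, hx, hy, hz]

/-- disagreement probability at angle `t`. -/
noncomputable def Dp (χ : ℝ → ℝ) (t : ℝ) : ℝ := ∫ p, dd χ p.1 (Xr t p) ∂(gam.prod gam)

lemma measurable_dd {χ : ℝ → ℝ} (h : PM χ) {α : Type*} [MeasurableSpace α] {f g : α → ℝ}
    (hf : Measurable f) (hg : Measurable g) : Measurable (fun p => dd χ (f p) (g p)) := by
  have := h.meas
  unfold dd
  fun_prop

lemma integrable_dd {χ : ℝ → ℝ} (h : PM χ) {f g : ℝ × ℝ → ℝ}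
    (hf : Measurable f) (hg : Measurable g) :
    Integrable (fun p => dd χ (f p) (g p)) (gam.prod gam) := by
  refine (integrable_const (1:ℝ)).mono' (measurable_dd h hf hg).aestronglyMeasurable ?_
  filter_upwards with p
  rw [Real.norm_of_nonneg (dd_nonneg h _ _)]
  exact dd_le_one h _ _

lemma Dp_eq {χ : ℝ → ℝ} (h : PM χ) {t : ℝ} (ht : t ∈ Icc 0 Real.pi) :
    Dp χ t = (1 - h2 χ (Real.cos t)) / 2 := by
  have hm := h.meas
  have hs : √(1 - Real.cos t ^ 2) = Real.sin t := by
    rw [show 1 - Real.cos t ^ 2 = Real.sin t ^ 2 by rw [Real.sin_sq]]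
    exact Real.sqrt_sq (Real.sin_nonneg_of_mem_Icc ht)
  unfold Dp h2 dd
  rw [hs, integral_div, integral_sub (integrable_const _)]
  · simp [Xr]
  · refine (integrable_const (1:ℝ)).mono' (by fun_prop) ?_
    filter_upwards with p
    rw [norm_mul, h.norm, h.norm, mul_one]

lemma map_rotation (s : ℝ) :
    (gam.prod gam).map (ContinuousLinearMap.rotation s) = gam.prod gam := by
  apply IsGaussian.map_rotation_eq_self
  simp

lemma integral_dd_rot {χ : ℝ → ℝ} (h : PM χ) (s t : ℝ) :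
    ∫ p, dd χ (Xr s p) (Xr (s + t) p) ∂(gam.prod gam) = Dp χ t := by
  rw [Dp]
  conv_rhs => rw [← map_rotation s]
  rw [integral_map (by fun_prop) (measurable_dd h (by fun_prop) (by fun_prop)).aestronglyMeasurable]
  congr 1
  ext p
  congr 1
  rw [ContinuousLinearMap.rotation_apply]
  simp only [Xr, smul_eq_mul, Real.cos_add, Real.sin_add]
  ring

/-- joint density of the bivariate normal law -/
noncomputable def phi2 (ρ x y : ℝ) : ℝ :=
  gaussianPDFReal 0 1 x * gaussianPDFReal 0 1 y * mehlerK ρ x y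

lemma prod_gam_eq : gam.prod gam = (volume.prod volume).withDensity
    (fun p : ℝ × ℝ => gaussianPDF 0 1 p.1 * gaussianPDF 0 1 p.2) := by
  unfold gam
  rw [gaussianReal_of_var_ne_zero 0 one_ne_zero]
  exact prod_withDensity (measurable_gaussianPDF 0 1) (measurable_gaussianPDF 0 1)

lemma integral_prod_gam (f : ℝ × ℝ → ℝ) :
    ∫ p, f p ∂(gam.prod gam)
      = ∫ p : ℝ × ℝ, (gaussianPDFReal 0 1 p.1 * gaussianPDFReal 0 1 p.2) * f p := by
  rw [prod_gam_eq, integral_withDensity_eq_integral_toReal_smul]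
  · congr 1
    ext p
    simp [ENNReal.toReal_mul, toReal_gaussianPDF]
  · have := measurable_gaussianPDF 0 1
    fun_prop
  · exact Eventually.of_forall fun p => ENNReal.mul_lt_top gaussianPDF_lt_top gaussianPDF_lt_top

lemma integrable_prod_gam_iff (f : ℝ × ℝ → ℝ) :
    Integrable f (gam.prod gam) ↔
      Integrable (fun p : ℝ × ℝ => (gaussianPDFReal 0 1 p.1 * gaussianPDFReal 0 1 p.2) * f p) := by
  rw [prod_gam_eq, integrable_withDensity_iff_integrable_smul']
  · simp [ENNReal.toReal_mul, toReal_gaussianPDF]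
    rfl
  · have := measurable_gaussianPDF 0 1
    fun_prop
  · exact Eventually.of_forall fun p => ENNReal.mul_lt_top gaussianPDF_lt_top gaussianPDF_lt_top

end Pool.Agent.H39
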