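import Mathlib

/-!
Derivations with prescribed values on algebraically independent elements (characteristic zero).
-/

namespace H39.Sem

open scoped TensorProduct IntermediateField.algebraAdjoinAdjoin

universe u

theorem exists_deriv_basis {k Ω : Type u} [Field k] [Field Ω] [Algebra k Ω] [CharZero k]
    {t : Type u} (v : t → Ω) (hv : IsTranscendenceBasis k v) (f : t → Ω) :
    ∃ δ : Derivation k Ω Ω, ∀ s, δ (v s) = f s := by
  classical
  let A := Algebra.adjoin k (Set.range v)
  let K' := IntermediateField.adjoin k (Set.range v)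
  have h1 : Algebra.FormallyEtale A K' := Algebra.FormallyEtale.of_isLocalization (nonZeroDivisors _)
  have h2 : Algebra.IsAlgebraic K' Ω := hv.isAlgebraic_field
  have h3 : Algebra.FormallyEtale K' Ω := Algebra.FormallyEtale.of_isSeparable _ Ω
  have h4 : Algebra.FormallyEtale A Ω := .comp _ K' _
  -- module structure on MvPolynomial
  let _ : Algebra (MvPolynomial t k) Ω := (MvPolynomial.aeval v).toRingHom.toAlgebra
  have hsc : IsScalarTower k (MvPolynomial t k) Ω := by
    apply IsScalarTower.of_algebraMap_eq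
    intro x
    show _ = (MvPolynomial.aeval v) (MvPolynomial.C x)
    simp
  let d1 : Derivation k (MvPolynomial t k) Ω := MvPolynomial.mkDerivation k f
  let e := hv.1.aevalEquiv
  have he : ∀ a : A, MvPolynomial.aeval v (e.symm a) = (a : Ω) := by
    intro a
    have := hv.1.algebraMap_aevalEquiv (e.symm a)
    rw [← this]
    simp [e]
  let d0 : Derivation k A Ω := Derivation.mk' (d1.toLinearMap ∘ₗ e.symm.toLinearMap) (by
    intro a b
    show d1 (e.symm (a * b)) = a • d1 (e.symm b) + b • d1 (e.symm a)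
    rw [map_mul, Derivation.leibniz]
    have h5 : ∀ (a : A) (w : Ω), e.symm a • w = a • w := by
      intro a w
      show MvPolynomial.aeval v (e.symm a) * w = (a : Ω) * w
      rw [he]
    rw [h5, h5])
  -- extend to Ω
  let g : Ω[A⁄k] →ₗ[A] Ω := d0.liftKaehlerDifferential
  let g' : Ω ⊗[A] Ω[A⁄k] →ₗ[Ω] Ω := LinearMap.liftBaseChange Ω g
  let E := KaehlerDifferential.tensorKaehlerEquivOfFormallyEtale k A Ω
  let L : Ω[Ω⁄k] →ₗ[Ω] Ω := g' ∘ₗ E.symm.toLinearMap
  refine ⟨L.compDer (KaehlerDifferential.D k Ω), ?_⟩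
  intro s
  show g' (E.symm (KaehlerDifferential.D k Ω (v s))) = f s
  have h6 : v s = algebraMap A Ω (e (MvPolynomial.X s)) := by
    rw [hv.1.algebraMap_aevalEquiv]; simp
  rw [h6, KaehlerDifferential.tensorKaehlerEquivOfFormallyEtale_symm_D_algebraMap]
  show g' (1 ⊗ₜ[A] _) = _
  rw [LinearMap.liftBaseChange_tmul, one_smul]
  show d0.liftKaehlerDifferential _ = _
  rw [Derivation.liftKaehlerDifferential_comp_D]
  show d1 (e.symm (e (MvPolynomial.X s))) = f s
  rw [AlgEquiv.symm_apply_apply]
  exact MvPolynomial.mkDerivation_X k f s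

theorem exists_deriv {k Ω : Type u} [Field k] [Field Ω] [Algebra k Ω] [CharZero k]
    {σ : Type*} (z : σ → Ω) (hz : AlgebraicIndependent k z) (c : σ → Ω) :
    ∃ δ : Derivation k Ω Ω, ∀ s, δ (z s) = c s := by
  classical
  have hinj : Function.Injective z := hz.injective
  have h1 : AlgebraicIndepOn k id (Set.range z) := by
    rw [AlgebraicIndepOn]
    exact (algebraicIndependent_subtype_range hinj).2 hz
  obtain ⟨t, hst, ht⟩ := exists_isTranscendenceBasis_superset h1
  let f : t → Ω := fun a => if h : ∃ s, z s = a then c h.choose else 0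
  obtain ⟨δ, hδ⟩ := exists_deriv_basis (k := k) ((↑) : t → Ω) ht f
  refine ⟨δ, fun s => ?_⟩
  have := hδ ⟨z s, hst ⟨s, rfl⟩⟩
  simp only at this
  rw [this]
  simp only [f]
  have hex : ∃ s', z s' = z s := ⟨s, rfl⟩
  rw [dif_pos hex, hinj hex.choose_spec]

end H39.Sem
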