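import Mathlib
import Pool.Agent.H39.SemDer

/-!
Transcendence degree counting.
-/

namespace H39.Sem

open scoped IntermediateField.algebraAdjoinAdjoin

universe u

/-- The algebraic closure inside `Ω` of the set `s`. -/
abbrev cl (k : Type*) {Ω : Type*} [Field k] [Field Ω] [Algebra k Ω] (s : Set Ω) : Set Ω :=
  (AlgebraicIndependent.matroid k Ω).closure s

variable {k Ω : Type u} [Field k] [Field Ω] [Algebra k Ω]

lemma mem_cl_iff {s : Set Ω} {a : Ω} : a ∈ cl k s ↔ IsAlgebraic (Algebra.adjoin k s) a := by
  rw [cl, AlgebraicIndependent.matroid_closure_eq]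
  exact Iff.rfl

lemma subset_cl (s : Set Ω) : s ⊆ cl k s :=
  Matroid.subset_closure _ _ (Set.subset_univ _)

lemma cl_mono {s t : Set Ω} (h : s ⊆ t) : cl k s ⊆ cl k t :=
  Matroid.closure_subset_closure _ h

lemma cl_cl_subset {s t : Set Ω} (h : s ⊆ cl k t) : cl k s ⊆ cl k t := by
  have := Matroid.closure_subset_closure (AlgebraicIndependent.matroid k Ω) h
  rwa [Matroid.closure_closure] at this

lemma mem_cl_of_mem_adjoin {s : Set Ω} {a : Ω} (h : a ∈ Algebra.adjoin k s) : a ∈ cl k s := by
  rw [mem_cl_iff]
  exact isAlgebraic_algebraMap (⟨a, h⟩ : Algebra.adjoin k s)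

/-- Counting lemma. -/
theorem exists_indep {σ τ : Type*} [Fintype σ] [Fintype τ] (z : σ → Ω) (w : τ → Ω)
    (hz : AlgebraicIndependent k z) (h : ∀ s, z s ∈ cl k (Set.range w)) :
    ∃ J : Finset τ, Fintype.card σ ≤ J.card ∧ AlgebraicIndependent k (fun j : J => w j) := by
  classical
  set M := AlgebraicIndependent.matroid k Ω with hM
  obtain ⟨I, hI⟩ := M.exists_isBasis (Set.range w) (Set.subset_univ _)
  have hzi : M.Indep (Set.range z) := by
    rw [hM, AlgebraicIndependent.matroid_indep_iff]
    exact (algebraicIndependent_subtype_range hz.injective).2 hz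
  have hle : (Set.range z).encard ≤ I.encard := by
    rw [← hzi.eRk_eq_encard, ← hI.indep.eRk_eq_encard, ← M.eRk_closure_eq I, hI.closure_eq_closure]
    apply M.eRk_mono
    rintro _ ⟨s, rfl⟩
    exact h s
  have hIsub : I ⊆ Set.range w := hI.subset
  have hIfin : I.Finite := (Set.finite_range w).subset hIsub
  choose g hg using fun a : I => hIsub a.2
  have hginj : Function.Injective g := by
    intro a b hab
    apply Subtype.ext
    rw [← hg a, ← hg b, hab]
  have := hIfin.fintype
  refine ⟨Finset.univ.image g, ?_, ?_⟩
  · rw [Finset.card_image_of_injective _ hginj, Finset.card_univ]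
    have h1 : (Set.range z).encard = (Fintype.card σ : ℕ∞) := by
      rw [← Set.image_univ, (hz.injective).injOn.encard_image, Set.encard_univ,
        ENat.card_eq_coe_fintype_card]
    have h2 : I.encard = (Fintype.card I : ℕ∞) := by
      rw [← ENat.card_coe_set_eq, ENat.card_eq_coe_fintype_card]
    rw [h1, h2] at hle
    exact_mod_cast hle
  · have hIi : AlgebraicIndependent k ((↑) : I → Ω) := hI.indep
    have hmem : ∀ j : (Finset.univ.image g : Finset τ), ∃ a : I, g a = j := by
      intro j
      obtain ⟨a, -, ha⟩ := Finset.mem_image.1 j.2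
      exact ⟨a, ha⟩
    choose q hq using hmem
    have hqinj : Function.Injective q := by
      intro a b hab
      apply Subtype.ext
      rw [← hq a, ← hq b, hab]
    have := hIi.comp q hqinj
    convert! this using 1
    funext j
    simp only [Function.comp]
    rw [← hg (q j), hq j]

/-- If every derivation over `k(s)` kills `x` then `x` is algebraic over `k(s)`. -/
theorem mem_cl_of_deriv [CharZero k] (s : Set Ω) (x : Ω)
    (h : ∀ δ : Derivation k Ω Ω, (∀ a ∈ s, δ a = 0) → δ x = 0) : x ∈ cl k s := by
  rw [mem_cl_iff]
  by_contra hx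
  have hx' : Transcendental (IntermediateField.adjoin k s) x := by
    intro h'
    exact hx ((IsFractionRing.isAlgebraic_iff (Algebra.adjoin k s)
      (IntermediateField.adjoin k s) Ω).2 h')
  have hc : CharZero (IntermediateField.adjoin k s) :=
    charZero_of_injective_algebraMap (algebraMap k (IntermediateField.adjoin k s)).injective
  have hind : AlgebraicIndependent (IntermediateField.adjoin k s) (fun _ : Unit => x) := by
    rw [algebraicIndependent_unique_type_iff]
    exact hx'
  obtain ⟨δ, hδ⟩ := exists_deriv (fun _ : Unit => x) hind (fun _ => 1)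
  have := h (δ.restrictScalars k) ?_
  · have h2 := hδ ()
    rw [Derivation.restrictScalars_apply] at this
    rw [h2] at this
    exact one_ne_zero this
  · intro a ha
    have ha' : a ∈ IntermediateField.adjoin k s := IntermediateField.subset_adjoin _ _ ha
    have : a = algebraMap (IntermediateField.adjoin k s) Ω ⟨a, ha'⟩ := rfl
    rw [Derivation.restrictScalars_apply, this, Derivation.map_algebraMap]

end H39.Sem
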