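import Mathlib

/-!
Linear algebra of the special point used for the homoscedastic model.
-/

namespace H39.Sem

open Finset

variable {V : Type*} [Fintype V] [DecidableEq V]

/-- The matrix with constant diagonal `x none` and off-diagonal entries `x (some e)`, `e ∈ D`. -/
def mat {R : Type*} [Zero R] (D : Finset (V × V)) (x : Option D → R) (k l : V) : R :=
  if k = l then x none else if h : (k, l) ∈ D then x (some ⟨(k, l), h⟩) else 0

/-- `Y Bᵀ` is skew-symmetric. -/
def Skew {R : Type*} [CommRing R] (Y B : V → V → R) : Prop :=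
  ∀ k l, ∑ m, Y k m * B l m + ∑ m, Y l m * B k m = 0

/-- `Y` is supported on the diagonal and on `D`. -/
def Supp {R : Type*} [Zero R] (D : Finset (V × V)) (Y : V → V → R) : Prop :=
  ∀ k l, k ≠ l → (k, l) ∉ D → Y k l = 0

/-- The special matrix. -/
def spec {R : Type*} [Zero R] [One R] (D : Finset (V × V)) (i j : V) (s c : R) (k l : V) : R :=
  if k = i then (if l = i then s else if l = j then c else 0)
  else (if l = k then 1 else if l = i then (if (k, i) ∈ D then 1 else 0) else 0)

lemma sum_spec_ne {R : Type*} [CommRing R] (D : Finset (V × V)) {i j : V} (s c : R)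
    (Y : V → R) {k : V} (hk : k ≠ i) :
    ∑ m, Y m * spec D i j s c k m = Y k + Y i * (if (k, i) ∈ D then 1 else 0) := by
  rw [Finset.sum_eq_add (a := k) (b := i) hk]
  · simp [spec, hk, Ne.symm hk]
  · intro m _ hm
    simp [spec, hk, hm.1, hm.2]
  · intro h; exact absurd (Finset.mem_univ _) h
  · intro h; exact absurd (Finset.mem_univ _) h

lemma sum_spec_i {R : Type*} [CommRing R] (D : Finset (V × V)) {i j : V} (hij : j ≠ i) (s c : R)
    (Y : V → R) :
    ∑ m, Y m * spec D i j s c i m = Y i * s + Y j * c := by
  rw [Finset.sum_eq_add (a := i) (b := j) hij.symm]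
  · simp [spec, hij]
  · intro m _ hm
    simp [spec, hm.1, hm.2]
  · intro h; exact absurd (Finset.mem_univ _) h
  · intro h; exact absurd (Finset.mem_univ _) h

theorem het_spec {k : Type*} [Field k] (h2 : (2 : k) ≠ 0) (D : Finset (V × V))
    (hD : ∀ p ∈ D, (p.2, p.1) ∉ D) {i j : V} (hij : (i, j) ∈ D) (s c : k) (Y : V → V → k)
    (hY : Supp D Y) (hs : Skew Y (spec D i j s c))
    (hdiag : ∀ a, (a, i) ∈ D → Y a a = 0)
    (hii : s ≠ 0 ∨ (∃ a, (a, i) ∈ D) ∨ Y i i = 0) : ∀ a b, Y a b = 0 := by
  have hne : j ≠ i := by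
    rintro rfl
    exact hD _ hij hij
  have hji : (j, i) ∉ D := hD _ hij
  have hii' : (i, i) ∉ D := fun h => hD _ h h
  -- diagonal entries outside i
  have hd : ∀ a, a ≠ i → Y a a + Y a i * (if (a, i) ∈ D then 1 else 0) = 0 := by
    intro a ha
    have := hs a a
    rw [sum_spec_ne D s c (Y a) ha] at this
    have h3 : (2 : k) * (Y a a + Y a i * (if (a, i) ∈ D then 1 else 0)) = 0 := by
      rw [two_mul]; exact this
    exact (mul_eq_zero.1 h3).resolve_left h2
  have hd0 : ∀ a, a ≠ i → Y a a = 0 := by
    intro a ha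
    by_cases h : (a, i) ∈ D
    · exact hdiag a h
    · simpa [h] using hd a ha
  have hcol : ∀ a, a ≠ i → Y a i = 0 := by
    intro a ha
    by_cases h : (a, i) ∈ D
    · have := hd a ha
      rw [hd0 a ha] at this
      simpa [h] using this
    · exact hY a i ha h
  have hoff : ∀ a b, a ≠ i → b ≠ i → a ≠ b → Y a b = 0 := by
    intro a b ha hb hab
    have := hs a b
    rw [sum_spec_ne D s c (Y a) hb, sum_spec_ne D s c (Y b) ha, hcol a ha, hcol b hb] at this
    simp only [zero_mul, add_zero] at this
    by_cases h : (a, b) ∈ D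
    · have h' : Y b a = 0 := hY b a (Ne.symm hab) (hD _ h)
      rw [h', add_zero] at this; exact this
    · exact hY a b hab h
  have hrow : ∀ a, a ≠ i → Y i a + Y i i * (if (a, i) ∈ D then 1 else 0) = 0 := by
    intro a ha
    have := hs a i
    rw [sum_spec_i D hne s c (Y a), sum_spec_ne D s c (Y i) ha, hcol a ha] at this
    have h4 : Y a j = 0 := by
      by_cases h : a = j
      · subst h; exact hd0 _ ha
      · exact hoff a j ha hne h
    rw [h4] at this
    simpa using this
  have hijz : Y i j = 0 := by
    simpa [hji] using hrow j hne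
  have hiiz : Y i i = 0 := by
    rcases hii with h | ⟨a, ha⟩ | h
    · have := hs i i
      rw [sum_spec_i D hne s c (Y i), hijz] at this
      have h3 : (2 : k) * (Y i i * s) = 0 := by
        rw [two_mul]; simpa using this
      have h4 := (mul_eq_zero.1 h3).resolve_left h2
      exact (mul_eq_zero.1 h4).resolve_right h
    · have hai : a ≠ i := by
        rintro rfl; exact hii' ha
      have := hrow a hai
      have h5 : Y i a = 0 := hY i a (Ne.symm hai) (hD _ ha)
      simpa [h5, ha] using this
    · exact h
  intro a b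
  by_cases ha : a = i
  · subst ha
    by_cases hb : b = a
    · subst hb; exact hiiz
    · have := hrow b hb
      rw [hiiz] at this
      simpa using this
  · by_cases hb : b = i
    · subst hb; exact hcol a ha
    · by_cases hab : a = b
      · subst hab; exact hd0 a ha
      · exact hoff a b ha hb hab

/-- The diagonal entry at `j` always vanishes. -/
theorem diag_j {k : Type*} [Field k] (h2 : (2 : k) ≠ 0) (D : Finset (V × V))
    (hD : ∀ p ∈ D, (p.2, p.1) ∉ D) {i j : V} (hij : (i, j) ∈ D) (s c : k) (Y : V → V → k)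
    (hs : Skew Y (spec D i j s c)) : Y j j = 0 := by
  have hne : j ≠ i := by
    rintro rfl
    exact hD _ hij hij
  have hji : (j, i) ∉ D := hD _ hij
  have := hs j j
  rw [sum_spec_ne D s c (Y j) hne] at this
  simp only [hji, if_false, mul_zero, add_zero] at this
  have h3 : (2 : k) * (Y j j) = 0 := by
    rw [two_mul]; exact this
  exact (mul_eq_zero.1 h3).resolve_left h2

end H39.Sem
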