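import Mathlib
import Pool.Agent.H39.SemSpec

/-!
Specialisation argument with a valuation ring.
-/

namespace H39.Sem

open Finset

variable {V : Type*} [Fintype V] [DecidableEq V]

section

variable {Ω : Type*} [Field Ω] (A : ValuationSubring Ω)

lemma res_eq_zero {z : Ω} (h : z ∈ A.nonunits) (hz : z ∈ A) :
    IsLocalRing.residue A ⟨z, hz⟩ = 0 := by
  obtain ⟨ha, h'⟩ := A.mem_nonunits_iff_exists_mem_maximalIdeal.1 h
  exact (IsLocalRing.residue_eq_zero_iff _).2 h'

lemma res_eq_one {z : Ω} (h : z - 1 ∈ A.nonunits) (hz : z ∈ A) :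
    IsLocalRing.residue A ⟨z, hz⟩ = 1 := by
  have h1 := res_eq_zero A h (A.nonunits_subset h)
  have h2 : (⟨z, hz⟩ : A) = ⟨z - 1, A.nonunits_subset h⟩ + 1 := by
    apply Subtype.ext
    simp
  rw [h2, map_add, h1, map_one, zero_add]

lemma mem_of_sub_one {z : Ω} (h : z - 1 ∈ A.nonunits) : z ∈ A := by
  have := A.add_mem _ _ (A.nonunits_subset h) A.one_mem
  simpa using this

lemma mul_nonunits {a z : Ω} (ha : a ∈ A) (h : z ∈ A.nonunits) : a * z ∈ A.nonunits := by
  obtain ⟨hz, h'⟩ := A.mem_nonunits_iff_exists_mem_maximalIdeal.1 h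
  apply A.mem_nonunits_iff_exists_mem_maximalIdeal.2
  refine ⟨A.mul_mem _ _ ha hz, ?_⟩
  exact Ideal.mul_mem_left _ (⟨a, ha⟩ : A) h'

end

theorem step1 {Ω : Type*} [Field Ω] (A : ValuationSubring Ω) (h2 : (2 : Ω)⁻¹ ∈ A)
    (h2' : (2 : Ω) ≠ 0)
    (D : Finset (V × V)) (hD : ∀ p ∈ D, (p.2, p.1) ∉ D) {i j : V} (hij : (i, j) ∈ D)
    (x : Option D → Ω)
    (hβ : x none - 1 ∈ A.nonunits)
    (hb : ∀ e : D, (e : V × V) ≠ (i, j) →
      x (some e) - (if (e : V × V).2 = i then 1 else 0) ∈ A.nonunits)
    (Y : V → V → Ω) (hY : Supp D Y) (hs : Skew Y (mat D x))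
    (hC : ((∀ a, (a, i) ∈ D → Y a a = 0) ∧ ((∀ a, (a, i) ∉ D) → Y i i = 0)) ∨
      (∀ a b, Y a a = Y b b)) :
    ∀ a b, Y a b = 0 := by
  by_contra hcon
  push Not at hcon
  obtain ⟨a0, b0, hab0⟩ := hcon
  have hne : j ≠ i := by
    rintro rfl
    exact hD _ hij hij
  set u : Ω := x (some ⟨(i, j), hij⟩) with hu
  obtain ⟨ρ, hρ0, hρA, hρu, hρ⟩ : ∃ ρ : Ω, ρ ≠ 0 ∧ ρ ∈ A ∧ ρ * u ∈ A ∧
      (ρ = 1 ∨ ρ ∈ A.nonunits) := by
    by_cases h : u ∈ A
    · exact ⟨1, one_ne_zero, A.one_mem, by simpa using h, Or.inl rfl⟩
    · have hu0 : u ≠ 0 := by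
        rintro h0
        rw [h0] at h
        exact h A.zero_mem
      refine ⟨u⁻¹, inv_ne_zero hu0, ?_, ?_, Or.inr ?_⟩
      · exact (A.mem_or_inv_mem u).resolve_left h
      · rw [inv_mul_cancel₀ hu0]; exact A.one_mem
      · exact A.inv_mem_nonunits_iff.2 (Or.inr h)
  set r : V → Ω := fun a => if a = i then ρ else 1 with hr
  have hr0 : ∀ a, r a ≠ 0 := by
    intro a
    simp only [hr]
    split_ifs
    · exact hρ0
    · exact one_ne_zero
  set s : IsLocalRing.ResidueField A := IsLocalRing.residue A ⟨ρ, hρA⟩ with hsdef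
  set c : IsLocalRing.ResidueField A := IsLocalRing.residue A ⟨ρ * u, hρu⟩ with hcdef
  -- the scaled matrix
  have hB : ∀ a b, ∃ h : r a * mat D x a b ∈ A,
      IsLocalRing.residue A ⟨r a * mat D x a b, h⟩ = spec D i j s c a b := by
    intro a b
    by_cases ha : a = i
    · subst ha
      by_cases hb' : b = a
      · subst hb'
        have hx : x none ∈ A := mem_of_sub_one A hβ
        have e1 : r b * mat D x b b = ρ * x none := by simp [hr, mat]
        have hm : ρ * x none ∈ A := A.mul_mem _ _ hρA hx
        refine ⟨by rw [e1]; exact hm, ?_⟩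
        have e2 : (⟨r b * mat D x b b, by rw [e1]; exact hm⟩ : A) = ⟨ρ, hρA⟩ * ⟨x none, hx⟩ := by
          apply Subtype.ext
          simpa using e1
        rw [e2, map_mul, res_eq_one A hβ hx, mul_one]
        simp [spec, hsdef]
      · by_cases hbj : b = j
        · subst hbj
          have e1 : r a * mat D x a b = ρ * u := by
            simp [hr, mat, hij, hu, Ne.symm hb']
          refine ⟨by rw [e1]; exact hρu, ?_⟩
          have e2 : (⟨r a * mat D x a b, by rw [e1]; exact hρu⟩ : A) = ⟨ρ * u, hρu⟩ :=
            Subtype.ext e1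
          rw [e2]
          simp [spec, hcdef, hb']
        · by_cases hD' : (a, b) ∈ D
          · have hx := hb ⟨(a, b), hD'⟩ (by simp [hbj])
            simp only [hb', if_false, sub_zero] at hx
            have e1 : r a * mat D x a b = ρ * x (some ⟨(a, b), hD'⟩) := by
              simp [hr, mat, hD', Ne.symm hb']
            have hn := mul_nonunits A hρA hx
            refine ⟨by rw [e1]; exact A.nonunits_subset hn, ?_⟩
            rw [res_eq_zero A (by rw [e1]; exact hn)]
            simp [spec, hb', hbj]
          · have e1 : r a * mat D x a b = 0 := by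
              simp [mat, hD', Ne.symm hb']
            refine ⟨by rw [e1]; exact A.zero_mem, ?_⟩
            rw [res_eq_zero A (by rw [e1]; exact A.nonunits.zero_mem)]
            simp [spec, hb', hbj]
    · by_cases hb' : b = a
      · subst hb'
        have hx : x none ∈ A := mem_of_sub_one A hβ
        have e1 : r b * mat D x b b = x none := by simp [hr, mat, ha]
        refine ⟨by rw [e1]; exact hx, ?_⟩
        rw [res_eq_one A (by rw [e1]; exact hβ)]
        simp [spec, ha]
      · by_cases hbi : b = i
        · subst hbi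
          by_cases hD' : (a, b) ∈ D
          · have hx := hb ⟨(a, b), hD'⟩ (by simp [ha])
            simp only [if_true] at hx
            have e1 : r a * mat D x a b = x (some ⟨(a, b), hD'⟩) := by
              simp [hr, mat, hD', ha]
            refine ⟨by rw [e1]; exact mem_of_sub_one A hx, ?_⟩
            rw [res_eq_one A (by rw [e1]; exact hx)]
            simp [spec, ha, hb', hD']
          · have e1 : r a * mat D x a b = 0 := by
              simp [mat, hD', ha]
            refine ⟨by rw [e1]; exact A.zero_mem, ?_⟩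
            rw [res_eq_zero A (by rw [e1]; exact A.nonunits.zero_mem)]
            simp [spec, ha, hb', hD']
        · by_cases hD' : (a, b) ∈ D
          · have hx := hb ⟨(a, b), hD'⟩ (by simp [ha])
            simp only [hbi, if_false, sub_zero] at hx
            have e1 : r a * mat D x a b = x (some ⟨(a, b), hD'⟩) := by
              simp [hr, mat, hD', ha, Ne.symm hb']
            refine ⟨by rw [e1]; exact A.nonunits_subset hx, ?_⟩
            rw [res_eq_zero A (by rw [e1]; exact hx)]
            simp [spec, ha, hb', hbi]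
          · have e1 : r a * mat D x a b = 0 := by
              simp [mat, hD', Ne.symm hb']
            refine ⟨by rw [e1]; exact A.zero_mem, ?_⟩
            rw [res_eq_zero A (by rw [e1]; exact A.nonunits.zero_mem)]
            simp [spec, ha, hb', hbi]
  -- choose the entry of maximal valuation
  obtain ⟨pq, -, hpq⟩ := Finset.exists_max_image (Finset.univ : Finset (V × V))
    (fun p => A.valuation (r p.1 * Y p.1 p.2)) ⟨(a0, b0), Finset.mem_univ _⟩
  obtain ⟨p, q⟩ := pq
  set w : Ω := r p * Y p q with hw
  have hw0 : w ≠ 0 := by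
    intro h0
    have := hpq (a0, b0) (Finset.mem_univ _)
    simp only at this
    rw [h0, map_zero] at this
    have h3 := le_zero_iff.1 this
    rw [Valuation.zero_iff] at h3
    exact mul_ne_zero (hr0 a0) hab0 h3
  have hZA : ∀ a b, r a * Y a b / w ∈ A := by
    intro a b
    rw [← A.valuation_le_one_iff, map_div₀]
    have := hpq (a, b) (Finset.mem_univ _)
    simp only at this
    apply div_le_one_of_le₀ this zero_le
  set Z : V → V → A := fun a b => ⟨r a * Y a b / w, hZA a b⟩ with hZ
  set B : V → V → A := fun a b => ⟨r a * mat D x a b, (hB a b).choose⟩ with hBdef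
  have hBres : ∀ a b, IsLocalRing.residue A (B a b) = spec D i j s c a b := fun a b =>
    (hB a b).choose_spec
  have hskA : ∀ a b, ∑ m, Z a m * B b m + ∑ m, Z b m * B a m = 0 := by
    intro a b
    apply Subtype.ext
    push_cast
    have := hs a b
    have e1 : ∀ m, ((Z a m : A) : Ω) * ((B b m : A) : Ω) = (r a * r b / w) * (Y a m * mat D x b m) := by
      intro m; simp only [hZ, hBdef]; ring
    have e2 : ∀ m, ((Z b m : A) : Ω) * ((B a m : A) : Ω) = (r a * r b / w) * (Y b m * mat D x a m) := by
      intro m; simp only [hZ, hBdef]; ring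
    simp only [e1, e2]
    rw [← Finset.mul_sum, ← Finset.mul_sum, ← mul_add, this, mul_zero]
  set Zb : V → V → IsLocalRing.ResidueField A := fun a b => IsLocalRing.residue A (Z a b) with hZb
  have hsk : Skew Zb (spec D i j s c) := by
    intro a b
    have := congrArg (IsLocalRing.residue A) (hskA a b)
    simp only [map_add, map_sum, map_mul, map_zero, hBres] at this
    exact this
  have hsupp : Supp D Zb := by
    intro a b hab h
    have h0 : Z a b = 0 := by
      apply Subtype.ext
      simp [hZ, hY a b hab h]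
    simp [hZb, h0]
  have h2r : (2 : IsLocalRing.ResidueField A) ≠ 0 := by
    intro h
    have h3 : (2 : A) * ⟨(2 : Ω)⁻¹, h2⟩ = 1 := by
      apply Subtype.ext
      show (2 : Ω) * (2 : Ω)⁻¹ = 1
      exact mul_inv_cancel₀ h2'
    have h4 := congrArg (IsLocalRing.residue A) h3
    rw [map_mul, map_one, map_ofNat, h, zero_mul] at h4
    exact zero_ne_one h4
  have hone : Zb p q = 1 := by
    have : Z p q = 1 := by
      apply Subtype.ext
      show r p * Y p q / w = 1
      rw [← hw]; exact div_self hw0
    simp [hZb, this]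
  have hall : ∀ a b, Zb a b = 0 := by
    rcases hC with ⟨hC1, hC2⟩ | hC
    · apply het_spec h2r D hD hij s c Zb hsupp hsk
      · intro a ha
        have h0 : Z a a = 0 := by
          apply Subtype.ext
          simp [hZ, hC1 a ha]
        simp [hZb, h0]
      · by_cases h : ∃ a, (a, i) ∈ D
        · exact Or.inr (Or.inl h)
        · push Not at h
          right; right
          have h0 : Z i i = 0 := by
            apply Subtype.ext
            simp [hZ, hC2 h]
          simp [hZb, h0]
    · have hj := diag_j h2r D hD hij s c Zb hsk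
      have hdz : ∀ a, Zb a a = 0 := by
        intro a
        by_cases ha : a = i
        · subst ha
          have h0 : Z a a = ⟨ρ, hρA⟩ * Z j j := by
            apply Subtype.ext
            show (if a = a then ρ else 1) * Y a a / w = ρ * ((if j = a then ρ else 1) * Y j j / w)
            rw [if_pos rfl, if_neg hne, hC a j]
            ring
          simp only [hZb] at hj ⊢
          rw [h0, map_mul, hj, mul_zero]
        · have h0 : Z a a = Z j j := by
            apply Subtype.ext
            simp only [hZ, hr]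
            rw [if_neg ha, if_neg hne, hC a j]
          simp only [hZb] at hj ⊢
          rw [h0, hj]
      exact het_spec h2r D hD hij s c Zb hsupp hsk (fun a _ => hdz a) (Or.inr (Or.inr (hdz i)))
  exact one_ne_zero (hone.symm.trans (hall p q))

/-- Existence of the valuation ring for algebraically independent elements. -/
theorem exists_val {Ω : Type*} [Field Ω] [Algebra ℝ Ω] {σ : Type*} (z : σ → Ω)
    (hz : AlgebraicIndependent ℝ z) (z0 : σ → ℝ) :
    ∃ A : ValuationSubring Ω, (∀ r : ℝ, algebraMap ℝ Ω r ∈ A) ∧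
      ∀ s, z s - algebraMap ℝ Ω (z0 s) ∈ A.nonunits := by
  set f : MvPolynomial σ ℝ →ₐ[ℝ] Ω := MvPolynomial.aeval z with hf
  have hinj : Function.Injective f := hz
  set S : Subring Ω := f.toRingHom.range with hS
  -- the evaluation at z0 on S
  let e : MvPolynomial σ ℝ ≃+* S := RingEquiv.ofBijective f.toRingHom.rangeRestrict
    ⟨fun a b h => hinj (congrArg Subtype.val h), f.toRingHom.rangeRestrict_surjective⟩
  let g : S →+* ℝ := (MvPolynomial.eval z0).comp e.symm.toRingHom
  obtain ⟨A, hA1, hA2⟩ := Ideal.image_subset_nonunits_valuationSubring (RingHom.ker g)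
    (RingHom.ker_ne_top g)
  refine ⟨A, ?_, ?_⟩
  · intro r
    apply hA1
    exact ⟨MvPolynomial.C r, by simp [hf]⟩
  · intro s
    apply hA2
    refine ⟨e (MvPolynomial.X s - MvPolynomial.C (z0 s)), ?_, ?_⟩
    · show g _ = 0
      simp [g]
    · show f (MvPolynomial.X s - MvPolynomial.C (z0 s)) = _
      simp [hf]

end H39.Sem
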