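import Mathlib
import Pool.Agent.H39.SemVal
import Pool.Agent.H39.SemCnt

/-!
The critical locus is never met on generic coordinate lines.
-/

namespace H39.Sem

open Finset

set_option linter.unusedSectionVars false

variable {V : Type*} [Fintype V] [DecidableEq V]

/-- The quadratic map `B ↦ B Bᵀ`. -/
def phi {R : Type*} [CommRing R] (D : Finset (V × V)) (x : Option D → R) (k l : V) : R :=
  ∑ m, mat D x k m * mat D x l m

lemma mat_supp {R : Type*} [CommRing R] (D : Finset (V × V)) (X : Option D → R) :
    Supp D (mat D X) := by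
  intro k l hkl h
  simp [mat, hkl, h]

lemma eq_zero_of_mat {R : Type*} [CommRing R] [Nonempty V] (D : Finset (V × V))
    (hD : ∀ p ∈ D, (p.2, p.1) ∉ D) (X : Option D → R)
    (h : ∀ a b, mat D X a b = 0) : X = 0 := by
  funext c
  rcases c with _ | ⟨⟨a, b⟩, hab⟩
  · obtain ⟨a⟩ := ‹Nonempty V›
    simpa [mat] using h a a
  · have hne : a ≠ b := by
      rintro rfl
      exact hD _ hab hab
    simpa [mat, hne, hab] using h a b

variable {Ω : Type} [Field Ω] [Algebra ℝ Ω]

lemma two_ne (Ω : Type) [Field Ω] [Algebra ℝ Ω] : (2 : Ω) ≠ 0 := by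
  have : (2 : Ω) = algebraMap ℝ Ω 2 := (map_ofNat (algebraMap ℝ Ω) 2).symm
  rw [this]
  exact (map_ne_zero_iff _ (algebraMap ℝ Ω).injective).2 two_ne_zero

lemma two_inv_mem (A : ValuationSubring Ω) (h : ∀ r : ℝ, algebraMap ℝ Ω r ∈ A) :
    (2 : Ω)⁻¹ ∈ A := by
  have : (2 : Ω)⁻¹ = algebraMap ℝ Ω 2⁻¹ := by
    rw [map_inv₀, map_ofNat]
  rw [this]; exact h _

lemma exists_val_point (D : Finset (V × V)) (e : D) (x : Option D → Ω)
    (hind : AlgebraicIndependent ℝ (fun c : {c : Option D // c ≠ some e} => x c)) :
    ∃ A : ValuationSubring Ω, (2 : Ω)⁻¹ ∈ A ∧ x none - 1 ∈ A.nonunits ∧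
      ∀ e' : D, (e' : V × V) ≠ e →
        x (some e') - (if (e' : V × V).2 = (e : V × V).1 then 1 else 0) ∈ A.nonunits := by
  obtain ⟨A, hA, hA2⟩ := exists_val _ hind (fun c => match c.1 with
    | none => 1
    | some e' => if (e' : V × V).2 = (e : V × V).1 then 1 else 0)
  refine ⟨A, two_inv_mem A hA, ?_, ?_⟩
  · have := hA2 ⟨none, by simp⟩
    simpa using this
  · intro e' he'
    have := hA2 ⟨some e', by
      intro h
      apply he'
      rw [Option.some.inj h]⟩
    simp only at this
    split_ifs at this ⊢ with h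
    · simpa using this
    · simpa using this

theorem ker_zero_of_val (D : Finset (V × V)) (hD : ∀ p ∈ D, (p.2, p.1) ∉ D) (e : D)
    (x : Option D → Ω) (A : ValuationSubring Ω) (h2 : (2 : Ω)⁻¹ ∈ A)
    (hβ : x none - 1 ∈ A.nonunits)
    (hb : ∀ e' : D, (e' : V × V) ≠ e →
        x (some e') - (if (e' : V × V).2 = (e : V × V).1 then 1 else 0) ∈ A.nonunits)
    (X : Option D → Ω) (hX : Skew (mat D X) (mat D x)) : X = 0 := by
  have : Nonempty V := ⟨(e : V × V).1⟩
  apply eq_zero_of_mat D hD
  exact step1 A h2 (two_ne Ω) D hD (i := (e : V × V).1) (j := (e : V × V).2) e.2 x hβ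
    hb (mat D X) (mat_supp D X) hX (Or.inr (fun a b => by simp [mat]))

theorem ker_zero_of_indep (D : Finset (V × V)) (hD : ∀ p ∈ D, (p.2, p.1) ∉ D) (e : D)
    (x : Option D → Ω)
    (hind : AlgebraicIndependent ℝ (fun c : {c : Option D // c ≠ some e} => x c))
    (X : Option D → Ω) (hX : Skew (mat D X) (mat D x)) : X = 0 := by
  obtain ⟨A, h2, hβ, hb⟩ := exists_val_point D e x hind
  exact ker_zero_of_val D hD e x A h2 hβ hb X hX

theorem ker_zero_of_indep' (D : Finset (V × V)) (hD : ∀ p ∈ D, (p.2, p.1) ∉ D) (e : D)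
    (y : Option D → Ω) (hy : y none ≠ 0)
    (hind : AlgebraicIndependent ℝ (fun e' : {e' : D // e' ≠ e} => y (some e') / y none))
    (X : Option D → Ω) (hX : Skew (mat D X) (mat D y)) : X = 0 := by
  obtain ⟨A, hA, hA2⟩ := exists_val _ hind
    (fun e' => if ((e' : D) : V × V).2 = (e : V × V).1 then 1 else 0)
  set x : Option D → Ω := fun c => y c / y none with hx
  have hmat : ∀ a b, mat D x a b = mat D y a b / y none := by
    intro a b
    simp only [mat, hx]
    split_ifs <;> simp
  apply ker_zero_of_val D hD e x A (two_inv_mem A hA)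
  · have : x none - 1 = 0 := by
      simp [hx, div_self hy]
    rw [this]; exact A.nonunits.zero_mem
  · intro e' he'
    have := hA2 ⟨e', fun h => he' (by rw [h])⟩
    simp only at this
    split_ifs at this ⊢ with h
    · simpa using this
    · simpa using this
  · intro k l
    have := hX k l
    simp only [hmat]
    have e1 : ∀ a b, ∑ m, mat D X a m * (mat D y b m / y none) =
        (∑ m, mat D X a m * mat D y b m) / y none := by
      intro a b
      rw [Finset.sum_div]
      refine Finset.sum_congr rfl fun m _ => ?_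
      ring
    rw [e1, e1, ← add_div, this, zero_div]

lemma deriv_mat (D : Finset (V × V)) (x : Option D → Ω) (δ : Derivation ℝ Ω Ω) (a b : V) :
    δ (mat D x a b) = mat D (fun c => δ (x c)) a b := by
  simp only [mat]
  split_ifs <;> simp

lemma deriv_phi (D : Finset (V × V)) (x : Option D → Ω) (δ : Derivation ℝ Ω Ω) (k l : V) :
    δ (phi D x k l) = ∑ m, mat D (fun c => δ (x c)) k m * mat D x l m +
      ∑ m, mat D (fun c => δ (x c)) l m * mat D x k m := by
  simp only [phi, map_sum, Derivation.leibniz, deriv_mat, smul_eq_mul]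
  rw [Finset.sum_add_distrib, add_comm]
  congr 1
  · refine Finset.sum_congr rfl fun m _ => ?_
    ring
  · refine Finset.sum_congr rfl fun m _ => ?_
    ring

/-- The coordinates are algebraic over the field generated by `K`. -/
theorem mem_cl_phi (D : Finset (V × V)) (x : Option D → Ω)
    (hker : ∀ X : Option D → Ω, Skew (mat D X) (mat D x) → X = 0) (c : Option D) :
    x c ∈ cl ℝ (Set.range fun p : V × V => phi D x p.1 p.2) := by
  apply mem_cl_of_deriv
  intro δ hδ
  have h1 : Skew (mat D (fun c => δ (x c))) (mat D x) := by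
    intro k l
    rw [← deriv_phi]
    exact hδ _ ⟨(k, l), rfl⟩
  exact congrFun (hker _ h1) c

lemma phi_mem_adjoin (D : Finset (V × V)) (y : Option D → Ω) (w : Option D → Ω)
    (h : ∀ c, y c ∈ Algebra.adjoin ℝ (Set.range w)) (k l : V) :
    phi D y k l ∈ Algebra.adjoin ℝ (Set.range w) := by
  have hm : ∀ a b, mat D y a b ∈ Algebra.adjoin ℝ (Set.range w) := by
    intro a b
    simp only [mat]
    split_ifs
    · exact h _
    · exact h _
    · exact Subalgebra.zero_mem _
  exact Subalgebra.sum_mem _ fun m _ => Subalgebra.mul_mem _ (hm _ _) (hm _ _)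

/-- The het contradiction: `K` cannot be `N Nᵀ` with `N` generic with zero diagonal. -/
theorem no_zero_diag (D₁ D₂ : Finset (V × V)) (hD₁ : ∀ p ∈ D₁, (p.2, p.1) ∉ D₁)
    (hn : 3 ≤ Fintype.card V) (e : D₁)
    (x : Option D₁ → Ω) (y : Option D₂ → Ω)
    (hind : AlgebraicIndependent ℝ (fun c : {c : Option D₁ // c ≠ some e} => x c))
    (hxy : ∀ k l, phi D₁ x k l = phi D₂ y k l) (hy0 : y none = 0)
    (hy : AlgebraicIndependent ℝ (fun e' : D₂ => y (some e'))) : False := by
  classical
  obtain ⟨A, h2, hβ, hb⟩ := exists_val_point D₁ e x hind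
  have hx0 : x none ≠ 0 := by
    have := hind.ne_zero ⟨none, by simp⟩
    simpa using this
  set i := (e : V × V).1 with hi
  set j := (e : V × V).2 with hj
  have hij : (i, j) ∈ D₁ := e.2
  have hne : j ≠ i := by
    intro h
    have := hD₁ _ hij
    simp only [h] at this hij
    exact this hij
  choose δ hδ using fun v : V => exists_deriv (k := ℝ) _ hy
    (fun e' => if (e' : V × V).1 = v then y (some e') else 0)
  have hδy : ∀ v k m, δ v (mat D₂ y k m) = if k = v then mat D₂ y k m else 0 := by
    intro v k m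
    rw [deriv_mat]
    simp only [mat, hy0, map_zero]
    split_ifs with h1 h2 h3 h4 h5 <;> simp_all
  have hδK : ∀ v k l, δ v (phi D₂ y k l) =
      (if l = v then phi D₂ y k l else 0) + (if k = v then phi D₂ y k l else 0) := by
    intro v k l
    simp only [phi, map_sum, Derivation.leibniz, hδy, smul_eq_mul]
    rw [Finset.sum_add_distrib]
    congr 1
    · split_ifs with h
      · rfl
      · simp
    · split_ifs with h
      · refine Finset.sum_congr rfl fun m _ => ?_
        ring
      · simp
  set X : V → Option D₁ → Ω := fun v c => δ v (x c) with hX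
  set Y : V → V → V → Ω := fun v k m => mat D₁ (X v) k m - (if k = v then mat D₁ x k m else 0)
    with hY
  have hYs : ∀ v, Skew (Y v) (mat D₁ x) := by
    intro v k l
    have h1 := deriv_phi D₁ x (δ v) k l
    rw [hxy, hδK, ← hxy] at h1
    simp only [hY, sub_mul, Finset.sum_sub_distrib]
    have h3 : ∑ m, (if k = v then mat D₁ x k m else 0) * mat D₁ x l m =
        if k = v then phi D₁ x k l else 0 := by
      split_ifs with h
      · rfl
      · simp
    have h4 : ∑ m, (if l = v then mat D₁ x l m else 0) * mat D₁ x k m =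
        if l = v then phi D₁ x k l else 0 := by
      split_ifs with h
      · simp only [phi]
        refine Finset.sum_congr rfl fun m _ => ?_
        ring
      · simp
    rw [h3, h4]
    have h5 : ∑ m, mat D₁ (X v) k m * mat D₁ x l m + ∑ m, mat D₁ (X v) l m * mat D₁ x k m =
      (if l = v then phi D₁ x k l else 0) + (if k = v then phi D₁ x k l else 0) := h1.symm
    linear_combination h5
  have hYsupp : ∀ v, Supp D₁ (Y v) := by
    intro v k l hkl h
    simp [hY, mat, hkl, h]
  have hYd : ∀ v k, Y v k k = X v none - (if k = v then x none else 0) := by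
    intro v k
    simp [hY, mat]
  -- choose the two vertices
  obtain ⟨a, a', haa, hq1, hq2⟩ : ∃ a a' : V, a ≠ a' ∧ (∀ k, (k, i) ∈ D₁ → k ≠ a ∧ k ≠ a') ∧
      ((∀ k, (k, i) ∉ D₁) → i ≠ a ∧ i ≠ a') := by
    by_cases hpa : ∃ k, (k, i) ∈ D₁
    · refine ⟨i, j, hne.symm, ?_, ?_⟩
      · intro k hk
        refine ⟨?_, ?_⟩
        · rintro rfl
          exact hD₁ _ hk hk
        · rintro rfl
          exact hD₁ _ hij hk
      · intro h
        obtain ⟨k, hk⟩ := hpa
        exact absurd hk (h k)
    · push Not at hpa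
      obtain ⟨w, hw⟩ : ∃ w : V, w ∉ ({i, j} : Finset V) := by
        by_contra hcon
        push Not at hcon
        have h1 : (Finset.univ : Finset V) ⊆ {i, j} := fun w _ => hcon w
        have h2 := Finset.card_le_card h1
        rw [Finset.card_univ] at h2
        have h3 := Finset.card_le_two (a := i) (b := j)
        omega
      simp only [Finset.mem_insert, Finset.mem_singleton, not_or] at hw
      refine ⟨j, w, fun h => hw.2 h.symm, ?_, ?_⟩
      · intro k hk
        exact absurd hk (hpa k)
      · intro _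
        exact ⟨hne.symm, fun h => hw.1 h.symm⟩
  -- the combination
  obtain ⟨c, c', hcc, hlin⟩ : ∃ c c' : Ω, (c ≠ 0 ∨ c' ≠ 0) ∧ c * X a none + c' * X a' none = 0 := by
    by_cases h : X a none = 0
    · exact ⟨1, 0, Or.inl one_ne_zero, by rw [h]; ring⟩
    · exact ⟨- X a' none, X a none, Or.inr h, by ring⟩
  set Z : V → V → Ω := fun k m => c * Y a k m + c' * Y a' k m with hZ
  have hZs : Skew Z (mat D₁ x) := by
    intro k l
    have h1 := hYs a k l
    have h2 := hYs a' k l
    simp only [hZ, add_mul, Finset.sum_add_distrib]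
    have e1 : ∀ (c : Ω) (W : V → V → Ω) (p q : V), ∑ m, c * W p m * mat D₁ x q m =
        c * ∑ m, W p m * mat D₁ x q m := by
      intro c W p q
      rw [Finset.mul_sum]
      exact Finset.sum_congr rfl fun m _ => by ring
    rw [e1, e1, e1, e1]
    linear_combination c * h1 + c' * h2
  have hZsupp : Supp D₁ Z := by
    intro k l hkl h
    simp [hZ, hYsupp a k l hkl h, hYsupp a' k l hkl h]
  have hZd : ∀ k, Z k k = - (c * (if k = a then x none else 0) + c' * (if k = a' then x none else 0)) := by
    intro k
    simp only [hZ, hYd]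
    linear_combination hlin
  have hzero := step1 A h2 (two_ne Ω) D₁ hD₁ hij x hβ hb Z hZsupp hZs (Or.inl ⟨?_, ?_⟩)
  · rcases hcc with h | h
    · have h1 := hZd a
      rw [hzero a a] at h1
      simp only [if_true, haa, if_false, mul_zero, add_zero] at h1
      exact mul_ne_zero h hx0 (neg_eq_zero.1 h1.symm)
    · have h1 := hZd a'
      rw [hzero a' a'] at h1
      simp only [if_true, haa.symm, if_false, mul_zero, zero_add] at h1
      exact mul_ne_zero h hx0 (neg_eq_zero.1 h1.symm)
  · intro k hk
    have := hq1 k hk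
    rw [hZd, if_neg this.1, if_neg this.2]
    simp
  · intro h
    have := hq2 h
    rw [hZd, if_neg this.1, if_neg this.2]
    simp

/-- Main algebraic statement. -/
theorem thin_omega (D₁ D₂ : Finset (V × V)) (hD₁ : ∀ p ∈ D₁, (p.2, p.1) ∉ D₁)
    (hD₂ : ∀ p ∈ D₂, (p.2, p.1) ∉ D₂) (hcard : D₁.card = D₂.card)
    (hn : 3 ≤ Fintype.card V) (e : D₁)
    (x : Option D₁ → Ω) (y : Option D₂ → Ω)
    (hind : AlgebraicIndependent ℝ (fun c : {c : Option D₁ // c ≠ some e} => x c))
    (hxy : ∀ k l, phi D₁ x k l = phi D₂ y k l)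
    (X : Option D₂ → Ω) (hX : Skew (mat D₂ X) (mat D₂ y)) : X = 0 := by
  classical
  have hKx : ∀ c, x c ∈ cl ℝ (Set.range fun p : V × V => phi D₂ y p.1 p.2) := by
    intro c
    have h1 := mem_cl_phi D₁ x (fun X hX => ker_zero_of_indep D₁ hD₁ e x hind X hX) c
    have h2 : (fun p : V × V => phi D₂ y p.1 p.2) = (fun p : V × V => phi D₁ x p.1 p.2) := by
      funext p
      exact (hxy _ _).symm
    rw [h2]; exact h1
  have hcard1 : Fintype.card {c : Option D₁ // c ≠ some e} = D₂.card := by
    rw [Fintype.card_subtype_compl, Fintype.card_option, Fintype.card_coe,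
      Fintype.card_subtype_eq, ← hcard]
    simp
  by_cases hy : y none = 0
  · exfalso
    obtain ⟨J, hJ, hJi⟩ := exists_indep (k := ℝ)
      (fun c : {c : Option D₁ // c ≠ some e} => x c) (fun e' : D₂ => y (some e')) hind (by
        intro s
        refine cl_cl_subset (k := ℝ) (s := Set.range fun p : V × V => phi D₂ y p.1 p.2) ?_ (hKx s)
        rintro _ ⟨p, rfl⟩
        apply mem_cl_of_mem_adjoin
        have h1 : ∀ a b, mat D₂ y a b ∈
            Algebra.adjoin ℝ (Set.range (fun e' : D₂ => y (some e'))) := by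
          intro a b
          simp only [mat]
          split_ifs
          · rw [hy]; exact Subalgebra.zero_mem _
          · exact Algebra.subset_adjoin ⟨_, rfl⟩
          · exact Subalgebra.zero_mem _
        exact Subalgebra.sum_mem _ fun m _ => Subalgebra.mul_mem _ (h1 _ _) (h1 _ _))
    rw [hcard1] at hJ
    have hJu : J = Finset.univ := by
      apply Finset.eq_univ_of_card
      apply le_antisymm (Finset.card_le_univ J)
      rw [Fintype.card_coe]; exact hJ
    subst hJu
    have hyi : AlgebraicIndependent ℝ (fun e' : D₂ => y (some e')) := by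
      have := hJi.comp (fun e' : D₂ => (⟨e', Finset.mem_univ _⟩ : (Finset.univ : Finset D₂)))
        (fun a b h => congrArg Subtype.val h)
      exact this
    exact no_zero_diag D₁ D₂ hD₁ hn e x y hind hxy hy hyi
  · set w : Option D₂ → Ω := fun c => match c with
      | none => y none
      | some e' => y (some e') / y none with hw
    obtain ⟨J, hJ, hJi⟩ := exists_indep (k := ℝ)
      (fun c : {c : Option D₁ // c ≠ some e} => x c) w hind (by
        intro s
        refine cl_cl_subset (k := ℝ) (s := Set.range fun p : V × V => phi D₂ y p.1 p.2) ?_ (hKx s)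
        rintro _ ⟨p, rfl⟩
        apply mem_cl_of_mem_adjoin
        apply phi_mem_adjoin
        intro c
        have hn0 : y none ∈ Algebra.adjoin ℝ (Set.range w) := Algebra.subset_adjoin ⟨none, rfl⟩
        rcases c with _ | e'
        · exact hn0
        · have h1 : y (some e') / y none ∈ Algebra.adjoin ℝ (Set.range w) :=
            Algebra.subset_adjoin ⟨some e', rfl⟩
          have h2 := Subalgebra.mul_mem _ hn0 h1
          rwa [mul_div_cancel₀ _ hy] at h2)
    rw [hcard1] at hJ
    -- J misses at most one element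
    have hmiss : (Jᶜ : Finset (Option D₂)).card ≤ 1 := by
      rw [Finset.card_compl, Fintype.card_option, Fintype.card_coe]
      omega
    have hD₂ne : D₂.Nonempty := by
      rw [← Finset.card_pos, ← hcard]
      exact Finset.card_pos.2 ⟨_, e.2⟩
    obtain ⟨f, hf⟩ : ∃ f : D₂, ∀ e' : D₂, e' ≠ f → some e' ∈ J := by
      by_cases h : ∃ f : D₂, some f ∉ J
      · obtain ⟨f, hf⟩ := h
        refine ⟨f, fun e' he' => ?_⟩
        by_contra hcon
        have := Finset.card_le_one.1 hmiss (some f) (Finset.mem_compl.2 hf) (some e')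
          (Finset.mem_compl.2 hcon)
        exact he' (Option.some.inj this).symm
      · push Not at h
        obtain ⟨f, hf⟩ := hD₂ne
        exact ⟨⟨f, hf⟩, fun e' _ => h e'⟩
    refine ker_zero_of_indep' D₂ hD₂ f y hy ?_ X hX
    have := hJi.comp (fun e' : {e' : D₂ // e' ≠ f} => (⟨some e'.1, hf _ e'.2⟩ : J))
      (fun a b h => by
        have h1 := congrArg Subtype.val h
        simp only [Option.some.injEq] at h1
        exact Subtype.ext h1)
    exact this

end H39.Sem
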