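import Mathlib
import Pool.Agent.H39.SemCnt
import Pool.Agent.H39.SemThin

/-!
Algebraic preparation for the construction of an analytic solution.
-/

set_option linter.unusedSectionVars false

namespace H39.Sem

open Finset

open scoped IntermediateField.algebraAdjoinAdjoin IntermediateField

theorem exists_prim {Ω : Type} [Field Ω] [Algebra ℝ Ω] {ι κ : Type*} [Finite κ] (x : ι → Ω)
    (y : κ → Ω) (hy : ∀ c, y c ∈ cl ℝ (Set.range x)) :
    ∃ θ : Ω, θ ∈ cl ℝ (Set.range x) ∧
      ∀ c, y c ∈ IntermediateField.adjoin ℝ (Set.range x ∪ {θ}) := by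
  set F := IntermediateField.adjoin ℝ (Set.range x) with hF
  have hyF : ∀ c, IsAlgebraic F (y c) := by
    intro c
    have := mem_cl_iff.1 (hy c)
    exact (IsFractionRing.isAlgebraic_iff (Algebra.adjoin ℝ (Set.range x))
      (IntermediateField.adjoin ℝ (Set.range x)) Ω).1 this
  have hc : CharZero F :=
    charZero_of_injective_algebraMap (algebraMap ℝ F).injective
  set E := IntermediateField.adjoin F (Set.range y) with hE
  have hfinr : (Set.range y).Finite := Set.finite_range y
  have hfr : Finite (Set.range y) := hfinr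
  have hfin : FiniteDimensional F E := IntermediateField.finiteDimensional_adjoin (by
    rintro _ ⟨c, rfl⟩
    exact (hyF c).isIntegral)
  obtain ⟨α, hα⟩ := Field.exists_primitive_element F E
  have halg : IsAlgebraic F (α : Ω) := by
    have h1 : IsAlgebraic F α := Algebra.IsAlgebraic.isAlgebraic α
    exact h1.algebraMap
  refine ⟨(α : Ω), ?_, ?_⟩
  · rw [mem_cl_iff]
    exact (IsFractionRing.isAlgebraic_iff (Algebra.adjoin ℝ (Set.range x))
      (IntermediateField.adjoin ℝ (Set.range x)) Ω).2 halg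
  · intro c
    have h1 : y c ∈ E := IntermediateField.subset_adjoin _ _ ⟨c, rfl⟩
    have h2 : (⟨y c, h1⟩ : E) ∈ F⟮α⟯ := by rw [hα]; exact IntermediateField.mem_top
    have h3 : y c ∈ F⟮(α : Ω)⟯ := by
      have h4 : (F⟮α⟯).map E.val = F⟮(α : Ω)⟯ := by
        rw [IntermediateField.adjoin_map]
        simp
      rw [← h4]
      exact ⟨⟨y c, h1⟩, h2, rfl⟩
    have h5 := IntermediateField.adjoin_adjoin_left ℝ (Set.range x) {(α : Ω)}
    rw [← h5]
    exact h3

/-- Minimal degree division. -/
theorem exists_min_poly {R Ω : Type*} [CommRing R] [IsDomain R] [CharZero R] [Field Ω]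
    (ev : Polynomial R →+* Ω) (hC : ∀ c : R, ev (Polynomial.C c) = 0 → c = 0)
    (hex : ∃ P : Polynomial R, P ≠ 0 ∧ ev P = 0) :
    ∃ P : Polynomial R, ev P = 0 ∧ ev (Polynomial.derivative P) ≠ 0 ∧
      ∀ h : Polynomial R, ev h = 0 → ∃ c : R, c ≠ 0 ∧ ∃ Q, Polynomial.C c * h = P * Q := by
  classical
  let S : Set (Polynomial R) := {P | P ≠ 0 ∧ ev P = 0}
  obtain ⟨P, hPS, hmin⟩ : ∃ P ∈ S, ∀ Q ∈ S, P.natDegree ≤ Q.natDegree := by
    obtain ⟨P0, hP0⟩ := hex
    have hne : (S).Nonempty := ⟨P0, hP0⟩
    obtain ⟨P, hP, hP2⟩ := WellFounded.has_min (measure (fun P : Polynomial R => P.natDegree)).wf S hne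
    exact ⟨P, hP, fun Q hQ => not_lt.1 (hP2 Q hQ)⟩
  have hdeg : P.natDegree ≠ 0 := by
    intro h0
    obtain ⟨c, hc⟩ := Polynomial.natDegree_eq_zero.1 h0
    have h1 := hPS.2
    rw [← hc] at h1
    have := hC c h1
    apply hPS.1
    rw [← hc, this, map_zero]
  refine ⟨P, hPS.2, ?_, ?_⟩
  · intro hder
    have h1 : Polynomial.derivative P ≠ 0 := by
      intro h2
      exact hdeg (Polynomial.derivative_eq_zero.1 h2)
    have h3 := hmin _ ⟨h1, hder⟩
    have h4 := Polynomial.natDegree_derivative_lt hdeg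
    omega
  · intro h
    induction hn : h.natDegree using Nat.strong_induction_on generalizing h with
    | _ n ih =>
      intro hev
      by_cases h0 : h = 0
      · exact ⟨1, one_ne_zero, 0, by simp [h0]⟩
      · have hle : P.natDegree ≤ h.natDegree := hmin h ⟨h0, hev⟩
        have hpos : 0 < h.natDegree := lt_of_lt_of_le (Nat.pos_of_ne_zero hdeg) hle
        have hlt := Polynomial.natDegree_cancelLeads_lt_of_natDegree_le_natDegree hle hpos
        have hev' : ev (P.cancelLeads h) = 0 := by
          rw [Polynomial.cancelLeads, map_sub, map_mul, map_mul, map_mul, map_mul, hev, hPS.2]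
          simp
        obtain ⟨c, hc, Q, hQ⟩ := ih _ (hn ▸ hlt) (P.cancelLeads h) rfl hev'
        refine ⟨c * P.leadingCoeff, mul_ne_zero hc (Polynomial.leadingCoeff_ne_zero.2 hPS.1),
          Q + Polynomial.C (c * h.leadingCoeff) *
            Polynomial.X ^ (h.natDegree - P.natDegree), ?_⟩
        rw [Polynomial.cancelLeads, Nat.sub_eq_zero_of_le hle, pow_zero, mul_one] at hQ
        rw [mul_add, ← hQ]
        simp only [map_mul]
        ring

end H39.Sem
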