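import Mathlib
import Pool.Agent.H39.SemThin

/-!
Ultraproducts: from generic points to polynomials.
-/

set_option linter.unusedSectionVars false

namespace H39.Sem

open Finset Filter

variable {V : Type} [Fintype V] [DecidableEq V]

section ultra

variable {T : Type} (𝒰 : Ultrafilter T)

/-- The ultrapower of the reals. -/
abbrev Ul : Type := Filter.Germ (𝒰 : Filter T) ℝ

/-- The real algebra structure of the ultrapower. -/
noncomputable instance ulAlgebra : Algebra ℝ (Ul 𝒰) :=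
  ((Filter.Germ.coeRingHom (𝒰 : Filter T)).comp (Pi.constRingHom T ℝ)).toAlgebra

/-- The class of a real function. -/
noncomputable def gm : (T → ℝ) →+* Ul 𝒰 := Filter.Germ.coeRingHom (𝒰 : Filter T)

lemma gm_const (r : ℝ) : gm 𝒰 (fun _ => r) = algebraMap ℝ (Ul 𝒰) r := rfl

lemma gm_eq_zero_iff (f : T → ℝ) : gm 𝒰 f = 0 ↔ ∀ᶠ t in (𝒰 : Filter T), f t = 0 := by
  constructor
  · intro h
    exact Filter.Germ.coe_eq.1 h
  · intro h
    exact Filter.Germ.coe_eq.2 h

lemma gm_surj (z : Ul 𝒰) : ∃ f : T → ℝ, gm 𝒰 f = z := by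
  induction z using Filter.Germ.inductionOn with
  | _ f => exact ⟨f, rfl⟩

lemma aeval_gm {σ : Type*} (X : T → σ → ℝ) (p : MvPolynomial σ ℝ) :
    MvPolynomial.aeval (fun s => gm 𝒰 (fun t => X t s)) p =
      gm 𝒰 (fun t => MvPolynomial.eval (X t) p) := by
  induction p using MvPolynomial.induction_on with
  | C a =>
    simp only [MvPolynomial.aeval_C, MvPolynomial.eval_C]
    rfl
  | add p q hp hq =>
    rw [map_add, hp, hq, ← map_add]
    congr 1
    funext t
    simp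
  | mul_X p s hp =>
    rw [map_mul, hp, MvPolynomial.aeval_X, ← map_mul]
    congr 1
    funext t
    simp

lemma mat_gm (D : Finset (V × V)) (x : T → Option D → ℝ) (k l : V) :
    mat D (fun c => gm 𝒰 (fun t => x t c)) k l = gm 𝒰 (fun t => mat D (x t) k l) := by
  simp only [mat]
  split_ifs with h1 h2
  · rfl
  · rfl
  · exact (map_zero (gm 𝒰)).symm

lemma sum_gm {ι : Type*} (s : Finset ι) (f : ι → T → ℝ) :
    ∑ m ∈ s, gm 𝒰 (f m) = gm 𝒰 (fun t => ∑ m ∈ s, f m t) := by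
  rw [← map_sum]
  congr 1
  funext t
  simp

lemma phi_gm (D : Finset (V × V)) (x : T → Option D → ℝ) (k l : V) :
    phi D (fun c => gm 𝒰 (fun t => x t c)) k l = gm 𝒰 (fun t => phi D (x t) k l) := by
  simp only [phi, mat_gm, ← map_mul, sum_gm]
  rfl

lemma skew_gm (D : Finset (V × V)) (X x : T → Option D → ℝ)
    (h : ∀ t, Skew (mat D (X t)) (mat D (x t))) :
    Skew (mat D (fun c => gm 𝒰 (fun t => X t c))) (mat D (fun c => gm 𝒰 (fun t => x t c))) := by
  intro k l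
  simp only [mat_gm, ← map_mul, sum_gm, ← map_add]
  rw [gm_eq_zero_iff]
  exact Eventually.of_forall fun t => h t k l

lemma algInd_gm {σ : Type*} (X : T → σ → ℝ)
    (h : ∀ p : MvPolynomial σ ℝ, p ≠ 0 → ∀ᶠ t in (𝒰 : Filter T), MvPolynomial.eval (X t) p ≠ 0) :
    AlgebraicIndependent ℝ (fun s => gm 𝒰 (fun t => X t s)) := by
  rw [algebraicIndependent_iff]
  intro p hp
  by_contra hne
  rw [aeval_gm, gm_eq_zero_iff] at hp
  obtain ⟨t, ht1, ht2⟩ := (hp.and (h p hne)).exists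
  exact ht2 ht1

end ultra

/-- An ultrafilter containing the non-vanishing sets of a multiplicative family of functions. -/
theorem exists_ultra {T P : Type*} [Mul P] [Nonempty P] (S : P → Set T)
    (hmul : ∀ p q, S (p * q) ⊆ S p ∩ S q) (hne : ∀ p, (S p).Nonempty) :
    ∃ 𝒰 : Ultrafilter T, ∀ p, S p ∈ (𝒰 : Filter T) := by
  have hT : Nonempty T := by
    obtain ⟨p⟩ := ‹Nonempty P›
    obtain ⟨t, _⟩ := hne p
    exact ⟨t⟩
  have hdir : Directed (· ≥ ·) (fun p => 𝓟 (S p)) := by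
    intro p q
    refine ⟨p * q, ?_, ?_⟩
    · exact principal_mono.2 ((hmul p q).trans Set.inter_subset_left)
    · exact principal_mono.2 ((hmul p q).trans Set.inter_subset_right)
  have hnb : (⨅ p, 𝓟 (S p)).NeBot :=
    iInf_neBot_of_directed hdir fun p => principal_neBot_iff.2 (hne p)
  refine ⟨Ultrafilter.of (⨅ p, 𝓟 (S p)), fun p => ?_⟩
  exact (Ultrafilter.of_le _).trans (iInf_le _ p) (mem_principal_self _)

/-- The set of bad points is thin in every coordinate direction. -/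
theorem thin_real (D₁ D₂ : Finset (V × V)) (hD₁ : ∀ p ∈ D₁, (p.2, p.1) ∉ D₁)
    (hD₂ : ∀ p ∈ D₂, (p.2, p.1) ∉ D₂) (hcard : D₁.card = D₂.card)
    (hn : 3 ≤ Fintype.card V) (e : D₁) :
    ∃ q : MvPolynomial {c : Option D₁ // c ≠ some e} ℝ, q ≠ 0 ∧
      ∀ (x : Option D₁ → ℝ) (y X : Option D₂ → ℝ), X ≠ 0 →
        (∀ k l, phi D₁ x k l = phi D₂ y k l) → Skew (mat D₂ X) (mat D₂ y) →
        MvPolynomial.eval (fun c : {c : Option D₁ // c ≠ some e} => x c) q = 0 := by
  classical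
  by_contra hcon
  push Not at hcon
  let T : Type := {t : (Option D₁ → ℝ) × (Option D₂ → ℝ) × (Option D₂ → ℝ) //
    t.2.2 ≠ 0 ∧ (∀ k l, phi D₁ t.1 k l = phi D₂ t.2.1 k l) ∧
      Skew (mat D₂ t.2.2) (mat D₂ t.2.1)}
  let P : Type _ := nonZeroDivisors (MvPolynomial {c : Option D₁ // c ≠ some e} ℝ)
  let S : P → Set T := fun q => {t | MvPolynomial.eval
    (fun c : {c : Option D₁ // c ≠ some e} => t.1.1 c) q.1 ≠ 0}
  obtain ⟨𝒰, h𝒰⟩ := exists_ultra S
    (by
      intro p q t ht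
      have ht' : MvPolynomial.eval (fun c : {c : Option D₁ // c ≠ some e} => t.1.1 c)
          (p.1 * q.1) ≠ 0 := ht
      rw [map_mul] at ht'
      exact ⟨left_ne_zero_of_mul ht', right_ne_zero_of_mul ht'⟩)
    (by
      intro q
      have hq : q.1 ≠ 0 := nonZeroDivisors.ne_zero q.2
      obtain ⟨x, y, X, hX, hxy, hs, hne⟩ := hcon q.1 hq
      exact ⟨⟨(x, y, X), hX, hxy, hs⟩, hne⟩)
  set x' : Option D₁ → Ul 𝒰 := fun c => gm 𝒰 (fun t : T => t.1.1 c) with hx'
  set y' : Option D₂ → Ul 𝒰 := fun c => gm 𝒰 (fun t : T => t.1.2.1 c) with hy'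
  set X' : Option D₂ → Ul 𝒰 := fun c => gm 𝒰 (fun t : T => t.1.2.2 c) with hX'
  have hind : AlgebraicIndependent ℝ (fun c : {c : Option D₁ // c ≠ some e} => x' c) := by
    apply algInd_gm 𝒰 (fun (t : T) (c : {c : Option D₁ // c ≠ some e}) => t.1.1 c)
    intro p hp
    exact h𝒰 ⟨p, mem_nonZeroDivisors_of_ne_zero hp⟩
  have hxy' : ∀ k l, phi D₁ x' k l = phi D₂ y' k l := by
    intro k l
    rw [hx', hy', phi_gm 𝒰 D₁ (fun t : T => t.1.1), phi_gm 𝒰 D₂ (fun t : T => t.1.2.1)]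
    congr 1
    funext t
    exact t.2.2.1 k l
  have hs' : Skew (mat D₂ X') (mat D₂ y') :=
    skew_gm 𝒰 D₂ (fun t : T => t.1.2.2) (fun t : T => t.1.2.1) fun t => t.2.2.2
  have hzero := thin_omega D₁ D₂ hD₁ hD₂ hcard hn e x' y' hind hxy' X' hs'
  have h1 : ∀ c, ∀ᶠ t : T in (𝒰 : Filter T), t.1.2.2 c = 0 := by
    intro c
    have := congrFun hzero c
    simp only [hX', Pi.zero_apply] at this
    exact (gm_eq_zero_iff 𝒰 _).1 this
  obtain ⟨t, ht⟩ := (Filter.eventually_all.2 h1).exists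
  exact t.2.1 (funext ht)

end H39.Sem
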