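import Mathlib
import Pool.Agent.H39.SemUltra

/-!
Analytic continuation of local solutions.
-/

set_option linter.unusedSectionVars false

namespace H39.Sem

open Finset Filter Topology

variable {V : Type} [Fintype V] [DecidableEq V]

/-- `mat` entry as a continuous linear form. -/
noncomputable def matc (D : Finset (V × V)) (k l : V) : (Option D → ℝ) →L[ℝ] ℝ :=
  if k = l then ContinuousLinearMap.proj none
  else if h : (k, l) ∈ D then ContinuousLinearMap.proj (some ⟨(k, l), h⟩) else 0

lemma matc_apply (D : Finset (V × V)) (k l : V) (x : Option D → ℝ) :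
    matc D k l x = mat D x k l := by
  simp only [matc, mat]
  split_ifs <;> rfl

/-- The derivative of `phi`. -/
noncomputable def dphi (D : Finset (V × V)) (x : Option D → ℝ) :
    (Option D → ℝ) →L[ℝ] (V → V → ℝ) :=
  ContinuousLinearMap.pi fun k => ContinuousLinearMap.pi fun l =>
    ∑ m, (mat D x k m • matc D l m + mat D x l m • matc D k m)

lemma dphi_apply (D : Finset (V × V)) (x X : Option D → ℝ) (k l : V) :
    dphi D x X k l = ∑ m, mat D X k m * mat D x l m + ∑ m, mat D X l m * mat D x k m := by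
  simp only [dphi, ContinuousLinearMap.coe_pi', _root_.sum_apply,
    _root_.add_apply, _root_.smul_apply, matc_apply, smul_eq_mul]
  rw [← Finset.sum_add_distrib]
  exact Finset.sum_congr rfl fun m _ => by ring

lemma dphi_eq_zero_iff (D : Finset (V × V)) (x X : Option D → ℝ) :
    dphi D x X = 0 ↔ Skew (mat D X) (mat D x) := by
  constructor
  · intro h k l
    rw [← dphi_apply, h]
    rfl
  · intro h
    funext k l
    rw [dphi_apply]
    exact h k l

lemma hasStrictFDerivAt_phi (D : Finset (V × V)) (x : Option D → ℝ) :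
    HasStrictFDerivAt (phi D : (Option D → ℝ) → V → V → ℝ) (dphi D x) x := by
  refine hasStrictFDerivAt_pi'.2 fun k => hasStrictFDerivAt_pi'.2 fun l => ?_
  have h1 : ∀ m, HasStrictFDerivAt (fun z : Option D → ℝ => mat D z k m * mat D z l m)
      (mat D x k m • matc D l m + mat D x l m • matc D k m) x := by
    intro m
    have hk := (matc D k m).hasStrictFDerivAt (x := x)
    have hl := (matc D l m).hasStrictFDerivAt (x := x)
    have := hk.mul hl
    have e : (fun z : Option D → ℝ => mat D z k m * mat D z l m) =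
        ⇑(matc D k m) * ⇑(matc D l m) := by
      funext z
      simp [matc_apply]
    rw [e]
    simp only [matc_apply] at this
    exact this
  have h2 := HasStrictFDerivAt.fun_sum (u := Finset.univ) fun m _ => h1 m
  exact h2

lemma analyticAt_phi (D : Finset (V × V)) (x : Option D → ℝ) :
    AnalyticAt ℝ (phi D : (Option D → ℝ) → V → V → ℝ) x := by
  refine analyticAt_pi_iff.2 fun k => analyticAt_pi_iff.2 fun l => ?_
  have h1 : ∀ m, AnalyticAt ℝ (fun z : Option D → ℝ => mat D z k m * mat D z l m) x := by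
    intro m
    have hk := (matc D k m).analyticAt x
    have hl := (matc D l m).analyticAt x
    have := hk.mul hl
    have e : (fun z : Option D → ℝ => mat D z k m * mat D z l m) =
        ⇑(matc D k m) * ⇑(matc D l m) := by
      funext z
      simp [matc_apply]
    rw [e]
    exact this
  exact Finset.analyticAt_fun_sum _ fun m _ => h1 m

lemma continuous_phi (D : Finset (V × V)) :
    Continuous (phi D : (Option D → ℝ) → V → V → ℝ) :=
  continuous_iff_continuousAt.2 fun x => (analyticAt_phi D x).continuousAt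

/-- Local analytic solution of `phi D₂ (g z) = phi D₁ z` near `x` with `g x = y`. -/
def Good (D₁ D₂ : Finset (V × V)) (x : Option D₁ → ℝ) (y : Option D₂ → ℝ) : Prop :=
  ∃ g : (Option D₁ → ℝ) → (Option D₂ → ℝ), AnalyticAt ℝ g x ∧ g x = y ∧
    ∀ᶠ z in 𝓝 x, phi D₂ (g z) = phi D₁ z

lemma Good.phi_eq {D₁ D₂ : Finset (V × V)} {x : Option D₁ → ℝ} {y : Option D₂ → ℝ}
    (h : Good D₁ D₂ x y) : phi D₂ y = phi D₁ x := by
  obtain ⟨g, _, hgy, hg⟩ := h
  rw [← hgy]
  exact hg.self_of_nhds

/-- The set of points with a local analytic solution. -/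
def GoodSet (D₁ D₂ : Finset (V × V)) : Set (Option D₁ → ℝ) := {x | ∃ y, Good D₁ D₂ x y}

lemma isOpen_goodSet (D₁ D₂ : Finset (V × V)) : IsOpen (GoodSet D₁ D₂) := by
  rw [isOpen_iff_mem_nhds]
  rintro x ⟨y, g, hg1, hg2, hg3⟩
  filter_upwards [hg1.eventually_analyticAt, hg3.eventually_nhds] with z h1 h2
  exact ⟨g z, g, h1, rfl, h2⟩

/-- Closedness at immersive points. -/
theorem good_closed (D₁ D₂ : Finset (V × V)) (x : Option D₁ → ℝ) (y : Option D₂ → ℝ)
    (xs : ℕ → Option D₁ → ℝ) (ys : ℕ → Option D₂ → ℝ)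
    (hgood : ∀ n, Good D₁ D₂ (xs n) (ys n))
    (hx : Tendsto xs atTop (𝓝 x)) (hy : Tendsto ys atTop (𝓝 y))
    (hker : ∀ X : Option D₂ → ℝ, Skew (mat D₂ X) (mat D₂ y) → X = 0) :
    Good D₁ D₂ x y := by
  have hphi : phi D₂ y = phi D₁ x := by
    have h1 : Tendsto (fun n => phi D₂ (ys n)) atTop (𝓝 (phi D₂ y)) :=
      ((continuous_phi D₂).tendsto y).comp hy
    have h2 : Tendsto (fun n => phi D₁ (xs n)) atTop (𝓝 (phi D₁ x)) :=
      ((continuous_phi D₁).tendsto x).comp hx
    have h3 : (fun n => phi D₂ (ys n)) = fun n => phi D₁ (xs n) := by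
      funext n
      exact (hgood n).phi_eq
    rw [h3] at h1
    exact tendsto_nhds_unique h1 h2
  -- left inverse of the derivative
  have hinj : LinearMap.ker (dphi D₂ y : (Option D₂ → ℝ) →ₗ[ℝ] (V → V → ℝ)) = ⊥ := by
    rw [LinearMap.ker_eq_bot']
    intro X hX
    exact hker X ((dphi_eq_zero_iff D₂ y X).1 hX)
  obtain ⟨π0, hπ0⟩ := LinearMap.exists_leftInverse_of_injective _ hinj
  let π : (V → V → ℝ) →L[ℝ] (Option D₂ → ℝ) := LinearMap.toContinuousLinearMap π0
  have hπ : ∀ X, π (dphi D₂ y X) = X := fun X => LinearMap.congr_fun hπ0 X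
  let f : (Option D₂ → ℝ) → (Option D₂ → ℝ) := fun z => π (phi D₂ z)
  have hf : HasStrictFDerivAt f
      ((ContinuousLinearEquiv.refl ℝ (Option D₂ → ℝ) : (Option D₂ → ℝ) →L[ℝ] _)) y := by
    have h1 := (π.hasStrictFDerivAt (x := phi D₂ y)).comp y (hasStrictFDerivAt_phi D₂ y)
    refine h1.congr_fderiv ?_
    ext1 X
    exact hπ X
  have hfa : AnalyticAt ℝ f y := (π.analyticAt _).comp (analyticAt_phi D₂ y)
  let e := hf.toOpenPartialHomeomorph f
  have hesrc : y ∈ e.source := hf.mem_toOpenPartialHomeomorph_source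
  have hecoe : ∀ z, e z = f z := fun z => rfl
  have hsymm : AnalyticAt ℝ e.symm (e y) :=
    e.analyticAt_symm' (i := ContinuousLinearEquiv.refl ℝ _) hesrc hfa hf.hasFDerivAt.fderiv
  have heqy : e y = π (phi D₁ x) := by
    rw [hecoe, ← hphi]
  let g : (Option D₁ → ℝ) → (Option D₂ → ℝ) := fun z => e.symm (π (phi D₁ z))
  have hga : AnalyticAt ℝ g x := by
    have h1 : AnalyticAt ℝ (fun z => π (phi D₁ z)) x := (π.analyticAt _).comp (analyticAt_phi D₁ x)
    rw [heqy] at hsymm
    exact hsymm.comp_of_eq h1 rfl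
  have hgx : g x = y := by
    show e.symm (π (phi D₁ x)) = y
    rw [← heqy, e.left_inv hesrc]
  obtain ⟨r, hr, hball⟩ := hga.exists_ball_analyticOnNhd
  refine ⟨g, hga, hgx, ?_⟩
  -- choose a good index
  have h1 : ∀ᶠ n in atTop, xs n ∈ Metric.ball x r := hx (Metric.ball_mem_nhds x hr)
  have h2 : ∀ᶠ n in atTop, ys n ∈ e.source := hy (e.open_source.mem_nhds hesrc)
  obtain ⟨n, hn1, hn2⟩ := (h1.and h2).exists
  obtain ⟨gn, hgn1, hgn2, hgn3⟩ := hgood n
  have h3 : ∀ᶠ z in 𝓝 (xs n), gn z ∈ e.source := by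
    apply hgn1.continuousAt
    rw [hgn2]
    exact e.open_source.mem_nhds hn2
  have h4 : (fun z => phi D₂ (g z)) =ᶠ[𝓝 (xs n)] fun z => phi D₁ z := by
    filter_upwards [h3, hgn3] with z hz1 hz2
    have : g z = gn z := by
      show e.symm (π (phi D₁ z)) = gn z
      rw [← hz2]
      show e.symm (e (gn z)) = gn z
      exact e.left_inv hz1
    rw [this, hz2]
  have h5 := AnalyticOnNhd.eqOn_of_preconnected_of_eventuallyEq (𝕜 := ℝ)
    (f := fun z => phi D₂ (g z)) (g := fun z => phi D₁ z) (U := Metric.ball x r)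
    (fun z hz => (analyticAt_phi D₂ (g z)).comp (hball z hz))
    (fun z _ => analyticAt_phi D₁ z) (convex_ball x r).isPreconnected hn1 h4
  filter_upwards [Metric.ball_mem_nhds x hr] with z hz
  exact h5 hz

end H39.Sem
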