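import Mathlib
import Pool.Agent.H39.SemPath

/-!
Lifting along coordinate lines, and density.
-/

set_option linter.unusedSectionVars false

namespace H39.Sem

open Finset Filter Topology

variable {V : Type} [Fintype V] [DecidableEq V]

lemma phi_diag_ge (D : Finset (V × V)) (y : Option D → ℝ) (a b : V) :
    (mat D y a b) ^ 2 ≤ phi D y a a := by
  have h1 : ∀ m ∈ (Finset.univ : Finset V), 0 ≤ mat D y a m * mat D y a m :=
    fun m _ => mul_self_nonneg _
  have := Finset.single_le_sum h1 (Finset.mem_univ b)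
  rw [sq]; exact this

lemma phi_diag_nonneg (D : Finset (V × V)) (y : Option D → ℝ) (a : V) : 0 ≤ phi D y a a :=
  (sq_nonneg _).trans (phi_diag_ge D y a a)

lemma sq_le_trace [Nonempty V] (D : Finset (V × V)) (hD : ∀ p ∈ D, (p.2, p.1) ∉ D)
    (y : Option D → ℝ) (c : Option D) : (y c) ^ 2 ≤ ∑ k, phi D y k k := by
  have key : ∀ a b, (mat D y a b) ^ 2 ≤ ∑ k, phi D y k k := by
    intro a b
    refine (phi_diag_ge D y a b).trans ?_
    exact Finset.single_le_sum (f := fun k => phi D y k k)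
      (fun k _ => phi_diag_nonneg D y k) (Finset.mem_univ a)
  rcases c with _ | ⟨⟨a, b⟩, hab⟩
  · obtain ⟨a⟩ := ‹Nonempty V›
    have := key a a
    simpa [mat] using this
  · have hne : a ≠ b := by
      rintro rfl
      exact hD _ hab hab
    have := key a b
    simpa [mat, hne, hab] using this

theorem exists_subseq [Nonempty V] (D₁ D₂ : Finset (V × V)) (hD₂ : ∀ p ∈ D₂, (p.2, p.1) ∉ D₂)
    (x : Option D₁ → ℝ) (xs : ℕ → Option D₁ → ℝ) (ys : ℕ → Option D₂ → ℝ)
    (hgood : ∀ n, phi D₂ (ys n) = phi D₁ (xs n))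
    (hx : Tendsto xs atTop (𝓝 x)) :
    ∃ y, ∃ φ : ℕ → ℕ, StrictMono φ ∧ Tendsto (ys ∘ φ) atTop (𝓝 y) := by
  have h1 : Tendsto (fun n => ∑ k, phi D₁ (xs n) k k) atTop (𝓝 (∑ k, phi D₁ x k k)) := by
    have hc : Continuous fun z : Option D₁ → ℝ => ∑ k, phi D₁ z k k := by
      refine continuous_finsetSum _ fun k _ => ?_
      exact (continuous_apply k).comp ((continuous_apply k).comp (continuous_phi D₁))
    exact (hc.tendsto x).comp hx
  obtain ⟨B, hB⟩ := h1.bddAbove_range
  have h2 : ∀ n, ∑ k, phi D₂ (ys n) k k ≤ B := by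
    intro n
    rw [hgood n]
    exact hB ⟨n, rfl⟩
  have h3 : ∀ n, ‖ys n‖ ≤ 1 + |B| := by
    intro n
    rw [pi_norm_le_iff_of_nonneg (by positivity)]
    intro c
    have h4 := (sq_le_trace D₂ hD₂ (ys n) c).trans (h2 n)
    rw [Real.norm_eq_abs]
    have h5 : |ys n c| ^ 2 ≤ B := by rwa [sq_abs]
    have h6 : B ≤ |B| := le_abs_self B
    nlinarith [abs_nonneg (ys n c)]
  have hb : Bornology.IsBounded (Set.range ys) := by
    rw [isBounded_iff_forall_norm_le]
    refine ⟨1 + |B|, ?_⟩
    rintro _ ⟨n, rfl⟩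
    exact h3 n
  obtain ⟨y, _, φ, hφ, hlim⟩ := tendsto_subseq_of_bounded hb (fun n => Set.mem_range_self n)
  exact ⟨y, φ, hφ, hlim⟩

/-- Lifting along a coordinate line which avoids the bad set. -/
theorem line_good [Nonempty V] (D₁ D₂ : Finset (V × V)) (hD₂ : ∀ p ∈ D₂, (p.2, p.1) ∉ D₂)
    (e : D₁) (q : MvPolynomial {c : Option D₁ // c ≠ some e} ℝ)
    (hthin : ∀ (x : Option D₁ → ℝ) (y X : Option D₂ → ℝ), X ≠ 0 →
        (∀ k l, phi D₁ x k l = phi D₂ y k l) → Skew (mat D₂ X) (mat D₂ y) →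
        MvPolynomial.eval (fun c : {c : Option D₁ // c ≠ some e} => x c) q = 0)
    (x : Option D₁ → ℝ) (hx : x ∈ GoodSet D₁ D₂)
    (hq : MvPolynomial.eval (fun c : {c : Option D₁ // c ≠ some e} => x c) q ≠ 0) (t : ℝ) :
    Function.update x (some e) t ∈ GoodSet D₁ D₂ := by
  classical
  set f : ℝ → Option D₁ → ℝ := fun t => Function.update x (some e) t with hf
  have hfc : Continuous f := by
    refine continuous_pi fun c => ?_
    by_cases h : c = some e
    · subst h
      simp only [hf, Function.update_self]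
      exact continuous_id
    · simpa [hf, h] using continuous_const
  have hrestr : ∀ t, (fun c : {c : Option D₁ // c ≠ some e} => f t c) =
      (fun c : {c : Option D₁ // c ≠ some e} => x c) := by
    intro t
    funext c
    simp [hf, c.2]
  have hopen : IsOpen (f ⁻¹' GoodSet D₁ D₂) := (isOpen_goodSet D₁ D₂).preimage hfc
  have hclosed : IsClosed (f ⁻¹' GoodSet D₁ D₂) := by
    apply IsSeqClosed.isClosed
    intro ts t hts hlim
    choose ys hys using hts
    have hxs : Tendsto (fun n => f (ts n)) atTop (𝓝 (f t)) := (hfc.tendsto t).comp hlim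
    obtain ⟨y, φ, hφ, hy⟩ := exists_subseq D₁ D₂ hD₂ (f t) (fun n => f (ts n)) ys
      (fun n => (hys n).phi_eq) hxs
    refine ⟨y, good_closed D₁ D₂ (f t) y (fun n => f (ts (φ n))) (fun n => ys (φ n))
      (fun n => hys (φ n)) (hxs.comp hφ.tendsto_atTop) hy ?_⟩
    have hphi : phi D₂ y = phi D₁ (f t) := by
      have h1 : Tendsto (fun n => phi D₂ (ys (φ n))) atTop (𝓝 (phi D₂ y)) :=
        ((continuous_phi D₂).tendsto y).comp hy
      have h2 : Tendsto (fun n => phi D₁ (f (ts (φ n)))) atTop (𝓝 (phi D₁ (f t))) :=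
        ((continuous_phi D₁).tendsto _).comp (hxs.comp hφ.tendsto_atTop)
      have h3 : (fun n => phi D₂ (ys (φ n))) = fun n => phi D₁ (f (ts (φ n))) := by
        funext n
        exact (hys _).phi_eq
      rw [h3] at h1
      exact tendsto_nhds_unique h1 h2
    intro X hX
    by_contra hne
    have := hthin (f t) y X hne (fun k l => by rw [hphi]) hX
    rw [hrestr] at this
    exact hq this
  have hne : (f ⁻¹' GoodSet D₁ D₂).Nonempty := by
    refine ⟨x (some e), ?_⟩
    simp only [hf, Set.mem_preimage, Function.update_eq_self]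
    exact hx
  have huniv := IsClopen.eq_univ ⟨hclosed, hopen⟩ hne
  have : t ∈ f ⁻¹' GoodSet D₁ D₂ := by rw [huniv]; exact Set.mem_univ t
  exact this

/-- A nonzero polynomial does not vanish identically on a nonempty open set. -/
theorem exists_ne_zero_of_open {σ : Type*} [Fintype σ] (q : MvPolynomial σ ℝ) (hq : q ≠ 0)
    (O : Set (σ → ℝ)) (hO : IsOpen O) (x : σ → ℝ) (hx : x ∈ O) :
    ∃ z ∈ O, MvPolynomial.eval z q ≠ 0 := by
  by_contra hcon
  push Not at hcon
  apply hq
  apply MvPolynomial.funext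
  intro z
  have h1 : AnalyticOnNhd ℝ (fun z : σ → ℝ => MvPolynomial.aeval z q) Set.univ :=
    AnalyticOnNhd.aeval_mvPolynomial (fun i => (ContinuousLinearMap.proj (R := ℝ)
      (φ := fun _ : σ => ℝ) i).analyticOnNhd _) q
  have h2 : AnalyticOnNhd ℝ (fun _ : σ → ℝ => (0 : ℝ)) Set.univ := analyticOnNhd_const
  have h3 := AnalyticOnNhd.eq_of_eventuallyEq h1 h2 (z₀ := x) (by
    filter_upwards [hO.mem_nhds hx] with z hz
    have := hcon z hz
    rwa [← MvPolynomial.coe_aeval_eq_eval] at this)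
  have h4 : MvPolynomial.aeval z q = (0 : ℝ) := congrFun h3 z
  rw [map_zero]
  exact h4

theorem exists_ne_zero_of_open' {σ : Type*} [Fintype σ] (P : σ → Prop)
    (q : MvPolynomial {c : σ // P c} ℝ) (hq : q ≠ 0)
    (O : Set (σ → ℝ)) (hO : IsOpen O) (x : σ → ℝ) (hx : x ∈ O) :
    ∃ z ∈ O, MvPolynomial.eval (fun c : {c : σ // P c} => z c) q ≠ 0 := by
  have h1 : MvPolynomial.rename (Subtype.val : {c : σ // P c} → σ) q ≠ 0 := by
    intro h
    exact hq ((MvPolynomial.rename_eq_zero_iff_of_injective q Subtype.val_injective).1 h)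
  obtain ⟨z, hz, hne⟩ := exists_ne_zero_of_open _ h1 O hO x hx
  refine ⟨z, hz, ?_⟩
  rw [MvPolynomial.eval_rename] at hne
  exact hne

/-- The good set comes arbitrarily close to multiples of the identity. -/
theorem good_dense [Nonempty V] (D₁ D₂ : Finset (V × V)) (hD₁ : ∀ p ∈ D₁, (p.2, p.1) ∉ D₁)
    (hD₂ : ∀ p ∈ D₂, (p.2, p.1) ∉ D₂) (hcard : D₁.card = D₂.card)
    (hn : 3 ≤ Fintype.card V) (hne : (GoodSet D₁ D₂).Nonempty) :
    ∃ β : ℝ, 0 < β ∧ ∀ ε > 0, ∃ x ∈ GoodSet D₁ D₂, β < |x none| ∧ |x none| < 4 * β ∧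
      ∀ e : D₁, |x (some e)| < ε := by
  classical
  obtain ⟨x0, hx0⟩ := hne
  -- make the `none` coordinate nonzero
  obtain ⟨x1, hx1, hx1n⟩ := exists_ne_zero_of_open
    (MvPolynomial.X (none : Option D₁) : MvPolynomial (Option D₁) ℝ) (MvPolynomial.X_ne_zero _)
    _ (isOpen_goodSet D₁ D₂) x0 hx0
  rw [MvPolynomial.eval_X] at hx1n
  set β : ℝ := |x1 none| / 2 with hβ
  have hβpos : 0 < β := by
    have := abs_pos.2 hx1n
    positivity
  refine ⟨β, hβpos, fun ε hε => ?_⟩
  choose q hq0 hq using thin_real D₁ D₂ hD₁ hD₂ hcard hn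
  have key : ∀ F : Finset D₁, ∃ x ∈ GoodSet D₁ D₂, β < |x none| ∧ |x none| < 4 * β ∧
      ∀ e ∈ F, |x (some e)| < ε := by
    intro F
    induction F using Finset.induction_on with
    | empty =>
      refine ⟨x1, hx1, ?_, ?_, ?_⟩
      · rw [hβ]; have := abs_pos.2 hx1n; linarith
      · rw [hβ]; have := abs_pos.2 hx1n; linarith
      · intro e he; simp at he
    | insert e F heF ih =>
      obtain ⟨x, hx, hb1, hb2, hF⟩ := ih
      have hOpen : IsOpen {z : Option D₁ → ℝ | z ∈ GoodSet D₁ D₂ ∧ β < |z none| ∧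
          |z none| < 4 * β ∧ ∀ e ∈ F, |z (some e)| < ε} := by
        have h1 : IsOpen {z : Option D₁ → ℝ | β < |z none|} :=
          isOpen_lt continuous_const (continuous_apply _).abs
        have h2 : IsOpen {z : Option D₁ → ℝ | |z none| < 4 * β} :=
          isOpen_lt (continuous_apply _).abs continuous_const
        have h3 : IsOpen {z : Option D₁ → ℝ | ∀ e ∈ F, |z (some e)| < ε} := by
          have : {z : Option D₁ → ℝ | ∀ e ∈ F, |z (some e)| < ε} =
              ⋂ e ∈ F, {z : Option D₁ → ℝ | |z (some e)| < ε} := by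
            ext z; simp
          rw [this]
          exact isOpen_biInter_finset fun e _ =>
            isOpen_lt (continuous_apply _).abs continuous_const
        exact (isOpen_goodSet D₁ D₂).inter (h1.inter (h2.inter h3))
      obtain ⟨z, ⟨hz1, hz2, hz3, hz4⟩, hz5⟩ := exists_ne_zero_of_open' (fun c => c ≠ some e) (q e)
        (hq0 e) _ hOpen x ⟨hx, hb1, hb2, hF⟩
      refine ⟨Function.update z (some e) 0,
        line_good D₁ D₂ hD₂ e (q e) (fun x y X h1 h2 h3 => hq e x y X h1 h2 h3) z hz1 hz5 0,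
        ?_, ?_, ?_⟩
      · simpa using hz2
      · simpa using hz3
      · intro e' he'
        by_cases h : e' = e
        · subst h
          simpa using hε
        · have h6 : e' ∈ F := (Finset.mem_insert.1 he').resolve_left h
          have h7 : (some e' : Option D₁) ≠ some e := fun h8 => h (Option.some.inj h8)
          rw [Function.update_of_ne h7]
          exact hz4 e' h6
  obtain ⟨x, hx, h1, h2, h3⟩ := key Finset.univ
  exact ⟨x, hx, h1, h2, fun e => h3 e (Finset.mem_univ e)⟩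

end H39.Sem
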