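import Mathlib
import Pool.Agent.H39.SemLift

/-!
Analysis of the good set near the identity.
-/

set_option linter.unusedSectionVars false

namespace H39.Sem

open Finset Filter Topology

variable {V : Type} [Fintype V] [DecidableEq V]

lemma fderiv_phi (D : Finset (V × V)) :
    fderiv ℝ (phi D : (Option D → ℝ) → V → V → ℝ) = dphi D := by
  funext x
  exact (hasStrictFDerivAt_phi D x).hasFDerivAt.fderiv

lemma continuous_dphi (D : Finset (V × V)) : Continuous (dphi D) := by
  rw [← fderiv_phi]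
  have h : AnalyticOnNhd ℝ (phi D : (Option D → ℝ) → V → V → ℝ) Set.univ :=
    fun x _ => analyticAt_phi D x
  exact continuous_iff_continuousAt.2 fun x => (h.fderiv x (Set.mem_univ x)).continuousAt

/-- Multiples of the identity. -/
lemma mat_scalar {D : Finset (V × V)} {x : Option D → ℝ} (hx : ∀ e : D, x (some e) = 0) (k l : V) :
    mat D x k l = if k = l then x none else 0 := by
  simp only [mat]
  split_ifs with h1 h2
  · rfl
  · exact hx _
  · rfl

lemma ker_scalar {D : Finset (V × V)} (hD : ∀ p ∈ D, (p.2, p.1) ∉ D) [Nonempty V]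
    {x : Option D → ℝ} (hx : ∀ e : D, x (some e) = 0) (h0 : x none ≠ 0)
    (X : Option D → ℝ) (hX : Skew (mat D X) (mat D x)) : X = 0 := by
  have h1 : ∀ k l, mat D X k l + mat D X l k = 0 := by
    intro k l
    have := hX k l
    simp only [mat_scalar hx, mul_ite, mul_zero, Finset.sum_ite_eq, Finset.mem_univ, if_true] at this
    have h2 : (mat D X k l + mat D X l k) * x none = 0 := by
      rw [add_mul]; exact this
    exact (mul_eq_zero.1 h2).resolve_right h0
  apply eq_zero_of_mat D hD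
  intro a b
  by_cases hab : a = b
  · subst hab
    have := h1 a a
    linarith
  · by_cases h : (a, b) ∈ D
    · have h3 := mat_supp D X b a (Ne.symm hab) (hD _ h)
      have := h1 a b
      rw [h3, add_zero] at this
      exact this
    · exact mat_supp D X a b hab h

/-- Limit of good partners near a multiple of the identity. -/
theorem limit_scalar (D₁ D₂ : Finset (V × V)) (hD₁ : ∀ p ∈ D₁, (p.2, p.1) ∉ D₁)
    (hD₂ : ∀ p ∈ D₂, (p.2, p.1) ∉ D₂) (hcard : D₁.card = D₂.card)
    (hn : 2 ≤ Fintype.card V)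
    (x : Option D₁ → ℝ) (y : Option D₂ → ℝ)
    (xs : ℕ → Option D₁ → ℝ) (ys : ℕ → Option D₂ → ℝ)
    (hgood : ∀ n, Good D₁ D₂ (xs n) (ys n))
    (hx : Tendsto xs atTop (𝓝 x)) (hy : Tendsto ys atTop (𝓝 y))
    (hx0 : ∀ e : D₁, x (some e) = 0) (hxn : x none ≠ 0) (e : D₂) : y (some e) = 0 := by
  classical
  have hne : Nonempty V := by
    apply Fintype.card_pos_iff.1
    omega
  set a := (e : V × V).1 with ha
  set c := (e : V × V).2 with hc
  have hac : a ≠ c := by
    intro h
    have h1 := hD₂ _ e.2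
    have h2 : (e : V × V) = (a, c) := rfl
    rw [h2] at h1
    simp only [h] at h1
    apply h1
    have := e.2
    rw [h2, h] at this
    exact this
  -- lower bound for the derivative at x
  have hkerx : ∀ X, Skew (mat D₁ X) (mat D₁ x) → X = 0 := fun X hX => ker_scalar hD₁ hx0 hxn X hX
  have hbot : LinearMap.ker (dphi D₁ x : (Option D₁ → ℝ) →ₗ[ℝ] (V → V → ℝ)) = ⊥ := by
    rw [LinearMap.ker_eq_bot']
    intro X hX
    exact hkerx X ((dphi_eq_zero_iff D₁ x X).1 hX)
  obtain ⟨K, hK, hanti⟩ := LinearMap.exists_antilipschitzWith _ hbot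
  have hlow : ∀ X, ‖X‖ ≤ K * ‖dphi D₁ x X‖ := by
    intro X
    have := hanti.le_mul_dist X 0
    simpa using this
  have hKpos : (0 : ℝ) < K := by exact_mod_cast hK
  have hnear : ∀ᶠ n in atTop, ‖dphi D₁ (xs n) - dphi D₁ x‖ < 1 / (2 * K) := by
    have h1 : Tendsto (fun n => ‖dphi D₁ (xs n) - dphi D₁ x‖) atTop (𝓝 0) := by
      have h2 : Tendsto (fun n => dphi D₁ (xs n)) atTop (𝓝 (dphi D₁ x)) :=
        ((continuous_dphi D₁).tendsto x).comp hx
      exact tendsto_iff_norm_sub_tendsto_zero.1 h2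
    exact h1.eventually_lt_const (by positivity)
  have hlow2 : ∀ᶠ n in atTop, ∀ X, ‖X‖ ≤ 2 * K * ‖dphi D₁ (xs n) X‖ := by
    filter_upwards [hnear] with n hn' X
    have h1 := hlow X
    have h2 : ‖dphi D₁ x X‖ ≤ ‖dphi D₁ (xs n) X‖ + ‖(dphi D₁ (xs n) - dphi D₁ x) X‖ := by
      have : dphi D₁ x X = dphi D₁ (xs n) X - (dphi D₁ (xs n) - dphi D₁ x) X := by
        rw [_root_.sub_apply]; abel
      calc ‖dphi D₁ x X‖ = ‖dphi D₁ (xs n) X - (dphi D₁ (xs n) - dphi D₁ x) X‖ := by rw [← this]
        _ ≤ _ := norm_sub_le _ _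
    have h3 : ‖(dphi D₁ (xs n) - dphi D₁ x) X‖ ≤ 1 / (2 * K) * ‖X‖ :=
      (ContinuousLinearMap.le_opNorm _ X).trans
        (mul_le_mul_of_nonneg_right hn'.le (norm_nonneg X))
    have h4 : (K : ℝ) * (1 / (2 * K) * ‖X‖) = ‖X‖ / 2 := by
      field_simp
    have h5 : ‖X‖ ≤ K * ‖dphi D₁ (xs n) X‖ + ‖X‖ / 2 := by
      calc ‖X‖ ≤ K * ‖dphi D₁ x X‖ := h1
        _ ≤ K * (‖dphi D₁ (xs n) X‖ + 1 / (2 * K) * ‖X‖) :=
            mul_le_mul_of_nonneg_left (h2.trans (by linarith)) hKpos.le
        _ = _ := by rw [mul_add, h4]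
    linarith
  -- the vectors X n
  set Y0 : Option D₂ → ℝ := Pi.single (some e) 1 with hY0
  have hex : ∀ᶠ n in atTop, ∃ X, dphi D₁ (xs n) X = dphi D₂ (ys n) Y0 := by
    filter_upwards [hlow2] with n hn'
    obtain ⟨g, hg1, hg2, hg3⟩ := hgood n
    have hd1 : HasFDerivAt (fun z => phi D₂ (g z)) ((dphi D₂ (ys n)).comp (fderiv ℝ g (xs n)))
        (xs n) := by
      have h1 := (hasStrictFDerivAt_phi D₂ (g (xs n))).hasFDerivAt
      rw [hg2] at h1
      have h2 := hg1.differentiableAt.hasFDerivAt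
      rw [← hg2] at h1
      have h3 := h1.comp (xs n) h2
      rw [hg2] at h3
      exact h3
    have hd2 : HasFDerivAt (fun z => phi D₁ z) (dphi D₁ (xs n)) (xs n) :=
      (hasStrictFDerivAt_phi D₁ (xs n)).hasFDerivAt
    have heq : (dphi D₂ (ys n)).comp (fderiv ℝ g (xs n)) = dphi D₁ (xs n) := by
      have h3 : (fun z => phi D₂ (g z)) =ᶠ[𝓝 (xs n)] fun z => phi D₁ z := hg3
      exact (hd1.congr_of_eventuallyEq h3.symm).unique hd2
    have hinj : Function.Injective (fderiv ℝ g (xs n) : (Option D₁ → ℝ) →ₗ[ℝ] (Option D₂ → ℝ)) := by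
      rw [← LinearMap.ker_eq_bot, LinearMap.ker_eq_bot']
      intro X hX
      have h4 : dphi D₁ (xs n) X = 0 := by
        rw [← heq]
        show dphi D₂ (ys n) (fderiv ℝ g (xs n) X) = 0
        have h5 : fderiv ℝ g (xs n) X = 0 := hX
        rw [h5, map_zero]
      have h6 := hn' X
      rw [h4, norm_zero, mul_zero] at h6
      exact norm_le_zero_iff.1 h6
    have hfr : Module.finrank ℝ (Option D₁ → ℝ) = Module.finrank ℝ (Option D₂ → ℝ) := by
      simp [hcard]
    have hsurj := (LinearMap.injective_iff_surjective_of_finrank_eq_finrank hfr).1 hinj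
    obtain ⟨X, hX⟩ := hsurj Y0
    refine ⟨X, ?_⟩
    rw [← heq]
    show dphi D₂ (ys n) (fderiv ℝ g (xs n) X) = _
    have h5 : fderiv ℝ g (xs n) X = Y0 := hX
    rw [h5]
  obtain ⟨N, hN⟩ := eventually_atTop.1 (hlow2.and hex)
  choose Xs hXs using fun n : ℕ => (hN (n + N) (Nat.le_add_left N n)).2
  have hlowN : ∀ n X, ‖X‖ ≤ 2 * K * ‖dphi D₁ (xs (n + N)) X‖ := fun n =>
    (hN (n + N) (Nat.le_add_left N n)).1
  have hshift : Tendsto (fun n : ℕ => n + N) atTop atTop := tendsto_add_atTop_nat N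
  have hRHS : Tendsto (fun n => dphi D₂ (ys (n + N)) Y0) atTop (𝓝 (dphi D₂ y Y0)) := by
    have h1 : Continuous fun z => dphi D₂ z Y0 := (continuous_dphi D₂).clm_apply continuous_const
    exact (h1.tendsto y).comp (hy.comp hshift)
  obtain ⟨B, hB⟩ := hRHS.norm.bddAbove_range
  have hXb : ∀ n, ‖Xs n‖ ≤ 2 * K * B := by
    intro n
    refine (hlowN n (Xs n)).trans ?_
    rw [hXs n]
    exact mul_le_mul_of_nonneg_left (hB ⟨n, rfl⟩) (by positivity)
  have hbd : Bornology.IsBounded (Set.range Xs) := by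
    rw [isBounded_iff_forall_norm_le]
    refine ⟨2 * K * B, ?_⟩
    rintro _ ⟨n, rfl⟩
    exact hXb n
  obtain ⟨X, _, φ, hφ, hXlim⟩ := tendsto_subseq_of_bounded hbd (fun n => Set.mem_range_self n)
  have hlimL : Tendsto (fun n => dphi D₁ (xs (φ n + N)) (Xs (φ n))) atTop
      (𝓝 (dphi D₁ x X)) := by
    have h1 : Tendsto (fun n => dphi D₁ (xs (φ n + N))) atTop (𝓝 (dphi D₁ x)) :=
      ((continuous_dphi D₁).tendsto x).comp (hx.comp (hshift.comp hφ.tendsto_atTop))
    have hc : Continuous fun p : ((Option D₁ → ℝ) →L[ℝ] (V → V → ℝ)) × (Option D₁ → ℝ) =>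
        p.1 p.2 := isBoundedBilinearMap_apply.continuous
    exact (hc.tendsto (dphi D₁ x, X)).comp (h1.prodMk_nhds hXlim)
  have hlimR : Tendsto (fun n => dphi D₂ (ys (φ n + N)) Y0) atTop (𝓝 (dphi D₂ y Y0)) :=
    hRHS.comp hφ.tendsto_atTop
  have hfin : dphi D₁ x X = dphi D₂ y Y0 := by
    apply tendsto_nhds_unique hlimL
    have : (fun n => dphi D₁ (xs (φ n + N)) (Xs (φ n))) =
        fun n => dphi D₂ (ys (φ n + N)) Y0 := by
      funext n
      exact hXs (φ n)
    rw [this]; exact hlimR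
  -- compare the diagonals
  have hL : ∀ k, dphi D₁ x X k k = 2 * (X none * x none) := by
    intro k
    rw [dphi_apply]
    simp only [mat_scalar hx0, mul_ite, mul_zero, Finset.sum_ite_eq, Finset.mem_univ, if_true]
    simp only [mat, if_true]
    ring
  have hmatY : ∀ k m, mat D₂ Y0 k m = if k = a ∧ m = c then 1 else 0 := by
    intro k m
    by_cases hkm : k = m
    · subst hkm
      have : ¬ (k = a ∧ k = c) := by
        rintro ⟨h1, h2⟩
        exact hac (h1.symm.trans h2)
      simp [mat, this, hY0]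
    · by_cases hD : (k, m) ∈ D₂
      · by_cases h : k = a ∧ m = c
        · rw [if_pos h]
          have h1 : (⟨(k, m), hD⟩ : D₂) = e := by
            apply Subtype.ext
            show (k, m) = (e : V × V)
            rw [h.1, h.2]
          simp [mat, hkm, hD, hY0, h1]
        · rw [if_neg h]
          have h1 : (⟨(k, m), hD⟩ : D₂) ≠ e := by
            intro h2
            apply h
            have h3 := congrArg Subtype.val h2
            simp only at h3
            rw [ha, hc, ← h3]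
            exact ⟨rfl, rfl⟩
          simp [mat, hkm, hD, hY0, h1]
      · have : ¬ (k = a ∧ m = c) := by
          rintro ⟨h1, h2⟩
          apply hD
          rw [h1, h2]
          exact e.2
        simp [mat, hkm, hD, this]
  have hR : ∀ k, dphi D₂ y Y0 k k = if k = a then 2 * mat D₂ y a c else 0 := by
    intro k
    rw [dphi_apply]
    simp only [hmatY]
    by_cases hk : k = a
    · subst hk
      simp only [true_and, ite_mul, one_mul, zero_mul, Finset.sum_ite_eq', Finset.mem_univ, if_true]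
      ring
    · simp [hk]
  obtain ⟨k, hk⟩ : ∃ k : V, k ≠ a := by
    have : Nontrivial V := Fintype.one_lt_card_iff_nontrivial.1 (by omega)
    exact exists_ne a
  have h1 : X none * x none = 0 := by
    have h2 := hL k
    rw [hfin, hR, if_neg hk] at h2
    linarith
  have h3 : mat D₂ y a c = 0 := by
    have h2 := hL a
    rw [hfin, hR, if_pos rfl, h1] at h2
    linarith
  have h4 : mat D₂ y a c = y (some e) := by
    have hD : (a, c) ∈ D₂ := e.2
    simp [mat, hac, hD]
    rfl
  rw [← h4, h3]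

end H39.Sem
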