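import Mathlib

/-!
Analytic simple roots of a polynomial with polynomial coefficients.
-/

set_option linter.unusedSectionVars false

namespace H39.Sem

open Finset Filter Topology

variable {ι : Type*} [Fintype ι]

/-- Evaluation of a polynomial in one variable with coefficients real polynomials. -/
noncomputable def evR (x : ι → ℝ) (θ : ℝ) : Polynomial (MvPolynomial ι ℝ) →+* ℝ :=
  Polynomial.eval₂RingHom (MvPolynomial.eval x) θ

lemma evR_eq (x : ι → ℝ) (θ : ℝ) (h : Polynomial (MvPolynomial ι ℝ)) :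
    evR x θ h = ∑ n ∈ Finset.range (h.natDegree + 1), MvPolynomial.eval x (h.coeff n) * θ ^ n := by
  rw [evR, Polynomial.coe_eval₂RingHom, Polynomial.eval₂_eq_sum_range]

lemma evR_eq_eval (x : ι → ℝ) (θ : ℝ) (h : Polynomial (MvPolynomial ι ℝ)) :
    evR x θ h = (h.map (MvPolynomial.eval x)).eval θ := by
  rw [evR, Polynomial.coe_eval₂RingHom, Polynomial.eval_map]

lemma analyticAt_evR (h : Polynomial (MvPolynomial ι ℝ)) (p : (ι → ℝ) × ℝ) :
    AnalyticAt ℝ (fun p : (ι → ℝ) × ℝ => evR p.1 p.2 h) p := by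
  have e : (fun p : (ι → ℝ) × ℝ => evR p.1 p.2 h) = fun p : (ι → ℝ) × ℝ =>
      ∑ n ∈ Finset.range (h.natDegree + 1), MvPolynomial.aeval p.1 (h.coeff n) * p.2 ^ n := by
    funext p
    rw [evR_eq]
    rfl
  rw [e]
  refine Finset.analyticAt_fun_sum _ fun n _ => ?_
  have h1 : AnalyticAt ℝ (fun p : (ι → ℝ) × ℝ => MvPolynomial.aeval p.1 (h.coeff n)) p := by
    apply AnalyticAt.aeval_mvPolynomial
    intro i
    exact ((ContinuousLinearMap.proj (R := ℝ) (φ := fun _ : ι => ℝ) i).comp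
      (ContinuousLinearMap.fst ℝ (ι → ℝ) ℝ)).analyticAt p
  have h2 : AnalyticAt ℝ (fun p : (ι → ℝ) × ℝ => p.2 ^ n) p :=
    (analyticAt_snd).fun_pow n
  exact h1.fun_mul h2

lemma analyticAt_evR_comp (h : Polynomial (MvPolynomial ι ℝ)) (ϑ : (ι → ℝ) → ℝ) (x0 : ι → ℝ)
    (hϑ : AnalyticAt ℝ ϑ x0) : AnalyticAt ℝ (fun z => evR z (ϑ z) h) x0 := by
  have h1 : AnalyticAt ℝ (fun z => (z, ϑ z)) x0 := analyticAt_id.prod hϑ
  exact (analyticAt_evR h (x0, ϑ x0)).comp_of_eq h1 rfl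

lemma hasDerivAt_evR (h : Polynomial (MvPolynomial ι ℝ)) (x : ι → ℝ) (θ : ℝ) :
    HasDerivAt (fun s => evR x s h) (evR x θ (Polynomial.derivative h)) θ := by
  have h1 := (h.map (MvPolynomial.eval x)).hasDerivAt θ
  rw [Polynomial.derivative_map, ← evR_eq_eval] at h1
  have e : (fun s => evR x s h) = fun s => (h.map (MvPolynomial.eval x)).eval s := by
    funext s
    exact evR_eq_eval x s h
  rw [e]
  exact h1

theorem analytic_root (P : Polynomial (MvPolynomial ι ℝ)) (x0 : ι → ℝ) (θ0 : ℝ)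
    (h0 : evR x0 θ0 P = 0) (h1 : evR x0 θ0 (Polynomial.derivative P) ≠ 0) :
    ∃ ϑ : (ι → ℝ) → ℝ, AnalyticAt ℝ ϑ x0 ∧ ϑ x0 = θ0 ∧ ∀ᶠ x in 𝓝 x0, evR x (ϑ x) P = 0 := by
  let f : (ι → ℝ) × ℝ → ℝ := fun p => evR p.1 p.2 P
  let H : (ι → ℝ) × ℝ → (ι → ℝ) × ℝ := fun p => (p.1, f p)
  have hfa : AnalyticAt ℝ f (x0, θ0) := analyticAt_evR P _
  have hHa : AnalyticAt ℝ H (x0, θ0) := analyticAt_fst.prod hfa
  have hfd := hfa.hasStrictFDerivAt
  set f' := fderiv ℝ f (x0, θ0) with hf'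
  let A0 : (ι → ℝ) × ℝ →L[ℝ] (ι → ℝ) × ℝ := (ContinuousLinearMap.fst ℝ (ι → ℝ) ℝ).prod f'
  have hHd : HasStrictFDerivAt H A0 (x0, θ0) := hasStrictFDerivAt_fst.prodMk hfd
  have hf01 : f' (0, 1) = evR x0 θ0 (Polynomial.derivative P) := by
    have hcurve : HasDerivAt (fun s : ℝ => (x0, s)) ((0 : ι → ℝ), (1 : ℝ)) θ0 :=
      (hasDerivAt_const θ0 x0).prodMk (hasDerivAt_id θ0)
    have hcomp := hfd.hasFDerivAt.comp_hasDerivAt θ0 hcurve
    have h3 : HasDerivAt (fun s => evR x0 s P) (f' (0, 1)) θ0 := hcomp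
    exact h3.unique (hasDerivAt_evR P x0 θ0)
  have hinj : Function.Injective (A0 : (ι → ℝ) × ℝ →ₗ[ℝ] (ι → ℝ) × ℝ) := by
    rw [← LinearMap.ker_eq_bot, LinearMap.ker_eq_bot']
    rintro ⟨v, s⟩ hvs
    have e1 : v = 0 := congrArg Prod.fst hvs
    have e2 : f' (v, s) = 0 := congrArg Prod.snd hvs
    subst e1
    have e3 : ((0 : ι → ℝ), s) = s • ((0 : ι → ℝ), (1 : ℝ)) := by simp
    rw [e3, map_smul, hf01, smul_eq_mul] at e2
    have e4 : s = 0 := (mul_eq_zero.1 e2).resolve_right h1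
    rw [e4]; rfl
  let A : ((ι → ℝ) × ℝ) ≃L[ℝ] ((ι → ℝ) × ℝ) :=
    (LinearEquiv.ofInjectiveEndo _ hinj).toContinuousLinearEquiv
  have hA : (A : (ι → ℝ) × ℝ →L[ℝ] (ι → ℝ) × ℝ) = A0 :=
    ContinuousLinearMap.ext fun p => rfl
  have hHd' : HasStrictFDerivAt H (A : (ι → ℝ) × ℝ →L[ℝ] (ι → ℝ) × ℝ) (x0, θ0) := by
    rw [hA]; exact hHd
  let e := hHd'.toOpenPartialHomeomorph H
  have hesrc : (x0, θ0) ∈ e.source := hHd'.mem_toOpenPartialHomeomorph_source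
  have hecoe : ∀ z, e z = H z := fun z => rfl
  have hsymm : AnalyticAt ℝ e.symm (e (x0, θ0)) :=
    e.analyticAt_symm' (i := A) hesrc hHa hHd'.hasFDerivAt.fderiv
  have hval : e (x0, θ0) = (x0, 0) := by
    rw [hecoe]
    show (x0, f (x0, θ0)) = (x0, 0)
    simp only [f, h0]
  have htgt : (x0, (0 : ℝ)) ∈ e.target := by
    rw [← hval]; exact e.map_source hesrc
  refine ⟨fun x => (e.symm (x, 0)).2, ?_, ?_, ?_⟩
  · rw [hval] at hsymm
    have h3 : AnalyticAt ℝ (fun x : ι → ℝ => (x, (0 : ℝ))) x0 := analyticAt_id.prod analyticAt_const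
    have h4 : AnalyticAt ℝ (fun x => e.symm (x, 0)) x0 := hsymm.comp_of_eq h3 rfl
    exact analyticAt_snd.comp h4
  · show (e.symm (x0, 0)).2 = θ0
    rw [← hval, e.left_inv hesrc]
  · have h3 : Tendsto (fun x : ι → ℝ => (x, (0 : ℝ))) (𝓝 x0) (𝓝 (x0, 0)) :=
      (continuous_id.prodMk continuous_const).tendsto x0
    have h4 : ∀ᶠ x in 𝓝 x0, (x, (0 : ℝ)) ∈ e.target := h3 (e.open_target.mem_nhds htgt)
    filter_upwards [h4] with x hx
    have h5 := e.right_inv hx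
    rw [hecoe] at h5
    have h6 : (e.symm (x, 0)).1 = x := congrArg Prod.fst h5
    have h7 : f (e.symm (x, 0)) = 0 := congrArg Prod.snd h5
    simp only [f] at h7
    rw [h6] at h7
    exact h7

end H39.Sem
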