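import Mathlib
import Pool.Agent.H39.SemAlg
import Pool.Agent.H39.SemRoot
import Pool.Agent.H39.SemPath

/-!
From a generic point of the ultrapower to an analytic solution.
-/

set_option linter.unusedSectionVars false

namespace H39.Sem

open Finset Filter Topology

variable {V : Type} [Fintype V] [DecidableEq V]

lemma map_mat {R S : Type*} [CommRing R] [CommRing S] (f : R →+* S) (D : Finset (V × V))
    (x : Option D → R) (k l : V) : f (mat D x k l) = mat D (fun c => f (x c)) k l := by
  simp only [mat]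
  split_ifs <;> simp

lemma map_phi {R S : Type*} [CommRing R] [CommRing S] (f : R →+* S) (D : Finset (V × V))
    (x : Option D → R) (k l : V) : f (phi D x k l) = phi D (fun c => f (x c)) k l := by
  simp only [phi, map_sum, map_mul, map_mat]

lemma mat_mul {R : Type*} [CommRing R] (D : Finset (V × V)) (a : R)
    (x : Option D → R) (k l : V) : mat D (fun c => a * x c) k l = a * mat D x k l := by
  simp only [mat]
  split_ifs <;> simp

lemma phi_mul {R : Type*} [CommRing R] (D : Finset (V × V)) (a : R)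
    (x : Option D → R) (k l : V) : phi D (fun c => a * x c) k l = a ^ 2 * phi D x k l := by
  simp only [phi, mat_mul, Finset.mul_sum]
  exact Finset.sum_congr rfl fun m _ => by ring

section

variable {T : Type} (𝒰 : Ultrafilter T) {ι : Type} [Fintype ι]

/-- evaluation in the ultrapower -/
noncomputable def evΩ (x : T → ι → ℝ) (θ : T → ℝ) : Polynomial (MvPolynomial ι ℝ) →+* Ul 𝒰 :=
  Polynomial.eval₂RingHom
    ((MvPolynomial.aeval (R := ℝ) (fun c => gm 𝒰 (fun t => x t c))).toRingHom) (gm 𝒰 θ)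

lemma evΩ_eq (x : T → ι → ℝ) (θ : T → ℝ) (h : Polynomial (MvPolynomial ι ℝ)) :
    evΩ 𝒰 x θ h = gm 𝒰 (fun t => evR (x t) (θ t) h) := by
  have hC : ∀ c : MvPolynomial ι ℝ, evΩ 𝒰 x θ (Polynomial.C c) =
      gm 𝒰 (fun t => evR (x t) (θ t) (Polynomial.C c)) := by
    intro c
    simp only [evΩ, evR, Polynomial.coe_eval₂RingHom, Polynomial.eval₂_C]
    exact aeval_gm 𝒰 x c
  have hX : evΩ 𝒰 x θ Polynomial.X = gm 𝒰 (fun t => evR (x t) (θ t) Polynomial.X) := by
    simp only [evΩ, evR, Polynomial.coe_eval₂RingHom, Polynomial.eval₂_X]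
  induction h using Polynomial.induction_on' with
  | add p q hp hq =>
    rw [map_add, hp, hq, ← map_add]
    congr 1
    funext t
    simp
  | monomial n a =>
    rw [← Polynomial.C_mul_X_pow_eq_monomial, map_mul, map_pow, hC, hX, ← map_pow, ← map_mul]
    congr 1
    funext t
    simp

/-- Multivariate polynomials in `θ` and `x` as polynomials in `θ`. -/
noncomputable def toPoly (ι : Type) : MvPolynomial (Option ι) ℝ →ₐ[ℝ] Polynomial (MvPolynomial ι ℝ) :=
  MvPolynomial.aeval (fun c => match c with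
    | none => Polynomial.X
    | some c => Polynomial.C (MvPolynomial.X c))

lemma evΩ_toPoly (x : T → ι → ℝ) (θ : T → ℝ) (r : MvPolynomial (Option ι) ℝ) :
    evΩ 𝒰 x θ (toPoly ι r) = MvPolynomial.aeval (fun c : Option ι =>
      Option.elim c (gm 𝒰 θ) (fun c => gm 𝒰 (fun t => x t c))) r := by
  induction r using MvPolynomial.induction_on with
  | C a =>
    simp only [toPoly, MvPolynomial.aeval_C, evΩ]
    have : (algebraMap ℝ (Polynomial (MvPolynomial ι ℝ))) a =
      Polynomial.C (MvPolynomial.C a) := rfl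
    rw [this, Polynomial.coe_eval₂RingHom, Polynomial.eval₂_C]
    simp
  | add p q hp hq => rw [map_add, map_add, map_add, hp, hq]
  | mul_X p s hp =>
    rw [map_mul, map_mul, hp, map_mul, MvPolynomial.aeval_X]
    congr 1
    rcases s with _ | c
    · simp [toPoly, evΩ]
    · simp [toPoly, evΩ]

end

theorem goodSet_nonempty {T : Type} (𝒰 : Ultrafilter T) (D₁ D₂ : Finset (V × V))
    (x : T → Option D₁ → ℝ) (y : T → Option D₂ → ℝ)
    (hxy : ∀ t, phi D₂ (y t) = phi D₁ (x t))
    (hx : AlgebraicIndependent ℝ (fun c => gm 𝒰 (fun t => x t c)))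
    (hy : ∀ c, gm 𝒰 (fun t => y t c) ∈ cl ℝ (Set.range (fun c => gm 𝒰 (fun t => x t c)))) :
    (GoodSet D₁ D₂).Nonempty := by
  classical
  set xs : Option D₁ → Ul 𝒰 := fun c => gm 𝒰 (fun t => x t c) with hxs
  set ys : Option D₂ → Ul 𝒰 := fun c => gm 𝒰 (fun t => y t c) with hys
  obtain ⟨θs, hθ1, hθ2⟩ := exists_prim xs ys hy
  obtain ⟨θ, rfl⟩ := gm_surj 𝒰 θs
  set ev := evΩ 𝒰 x θ with hev
  -- ev on constants
  have hevC : ∀ c : MvPolynomial (Option D₁) ℝ, ev (Polynomial.C c) = MvPolynomial.aeval xs c := by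
    intro c
    simp only [hev, evΩ, Polynomial.coe_eval₂RingHom, Polynomial.eval₂_C]
    rfl
  have hC0 : ∀ c : MvPolynomial (Option D₁) ℝ, ev (Polynomial.C c) = 0 → c = 0 := by
    intro c hc
    rw [hevC] at hc
    exact (algebraicIndependent_iff.1 hx) c hc
  -- existence of a polynomial relation for θ
  have hex : ∃ P : Polynomial (MvPolynomial (Option D₁) ℝ), P ≠ 0 ∧ ev P = 0 := by
    have h1 := mem_cl_iff.1 hθ1
    obtain ⟨p, hp0, hp⟩ := h1
    let e := hx.aevalEquiv
    refine ⟨p.map (e.symm : _ →+* MvPolynomial (Option D₁) ℝ), ?_, ?_⟩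
    · intro h
      apply hp0
      exact (Polynomial.map_eq_zero_iff (e.symm.injective)).1 h
    · simp only [hev, evΩ, Polynomial.coe_eval₂RingHom]
      rw [Polynomial.eval₂_map]
      rw [Polynomial.aeval_def] at hp
      rw [← hp]
      congr 1
      ext a
      show MvPolynomial.aeval xs (e.symm a) = (a : Ul 𝒰)
      have := hx.algebraMap_aevalEquiv (e.symm a)
      rw [← this]
      simp [e]
  obtain ⟨P, hP0, hP', hdiv⟩ := exists_min_poly ev hC0 hex
  -- rational expressions for y
  have hrat : ∀ c, ∃ N M : Polynomial (MvPolynomial (Option D₁) ℝ), ev M ≠ 0 ∧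
      ys c * ev M = ev N := by
    intro c
    have h1 := hθ2 c
    have hset : Set.range xs ∪ {gm 𝒰 θ} = Set.range (fun c : Option (Option D₁) =>
        Option.elim c (gm 𝒰 θ) xs) := by
      ext z
      constructor
      · rintro (⟨c, rfl⟩ | hz)
        · exact ⟨some c, rfl⟩
        · exact ⟨none, hz.symm⟩
      · rintro ⟨c, rfl⟩
        rcases c with _ | c
        · right; rfl
        · left; exact ⟨c, rfl⟩
    rw [hset, IntermediateField.mem_adjoin_range_iff] at h1
    obtain ⟨r, s, hrs⟩ := h1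
    have e1 : ∀ r, MvPolynomial.aeval (fun c : Option (Option D₁) =>
        Option.elim c (gm 𝒰 θ) xs) r = ev (toPoly (Option D₁) r) :=
      fun r => (evΩ_toPoly 𝒰 x θ r).symm
    rw [e1, e1] at hrs
    by_cases hs : ev (toPoly (Option D₁) s) = 0
    · refine ⟨0, 1, by simp, ?_⟩
      rw [hrs, hs]; simp
    · exact ⟨_, _, hs, by rw [hrs, div_mul_cancel₀ _ hs]⟩
  choose N0 M0 hM0 hNM0 using hrat
  set s := ∏ c, M0 c with hs
  have hevs : ev s ≠ 0 := by
    rw [hs, map_prod]
    exact Finset.prod_ne_zero_iff.2 fun c _ => hM0 c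
  set N : Option D₂ → Polynomial (MvPolynomial (Option D₁) ℝ) := fun c =>
    N0 c * ∏ c' ∈ Finset.univ.erase c, M0 c' with hN
  have hNs : ∀ c, ev s * ys c = ev (N c) := by
    intro c
    rw [hs, ← Finset.mul_prod_erase _ _ (Finset.mem_univ c), hN]
    simp only [map_mul]
    rw [← hNM0 c]
    ring
  -- the relations
  set hh : V → V → Polynomial (MvPolynomial (Option D₁) ℝ) := fun k l =>
    s ^ 2 * phi D₁ (fun c => (Polynomial.C (MvPolynomial.X c) :
      Polynomial (MvPolynomial (Option D₁) ℝ))) k l - phi D₂ N k l with hhh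
  have hevh : ∀ k l, ev (hh k l) = 0 := by
    intro k l
    rw [hhh]
    simp only [map_sub, map_mul, map_pow, map_phi]
    have h1 : (fun c => ev (N c)) = fun c => ev s * ys c := by
      funext c
      exact (hNs c).symm
    rw [h1, phi_mul]
    have h2 : (fun c => ev (Polynomial.C (MvPolynomial.X c))) = xs := by
      funext c
      rw [hevC, MvPolynomial.aeval_X]
    rw [h2, hxs, hys, phi_gm, phi_gm]
    have h3 : (fun t => phi D₁ (x t) k l) = fun t => phi D₂ (y t) k l := by
      funext t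
      rw [hxy]
    rw [h3]
    ring
  choose ck hck0 Q hQ using fun k l => hdiv (hh k l) (hevh k l)
  -- choose a good index
  have hE1 : ∀ᶠ t in (𝒰 : Filter T), evR (x t) (θ t) P = 0 := by
    rw [← gm_eq_zero_iff, ← evΩ_eq]; exact hP0
  have hne_of : ∀ h : Polynomial (MvPolynomial (Option D₁) ℝ), ev h ≠ 0 →
      ∀ᶠ t in (𝒰 : Filter T), evR (x t) (θ t) h ≠ 0 := by
    intro h hne
    rw [hev, evΩ_eq, Ne, gm_eq_zero_iff] at hne
    exact Ultrafilter.eventually_not.2 hne
  have hE2 := hne_of _ hP'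
  have hE3 := hne_of _ hevs
  have hE4 : ∀ᶠ t in (𝒰 : Filter T), ∀ c, evR (x t) (θ t) s * y t c = evR (x t) (θ t) (N c) := by
    rw [Filter.eventually_all]
    intro c
    have h1 : gm 𝒰 (fun t => evR (x t) (θ t) s * y t c - evR (x t) (θ t) (N c)) = 0 := by
      have h2 : (fun t => evR (x t) (θ t) s * y t c - evR (x t) (θ t) (N c)) =
          (fun t => evR (x t) (θ t) s) * (fun t => y t c) - fun t => evR (x t) (θ t) (N c) := rfl
      rw [h2, map_sub, map_mul, ← evΩ_eq, ← evΩ_eq]
      exact sub_eq_zero.2 (hNs c)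
    filter_upwards [(gm_eq_zero_iff 𝒰 _).1 h1] with t ht
    exact sub_eq_zero.1 ht
  have hE5 : ∀ᶠ t in (𝒰 : Filter T), ∀ k l, MvPolynomial.eval (x t) (ck k l) ≠ 0 := by
    rw [Filter.eventually_all]
    intro k
    rw [Filter.eventually_all]
    intro l
    have h1 : ev (Polynomial.C (ck k l)) ≠ 0 := fun h => hck0 k l (hC0 _ h)
    filter_upwards [hne_of _ h1] with t ht
    simpa [evR] using ht
  obtain ⟨t, ht1, ht2, ht3, ht4, ht5⟩ := (hE1.and (hE2.and (hE3.and (hE4.and hE5)))).exists
  obtain ⟨ϑ, hϑ1, hϑ2, hϑ3⟩ := analytic_root P (x t) (θ t) ht1 ht2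
  -- functions
  have hFa : ∀ h : Polynomial (MvPolynomial (Option D₁) ℝ),
      AnalyticAt ℝ (fun z => evR z (ϑ z) h) (x t) := fun h =>
    analyticAt_evR_comp h ϑ (x t) hϑ1
  have hst : evR (x t) (ϑ (x t)) s ≠ 0 := by rw [hϑ2]; exact ht3
  refine ⟨x t, y t, fun z c => evR z (ϑ z) (N c) / evR z (ϑ z) s, ?_, ?_, ?_⟩
  · refine analyticAt_pi_iff.2 fun c => ?_
    exact (hFa (N c)).fun_div (hFa s) hst
  · funext c
    simp only
    rw [hϑ2, ← ht4 c, mul_div_cancel_left₀ _ ht3]
  · have hs' : ∀ᶠ z in 𝓝 (x t), evR z (ϑ z) s ≠ 0 :=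
      (hFa s).continuousAt.eventually_ne hst
    have hc' : ∀ᶠ z in 𝓝 (x t), ∀ k l, MvPolynomial.eval z (ck k l) ≠ 0 := by
      rw [Filter.eventually_all]
      intro k
      rw [Filter.eventually_all]
      intro l
      have h1 : Continuous fun z => MvPolynomial.eval z (ck k l) := MvPolynomial.continuous_eval _
      exact h1.continuousAt.eventually_ne (ht5 k l)
    filter_upwards [hs', hc', hϑ3] with z hz1 hz2 hz3
    funext k l
    have h1 := congrArg (evR z (ϑ z)) (hQ k l)
    rw [map_mul, map_mul, hz3, zero_mul] at h1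
    have h2 : evR z (ϑ z) (Polynomial.C (ck k l)) = MvPolynomial.eval z (ck k l) := by
      simp [evR]
    rw [h2] at h1
    have h3 := (mul_eq_zero.1 h1).resolve_left (hz2 k l)
    rw [hhh] at h3
    simp only [map_sub, map_mul, map_pow, map_phi] at h3
    have h4 : (fun c => evR z (ϑ z) (Polynomial.C (MvPolynomial.X c))) = z := by
      funext c
      simp [evR]
    rw [h4] at h3
    have h5 : (fun c => evR z (ϑ z) (N c)) = fun c => evR z (ϑ z) s *
        (evR z (ϑ z) (N c) / evR z (ϑ z) s) := by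
      funext c
      rw [mul_div_cancel₀ _ hz1]
    rw [h5, phi_mul] at h3
    have h6 : (evR z (ϑ z) s) ^ 2 ≠ 0 := pow_ne_zero 2 hz1
    have h7 : (evR z (ϑ z) s) ^ 2 * (phi D₁ z k l -
      phi D₂ (fun c => evR z (ϑ z) (N c) / evR z (ϑ z) s) k l) = 0 := by
      rw [mul_sub]; exact h3
    have h8 := (mul_eq_zero.1 h7).resolve_left h6
    linarith

end H39.Sem
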