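import Mathlib

/-!
Krull dimension of quotients of a polynomial ring.
-/

namespace H39.Sem

theorem dim_lt {σ : Type*} [Finite σ] (p J : Ideal (MvPolynomial σ ℝ)) [p.IsPrime]
    (hle : p ≤ J) (hne : J ≠ p) :
    ringKrullDim (MvPolynomial σ ℝ ⧸ J) < ringKrullDim (MvPolynomial σ ℝ ⧸ p) := by
  obtain ⟨F, hFJ, hFp⟩ : ∃ F ∈ J, F ∉ p := by
    by_contra hcon
    push Not at hcon
    exact hne (le_antisymm hcon hle)
  set A := MvPolynomial σ ℝ ⧸ p with hA
  set r : A := Ideal.Quotient.mk p F with hr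
  have hr0 : r ≠ 0 := fun h => hFp (Ideal.Quotient.eq_zero_iff_mem.1 h)
  have h1 := ringKrullDim_quotient_succ_le_of_nonZeroDivisor (mem_nonZeroDivisors_of_ne_zero hr0)
  -- the surjection
  let f : A →+* MvPolynomial σ ℝ ⧸ J := Ideal.Quotient.factor hle
  have hf : Function.Surjective f := Ideal.Quotient.factor_surjective hle
  have hspan : Ideal.span {r} ≤ RingHom.ker f := by
    rw [Ideal.span_le, Set.singleton_subset_iff]
    show f r = 0
    rw [hr]
    show Ideal.Quotient.mk J F = 0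
    exact Ideal.Quotient.eq_zero_iff_mem.2 hFJ
  let g : A ⧸ Ideal.span {r} →+* MvPolynomial σ ℝ ⧸ J := Ideal.Quotient.lift _ f
    (fun a ha => hspan ha)
  have hg : Function.Surjective g := by
    intro b
    obtain ⟨a, ha⟩ := hf b
    exact ⟨Ideal.Quotient.mk _ a, by rw [← ha]; rfl⟩
  have h2 : ringKrullDim (MvPolynomial σ ℝ ⧸ J) ≤ ringKrullDim (A ⧸ Ideal.span {r}) :=
    ringKrullDim_le_of_surjective g hg
  have h3 : ringKrullDim (MvPolynomial σ ℝ ⧸ J) + 1 ≤ ringKrullDim A :=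
    (add_le_add_left h2 1).trans h1
  have h4 : ringKrullDim A ≤ ringKrullDim (MvPolynomial σ ℝ) :=
    ringKrullDim_le_of_surjective _ Ideal.Quotient.mk_surjective
  have h5 : ringKrullDim (MvPolynomial σ ℝ) = ((Nat.card σ : ℕ) : WithBot ℕ∞) := by
    rw [MvPolynomial.ringKrullDim_of_isNoetherianRing, ringKrullDim_eq_zero_of_field]
    simp
  have h6 : (0 : WithBot ℕ∞) ≤ ringKrullDim A := ringKrullDim_nonneg_of_nontrivial
  rw [h5] at h4
  -- arithmetic
  obtain ⟨n, hn⟩ : ∃ n : ℕ, ringKrullDim A = (n : WithBot ℕ∞) := by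
    generalize ringKrullDim A = a at h4 h6
    induction a using WithBot.recBotCoe with
    | bot => simp at h6
    | coe a =>
      induction a using ENat.recTopCoe with
      | top =>
        exfalso
        have : ((⊤ : ℕ∞) : WithBot ℕ∞) ≤ ((Nat.card σ : ℕ∞) : WithBot ℕ∞) := h4
        rw [WithBot.coe_le_coe] at this
        exact absurd this (by simp)
      | coe n => exact ⟨n, rfl⟩
  rw [hn] at h3 ⊢
  generalize ringKrullDim (MvPolynomial σ ℝ ⧸ J) = b at h3
  induction b using WithBot.recBotCoe with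
  | bot => exact WithBot.bot_lt_coe _
  | coe b =>
    induction b using ENat.recTopCoe with
    | top =>
      exfalso
      have : ((⊤ : ℕ∞) + 1 : WithBot ℕ∞) ≤ ((n : ℕ∞) : WithBot ℕ∞) := h3
      have h7 : (((⊤ : ℕ∞) + 1 : ℕ∞) : WithBot ℕ∞) ≤ ((n : ℕ∞) : WithBot ℕ∞) := this
      rw [WithBot.coe_le_coe] at h7
      exact absurd h7 (by simp)
    | coe m =>
      have h7 : (((m : ℕ∞) + 1 : ℕ∞) : WithBot ℕ∞) ≤ ((n : ℕ∞) : WithBot ℕ∞) := h3
      rw [WithBot.coe_le_coe] at h7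
      have h8 : m + 1 ≤ n := by exact_mod_cast h7
      have h9 : ((m : ℕ∞) : WithBot ℕ∞) < ((n : ℕ∞) : WithBot ℕ∞) := by
        rw [WithBot.coe_lt_coe]
        exact_mod_cast (by omega : m < n)
      exact h9

end H39.Sem
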