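import Mathlib
import Pool.Agent.H39.SemEnd

/-!
Recovering the edges from a local solution near a multiple of the identity.
-/

set_option linter.unusedSectionVars false

namespace H39.Sem

open Finset Filter Topology

variable {V : Type} [Fintype V] [DecidableEq V]

section path

variable {D : Finset (V × V)} (hD : ∀ p ∈ D, (p.2, p.1) ∉ D) {i j : V} (hij : (i, j) ∈ D)
  {x : Option D → ℝ} (hx : ∀ e : D, x (some e) = 0) (t : ℝ)

include hD hij hx

lemma mat_upd (k m : V) :
    mat D (Function.update x (some ⟨(i, j), hij⟩) t) k m =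
      if k = m then x none else if k = i ∧ m = j then t else 0 := by
  have hne : i ≠ j := by
    rintro rfl
    exact hD _ hij hij
  by_cases hkm : k = m
  · simp [mat, hkm]
  · by_cases h : k = i ∧ m = j
    · obtain ⟨rfl, rfl⟩ := h
      simp [mat, hkm, hij]
    · by_cases hD' : (k, m) ∈ D
      · have h1 : (⟨(k, m), hD'⟩ : D) ≠ ⟨(i, j), hij⟩ := by
          intro h2
          apply h
          have h3 := congrArg Subtype.val h2
          simp only [Prod.mk.injEq] at h3
          exact h3
        have h2 : (some ⟨(k, m), hD'⟩ : Option D) ≠ some ⟨(i, j), hij⟩ := fun h3 =>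
          h1 (Option.some.inj h3)
        simp only [mat, hkm, hD', if_false, dif_pos, Function.update_of_ne h2, hx, h]
      · simp [mat, hkm, hD', h]

lemma phi_upd (k l : V) :
    phi D (Function.update x (some ⟨(i, j), hij⟩) t) k l =
      (if k = l then x none else if k = i ∧ l = j then t else 0) * x none +
      (if l = i then (if k = j then x none else if k = i then t else 0) * t else 0) := by
  have hne : i ≠ j := by
    rintro rfl
    exact hD _ hij hij
  simp only [phi, mat_upd hD hij hx t]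
  by_cases hl : l = i
  · subst hl
    rw [Finset.sum_eq_add (a := l) (b := j) hne]
    · simp only [if_true, hne, if_false, and_true, true_and]
    · intro m _ hm
      have h1 : ¬ (l = m) := fun h => hm.1 h.symm
      have h2 : ¬ (l = l ∧ m = j) := fun h => hm.2 h.2
      rw [if_neg h1, if_neg h2, mul_zero]
    · intro h; exact absurd (Finset.mem_univ _) h
    · intro h; exact absurd (Finset.mem_univ _) h
  · rw [Finset.sum_eq_single l]
    · simp [hl]
    · intro m _ hm
      have h1 : ¬ (l = m) := fun h => hm h.symm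
      have h2 : ¬ (l = i ∧ m = j) := fun h => hl h.1
      rw [if_neg h1, if_neg h2, mul_zero]
    · intro h; exact absurd (Finset.mem_univ _) h

end path

/-- off-diagonal expansion. -/
lemma phi_off_estimate (D : Finset (V × V)) (w : Option D → ℝ) {k l : V} (hkl : k ≠ l)
    (ρ : ℝ) (hρ : ∀ e : D, |w (some e)| ≤ ρ) (hρ0 : 0 ≤ ρ) :
    |phi D w k l - w none * (mat D w k l + mat D w l k)| ≤ Fintype.card V * ρ ^ 2 := by
  have hm : ∀ a b, a ≠ b → |mat D w a b| ≤ ρ := by
    intro a b hab
    simp only [mat, hab, if_false]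
    split_ifs with h
    · exact hρ _
    · simpa using hρ0
  have h1 : phi D w k l = w none * (mat D w k l + mat D w l k) +
      ∑ m ∈ (Finset.univ \ {k, l} : Finset V), mat D w k m * mat D w l m := by
    have h2 := Finset.sum_sdiff (f := fun m => mat D w k m * mat D w l m)
      (Finset.subset_univ ({k, l} : Finset V))
    rw [Finset.sum_pair hkl] at h2
    rw [phi, ← h2]
    have h3 : mat D w k k = w none := by simp [mat]
    have h4 : mat D w l l = w none := by simp [mat]
    rw [h3, h4]
    ring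
  rw [h1, add_sub_cancel_left]
  refine (Finset.abs_sum_le_sum_abs _ _).trans ?_
  have h5 : ∀ m ∈ (Finset.univ \ {k, l} : Finset V), |mat D w k m * mat D w l m| ≤ ρ ^ 2 := by
    intro m hm'
    simp only [Finset.mem_sdiff, Finset.mem_univ, true_and, Finset.mem_insert,
      Finset.mem_singleton, not_or] at hm'
    rw [abs_mul, sq]
    exact mul_le_mul (hm k m (Ne.symm hm'.1)) (hm l m (Ne.symm hm'.2)) (abs_nonneg _) hρ0
  refine (Finset.sum_le_card_nsmul _ _ _ h5).trans ?_
  rw [nsmul_eq_mul]
  apply mul_le_mul_of_nonneg_right _ (sq_nonneg _)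
  exact_mod_cast Finset.card_le_univ _

lemma phi_diag_eq (D : Finset (V × V)) (w : Option D → ℝ) (k : V) :
    phi D w k k = w none ^ 2 + ∑ m ∈ (Finset.univ.erase k : Finset V), (mat D w k m) ^ 2 := by
  rw [phi, ← Finset.add_sum_erase _ _ (Finset.mem_univ k)]
  congr 1
  · simp [mat, sq]
  · exact Finset.sum_congr rfl fun m _ => by ring

theorem subset_of_good (D₁ D₂ : Finset (V × V)) (hD₁ : ∀ p ∈ D₁, (p.2, p.1) ∉ D₁)
    (hD₂ : ∀ p ∈ D₂, (p.2, p.1) ∉ D₂) 
    (x : Option D₁ → ℝ) (y : Option D₂ → ℝ) (hgood : Good D₁ D₂ x y)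
    (hx0 : ∀ e : D₁, x (some e) = 0) (hxn : x none ≠ 0) (hy0 : ∀ e : D₂, y (some e) = 0) :
    D₁ ⊆ D₂ := by
  classical
  rintro ⟨i, j⟩ hij
  by_contra hcon
  have hne : i ≠ j := by
    rintro rfl
    exact hD₁ _ hij hij
  obtain ⟨g, hg1, hg2, hg3⟩ := hgood
  set b : ℝ := |x none| with hb
  have hbpos : 0 < b := abs_pos.2 hxn
  set n : ℝ := (Fintype.card V : ℝ) with hn
  have hn1 : 1 ≤ n := by
    have : 0 < Fintype.card V := Fintype.card_pos_iff.2 ⟨i⟩
    rw [hn]; exact_mod_cast this
  set M : ℝ := (D₂.card : ℝ) + 1 with hM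
  have hM1 : 1 ≤ M := by
    rw [hM]
    have : (0 : ℝ) ≤ D₂.card := Nat.cast_nonneg _
    linarith
  -- the path
  set z : ℝ → Option D₁ → ℝ := fun t => Function.update x (some ⟨(i, j), hij⟩) t with hz
  have hz0 : z 0 = x := by
    simp only [hz]
    rw [Function.update_eq_self_iff]
    exact (hx0 _).symm
  have hzc : Continuous z := by
    refine continuous_pi fun c => ?_
    by_cases h : c = some ⟨(i, j), hij⟩
    · subst h
      simp only [hz, Function.update_self]
      exact continuous_id
    · simpa [hz, h] using continuous_const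
  have hzt : Tendsto z (𝓝 0) (𝓝 x) := by
    have := hzc.tendsto 0
    rwa [hz0] at this
  -- phi x = b^2 I ; y none = ± b
  have hphixy : phi D₂ y = phi D₁ x := by
    rw [← hg2]; exact hg3.self_of_nhds
  have hyn : |y none| = b := by
    have h1 := congrFun (congrFun hphixy i) i
    rw [phi_diag_eq, phi_diag_eq] at h1
    have h2 : ∑ m ∈ (Finset.univ.erase i : Finset V), (mat D₂ y i m) ^ 2 = 0 := by
      apply Finset.sum_eq_zero
      intro m hm
      rw [mat_scalar hy0, if_neg (Ne.symm (Finset.ne_of_mem_erase hm))]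
      ring
    have h3 : ∑ m ∈ (Finset.univ.erase i : Finset V), (mat D₁ x i m) ^ 2 = 0 := by
      apply Finset.sum_eq_zero
      intro m hm
      rw [mat_scalar hx0, if_neg (Ne.symm (Finset.ne_of_mem_erase hm))]
      ring
    rw [h2, h3, add_zero, add_zero] at h1
    rw [hb]
    exact sq_eq_sq_iff_abs_eq_abs _ _ |>.1 h1
  -- eventually statements
  have hgz : Tendsto (fun t => g (z t)) (𝓝 0) (𝓝 y) := by
    have h1 : Tendsto g (𝓝 x) (𝓝 y) := by
      have := hg1.continuousAt.tendsto
      rwa [hg2] at this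
    exact h1.comp hzt
  have hE1 : ∀ᶠ t in 𝓝 (0 : ℝ), phi D₂ (g (z t)) = phi D₁ (z t) := hzt.eventually hg3
  have hE2 : ∀ᶠ t in 𝓝 (0 : ℝ), b / 2 < |g (z t) none| := by
    have h1 : Tendsto (fun t => |g (z t) none|) (𝓝 0) (𝓝 |y none|) :=
      (((continuous_apply none).tendsto y).comp hgz).abs
    rw [hyn] at h1
    exact h1.eventually_const_lt (by linarith)
  have hE3 : ∀ᶠ t in 𝓝 (0 : ℝ), ∑ e : D₂, |g (z t) (some e)| < b / (4 * M * n) := by
    have h1 : Tendsto (fun t => ∑ e : D₂, |g (z t) (some e)|) (𝓝 0)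
        (𝓝 (∑ e : D₂, |y (some e)|)) := by
      refine tendsto_finsetSum _ fun e _ => ?_
      exact (((continuous_apply (some e)).tendsto y).comp hgz).abs
    have h2 : ∑ e : D₂, |y (some e)| = 0 := by
      apply Finset.sum_eq_zero
      intro e _
      rw [hy0, abs_zero]
    rw [h2] at h1
    exact h1.eventually_lt_const (by positivity)
  set C : ℝ := n * (32 * M ^ 2 * n / b) ^ 2 with hC
  have hCpos : 0 < C := by positivity
  have hE4 : ∀ᶠ t in 𝓝 (0 : ℝ), C * t ^ 2 < 1 := by
    have h1 : Tendsto (fun t : ℝ => C * t ^ 2) (𝓝 0) (𝓝 (C * 0 ^ 2)) :=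
      (continuous_const.mul (continuous_pow 2)).tendsto 0
    have h2 : C * 0 ^ 2 = 0 := by ring
    rw [h2] at h1
    exact h1.eventually_lt_const one_pos
  have hall := hE1.and (hE2.and (hE3.and hE4))
  obtain ⟨δ, hδ, hball⟩ := Metric.eventually_nhds_iff.1 hall
  set t : ℝ := δ / 2 with ht
  have htpos : 0 < t := by positivity
  obtain ⟨h1, h2, h3, h4⟩ := hball (y := t) (by
    rw [Real.dist_eq, sub_zero, abs_of_pos htpos]; rw [ht]; linarith)
  set w := g (z t) with hw
  set ρ : ℝ := ∑ e : D₂, |w (some e)| with hρ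
  have hρ0 : 0 ≤ ρ := Finset.sum_nonneg fun e _ => abs_nonneg _
  have hρe : ∀ e : D₂, |w (some e)| ≤ ρ := fun e =>
    Finset.single_le_sum (f := fun e : D₂ => |w (some e)|) (fun e _ => abs_nonneg _)
      (Finset.mem_univ e)
  -- values of K
  have hK : ∀ k l, phi D₂ w k l = (if k = l then x none else if k = i ∧ l = j then t else 0) * x none +
      (if l = i then (if k = j then x none else if k = i then t else 0) * t else 0) := by
    intro k l
    rw [h1]
    exact phi_upd hD₁ hij hx0 t k l
  have hKoff : ∀ k l, k ≠ l → |phi D₂ w k l| ≤ b * t := by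
    intro k l hkl
    rw [hK, if_neg hkl]
    by_cases hl : l = i
    · subst hl
      have h5 : ¬ (k = l ∧ l = j) := fun h => hkl h.1
      rw [if_neg h5, zero_mul, zero_add, if_pos rfl, if_neg hkl]
      split_ifs with h6
      · rw [abs_mul, abs_of_pos htpos]
      · rw [zero_mul, abs_zero]; positivity
    · rw [if_neg hl, add_zero]
      split_ifs with h6
      · rw [abs_mul, abs_of_pos htpos, mul_comm]
      · rw [zero_mul, abs_zero]; positivity
  -- estimate of entries
  have hentry : ∀ e : D₂, |w none| * |w (some e)| ≤ |phi D₂ w (e : V × V).1 (e : V × V).2| + n * ρ ^ 2 := by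
    rintro ⟨⟨k, l⟩, hkl⟩
    have hkl' : k ≠ l := by
      rintro rfl
      exact hD₂ _ hkl hkl
    have h5 := phi_off_estimate D₂ w hkl' ρ hρe hρ0
    have h6 : mat D₂ w l k = 0 := mat_supp D₂ w l k (Ne.symm hkl') (hD₂ _ hkl)
    have h7 : mat D₂ w k l = w (some ⟨(k, l), hkl⟩) := by simp [mat, hkl', hkl]
    rw [h6, h7, add_zero] at h5
    simp only
    rw [← abs_mul]
    have h8 := abs_sub_abs_le_abs_sub (w none * w (some ⟨(k, l), hkl⟩)) (phi D₂ w k l)
    rw [abs_sub_comm] at h8
    linarith
  have hρb : ρ ≤ 4 * M * t := by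
    have h5 : |w none| * ρ ≤ D₂.card * (b * t + n * ρ ^ 2) := by
      rw [hρ, Finset.mul_sum]
      have h6 : ∀ e ∈ (Finset.univ : Finset D₂), |w none| * |w (some e)| ≤ b * t + n * ρ ^ 2 := by
        rintro e _
        have hee : (e : V × V).1 ≠ (e : V × V).2 := by
          intro h
          have := hD₂ _ e.2
          apply this
          have h7 : ((e : V × V).2, (e : V × V).1) = (e : V × V) := by
            ext <;> simp [h]
          rw [h7]; exact e.2
        linarith [hentry e, hKoff _ _ hee]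
      have := Finset.sum_le_card_nsmul _ _ _ h6
      rw [nsmul_eq_mul, Finset.card_univ, Fintype.card_coe] at this
      exact this
    have h6 : (D₂.card : ℝ) * (b * t + n * ρ ^ 2) ≤ M * (b * t + n * ρ ^ 2) := by
      apply mul_le_mul_of_nonneg_right _ (by positivity)
      rw [hM]; linarith
    have h7 : M * n * ρ * 4 ≤ b := by
      have := h3.le
      rw [le_div_iff₀ (by positivity)] at this
      linarith
    have h8 : b / 2 * ρ ≤ |w none| * ρ := mul_le_mul_of_nonneg_right h2.le hρ0
    have h9 : M * (n * ρ ^ 2) ≤ b / 4 * ρ := by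
      nlinarith
    have h10 : b * ρ ≤ b * (4 * M * t) := by nlinarith
    exact le_of_mul_le_mul_left h10 hbpos
  have hrow : ∀ m ∈ (Finset.univ.erase i : Finset V), (mat D₂ w i m) ^ 2 ≤ (32 * M ^ 2 * n / b * t ^ 2) ^ 2 := by
    intro m hm
    have him : i ≠ m := Ne.symm (Finset.ne_of_mem_erase hm)
    by_cases hD : (i, m) ∈ D₂
    · have hmj : m ≠ j := by
        rintro rfl
        exact hcon hD
      have h5 : mat D₂ w i m = w (some ⟨(i, m), hD⟩) := by simp [mat, him, hD]
      have h6 := hentry ⟨(i, m), hD⟩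
      simp only at h6
      have h7 : phi D₂ w i m = 0 := by
        rw [hK, if_neg him]
        have h8 : ¬ (i = i ∧ m = j) := fun h => hmj h.2
        rw [if_neg h8, if_neg (Ne.symm him)]
        ring
      rw [h7, abs_zero, zero_add] at h6
      rw [h5]
      have h8 : b / 2 * |w (some ⟨(i, m), hD⟩)| ≤ n * (4 * M * t) ^ 2 := by
        calc b / 2 * |w (some ⟨(i, m), hD⟩)| ≤ |w none| * |w (some ⟨(i, m), hD⟩)| :=
              mul_le_mul_of_nonneg_right h2.le (abs_nonneg _)
          _ ≤ n * ρ ^ 2 := h6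
          _ ≤ n * (4 * M * t) ^ 2 := by
              apply mul_le_mul_of_nonneg_left _ (by positivity)
              exact pow_le_pow_left₀ hρ0 hρb 2
      have h9 : |w (some ⟨(i, m), hD⟩)| ≤ 32 * M ^ 2 * n / b * t ^ 2 := by
        rw [div_mul_eq_mul_div, le_div_iff₀ hbpos]
        nlinarith
      rw [← sq_abs]
      exact pow_le_pow_left₀ (abs_nonneg _) h9 2
    · have h5 : mat D₂ w i m = 0 := mat_supp D₂ w i m him hD
      rw [h5, zero_pow two_ne_zero]
      exact sq_nonneg _
  -- compare row norms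
  have hii := phi_diag_eq D₂ w i
  have hjj := phi_diag_eq D₂ w j
  rw [hK] at hii hjj
  simp only [if_true, hne, Ne.symm hne, if_false] at hii hjj
  have hj0 : 0 ≤ ∑ m ∈ (Finset.univ.erase j : Finset V), (mat D₂ w j m) ^ 2 :=
    Finset.sum_nonneg fun m _ => sq_nonneg _
  have hsum : ∑ m ∈ (Finset.univ.erase i : Finset V), (mat D₂ w i m) ^ 2 ≤
      n * (32 * M ^ 2 * n / b * t ^ 2) ^ 2 := by
    refine (Finset.sum_le_card_nsmul _ _ _ hrow).trans ?_
    rw [nsmul_eq_mul]
    apply mul_le_mul_of_nonneg_right _ (sq_nonneg _)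
    rw [hn]
    exact_mod_cast Finset.card_le_univ _
  have hfinal : t ^ 2 ≤ C * t ^ 2 * t ^ 2 := by
    have h5 : n * (32 * M ^ 2 * n / b * t ^ 2) ^ 2 = C * t ^ 2 * t ^ 2 := by
      rw [hC]; ring
    rw [← h5]
    linarith
  have ht2 : 0 < t ^ 2 := by positivity
  nlinarith

end H39.Sem
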