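import Mathlib
import Pool.Agent.H39.SemInit
import Pool.Agent.H39.SemSub
import Pool.Agent.H39.SemKrull

/-!
Main theorem.
-/

set_option linter.unusedSectionVars false

namespace H39.Sem

open Finset Filter Topology

variable {V : Type} [Fintype V] [DecidableEq V]

theorem subset_of_nonempty (D₁ D₂ : Finset (V × V)) (hD₁ : ∀ p ∈ D₁, (p.2, p.1) ∉ D₁)
    (hD₂ : ∀ p ∈ D₂, (p.2, p.1) ∉ D₂) (hcard : D₁.card = D₂.card)
    (hn : 3 ≤ Fintype.card V) (hne : (GoodSet D₁ D₂).Nonempty) : D₁ ⊆ D₂ := by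
  classical
  have hV : Nonempty V := Fintype.card_pos_iff.1 (by omega)
  obtain ⟨β, hβ, hdense⟩ := good_dense D₁ D₂ hD₁ hD₂ hcard hn hne
  choose xs hxs1 hxs2 hxs3 hxs4 using fun n : ℕ => hdense (1 / ((n : ℝ) + 1)) (by positivity)
  choose ys hys using hxs1
  have hb : ∀ n, ‖xs n‖ ≤ 4 * β + 1 := by
    intro n
    rw [pi_norm_le_iff_of_nonneg (by positivity)]
    intro c
    rw [Real.norm_eq_abs]
    rcases c with _ | e
    · linarith [hxs3 n]
    · have h1 := hxs4 n e
      have h2 : 1 / ((n : ℝ) + 1) ≤ 1 := by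
        rw [div_le_one (by positivity)]
        linarith [(Nat.cast_nonneg n : (0 : ℝ) ≤ n)]
      linarith
  have hbd : Bornology.IsBounded (Set.range xs) := by
    rw [isBounded_iff_forall_norm_le]
    refine ⟨4 * β + 1, ?_⟩
    rintro _ ⟨n, rfl⟩
    exact hb n
  obtain ⟨x, _, φ, hφ, hx⟩ := tendsto_subseq_of_bounded hbd (fun n => Set.mem_range_self n)
  obtain ⟨y, ψ, hψ, hy⟩ := exists_subseq D₁ D₂ hD₂ x (xs ∘ φ) (ys ∘ φ)
    (fun n => (hys (φ n)).phi_eq) hx
  have hx' : Tendsto (fun n => xs (φ (ψ n))) atTop (𝓝 x) := hx.comp hψ.tendsto_atTop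
  have hy' : Tendsto (fun n => ys (φ (ψ n))) atTop (𝓝 y) := hy
  have hx0 : ∀ e : D₁, x (some e) = 0 := by
    intro e
    have h1 : Tendsto (fun n => |xs (φ (ψ n)) (some e)|) atTop (𝓝 |x (some e)|) :=
      (((continuous_apply (some e)).tendsto x).comp hx').abs
    have h2 : Tendsto (fun n : ℕ => 1 / ((φ (ψ n) : ℝ) + 1)) atTop (𝓝 0) :=
      tendsto_one_div_add_atTop_nhds_zero_nat.comp (hφ.comp hψ).tendsto_atTop
    have h3 := le_of_tendsto_of_tendsto' h1 h2 (fun n => (hxs4 _ e).le)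
    exact abs_eq_zero.1 (le_antisymm h3 (abs_nonneg _))
  have hxn : x none ≠ 0 := by
    have h1 : Tendsto (fun n => |xs (φ (ψ n)) none|) atTop (𝓝 |x none|) :=
      (((continuous_apply none).tendsto x).comp hx').abs
    have h2 : β ≤ |x none| := ge_of_tendsto' h1 (fun n => (hxs2 _).le)
    intro h0
    rw [h0, abs_zero] at h2
    linarith
  have hgood : ∀ n, Good D₁ D₂ (xs (φ (ψ n))) (ys (φ (ψ n))) := fun n => hys _
  have hy0 : ∀ e : D₂, y (some e) = 0 := fun e =>
    limit_scalar D₁ D₂ hD₁ hD₂ hcard (by omega) x y _ _ hgood hx' hy' hx0 hxn e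
  -- y none ≠ 0
  have hphi : phi D₂ y = phi D₁ x := by
    have h1 : Tendsto (fun n => phi D₂ (ys (φ (ψ n)))) atTop (𝓝 (phi D₂ y)) :=
      ((continuous_phi D₂).tendsto y).comp hy'
    have h2 : Tendsto (fun n => phi D₁ (xs (φ (ψ n)))) atTop (𝓝 (phi D₁ x)) :=
      ((continuous_phi D₁).tendsto x).comp hx'
    have h3 : (fun n => phi D₂ (ys (φ (ψ n)))) = fun n => phi D₁ (xs (φ (ψ n))) := by
      funext n
      exact (hgood n).phi_eq
    rw [h3] at h1
    exact tendsto_nhds_unique h1 h2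
  have hyn : y none ≠ 0 := by
    intro h0
    obtain ⟨k⟩ := hV
    have h1 := congrFun (congrFun hphi k) k
    simp only [phi, mat_scalar hy0, mat_scalar hx0, h0] at h1
    simp only [ite_self, mul_zero, Finset.sum_const_zero, mul_ite, ite_mul, zero_mul,
      Finset.sum_ite_eq, Finset.mem_univ, if_true] at h1
    exact hxn (mul_self_eq_zero.1 h1.symm)
  have hfin := good_closed D₁ D₂ x y _ _ hgood hx' hy' (ker_scalar hD₂ hy0 hyn)
  exact subset_of_good D₁ D₂ hD₁ hD₂ x y hfin hx0 hxn hy0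

/-- The model in the coordinates `(√s, -√s Λ)`. -/
def modelSet (D : Finset (V × V)) : Set (V → V → ℝ) :=
  {K | ∃ x : Option D → ℝ, 0 < x none ∧ IsUnit (Matrix.of (mat D x)) ∧ K = phi D x}

/-- Matrices as points of affine space. -/
def vec (S : Set (V → V → ℝ)) : Set (V × V → ℝ) := (fun K p => K p.1 p.2) '' S

/-- Pullback of polynomials. -/
noncomputable def pull (D : Finset (V × V)) : MvPolynomial (V × V) ℝ →ₐ[ℝ] MvPolynomial (Option D) ℝ :=
  MvPolynomial.aeval (fun p => phi D (fun c => MvPolynomial.X c) p.1 p.2)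

lemma eval_pull (D : Finset (V × V)) (x : Option D → ℝ) (F : MvPolynomial (V × V) ℝ) :
    MvPolynomial.eval x (pull D F) = MvPolynomial.eval (fun p => phi D x p.1 p.2) F := by
  induction F using MvPolynomial.induction_on with
  | C a => simp [pull]
  | add p q hp hq => rw [map_add, map_add, map_add, hp, hq]
  | mul_X p s hp =>
    rw [map_mul, map_mul, map_mul, hp]
    congr 1
    simp only [pull, MvPolynomial.aeval_X, MvPolynomial.eval_X, map_phi]

/-- The base point. -/
noncomputable def base (D : Finset (V × V)) : Option D → ℝ := fun c => if c = none then 1 else 0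

lemma mat_base (D : Finset (V × V)) (k l : V) : mat D (base D) k l = if k = l then 1 else 0 := by
  have := mat_scalar (D := D) (x := base D) (fun e => by simp [base]) k l
  simpa [base] using this

/-- The open set of parameters. -/
lemma param_nhds (D : Finset (V × V)) :
    {x : Option D → ℝ | 0 < x none ∧ IsUnit (Matrix.of (mat D x))} ∈ 𝓝 (base D) := by
  have h1 : ∀ᶠ x in 𝓝 (base D), 0 < x none := by
    have h2 : Tendsto (fun x : Option D → ℝ => x none) (𝓝 (base D)) (𝓝 (base D none)) :=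
      (continuous_apply none).tendsto _
    apply h2.eventually_const_lt
    simp [base]
  have h3 : ∀ᶠ x in 𝓝 (base D), (Matrix.of (mat D x)).det ≠ 0 := by
    have h4 : Continuous fun x : Option D → ℝ => (Matrix.of (mat D x)).det := by
      apply Continuous.matrix_det
      refine continuous_matrix fun k l => ?_
      have := (matc D k l).continuous
      simp only [Matrix.of_apply]
      have e : (fun x : Option D → ℝ => mat D x k l) = matc D k l := by
        funext x
        exact (matc_apply D k l x).symm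
      rw [e]; exact this
    apply h4.continuousAt.eventually_ne
    have h5 : Matrix.of (mat D (base D)) = 1 := by
      ext k l
      rw [Matrix.of_apply, mat_base, Matrix.one_apply]
    rw [h5, Matrix.det_one]
    exact one_ne_zero
  filter_upwards [h1, h3] with x hx1 hx2
  exact ⟨hx1, (Matrix.isUnit_iff_isUnit_det _).2 (isUnit_iff_ne_zero.2 hx2)⟩

/-- The vanishing ideal of the model. -/
theorem ideal_eq (D : Finset (V × V)) :
    MvPolynomial.vanishingIdeal ℝ (vec (modelSet D)) = RingHom.ker (pull D) := by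
  ext F
  rw [MvPolynomial.mem_vanishingIdeal_iff, RingHom.mem_ker]
  constructor
  · intro h
    by_contra hne
    obtain ⟨z, hz, hz2⟩ := exists_ne_zero_of_open (pull D F) hne _ isOpen_interior (base D)
      (mem_interior_iff_mem_nhds.2 (param_nhds D))
    have hz' := interior_subset hz
    rw [eval_pull] at hz2
    apply hz2
    exact h _ ⟨phi D z, ⟨z, hz'.1, hz'.2, rfl⟩, rfl⟩
  · rintro h _ ⟨_, ⟨x, _, _, rfl⟩, rfl⟩
    have h1 := eval_pull D x F
    rw [h, map_zero] at h1
    exact h1.symm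

/-- Index map for a transcendence basis. -/
def idx (D : Finset (V × V)) (v : V) : Option D → V × V := fun c => match c with
  | none => (v, v)
  | some e => e

theorem indep_on_model (D : Finset (V × V)) (hD : ∀ p ∈ D, (p.2, p.1) ∉ D) (v : V)
    (F : MvPolynomial (Option D) ℝ) (hF : pull D (MvPolynomial.rename (idx D v) F) = 0) :
    F = 0 := by
  classical
  by_contra hne
  let f : (Option D → ℝ) → (Option D → ℝ) := fun x c => phi D x (idx D v c).1 (idx D v c).2
  let L : (V → V → ℝ) →L[ℝ] (Option D → ℝ) := ContinuousLinearMap.pi fun c =>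
    (ContinuousLinearMap.proj (R := ℝ) (φ := fun _ : V => ℝ) (idx D v c).2).comp
      (ContinuousLinearMap.proj (R := ℝ) (φ := fun _ : V => V → ℝ) (idx D v c).1)
  have hf : HasStrictFDerivAt f (L.comp (dphi D (base D))) (base D) :=
    (L.hasStrictFDerivAt (x := phi D (base D))).comp (base D) (hasStrictFDerivAt_phi D (base D))
  have hinj : Function.Injective
      ((L.comp (dphi D (base D))) : (Option D → ℝ) →ₗ[ℝ] (Option D → ℝ)) := by
    rw [← LinearMap.ker_eq_bot, LinearMap.ker_eq_bot']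
    intro X hX
    have h1 : ∀ c, dphi D (base D) X (idx D v c).1 (idx D v c).2 = 0 := fun c => congrFun hX c
    have h2 : ∀ k l, dphi D (base D) X k l = mat D X k l + mat D X l k := by
      intro k l
      rw [dphi_apply]
      simp only [mat_base, mul_ite, mul_one, mul_zero, Finset.sum_ite_eq, Finset.mem_univ, if_true]
    funext c
    rcases c with _ | ⟨⟨a, b⟩, hab⟩
    · have h3 := h1 none
      rw [h2] at h3
      simp only [idx, mat, if_true] at h3
      simp only [Pi.zero_apply]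
      linarith
    · have hab' : a ≠ b := by
        rintro rfl
        exact hD _ hab hab
      have h3 := h1 (some ⟨(a, b), hab⟩)
      rw [h2] at h3
      simp only [idx] at h3
      have h4 : mat D X b a = 0 := mat_supp D X b a (Ne.symm hab') (hD _ hab)
      have h5 : mat D X a b = X (some ⟨(a, b), hab⟩) := by simp [mat, hab', hab]
      rw [h4, h5, add_zero] at h3
      exact h3
  let A : (Option D → ℝ) ≃L[ℝ] (Option D → ℝ) :=
    (LinearEquiv.ofInjectiveEndo _ hinj).toContinuousLinearEquiv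
  have hA : (A : (Option D → ℝ) →L[ℝ] (Option D → ℝ)) = L.comp (dphi D (base D)) :=
    ContinuousLinearMap.ext fun p => rfl
  rw [← hA] at hf
  have hmap := hf.map_nhds_eq_of_equiv
  have h0 : {z | MvPolynomial.eval z F = 0} ∈ 𝓝 (f (base D)) := by
    rw [← hmap]
    refine Filter.mem_map.2 (Filter.univ_mem' fun x => ?_)
    show MvPolynomial.eval (f x) F = 0
    have h1 := eval_pull D x (MvPolynomial.rename (idx D v) F)
    rw [hF, map_zero, MvPolynomial.eval_rename] at h1
    exact h1.symm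
  obtain ⟨z, hz, hz2⟩ := exists_ne_zero_of_open F hne _ isOpen_interior (f (base D))
    (mem_interior_iff_mem_nhds.2 h0)
  exact hz2 (show z ∈ {z | MvPolynomial.eval z F = 0} from interior_subset hz)

/-- An independent family indexed by a full finset. -/
lemma indep_of_card {Ω : Type} [Field Ω] [Algebra ℝ Ω] {σ τ : Type*} [Fintype σ] [Fintype τ]
    (z : σ → Ω) (w : τ → Ω) (hz : AlgebraicIndependent ℝ z) (h : ∀ s, z s ∈ cl ℝ (Set.range w))
    (hc : Fintype.card τ ≤ Fintype.card σ) : AlgebraicIndependent ℝ w := by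
  classical
  obtain ⟨J, hJ, hJi⟩ := exists_indep (k := ℝ) z w hz h
  have hJu : J = Finset.univ := by
    apply Finset.eq_univ_of_card
    apply le_antisymm (Finset.card_le_univ J)
    exact hc.trans hJ
  subst hJu
  exact hJi.comp (fun e' : τ => (⟨e', Finset.mem_univ _⟩ : (Finset.univ : Finset τ)))
    (fun a b h => congrArg Subtype.val h)

lemma card_le_of_indep {Ω : Type} [Field Ω] [Algebra ℝ Ω] {σ τ : Type*} [Fintype σ] [Fintype τ]
    (z : σ → Ω) (w : τ → Ω) (hz : AlgebraicIndependent ℝ z) (h : ∀ s, z s ∈ cl ℝ (Set.range w)) :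
    Fintype.card σ ≤ Fintype.card τ := by
  obtain ⟨J, hJ, _⟩ := exists_indep (k := ℝ) z w hz h
  exact hJ.trans (Finset.card_le_univ J)

/-- If the three vanishing ideals agree then the numbers of edges agree and there is a local
analytic solution (or there are no edges at all). -/
theorem main_pre (D₁ D₂ : Finset (V × V)) (hD₁ : ∀ p ∈ D₁, (p.2, p.1) ∉ D₁)
    (hD₂ : ∀ p ∈ D₂, (p.2, p.1) ∉ D₂) (v : V)
    (h1 : MvPolynomial.vanishingIdeal ℝ (vec (modelSet D₁ ∩ modelSet D₂)) =
      MvPolynomial.vanishingIdeal ℝ (vec (modelSet D₁)))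
    (h2 : MvPolynomial.vanishingIdeal ℝ (vec (modelSet D₁ ∩ modelSet D₂)) =
      MvPolynomial.vanishingIdeal ℝ (vec (modelSet D₂))) :
    D₁.card = D₂.card ∧ (D₂.Nonempty → (GoodSet D₁ D₂).Nonempty) := by
  classical
  have hker : RingHom.ker (pull D₁) = RingHom.ker (pull D₂) := by
    rw [← ideal_eq, ← ideal_eq, ← h1, ← h2]
  have hprime : (RingHom.ker (pull D₁)).IsPrime := RingHom.ker_isPrime _
  let T : Type := {t : (Option D₁ → ℝ) × (Option D₂ → ℝ) // phi D₂ t.2 = phi D₁ t.1}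
  let P : Type := (RingHom.ker (pull D₁)).primeCompl
  let S : P → Set T := fun F =>
    {t | MvPolynomial.eval (fun p : V × V => phi D₁ t.1.1 p.1 p.2) F.1 ≠ 0}
  obtain ⟨𝒰, h𝒰⟩ := exists_ultra S
    (by
      intro p q t ht
      have ht' : MvPolynomial.eval (fun p : V × V => phi D₁ t.1.1 p.1 p.2)
          (p.1 * q.1) ≠ 0 := ht
      rw [map_mul] at ht'
      exact ⟨left_ne_zero_of_mul ht', right_ne_zero_of_mul ht'⟩)
    (by
      rintro ⟨F, hF0⟩
      have hF : F ∉ RingHom.ker (pull D₁) := hF0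
      rw [← ideal_eq, ← h1, MvPolynomial.mem_vanishingIdeal_iff] at hF
      push Not at hF
      obtain ⟨_, ⟨K, ⟨⟨x, _, _, hx⟩, ⟨y, _, _, hy⟩⟩, rfl⟩, hne⟩ := hF
      refine ⟨⟨(x, y), ?_⟩, ?_⟩
      · rw [← hx, ← hy]
      · show MvPolynomial.eval (fun p : V × V => phi D₁ x p.1 p.2) F ≠ 0
        rw [← hx]
        exact hne)
  set xs : Option D₁ → Ul 𝒰 := fun c => gm 𝒰 (fun t : T => t.1.1 c) with hxs
  set ys : Option D₂ → Ul 𝒰 := fun c => gm 𝒰 (fun t : T => t.1.2 c) with hys
  set Kst : V × V → Ul 𝒰 := fun p => gm 𝒰 (fun t : T => phi D₁ t.1.1 p.1 p.2) with hKst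
  have hKx : ∀ p, Kst p = phi D₁ xs p.1 p.2 := by
    intro p
    rw [hxs, phi_gm 𝒰 D₁ (fun t : T => t.1.1)]
  have hKy : ∀ p, Kst p = phi D₂ ys p.1 p.2 := by
    intro p
    rw [hys, phi_gm 𝒰 D₂ (fun t : T => t.1.2), hKst]
    show gm 𝒰 _ = gm 𝒰 _
    congr 1
    funext t
    rw [t.2]
  have hK0 : ∀ F : MvPolynomial (V × V) ℝ, pull D₁ F ≠ 0 → MvPolynomial.aeval Kst F ≠ 0 := by
    intro F hF h0
    rw [hKst, aeval_gm 𝒰 (fun (t : T) (p : V × V) => phi D₁ t.1.1 p.1 p.2), gm_eq_zero_iff] at h0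
    have hF' : F ∈ (RingHom.ker (pull D₁)).primeCompl := hF
    have h3 := h𝒰 ⟨F, hF'⟩
    obtain ⟨t, ht1, ht2⟩ := (h0.and h3).exists
    exact ht2 ht1
  have hi1 : AlgebraicIndependent ℝ (fun c : Option D₁ => Kst (idx D₁ v c)) := by
    rw [algebraicIndependent_iff]
    intro F hF
    by_contra hne
    have h3 : pull D₁ (MvPolynomial.rename (idx D₁ v) F) ≠ 0 := fun h4 =>
      hne (indep_on_model D₁ hD₁ v F h4)
    apply hK0 _ h3
    rw [MvPolynomial.aeval_rename]
    exact hF
  have hi2 : AlgebraicIndependent ℝ (fun c : Option D₂ => Kst (idx D₂ v c)) := by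
    rw [algebraicIndependent_iff]
    intro F hF
    by_contra hne
    have h3 : pull D₂ (MvPolynomial.rename (idx D₂ v) F) ≠ 0 := fun h4 =>
      hne (indep_on_model D₂ hD₂ v F h4)
    have h4 : pull D₁ (MvPolynomial.rename (idx D₂ v) F) ≠ 0 := by
      intro h5
      have h6 : MvPolynomial.rename (idx D₂ v) F ∈ RingHom.ker (pull D₁) := h5
      rw [hker] at h6
      exact h3 h6
    apply hK0 _ h4
    rw [MvPolynomial.aeval_rename]
    exact hF
  have hclx : ∀ p, Kst p ∈ cl ℝ (Set.range xs) := by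
    intro p
    rw [hKx]
    apply mem_cl_of_mem_adjoin
    exact phi_mem_adjoin D₁ xs xs (fun c => Algebra.subset_adjoin ⟨c, rfl⟩) _ _
  have hcly : ∀ p, Kst p ∈ cl ℝ (Set.range ys) := by
    intro p
    rw [hKy]
    apply mem_cl_of_mem_adjoin
    exact phi_mem_adjoin D₂ ys ys (fun c => Algebra.subset_adjoin ⟨c, rfl⟩) _ _
  have hc1 : D₂.card ≤ D₁.card := by
    have := card_le_of_indep _ xs hi2 (fun c => hclx _)
    simpa using this
  have hc2 : D₁.card ≤ D₂.card := by
    have := card_le_of_indep _ ys hi1 (fun c => hcly _)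
    simpa using this
  refine ⟨le_antisymm hc2 hc1, fun hne => ?_⟩
  have hxind : AlgebraicIndependent ℝ xs := indep_of_card _ xs hi1 (fun c => hclx _) le_rfl
  have hyind : AlgebraicIndependent ℝ ys := indep_of_card _ ys hi2 (fun c => hcly _) le_rfl
  obtain ⟨e, he⟩ := hne
  have hkery : ∀ X : Option D₂ → Ul 𝒰, Skew (mat D₂ X) (mat D₂ ys) → X = 0 := by
    intro X hX
    refine ker_zero_of_indep D₂ hD₂ ⟨e, he⟩ ys ?_ X hX
    exact hyind.comp _ Subtype.val_injective
  apply goodSet_nonempty 𝒰 D₁ D₂ (fun t : T => t.1.1) (fun t : T => t.1.2) (fun t => t.2) hxind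
  intro c
  have h3 := mem_cl_phi D₂ ys hkery c
  refine cl_cl_subset (k := ℝ) ?_ h3
  rintro _ ⟨p, rfl⟩
  simp only
  rw [← hKy]
  exact hclx p

/-- The case of two vertices. -/
theorem two_vertices (D₁ D₂ : Finset (V × V)) (hD₁ : ∀ p ∈ D₁, (p.2, p.1) ∉ D₁)
    (hD₂ : ∀ p ∈ D₂, (p.2, p.1) ∉ D₂) (a b : V) (huniv : (Finset.univ : Finset V) = {a, b})
    (hab1 : (a, b) ∈ D₁) (hab2 : (b, a) ∈ D₂)
    (h1 : MvPolynomial.vanishingIdeal ℝ (vec (modelSet D₁ ∩ modelSet D₂)) =
      MvPolynomial.vanishingIdeal ℝ (vec (modelSet D₁))) : False := by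
  classical
  have hne : a ≠ b := by
    rintro rfl
    exact hD₁ _ hab1 hab1
  have hba1 : (b, a) ∉ D₁ := hD₁ _ hab1
  have hab2' : (a, b) ∉ D₂ := hD₂ _ hab2
  have e1 : ∀ x : Option D₁ → ℝ, phi D₁ x a a = x none ^ 2 + x (some ⟨(a, b), hab1⟩) ^ 2 ∧
      phi D₁ x b b = x none ^ 2 ∧ phi D₁ x a b = x none * x (some ⟨(a, b), hab1⟩) := by
    intro x
    simp only [phi, huniv, Finset.sum_pair hne]
    simp only [mat, hne, hne.symm, hab1, hba1, if_true, if_false, dif_pos, dif_neg,
      not_false_eq_true]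
    refine ⟨by ring, by ring, by ring⟩
  have e2 : ∀ y : Option D₂ → ℝ, phi D₂ y b b = y none ^ 2 + y (some ⟨(b, a), hab2⟩) ^ 2 ∧
      phi D₂ y a a = y none ^ 2 ∧ phi D₂ y a b = y none * y (some ⟨(b, a), hab2⟩) := by
    intro y
    simp only [phi, huniv, Finset.sum_pair hne]
    simp only [mat, hne, hne.symm, hab2, hab2', if_true, if_false, dif_pos, dif_neg,
      not_false_eq_true]
    refine ⟨by ring, by ring, by ring⟩
  have hmem : (MvPolynomial.X (a, a) - MvPolynomial.X (b, b) : MvPolynomial (V × V) ℝ) ∈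
      MvPolynomial.vanishingIdeal ℝ (vec (modelSet D₁ ∩ modelSet D₂)) := by
    rw [MvPolynomial.mem_vanishingIdeal_iff]
    rintro _ ⟨K, ⟨⟨x, _, _, hx⟩, ⟨y, _, _, hy⟩⟩, rfl⟩
    simp only [map_sub, MvPolynomial.aeval_X]
    obtain ⟨x1, x2, x3⟩ := e1 x
    obtain ⟨y1, y2, y3⟩ := e2 y
    rw [← hx] at x1 x2 x3
    rw [← hy] at y1 y2 y3
    set α := x none with hα
    set β := x (some ⟨(a, b), hab1⟩) with hβ
    set γ := y none with hγ
    set δ := y (some ⟨(b, a), hab2⟩) with hδ
    have h3 : K a b ^ 2 = K b b * (K a a - K b b) := by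
      rw [x1, x2, x3]; ring
    have h4 : K a b ^ 2 = K a a * (K b b - K a a) := by
      rw [y1, y2, y3]; ring
    have h5 : 0 ≤ K b b := by rw [x2]; positivity
    have h6 : 0 ≤ K a a := by rw [y2]; positivity
    have h7 : (K a a - K b b) * (K a a + K b b) = 0 := by nlinarith
    rcases mul_eq_zero.1 h7 with h8 | h8
    · exact h8
    · linarith
  rw [h1, ideal_eq, RingHom.mem_ker] at hmem
  have h3 := eval_pull D₁ (fun _ => 1) (MvPolynomial.X (a, a) - MvPolynomial.X (b, b))
  rw [hmem, map_zero] at h3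
  simp only [map_sub, MvPolynomial.eval_X] at h3
  obtain ⟨x1, x2, _⟩ := e1 (fun _ => 1)
  rw [x1, x2] at h3
  norm_num at h3

theorem main_eq (D₁ D₂ : Finset (V × V)) (hD₁ : ∀ p ∈ D₁, (p.2, p.1) ∉ D₁)
    (hD₂ : ∀ p ∈ D₂, (p.2, p.1) ∉ D₂)
    (h1 : MvPolynomial.vanishingIdeal ℝ (vec (modelSet D₁ ∩ modelSet D₂)) =
      MvPolynomial.vanishingIdeal ℝ (vec (modelSet D₁)))
    (h2 : MvPolynomial.vanishingIdeal ℝ (vec (modelSet D₁ ∩ modelSet D₂)) =
      MvPolynomial.vanishingIdeal ℝ (vec (modelSet D₂))) : D₁ = D₂ := by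
  classical
  by_cases hD : D₁ = ∅ ∧ D₂ = ∅
  · rw [hD.1, hD.2]
  have hex : ∃ p : V × V, p ∈ D₁ ∨ p ∈ D₂ := by
    by_contra hcon
    push Not at hcon
    apply hD
    exact ⟨Finset.eq_empty_of_forall_notMem fun p => (hcon p).1,
      Finset.eq_empty_of_forall_notMem fun p => (hcon p).2⟩
  obtain ⟨p0, hp0⟩ := hex
  obtain ⟨hcard, hgood⟩ := main_pre D₁ D₂ hD₁ hD₂ p0.1 h1 h2
  have hne2 : D₂.Nonempty := by
    rcases hp0 with h | h
    · rw [← Finset.card_pos, ← hcard]
      exact Finset.card_pos.2 ⟨_, h⟩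
    · exact ⟨_, h⟩
  by_cases hn : 3 ≤ Fintype.card V
  · have hsub := subset_of_nonempty D₁ D₂ hD₁ hD₂ hcard hn (hgood hne2)
    exact Finset.eq_of_subset_of_card_le hsub hcard.ge
  · -- at most two vertices
    by_contra hcon
    obtain ⟨⟨a, b⟩, hab, hab2⟩ : ∃ p ∈ D₁, p ∉ D₂ := by
      by_contra hcon2
      push Not at hcon2
      exact hcon (Finset.eq_of_subset_of_card_le hcon2 hcard.ge)
    have hne : a ≠ b := by
      rintro rfl
      exact hD₁ _ hab hab
    have huniv : (Finset.univ : Finset V) = {a, b} := by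
      symm
      apply Finset.eq_univ_of_card
      rw [Finset.card_pair hne]
      have h3 : ({a, b} : Finset V).card ≤ Fintype.card V := Finset.card_le_univ _
      rw [Finset.card_pair hne] at h3
      omega
    obtain ⟨⟨c, d⟩, hcd⟩ := hne2
    have hcd' : c ≠ d := by
      rintro rfl
      exact hD₂ _ hcd hcd
    have hc : c ∈ ({a, b} : Finset V) := by rw [← huniv]; exact Finset.mem_univ _
    have hd : d ∈ ({a, b} : Finset V) := by rw [← huniv]; exact Finset.mem_univ _
    simp only [Finset.mem_insert, Finset.mem_singleton] at hc hd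
    have hba : (b, a) ∈ D₂ := by
      rcases hc with rfl | rfl <;> rcases hd with rfl | rfl
      · exact absurd rfl hcd'
      · exact absurd hcd hab2
      · exact hcd
      · exact absurd rfl hcd'
    exact two_vertices D₁ D₂ hD₁ hD₂ a b huniv hab hba h1

theorem main (D₁ D₂ : Finset (V × V)) (hD₁ : ∀ p ∈ D₁, (p.2, p.1) ∉ D₁)
    (hD₂ : ∀ p ∈ D₂, (p.2, p.1) ∉ D₂) (hne : D₁ ≠ D₂) :
    ringKrullDim (MvPolynomial (V × V) ℝ ⧸
        MvPolynomial.vanishingIdeal ℝ (vec (modelSet D₁ ∩ modelSet D₂))) <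
      max (ringKrullDim (MvPolynomial (V × V) ℝ ⧸
          MvPolynomial.vanishingIdeal ℝ (vec (modelSet D₁))))
        (ringKrullDim (MvPolynomial (V × V) ℝ ⧸
          MvPolynomial.vanishingIdeal ℝ (vec (modelSet D₂)))) := by
  by_contra hcon
  rw [not_lt, max_le_iff] at hcon
  have hmono : ∀ S S' : Set (V → V → ℝ), S ⊆ S' →
      MvPolynomial.vanishingIdeal ℝ (vec S') ≤ MvPolynomial.vanishingIdeal ℝ (vec S) := by
    intro S S' h F hF
    rw [MvPolynomial.mem_vanishingIdeal_iff] at hF ⊢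
    rintro _ ⟨K, hK, rfl⟩
    exact hF _ ⟨K, h hK, rfl⟩
  have hprime : ∀ D : Finset (V × V),
      (MvPolynomial.vanishingIdeal ℝ (vec (modelSet D))).IsPrime := by
    intro D
    rw [ideal_eq]
    exact RingHom.ker_isPrime _
  have h1 : MvPolynomial.vanishingIdeal ℝ (vec (modelSet D₁ ∩ modelSet D₂)) =
      MvPolynomial.vanishingIdeal ℝ (vec (modelSet D₁)) := by
    by_contra h
    have := hprime D₁
    exact absurd hcon.1 (not_le.2 (dim_lt _ _ (hmono _ _ Set.inter_subset_left) h))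
  have h2 : MvPolynomial.vanishingIdeal ℝ (vec (modelSet D₁ ∩ modelSet D₂)) =
      MvPolynomial.vanishingIdeal ℝ (vec (modelSet D₂)) := by
    by_contra h
    have := hprime D₂
    exact absurd hcon.2 (not_le.2 (dim_lt _ _ (hmono _ _ Set.inter_subset_right) h))
  exact hne (main_eq D₁ D₂ hD₁ hD₂ h1 h2)

end H39.Sem
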