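import Pool.Agent.H39.BV

open MeasureTheory ProbabilityTheory Polynomial Set Filter Topology
open scoped Nat NNReal ENNReal

namespace Pool.Agent.H39

/-- Right continuous step functions with sign changes exactly on `J`. -/
structure IsStep (χ : ℝ → ℝ) (J : Set ℝ) : Prop where
  fin : ∀ a b, (J ∩ Icc a b).Finite
  const : ∀ a b, a ≤ b → J ∩ Ioc a b = ∅ → χ a = χ b
  flip : ∀ a b x, a < x → x ≤ b → J ∩ Ioc a b = {x} → χ a = - χ b

theorem Jset_finite {χ : ℝ → ℝ} (h : PM χ) {κ : ℝ} (hκ : 0 ≤ κ)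
    (hD : ∀ t ∈ Ioc 0 (Real.pi / 2), Dp χ t ≤ κ * t) (a b : ℝ) :
    (Jset χ ∩ Icc a b).Finite := by
  set L := max (|a|) (|b|) + 1 with hL
  by_contra hinf
  have hinf' : (Jset χ ∩ Icc a b).Infinite := hinf
  obtain ⟨N, hN⟩ := exists_nat_gt (2 * Real.pi ^ 2 * κ * Real.exp (1 / 2 + L ^ 2))
  obtain ⟨F, hF1, hF2⟩ := hinf'.exists_subset_card_eq N
  have := card_le_of_subset h hκ hD (L := L) F (by
    intro x hx
    have hx2 := hF1 hx
    refine ⟨hx2.1, ?_, ?_⟩
    · have h1 := hx2.2.1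
      have h2 := neg_abs_le a
      have h3 := le_max_left |a| |b|
      linarith
    · have h1 := hx2.2.2
      have h2 := le_abs_self b
      have h3 := le_max_right |a| |b|
      linarith)
  rw [hF2] at this
  linarith

/-- Representative with value the sign charged immediately to the right. -/
noncomputable def chiR (χ : ℝ → ℝ) (x : ℝ) : ℝ := by
  classical
  exact if ∃ ε > 0, volume ({y | χ y = -1} ∩ Ioo x (x + ε)) = 0 then 1 else -1

lemma chiR_val (χ : ℝ → ℝ) (x : ℝ) : chiR χ x = 1 ∨ chiR χ x = -1 := by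
  unfold chiR
  split_ifs <;> simp

lemma not_both_null {χ : ℝ → ℝ} (h : PM χ) {a b : ℝ} (hab : a < b)
    (h1 : volume ({y | χ y = 1} ∩ Ioo a b) = 0) (h2 : volume ({y | χ y = -1} ∩ Ioo a b) = 0) :
    False := by
  have h3 : Ioo a b ⊆ ({y | χ y = 1} ∩ Ioo a b) ∪ ({y | χ y = -1} ∩ Ioo a b) := by
    intro y hy
    rcases h.val y with h | h
    · exact Or.inl ⟨h, hy⟩
    · exact Or.inr ⟨h, hy⟩
  have h4 : volume (Ioo a b) = 0 := by
    apply le_antisymm _ bot_le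
    calc volume (Ioo a b) ≤ _ := measure_mono h3
      _ ≤ _ := measure_union_le _ _
      _ = 0 := by rw [h1, h2, add_zero]
  rw [Real.volume_Ioo, ENNReal.ofReal_eq_zero] at h4
  linarith

lemma chiR_eq_one {χ : ℝ → ℝ} {a b x : ℝ}
    (h1 : volume ({y | χ y = -1} ∩ Ioo a b) = 0) (hx : x ∈ Ico a b) : chiR χ x = 1 := by
  unfold chiR
  rw [if_pos]
  refine ⟨b - x, by linarith [hx.2], ?_⟩
  refine measure_mono_null ?_ h1
  intro y hy
  refine ⟨hy.1, ?_, ?_⟩
  · linarith [hx.1, hy.2.1]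
  · linarith [hy.2.2]

lemma chiR_eq_neg_one {χ : ℝ → ℝ} (h : PM χ) {a b x : ℝ}
    (h1 : volume ({y | χ y = 1} ∩ Ioo a b) = 0) (hx : x ∈ Ico a b) : chiR χ x = -1 := by
  unfold chiR
  rw [if_neg]
  rintro ⟨ε, hε, h2⟩
  have hlt : x < min b (x + ε) := lt_min hx.2 (by linarith)
  refine not_both_null h hlt ?_ ?_
  · refine measure_mono_null ?_ h1
    intro y hy
    exact ⟨hy.1, lt_of_le_of_lt hx.1 hy.2.1, lt_of_lt_of_le hy.2.2 (min_le_left _ _)⟩
  · refine measure_mono_null ?_ h2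
    intro y hy
    exact ⟨hy.1, hy.2.1, lt_of_lt_of_le hy.2.2 (min_le_right _ _)⟩

/-- On an interval free of essential boundary points the function is a.e. constant. -/
lemma null_of_disjoint {χ : ℝ → ℝ} (h : PM χ) {a b : ℝ} 
    (hJ : Jset χ ∩ Ioo a b = ∅) :
    volume ({y | χ y = 1} ∩ Ioo a b) = 0 ∨ volume ({y | χ y = -1} ∩ Ioo a b) = 0 := by
  set U : Set ℝ := {z | ∃ ε > 0, volume ({y | χ y = 1} ∩ Ioo (z - ε) (z + ε)) = 0} with hU
  set V : Set ℝ := {z | ∃ ε > 0, volume ({y | χ y = -1} ∩ Ioo (z - ε) (z + ε)) = 0} with hV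
  have hopen : ∀ s : Set ℝ, IsOpen {z : ℝ | ∃ ε > 0, volume (s ∩ Ioo (z - ε) (z + ε)) = 0} := by
    intro s
    rw [Metric.isOpen_iff]
    rintro z ⟨ε, hε, hz⟩
    refine ⟨ε / 2, by linarith, ?_⟩
    intro w hw
    rw [Metric.mem_ball, Real.dist_eq, abs_lt] at hw
    refine ⟨ε / 2, by linarith, measure_mono_null ?_ hz⟩
    intro y hy
    refine ⟨hy.1, ?_, ?_⟩
    · linarith [hy.2.1]
    · linarith [hy.2.2]
  have hUo : IsOpen U := hopen _
  have hVo : IsOpen V := hopen _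
  have hdisj : Disjoint U V := by
    rw [Set.disjoint_left]
    rintro z ⟨ε, hε, h1⟩ ⟨ε', hε', h2⟩
    have hlt : z - min ε ε' < z + min ε ε' := by
      have := lt_min hε hε'
      linarith
    refine not_both_null h hlt ?_ ?_
    · refine measure_mono_null ?_ h1
      intro y hy
      have := min_le_left ε ε'
      exact ⟨hy.1, by linarith [hy.2.1], by linarith [hy.2.2]⟩
    · refine measure_mono_null ?_ h2
      intro y hy
      have := min_le_right ε ε'
      exact ⟨hy.1, by linarith [hy.2.1], by linarith [hy.2.2]⟩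
  have hcov : Ioo a b ⊆ U ∪ V := by
    intro z hz
    by_contra hcon
    have hzJ : z ∈ Jset χ := by
      intro ε hε
      constructor
      · intro h0
        exact hcon (Or.inl ⟨ε, hε, h0⟩)
      · intro h0
        exact hcon (Or.inr ⟨ε, hε, h0⟩)
    have : z ∈ Jset χ ∩ Ioo a b := ⟨hzJ, hz⟩
    rw [hJ] at this
    exact this
  rcases isPreconnected_Ioo.subset_or_subset hUo hVo hdisj hcov with hsub | hsub
  · left
    apply measure_null_of_locally_null
    intro z hz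
    obtain ⟨ε, hε, h0⟩ := hsub hz.2
    refine ⟨{y | χ y = 1} ∩ Ioo (z - ε) (z + ε), ?_, h0⟩
    rw [mem_nhdsWithin]
    refine ⟨Ioo (z - ε) (z + ε), isOpen_Ioo, ⟨by linarith, by linarith⟩, ?_⟩
    rintro y ⟨hy1, hy2⟩
    exact ⟨hy2.1, hy1⟩
  · right
    apply measure_null_of_locally_null
    intro z hz
    obtain ⟨ε, hε, h0⟩ := hsub hz.2
    refine ⟨{y | χ y = -1} ∩ Ioo (z - ε) (z + ε), ?_, h0⟩
    rw [mem_nhdsWithin]
    refine ⟨Ioo (z - ε) (z + ε), isOpen_Ioo, ⟨by linarith, by linarith⟩, ?_⟩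
    rintro y ⟨hy1, hy2⟩
    exact ⟨hy2.1, hy1⟩

lemma exists_right_gap {J : Set ℝ} (hfin : ∀ a b, (J ∩ Icc a b).Finite) (b : ℝ) :
    ∃ ε > 0, J ∩ Ioo b (b + ε) = ∅ := by
  have h1 : ((J ∩ Icc b (b + 1)) \ {b}).Finite := (hfin b (b + 1)).subset (by
    intro x hx; exact hx.1)
  have h2 : ∀ᶠ ε in 𝓝[>] (0:ℝ), ∀ x ∈ ((J ∩ Icc b (b + 1)) \ {b}), ε < x - b := by
    rw [h1.eventually_all]
    intro x hx
    have h3 : 0 < x - b := by
      have h4 := hx.1.2.1
      have h5 : x ≠ b := hx.2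
      have h6 := lt_of_le_of_ne h4 (Ne.symm h5)
      linarith
    exact Filter.Eventually.filter_mono nhdsWithin_le_nhds (gt_mem_nhds h3)
  have h3 : ∀ᶠ ε in 𝓝[>] (0:ℝ), ε < 1 :=
    Filter.Eventually.filter_mono nhdsWithin_le_nhds (gt_mem_nhds one_pos)
  obtain ⟨ε, ⟨h4, h5⟩, h6⟩ := ((h2.and h3).and self_mem_nhdsWithin).exists
  refine ⟨ε, h6, ?_⟩
  rw [Set.eq_empty_iff_forall_notMem]
  rintro x ⟨hx1, hx2⟩
  have h7 := h4 x ⟨⟨hx1, hx2.1.le, by linarith [hx2.2]⟩, ne_of_gt hx2.1⟩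
  linarith [hx2.2]

lemma exists_left_gap {J : Set ℝ} (hfin : ∀ a b, (J ∩ Icc a b).Finite) (b : ℝ) :
    ∃ ε > 0, J ∩ Ioo (b - ε) b = ∅ := by
  have h1 : ((J ∩ Icc (b - 1) b) \ {b}).Finite := (hfin (b - 1) b).subset (by
    intro x hx; exact hx.1)
  have h2 : ∀ᶠ ε in 𝓝[>] (0:ℝ), ∀ x ∈ ((J ∩ Icc (b - 1) b) \ {b}), ε < b - x := by
    rw [h1.eventually_all]
    intro x hx
    have h3 : 0 < b - x := by
      have h4 := hx.1.2.2
      have h5 : x ≠ b := hx.2
      have h6 := lt_of_le_of_ne h4 h5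
      linarith
    exact Filter.Eventually.filter_mono nhdsWithin_le_nhds (gt_mem_nhds h3)
  have h3 : ∀ᶠ ε in 𝓝[>] (0:ℝ), ε < 1 :=
    Filter.Eventually.filter_mono nhdsWithin_le_nhds (gt_mem_nhds one_pos)
  obtain ⟨ε, ⟨h4, h5⟩, h6⟩ := ((h2.and h3).and self_mem_nhdsWithin).exists
  refine ⟨ε, h6, ?_⟩
  rw [Set.eq_empty_iff_forall_notMem]
  rintro x ⟨hx1, hx2⟩
  have h7 := h4 x ⟨⟨hx1, by linarith [hx2.1], hx2.2.le⟩, ne_of_lt hx2.2⟩
  linarith [hx2.1]

theorem isStep_chiR {χ : ℝ → ℝ} (h : PM χ) (hfin : ∀ a b, (Jset χ ∩ Icc a b).Finite) :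
    IsStep (chiR χ) (Jset χ) := by
  refine ⟨hfin, ?_, ?_⟩
  · intro a b hab hJ
    obtain ⟨ε, hε, hgap⟩ := exists_right_gap hfin b
    have hJ2 : Jset χ ∩ Ioo a (b + ε) = ∅ := by
      rw [Set.eq_empty_iff_forall_notMem] at *
      rintro x ⟨hx1, hx2⟩
      rcases le_or_gt x b with hxb | hxb
      · exact hJ x ⟨hx1, hx2.1, hxb⟩
      · exact hgap x ⟨hx1, hxb, hx2.2⟩
    rcases null_of_disjoint h hJ2 with h0 | h0
    · rw [chiR_eq_neg_one h h0 ⟨le_rfl, by linarith⟩, chiR_eq_neg_one h h0 ⟨hab, by linarith⟩]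
    · rw [chiR_eq_one h0 ⟨le_rfl, by linarith⟩, chiR_eq_one h0 ⟨hab, by linarith⟩]
  · intro a b x hax hxb hJ
    obtain ⟨ε, hε, hgap⟩ := exists_right_gap hfin b
    have hxJ : x ∈ Jset χ := by
      have : x ∈ Jset χ ∩ Ioc a b := by rw [hJ]; rfl
      exact this.1
    have hJ1 : Jset χ ∩ Ioo a x = ∅ := by
      rw [Set.eq_empty_iff_forall_notMem]
      rintro y ⟨hy1, hy2⟩
      have : y ∈ Jset χ ∩ Ioc a b := ⟨hy1, hy2.1, by linarith [hy2.2]⟩
      rw [hJ] at this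
      have : y = x := this
      linarith [hy2.2]
    have hJ2 : Jset χ ∩ Ioo x (b + ε) = ∅ := by
      rw [Set.eq_empty_iff_forall_notMem]
      rintro y ⟨hy1, hy2⟩
      rcases le_or_gt y b with hyb | hyb
      · have : y ∈ Jset χ ∩ Ioc a b := ⟨hy1, by linarith [hy2.1], hyb⟩
        rw [hJ] at this
        have : y = x := this
        linarith [hy2.1]
      · rw [Set.eq_empty_iff_forall_notMem] at hgap
        exact hgap y ⟨hy1, hyb, hy2.2⟩
    have hboth : ∀ s : Set ℝ, volume (s ∩ Ioo a x) = 0 → volume (s ∩ Ioo x (b + ε)) = 0 →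
        ∃ η > 0, volume (s ∩ Ioo (x - η) (x + η)) = 0 := by
      intro s h1 h2
      refine ⟨min (x - a) (b + ε - x), lt_min (by linarith) (by linarith), ?_⟩
      have hsub : s ∩ Ioo (x - min (x - a) (b + ε - x)) (x + min (x - a) (b + ε - x)) ⊆
          (s ∩ Ioo a x) ∪ (s ∩ Ioo x (b + ε)) ∪ {x} := by
        rintro y ⟨hy1, hy2⟩
        have h3 := min_le_left (x - a) (b + ε - x)
        have h4 := min_le_right (x - a) (b + ε - x)
        rcases lt_trichotomy y x with h5 | h5 | h5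
        · exact Or.inl (Or.inl ⟨hy1, by linarith [hy2.1], h5⟩)
        · exact Or.inr h5
        · exact Or.inl (Or.inr ⟨hy1, h5, by linarith [hy2.2]⟩)
      refine measure_mono_null hsub ?_
      rw [measure_union_null_iff, measure_union_null_iff]
      exact ⟨⟨h1, h2⟩, by simp⟩
    rcases null_of_disjoint h hJ1 with h1 | h1 <;> rcases null_of_disjoint h hJ2 with h2 | h2
    · obtain ⟨η, hη, h3⟩ := hboth _ h1 h2
      exact absurd h3 (hxJ η hη).1
    · rw [chiR_eq_neg_one h h1 ⟨le_rfl, hax⟩, chiR_eq_one h2 ⟨hxb, by linarith⟩]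
    · rw [chiR_eq_one h1 ⟨le_rfl, hax⟩, chiR_eq_neg_one h h2 ⟨hxb, by linarith⟩]
      norm_num
    · obtain ⟨η, hη, h3⟩ := hboth _ h1 h2
      exact absurd h3 (hxJ η hη).2

lemma countable_of_fin {J : Set ℝ} (hfin : ∀ a b, (J ∩ Icc a b).Finite) : J.Countable := by
  have : J = ⋃ n : ℕ, J ∩ Icc (-(n:ℝ)) n := by
    ext x
    simp only [mem_iUnion, mem_inter_iff, mem_Icc]
    constructor
    · intro hx
      obtain ⟨n, hn⟩ := exists_nat_ge |x|
      exact ⟨n, hx, by linarith [neg_abs_le x], by linarith [le_abs_self x]⟩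
    · rintro ⟨n, hx, _⟩
      exact hx
  rw [this]
  exact countable_iUnion fun n => (hfin _ _).countable

lemma IsStep.locally_const {χ : ℝ → ℝ} {J : Set ℝ} (hs : IsStep χ J) {x : ℝ} (hx : x ∉ J) :
    ∃ ε > 0, (∀ y ∈ Ioo (x - ε) (x + ε), χ y = χ x) ∧ J ∩ Ioo (x - ε) (x + ε) = ∅ := by
  obtain ⟨ε1, hε1, h1⟩ := exists_right_gap hs.fin x
  obtain ⟨ε2, hε2, h2⟩ := exists_left_gap hs.fin x
  have hJ : J ∩ Ioo (x - min ε1 ε2) (x + min ε1 ε2) = ∅ := by
    rw [Set.eq_empty_iff_forall_notMem] at *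
    rintro y ⟨hy1, hy2⟩
    have h3 := min_le_left ε1 ε2
    have h4 := min_le_right ε1 ε2
    rcases lt_trichotomy y x with h5 | h5 | h5
    · exact h2 y ⟨hy1, by linarith [hy2.1], h5⟩
    · exact hx (h5 ▸ hy1)
    · exact h1 y ⟨hy1, h5, by linarith [hy2.2]⟩
  refine ⟨min ε1 ε2, lt_min hε1 hε2, ?_, hJ⟩
  intro y hy
  rcases le_total y x with h5 | h5
  · apply hs.const y x h5
    rw [Set.eq_empty_iff_forall_notMem] at *
    rintro z ⟨hz1, hz2⟩
    exact hJ z ⟨hz1, by linarith [hz2.1, hy.1], by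
      have := lt_min hε1 hε2
      linarith [hz2.2]⟩
  · symm
    apply hs.const x y h5
    rw [Set.eq_empty_iff_forall_notMem] at *
    rintro z ⟨hz1, hz2⟩
    exact hJ z ⟨hz1, by
      have := lt_min hε1 hε2
      linarith [hz2.1], by linarith [hz2.2, hy.2]⟩

lemma IsStep.isClosed {χ : ℝ → ℝ} {J : Set ℝ} (hs : IsStep χ J) : IsClosed J := by
  rw [← isOpen_compl_iff, Metric.isOpen_iff]
  intro x hx
  obtain ⟨ε, hε, _, h⟩ := hs.locally_const hx
  refine ⟨ε, hε, ?_⟩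
  intro y hy hyJ
  rw [Metric.mem_ball, Real.dist_eq, abs_lt] at hy
  rw [Set.eq_empty_iff_forall_notMem] at h
  exact h y ⟨hyJ, by linarith, by linarith⟩

lemma IsStep.measurable {χ : ℝ → ℝ} {J : Set ℝ} (hs : IsStep χ J)
    (hv : ∀ x, χ x = 1 ∨ χ x = -1) : Measurable χ := by
  have hA : MeasurableSet {x | χ x = 1} := by
    have h1 : IsOpen ({x | χ x = 1} \ J) := by
      rw [Metric.isOpen_iff]
      rintro x ⟨hx1, hx2⟩
      obtain ⟨ε, hε, h3, h4⟩ := hs.locally_const hx2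
      refine ⟨ε, hε, ?_⟩
      intro y hy
      rw [Metric.mem_ball, Real.dist_eq, abs_lt] at hy
      have hy' : y ∈ Ioo (x - ε) (x + ε) := ⟨by linarith, by linarith⟩
      refine ⟨(h3 y hy').trans hx1, fun hyJ => ?_⟩
      rw [Set.eq_empty_iff_forall_notMem] at h4
      exact h4 y ⟨hyJ, hy'⟩
    have h2 : ({x | χ x = 1} ∩ J).Countable :=
      (countable_of_fin hs.fin).mono inter_subset_right
    have h3 : {x | χ x = 1} = ({x | χ x = 1} \ J) ∪ ({x | χ x = 1} ∩ J) := by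
      rw [Set.sdiff_union_inter]
    rw [h3]
    exact h1.measurableSet.union h2.measurableSet
  have he : χ = fun x => by
      classical
      exact if x ∈ {x | χ x = 1} then (1:ℝ) else -1 := by
    ext x
    by_cases hx : χ x = 1
    · simp [hx]
    · have := (hv x).resolve_left hx
      simp [this]
  rw [he]
  exact Measurable.ite hA measurable_const measurable_const

lemma PM_chiR {χ : ℝ → ℝ} (h : PM χ) (hfin : ∀ a b, (Jset χ ∩ Icc a b).Finite) :
    PM (chiR χ) :=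
  ⟨(isStep_chiR h hfin).measurable (chiR_val χ), chiR_val χ⟩

lemma chiR_ae_eq {χ : ℝ → ℝ} (h : PM χ) (hfin : ∀ a b, (Jset χ ∩ Icc a b).Finite) :
    chiR χ =ᵐ[volume] χ := by
  have hs := isStep_chiR h hfin
  have h1 : volume ({x | chiR χ x ≠ χ x} \ Jset χ) = 0 := by
    apply measure_null_of_locally_null
    rintro x ⟨_, hx⟩
    obtain ⟨ε, hε, h3, h4⟩ := hs.locally_const hx
    refine ⟨{y | chiR χ y ≠ χ y} ∩ Ioo (x - ε) (x + ε), ?_, ?_⟩
    · rw [mem_nhdsWithin]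
      refine ⟨Ioo (x - ε) (x + ε), isOpen_Ioo, ⟨by linarith, by linarith⟩, ?_⟩
      rintro y ⟨hy1, hy2⟩
      exact ⟨hy2.1, hy1⟩
    · rcases null_of_disjoint h h4 with h0 | h0
      · refine measure_mono_null ?_ h0
        rintro y ⟨hy1, hy2⟩
        have h5 := chiR_eq_neg_one h h0 (Ioo_subset_Ico_self hy2)
        refine ⟨?_, hy2⟩
        rcases h.val y with h6 | h6
        · exact h6
        · exact absurd (h5.trans h6.symm) hy1
      · refine measure_mono_null ?_ h0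
        rintro y ⟨hy1, hy2⟩
        have h5 := chiR_eq_one h0 (Ioo_subset_Ico_self hy2)
        refine ⟨?_, hy2⟩
        rcases h.val y with h6 | h6
        · exact absurd (h5.trans h6.symm) hy1
        · exact h6
  have h2 : volume (Jset χ) = 0 := (countable_of_fin hfin).measure_zero _
  have h3 : volume {x | chiR χ x ≠ χ x} = 0 := by
    refine measure_mono_null (t := ({x | chiR χ x ≠ χ x} \ Jset χ) ∪ Jset χ) ?_ ?_
    · intro x hx
      by_cases hxJ : x ∈ Jset χ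
      · exact Or.inr hxJ
      · exact Or.inl ⟨hx, hxJ⟩
    · rw [measure_union_null_iff]
      exact ⟨h1, h2⟩
  exact h3

end Pool.Agent.H39
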