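import Pool.Agent.H39.Count

open MeasureTheory ProbabilityTheory Polynomial Set Filter Topology
open scoped Nat NNReal ENNReal

namespace Pool.Agent.H39

theorem window_sum {χ : ℝ → ℝ} {J : Set ℝ} (h : PM χ) (hs : IsStep χ J) {κ a : ℝ} (hκ : 0 ≤ κ)
    (hD1 : ∀ t ∈ Icc 0 (Real.pi / 2), κ * (t - a ^ 2 * t ^ 3 / 12) ≤ Dp χ t)
    (hD2 : ∀ t ∈ Icc 0 (Real.pi / 2), Dp χ t ≤ κ * t) :
    ∃ C : ℝ, 0 ≤ C ∧ ∀ (K : ℤ) (F : Finset ℝ),
      (∀ x ∈ F, x ∈ J ∧ x ∈ Ioc (K:ℝ) (K + 1)) →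
      ∑ x ∈ F, Real.exp (-x ^ 2 / 5) ≤ C * Real.exp (-|(K:ℝ)|) := by
  have hpi := Real.pi_pos
  set C0 : ℝ := κ * a ^ 2 * (64 / 12) * √(2 * Real.pi) / gaussianPDFReal 0 1 2 with hC0
  have hφ2 : 0 < gaussianPDFReal 0 1 2 := gaussianPDFReal_pos 0 1 2 one_ne_zero
  have hC00 : 0 ≤ C0 := by positivity
  refine ⟨(16 + C0) * Real.exp 57, by positivity, ?_⟩
  intro K F hF
  set k : ℝ := |(K:ℝ)| with hk
  have hk0 : 0 ≤ k := abs_nonneg _
  set R : ℝ := k + 1 with hR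
  have hR1 : 1 ≤ R := by linarith
  set M : ℕ := ⌈15 * R * Real.exp (R ^ 2 / 6)⌉₊ with hM
  have hexp1 : 1 ≤ Real.exp (R ^ 2 / 6) := Real.one_le_exp (by positivity)
  have hMlow : 15 * R * Real.exp (R ^ 2 / 6) ≤ M := Nat.le_ceil _
  have hMup : (M:ℝ) ≤ 16 * R * Real.exp (R ^ 2 / 6) := by
    have h1 := (Nat.ceil_lt_add_one (a := 15 * R * Real.exp (R ^ 2 / 6)) (by positivity)).le
    have h2 : 1 ≤ R * Real.exp (R ^ 2 / 6) := by nlinarith
    rw [← hM] at h1
    linarith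
  have hM15 : 15 * R ≤ M := by
    have : 15 * R ≤ 15 * R * Real.exp (R ^ 2 / 6) := by nlinarith
    linarith
  have hMpos : (0:ℝ) < M := by linarith
  have hwc := window_count h hs hD1 hD2 (α := (K:ℝ)) (R := R) (by rw [hR]) hM15 F hF
  have hφR : gaussianPDFReal 0 1 R = (√(2 * Real.pi))⁻¹ * Real.exp (-R ^ 2 / 2) := gpdf_eq R
  have hφR0 : 0 < gaussianPDFReal 0 1 R := gaussianPDFReal_pos 0 1 R one_ne_zero
  have hcard : (F.card : ℝ) ≤ M + C0 * Real.exp (R ^ 2 / 2) / M ^ 2 := by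
    have e1 : (F.card : ℝ) = (F.card : ℝ) * (gaussianPDFReal 0 1 R * gaussianPDFReal 0 1 2 / M) *
        (M / (gaussianPDFReal 0 1 R * gaussianPDFReal 0 1 2)) := by
      field_simp
    rw [e1]
    calc _ ≤ (gaussianPDFReal 0 1 R * gaussianPDFReal 0 1 2 + κ * a ^ 2 * (4 / M) ^ 3 / 12) *
        (M / (gaussianPDFReal 0 1 R * gaussianPDFReal 0 1 2)) := by gcongr
      _ = M + (κ * a ^ 2 * (64 / 12) / gaussianPDFReal 0 1 2) * (gaussianPDFReal 0 1 R)⁻¹
          / M ^ 2 := by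
          field_simp
          ring
      _ = M + C0 * Real.exp (R ^ 2 / 2) / M ^ 2 := by
          have e2 : (gaussianPDFReal 0 1 R)⁻¹ = √(2 * Real.pi) * Real.exp (R ^ 2 / 2) := by
            rw [hφR, mul_inv, inv_inv, ← Real.exp_neg]
            congr 2
            ring
          rw [e2, hC0]
          ring
  have hMsq : Real.exp (R ^ 2 / 3) ≤ (M:ℝ) ^ 2 := by
    have h1 : Real.exp (R ^ 2 / 6) ≤ M := by
      have : Real.exp (R ^ 2 / 6) ≤ 15 * R * Real.exp (R ^ 2 / 6) := by nlinarith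
      linarith
    calc Real.exp (R ^ 2 / 3) = Real.exp (R ^ 2 / 6) ^ 2 := by
          rw [← Real.exp_nat_mul]
          congr 1
          push_cast
          ring
      _ ≤ _ := by gcongr
  have hcard2 : (F.card : ℝ) ≤ (16 + C0) * R * Real.exp (R ^ 2 / 6) := by
    have h1 : C0 * Real.exp (R ^ 2 / 2) / M ^ 2 ≤ C0 * Real.exp (R ^ 2 / 6) := by
      rw [div_le_iff₀ (by positivity)]
      calc C0 * Real.exp (R ^ 2 / 2) = C0 * Real.exp (R ^ 2 / 6) * Real.exp (R ^ 2 / 3) := by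
            rw [mul_assoc, ← Real.exp_add]
            congr 2
            ring
        _ ≤ _ := by gcongr
    have h2 : C0 * Real.exp (R ^ 2 / 6) ≤ C0 * R * Real.exp (R ^ 2 / 6) := by
      have : 0 ≤ C0 * Real.exp (R ^ 2 / 6) := by positivity
      nlinarith
    calc (F.card : ℝ) ≤ _ := hcard
      _ ≤ 16 * R * Real.exp (R ^ 2 / 6) + C0 * R * Real.exp (R ^ 2 / 6) := by linarith
      _ = _ := by ring
  have hx : ∀ x ∈ F, Real.exp (-x ^ 2 / 5) ≤ Real.exp (-(k ^ 2 - 2 * k) / 5) := by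
    intro x hx
    obtain ⟨_, h1, h2⟩ := hF x hx
    apply Real.exp_le_exp.2
    have h3 : k ^ 2 - 2 * k ≤ x ^ 2 := by
      rcases le_or_gt 0 K with hK | hK
      · have hK' : (0:ℝ) ≤ K := by exact_mod_cast hK
        rw [abs_of_nonneg hK'] at hk
        nlinarith
      · have hK' : (K:ℝ) ≤ -1 := by
          have : K ≤ -1 := by omega
          exact_mod_cast this
        rw [abs_of_nonpos (by linarith)] at hk
        nlinarith
    linarith
  calc ∑ x ∈ F, Real.exp (-x ^ 2 / 5) ≤ ∑ x ∈ F, Real.exp (-(k ^ 2 - 2 * k) / 5) :=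
        Finset.sum_le_sum hx
    _ = (F.card : ℝ) * Real.exp (-(k ^ 2 - 2 * k) / 5) := by rw [Finset.sum_const, nsmul_eq_mul]
    _ ≤ (16 + C0) * R * Real.exp (R ^ 2 / 6) * Real.exp (-(k ^ 2 - 2 * k) / 5) := by gcongr
    _ ≤ (16 + C0) * Real.exp k * Real.exp (R ^ 2 / 6) * Real.exp (-(k ^ 2 - 2 * k) / 5) := by
        have : R ≤ Real.exp k := Real.add_one_le_exp k
        gcongr
    _ = (16 + C0) * Real.exp (k + R ^ 2 / 6 + -(k ^ 2 - 2 * k) / 5) := by
        rw [Real.exp_add, Real.exp_add]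
        ring
    _ ≤ (16 + C0) * Real.exp (57 + -k) := by
        apply mul_le_mul_of_nonneg_left _ (by positivity)
        apply Real.exp_le_exp.2
        rw [hR]
        nlinarith [sq_nonneg (k - 41)]
    _ = _ := by rw [Real.exp_add]; ring

theorem summable_J {χ : ℝ → ℝ} {J : Set ℝ} (h : PM χ) (hs : IsStep χ J) {κ a : ℝ} (hκ : 0 ≤ κ)
    (hD1 : ∀ t ∈ Icc 0 (Real.pi / 2), κ * (t - a ^ 2 * t ^ 3 / 12) ≤ Dp χ t)
    (hD2 : ∀ t ∈ Icc 0 (Real.pi / 2), Dp χ t ≤ κ * t) :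
    Summable (fun x : J => Real.exp (-(x:ℝ) ^ 2 / 5)) := by
  classical
  obtain ⟨C, hC, hw⟩ := window_sum h hs hκ hD1 hD2
  have hsum : Summable (fun K : ℤ => C * Real.exp (-|(K:ℝ)|)) := by
    apply Summable.mul_left
    have hn : Summable (fun n : ℕ => Real.exp (-(n:ℝ))) := Real.summable_exp_neg_nat
    apply Summable.of_nat_of_neg
    · simpa using hn
    · simpa using hn
  apply summable_of_sum_le (c := ∑' K : ℤ, C * Real.exp (-|(K:ℝ)|))
  · intro x
    exact (Real.exp_pos _).le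
  · intro u
    set F : Finset ℝ := u.map (Function.Embedding.subtype _) with hF
    have e1 : ∑ x ∈ u, Real.exp (-(x:ℝ) ^ 2 / 5) = ∑ x ∈ F, Real.exp (-x ^ 2 / 5) := by
      rw [hF, Finset.sum_map]
      rfl
    rw [e1, ← Finset.sum_fiberwise_of_maps_to (s := F) (t := F.image (fun x => ⌈x⌉ - 1))
      (g := fun x => ⌈x⌉ - 1) (fun x hx => Finset.mem_image_of_mem _ hx)]
    calc _ ≤ ∑ K ∈ F.image (fun x => ⌈x⌉ - 1), C * Real.exp (-|(K:ℝ)|) := by
          apply Finset.sum_le_sum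
          intro K _
          apply hw K
          intro x hx
          rw [Finset.mem_filter] at hx
          obtain ⟨hx1, hx2⟩ := hx
          rw [hF, Finset.mem_map] at hx1
          obtain ⟨y, _, hy2⟩ := hx1
          refine ⟨?_, ?_⟩
          · rw [← hy2]
            exact y.2
          · rw [← hx2]
            push_cast
            exact ⟨by linarith [Int.ceil_lt_add_one x], by linarith [Int.le_ceil x]⟩
      _ ≤ _ := hsum.sum_le_tsum _ (fun K _ => by positivity)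

end Pool.Agent.H39
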